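import Pool.Agent.Lib.MP_696deb_nt.CV.D0

/-! Algebra of the twisted actions. -/

set_option autoImplicit false
set_option linter.unusedSectionVars false

open scoped Classical

namespace Pool.Agent.Lib.MP_696deb_nt.CU.CV

variable [δ : Qd]

variable {n n' m e l q : ℕ} {D : Subgroup Gam} {g h : Gam} {P Q : A} {c c' : Gam → A}
  {u u' k : Gam → F3}

theorem dr_cases (r : Qbar) (g : Gam) : dr r g = 1 ∨ dr r g = -1 := by
  unfold dr
  split_ifs <;> simp

theorem dr_eq_one {r : Qbar} : dr r g = 1 ↔ g r = r := by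
  unfold dr
  split_ifs with h
  · simp [h]
  · exact iff_of_false (by decide) h

theorem sq_cases {r : Qbar} {d : ℤ} (h : r ^ 2 = d) (g : Gam) : g r = r ∨ g r = -r :=
  sq_eq_sq_iff_eq_or_eq_neg.1 (by rw [← map_pow, h, map_intCast])

theorem MM_ne : MM ≠ 0 := δ.M0

theorem three_dvd : 3 ∣ MM := δ.big 3 three_ne_zero (by omega)

theorem two_dvd : 2 ∣ MM := δ.big 2 two_ne_zero (by omega)

theorem ne_three (h : ¬ q ∣ MM) : q ≠ 3 := fun e => h (e ▸ three_dvd)

theorem ne_two (h : ¬ q ∣ MM) : q ≠ 2 := fun e => h (e ▸ two_dvd)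

theorem r0_ne : δ.r0 ≠ 0 := fun e => by
  obtain ⟨q, -, -, g, -, h⟩ := δ.nt0
  exact h (by rw [e, map_zero])

theorem D0_ne : δ.D0 ≠ 0 := fun e => r0_ne (by
  have := δ.h0
  rwa [e, Int.cast_zero, pow_eq_zero_iff two_ne_zero] at this)

theorem D0_dvd : δ.D0.natAbs ∣ MM := δ.big _ (Int.natAbs_ne_zero.2 D0_ne) (by omega)

theorem sg_r0 (g : Gam) : g δ.r0 = sg g * δ.r0 := by
  unfold sg
  split_ifs with h
  · simp [h]
  · simp [(sq_cases δ.h0 g).resolve_left h]

theorem sg_cases (g : Gam) : sg g = 1 ∨ sg g = -1 := by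
  unfold sg
  split_ifs <;> simp

theorem sg_mul (g h : Gam) : sg (g * h) = sg g * sg h := by
  have e : (sg (g * h) : Qbar) * δ.r0 = (sg g * sg h : ℤ) * δ.r0 := by
    rw [← sg_r0, AlgEquiv.mul_apply, sg_r0 h, map_mul, map_intCast, sg_r0 g]
    push_cast
    ring
  exact_mod_cast mul_right_cancel₀ r0_ne e

theorem sg_one : sg 1 = 1 := if_pos rfl

theorem sg_sq (g : Gam) : sg g * sg g = 1 := by
  rcases sg_cases g with e | e <;> rw [e] <;> rfl

theorem sg_cast (g : Gam) : (sg g : F3) = de g := by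
  unfold sg de dr
  split_ifs <;> simp

theorem de_mul (g h : Gam) : de (g * h) = de g * de h := by
  rw [← sg_cast, sg_mul, Int.cast_mul, sg_cast, sg_cast]

theorem de_one : de 1 = 1 := if_pos rfl

theorem de_cases (g : Gam) : de g = 1 ∨ de g = -1 := dr_cases _ g

theorem de_sq (g : Gam) : de g * de g = 1 := by
  rcases de_cases g with e | e <;> rw [e] <;> decide

theorem de_eq_one : de g = 1 ↔ g δ.r0 = δ.r0 := dr_eq_one

theorem sm_de (D : Subgroup Gam) : Sm D de :=
  (B2.sm_apply (H := D) δ.r0).comp fun y => if y = δ.r0 then (1 : F3) else -1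

theorem sm_sg (D : Subgroup Gam) : Sm D sg :=
  (B2.sm_apply (H := D) δ.r0).comp fun y => if y = δ.r0 then (1 : ℤ) else -1

theorem mu_mul (e : ℕ) (g h : Gam) : mu e (g * h) = mu e g * mu e h := by
  rw [mu, mu, mu, de_mul, chi_mul, mul_pow]
  ring

theorem mu_one (e : ℕ) : mu e 1 = 1 := by rw [mu, de_one, chi_one, one_pow, mul_one]

theorem mu_zero (g : Gam) : mu 0 g = de g := by rw [mu, pow_zero, mul_one]

theorem mu_succ (e : ℕ) (g : Gam) : mu (e + 1) g = mu e g * chi g := by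
  rw [mu, mu, pow_succ, mul_assoc]

theorem mu_cases (e : ℕ) (g : Gam) : mu e g = 1 ∨ mu e g = -1 := by
  induction e with
  | zero => rw [mu_zero]; exact de_cases g
  | succ e ih =>
    rw [mu_succ]
    rcases ih with h | h <;> rcases chi_cases g with k | k <;> simp [h, k]

theorem mu_sq (e : ℕ) (g : Gam) : mu e g * mu e g = 1 := by
  rcases mu_cases e g with h | h <;> rw [h] <;> decide

theorem mu_mul_succ (e : ℕ) (g : Gam) : mu e g * mu (e + 1) g = chi g := by
  rw [mu_succ, ← mul_assoc, mu_sq, one_mul]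

theorem mu_add_two (e : ℕ) : mu (e + 2) = mu e := funext fun g => by
  rw [mu_succ, mu_succ, mul_assoc, chi_sq, mul_one]

theorem mu_mod (e : ℕ) : mu (e % 2) = mu e := funext fun g => by rw [mu, mu, chi_pow_mod]

theorem mu_eq {a b : ℕ} (h : Even (a + b)) : mu a = mu b := by
  rw [← mu_mod a, ← mu_mod b, show a % 2 = b % 2 by obtain ⟨c, hc⟩ := h; omega]

theorem sm_mu (e : ℕ) (D : Subgroup Gam) : Sm D (mu e) :=
  (sm_de D).comp₂ (sm_chi D) fun a b => a * b ^ e

theorem mu_sw (e : ℕ) : mu (δ := δ.sw) e = mu (e + 1) := funext fun g => by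
  change dr δ.r1 g * chi g ^ e = dr δ.r0 g * chi g ^ (e + 1)
  rw [δ.rel]
  ring

theorem sg_sw (g : Gam) : sg (δ := δ.sw) g = sg g * ep g := by
  have h : ((sg (δ := δ.sw) g : ℤ) : F3) = (sg g * ep g : ℤ) := by
    rw [sg_cast (δ := δ.sw), Int.cast_mul, sg_cast, ep_cast]
    exact δ.rel g
  have k : ep g = 1 ∨ ep g = -1 := by
    unfold ep
    split_ifs <;> simp
  rcases sg_cases (δ := δ.sw) g with a | a <;> rcases sg_cases g with b | b <;>
    rcases k with c | c <;> rw [a, b, c] at h ⊢ <;> first | rfl | exact absurd h (by decide)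

theorem kc_sw : Kc (δ := δ.sw) e D u ↔ Kc (e + 1) D u := by
  unfold Kc
  rw [mu_sw]

theorem kap_sw (e p : ℕ) : kap (δ := δ.sw) e p = kap (e + 1) p := by
  unfold kap
  rw [mu_sw]
  rfl

theorem kap_mod (e p : ℕ) : kap (e % 2) p = kap e p := by rw [kap, mu_mod, kap]

theorem kap_add_two (e p : ℕ) : kap (e + 2) p = kap e p := by rw [kap, mu_add_two, kap]

theorem exists_nt (e : ℕ) : ∃ g ∈ GM, mu e g = -1 := by
  rw [← mu_mod]
  rcases Nat.mod_two_eq_zero_or_one e with h | h <;> rw [h]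
  · obtain ⟨q, a, b, g, c, d⟩ := δ.nt0
    exact ⟨g, ⟨q, a, b, c⟩, (mu_zero g).trans (if_neg d)⟩
  · obtain ⟨q, a, b, g, c, d⟩ := δ.nt1
    exact ⟨g, ⟨q, a, b, c⟩, by rw [← mu_sw, mu_zero (δ := δ.sw)]; exact if_neg d⟩

theorem mem_GM (hq : q.Prime) (h : q ∣ MM) (hg : g ∈ Gq q) : g ∈ GM := ⟨q, hq, h, hg⟩

theorem rsM_of_mem {α : Type} [AddCommGroup α] (h : g ∈ GM) (c : Gam → α) : rsM c g = c g :=
  if_pos h

theorem rsM_of_notMem {α : Type} [AddCommGroup α] (h : g ∉ GM) (c : Gam → α) : rsM c g = 0 :=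
  if_neg h

/-- On a subgroup where the characters agree the cocycles are the untwisted ones. -/
theorem kc_iff {e' : ℕ} (h : ∀ g ∈ D, mu e g = chi g ^ e') : Kc e D u ↔ CU.Kc e' D u :=
  and_congr_right fun _ => forall₂_congr fun g hg => by rw [h g hg]

theorem kc_mu (e : ℕ) (D : Subgroup Gam) : Kc e D fun g => mu e g - 1 := ⟨(sm_mu e D).comp (· - 1), fun g _ h _ => by
  simp only [mu_mul]
  ring⟩

theorem Kc.zero (e : ℕ) (D : Subgroup Gam) : Kc e D 0 := ⟨B2.Sm.const 0, fun _ _ _ _ => by simp⟩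

theorem Kc.add (h : Kc e D u) (h' : Kc e D u') : Kc e D (u + u') := ⟨h.1.comp₂ h'.1 (· + ·), fun g hg k hk => by
  simp only [Pi.add_apply, h.2 g hg k hk, h'.2 g hg k hk]
  ring⟩

theorem Kc.smul (h : Kc e D u) (a : F3) : Kc e D fun g => a * u g := ⟨h.1.comp (a * ·), fun g hg k hk => by
  simp only [h.2 g hg k hk]
  ring⟩

theorem Kc.neg (h : Kc e D u) : Kc e D (-u) := ⟨h.1.comp Neg.neg, fun g hg k hk => by
  simp only [Pi.neg_apply, h.2 g hg k hk]
  ring⟩

theorem Kc.sub (h : Kc e D u) (h' : Kc e D u') : Kc e D (u - u') := by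
  rw [sub_eq_add_neg]
  exact h.add h'.neg

theorem Kc.sum {ι : Type*} (s : Finset ι) {v : ι → Gam → F3} (h : ∀ i ∈ s, Kc e D (v i)) :
    Kc e D fun g => ∑ i ∈ s, v i g := by
  induction s using Finset.induction_on with
  | empty => exact Kc.zero e D
  | insert i s hi ih =>
    simp only [Finset.sum_insert hi]
    exact (h i (Finset.mem_insert_self _ _)).add (ih fun j hj => h j (Finset.mem_insert_of_mem hj))

theorem Kc.mono {D' : Subgroup Gam} (h : Kc e D u) (k : D' ≤ D) : Kc e D' u := ⟨h.1.mono k, fun g hg l hl => h.2 g (k hg) l (k hl)⟩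

theorem Kc.congr (h : Kc e D u) (k : ∀ g ∈ D, u g = u' g) : Kc e D u' := ⟨h.1.congr k, fun g hg l hl => by
  rw [← k _ (mul_mem hg hl), ← k g hg, ← k l hl, h.2 g hg l hl]⟩

theorem Kc.one (h : Kc e D u) : u 1 = 0 := by
  have := h.2 1 D.one_mem 1 D.one_mem
  rwa [mul_one, mu_one, one_mul, left_eq_add] at this

theorem kc_mod : Kc (e % 2) D u ↔ Kc e D u := by rw [Kc, mu_mod, Kc]

theorem kc_add_two : Kc (e + 2) D u ↔ Kc e D u := by rw [Kc, mu_add_two, Kc]

theorem act_def (n e : ℕ) (g : Gam) (P : A) : act n e g P = sg g • CU.act n e g P := rfl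

theorem act_apply (n e : ℕ) (g : Gam) (P : A) :
    act n e g P = sg g • ep g ^ (e + 1) • un (kk n g) • g • P := rfl

theorem act_one (n e : ℕ) (P : A) : act n e 1 P = P := by
  rw [act_def, sg_one, CU.act_one, one_smul]

theorem act_mul (n e : ℕ) (g h : Gam) (P : A) : act n e (g * h) P = act n e g (act n e h P) := by
  rw [act_def, act_def, act_def, CU.act_mul, sg_mul, mul_smul, map_zsmul]

theorem act_add_two (n e : ℕ) : act n (e + 2) = act n e := by
  funext g
  ext P
  rw [act_def, act_def, CU.act_add_two]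

theorem act_mod (n e : ℕ) : act n (e % 2) = act n e := by
  funext g
  ext P
  rw [act_def, act_def, CU.act_mod]

theorem act_sw (n e : ℕ) : act (δ := δ.sw) n e = act n (e + 1) := by
  funext g
  ext P
  rw [act_apply (δ := δ.sw), act_apply, sg_sw, mul_smul, ← mul_smul (ep g), ← pow_succ']

/-- Where the character of the side `e` is a power of the cyclotomic character, the action is
the untwisted one. -/
theorem act_eq {e' : ℕ} (n : ℕ) (h : mu e g = chi g ^ e') : act n e g = CU.act n e' g := by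
  ext P
  have h1 : ((sg g * ep g ^ (e + 1) : ℤ) : F3) = (ep g ^ (e' + 1) : ℤ) := by
    push_cast
    rw [sg_cast, ep_cast, pow_succ, pow_succ, ← mul_assoc, ← h, mu]
  have k : ∀ j : ℕ, ep g ^ j = 1 ∨ ep g ^ j = -1 := fun j => by
    unfold ep
    split_ifs
    · simp
    · exact neg_one_pow_eq_or ℤ j
  have h2 : sg g * ep g ^ (e + 1) = ep g ^ (e' + 1) := by
    rcases sg_cases g with a | a <;> rcases k (e + 1) with b | b <;> rcases k (e' + 1) with c | c <;>
      rw [a, b, c] at h1 ⊢ <;> first | rfl | exact absurd h1 (by decide)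
  rw [act_apply, CU.act_apply, ← mul_smul, h2]

theorem act_smul (n e : ℕ) (g : Gam) (z : O) (P : A) :
    act n e g (z • P) = (if chi g = 1 then z else star z) • act n e g P := by
  rw [act_def, act_def, CU.act_smul, smul_comm]

theorem act_th (n e : ℕ) (g : Gam) (P : A) : act n (e + 1) g (th • P) = th • act n e g P := by
  rw [act_def, act_def, CU.act_th, smul_comm]

theorem act_th' (n e : ℕ) (g : Gam) (P : A) : act n e g (th • P) = th • act n (e + 1) g P := by
  rw [act_def, act_def, CU.act_th', smul_comm]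

theorem act_th_pow (n e j : ℕ) (g : Gam) (P : A) :
    act n (e + j) g (th ^ j • P) = th ^ j • act n e g P := by
  rw [act_def, act_def, CU.act_th_pow, smul_comm]

theorem act_kT (n e : ℕ) (g : Gam) (b : F3) : act n e g (kT b) = kT (mu e g * b) := by
  rw [act_def, CU.act_kT, ← map_zsmul, zsmul_eq_mul, sg_cast, mu, mul_assoc]

theorem act_congr (e : ℕ) (h : kk n g = kk n' g) : act n e g = act n' e g := by
  ext P
  rw [act_apply, act_apply, h]

theorem act_rel (n n' e : ℕ) (g : Gam) (P : A) :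
    act n' e g P = un (kk n' g - kk n g) • act n e g P := by
  rw [act_def, act_def, CU.act_rel n n', smul_comm]

theorem sm_act (n e : ℕ) (D : Subgroup Gam) (P : A) : Sm D fun g => act n e g P :=
  (sm_sg D).comp₂ (CU.sm_act n e D P) fun x Q => x • Q

theorem cob_th (n e : ℕ) (P : A) (g : Gam) :
    cob (act n (e + 1)) (th • P) g = th • cob (act n e) P g := by
  rw [cob, cob, act_th, smul_sub]

theorem cob_th' (n e : ℕ) (P : A) (g : Gam) :
    cob (act n e) (th • P) g = th • cob (act n (e + 1)) P g := by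
  rw [cob, cob, act_th', smul_sub]

theorem cob_kT (n e : ℕ) (b : F3) (g : Gam) :
    cob (act n e) (kT b) g = kT (b * (mu e g - 1)) := by
  rw [cob, act_kT, ← map_sub, mul_sub, mul_one, mul_comm]

theorem coc_cob (n e : ℕ) (D : Subgroup Gam) (P : A) : Coc D (act n e) (cob (act n e) P) := ⟨(sm_act n e D P).comp (· - P), fun g _ h _ => by
  simp only [cob, act_mul, map_sub]
  abel⟩

theorem coc_kC : Coc D (act n e) (kC u) ↔ Kc e D u := by
  refine and_congr ⟨fun h => (h.comp (Function.invFun kT)).congr fun g _ =>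
    Function.leftInverse_invFun kT_inj _, fun h => h.comp kT⟩ ?_
  simp only [act_kT, ← map_add, kT_inj.eq_iff]

theorem coc_one (h : Coc D (act n e) c) : c 1 = 0 := by
  have := h.2 1 D.one_mem 1 D.one_mem
  rwa [mul_one, act_one, left_eq_add] at this

theorem coc_th (h : Coc D (act n e) c) : Coc D (act n (e + 1)) (th • c) := ⟨h.1.comp (th • ·), fun g hg k hk => by
  simp only [Pi.smul_apply, h.2 g hg k hk, smul_add, act_th]⟩

theorem coc_th_pow (h : Coc D (act n e) c) (j : ℕ) : Coc D (act n (e + j)) (th ^ j • c) := ⟨h.1.comp (th ^ j • ·), fun g hg k hk => by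
  simp only [Pi.smul_apply, h.2 g hg k hk, smul_add, act_th_pow]⟩

theorem coc_zsmul (h : Coc D (act n e) c) (a : ℤ) : Coc D (act n e) (a • c) := ⟨h.1.comp (a • ·), fun g hg k hk => by
  simp only [Pi.smul_apply, h.2 g hg k hk, smul_add, map_zsmul]⟩

theorem coc_congr_act (h : Coc D (act n e) c) (k : ∀ g ∈ D, kk n g = kk n' g) :
    Coc D (act n' e) c := ⟨h.1, fun g hg l hl => by rw [h.2 g hg l hl, act_congr e (k g hg)]⟩

theorem exists_kC (h : Coc D (act n e) c) (k : ∀ g ∈ D, th • c g = 0) :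
    ∃ u, Kc e D u ∧ ∀ g ∈ D, c g = kT (u g) := by
  have e1 : ∀ g ∈ D, c g = kT (Function.invFun kT (c g)) := fun g hg => by
    obtain ⟨b, hb⟩ := exists_kT (k g hg)
    rw [hb, Function.leftInverse_invFun kT_inj]
  exact ⟨fun g => Function.invFun kT (c g), coc_kC.1 (h.lo_congr fun g hg => (e1 g hg).symm), e1⟩

theorem Loc.congr (h : Loc n e q c) (k : ∀ g ∈ Gq q, kk n g = kk n' g)
    (k' : ∀ g ∈ Gq q, c g = c' g) : Loc n' e q c' := by
  obtain ⟨P, hP⟩ := h
  exact ⟨P, fun g hg => by rw [← k' g hg, hP g hg, cob, cob, act_congr e (k g hg)]⟩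

theorem Loc.th_smul (h : Loc n e q c) : Loc n (e + 1) q (th • c) := by
  obtain ⟨P, hP⟩ := h
  exact ⟨th • P, fun g hg => by rw [Pi.smul_apply, hP g hg, cob_th]⟩

theorem loc_cob (n e q : ℕ) (P : A) : Loc n e q (cob (act n e) P) := ⟨P, fun _ _ => rfl⟩

theorem zs_mod (n e l : ℕ) : Zs n (e % 2) l = Zs n e l := by
  have e1 : ∀ q c, Loc n (e % 2) q c ↔ Loc n e q c := fun q c => by simp only [Loc, act_mod]
  ext c
  exact ⟨fun h => ⟨act_mod n e ▸ h.coc, h.kil, fun q hq k => (e1 q c).1 (h.loc q hq k), h.unr⟩,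
    fun h => ⟨(act_mod n e).symm ▸ h.coc, h.kil, fun q hq k => (e1 q c).2 (h.loc q hq k), h.unr⟩⟩

theorem zs_mono {l' : ℕ} (h : l ≤ l') : Zs n e l ≤ Zs n e l' := fun c hc => ⟨hc.coc, fun g => by
  obtain ⟨j, rfl⟩ := Nat.exists_eq_add_of_le' h
  rw [pow_add, mul_smul, hc.kil, smul_zero], hc.loc, hc.unr⟩

theorem zs_th (h : c ∈ Zs n e (l + 1)) : th • c ∈ Zs n (e + 1) l := ⟨coc_th h.coc, fun g => by
  rw [Pi.smul_apply, ← mul_smul, ← pow_succ, h.kil], fun q hq k => (h.loc q hq k).th_smul,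
  fun q hq k => by rw [Pi.smul_apply, h.unr q hq k, smul_zero]⟩

theorem zs_th_pow (j : ℕ) (h : c ∈ Zs n e (l + j)) : th ^ j • c ∈ Zs n (e + j) l := by
  induction j generalizing l with
  | zero => simpa using h
  | succ j ih =>
    rw [pow_succ', mul_smul]
    exact zs_th (ih (by rwa [add_assoc, add_comm 1 j]))

theorem zs_one (h : c ∈ Zs n e 1) : ∃ u, Kc e ⊤ u ∧ c = kC u := by
  obtain ⟨u, h1, h2⟩ := exists_kC h.coc fun g _ => by simpa using h.kil g
  exact ⟨u, h1, funext fun g => h2 g trivial⟩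

theorem zs_sw (n e l : ℕ) : Zs (δ := δ.sw) n e l = Zs n (e + 1) l := by
  have e1 : ∀ q c, Loc (δ := δ.sw) n e q c ↔ Loc n (e + 1) q c := fun q c => by
    simp only [Loc, act_sw]
  ext c
  constructor
  · rintro ⟨h1, h2, h3, h4⟩
    exact ⟨act_sw n e ▸ h1, h2, fun q hq k => (e1 q c).1 (h3 q hq k), h4⟩
  · rintro ⟨h1, h2, h3, h4⟩
    exact @IsZ.mk δ.sw _ _ _ _ (by rwa [act_sw]) h2 (fun q hq k => (e1 q c).2 (h3 q hq k)) h4

end Pool.Agent.Lib.MP_696deb_nt.CU.CV
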