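import Pool.Agent.Lib.MP_696deb_nt.CV.E1
import Pool.Agent.Lib.MP_696deb_nt.CU.E6

/-! The Weil pairing for the twisted actions and the isotropy of the local conditions. -/

set_option autoImplicit false
set_option linter.unusedSectionVars false

open scoped Classical

namespace Pool.Agent.Lib.MP_696deb_nt.CU.CV

section

open H3 H3.TA Matrix

variable {n q m e : ℕ} {P Q x y : A} {D : Subgroup Gam}

/-- Restriction to the kernel of a quadratic character is injective. -/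
theorem spl_ker (a : ℤ) (hD : IsClosed (D : Set Gam)) {c : Gam → Gam → ZMod (3 ^ m)}
    (hc : C2 m D c) (h : Spl m ((B2.chi a).ker ⊓ D) c) : Spl m D c := by
  have h1 := B2.coh_pow_index (B2.op_ker_chi a) hc.cq (B2.coh_one_iff.2
    ((spl_iff ((B2.op_ker_chi a).closed.inter hD) (hc.mono inf_le_right)).1 h))
  obtain ⟨u, hu⟩ : (B2.chi a).ker.relIndex D ∣ 2 := by
    refine (Subgroup.relIndex_dvd_index_of_normal _ D).trans ?_
    rw [Subgroup.index_ker]
    simpa using Subgroup.card_subgroup_dvd_card (B2.chi a).range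
  obtain ⟨v, hv⟩ : Odd (3 ^ m) := Odd.pow (by decide)
  have h2 := h1.pow (u * (v + 1))
  rw [Subgroup.inf_relIndex_right, ← pow_mul, ← mul_assoc, ← hu,
    show 2 * (v + 1) = 3 ^ m + 1 by omega, pow_succ, zc_pow, one_mul, one_pow] at h2
  exact (spl_iff hD hc).2 (B2.coh_one_iff.1 h2)

theorem wm_neg (hx : 3 ^ m • x = 0) (hy : 3 ^ m • y = 0) : wm m (-x) (-y) = wm m x y := by
  have h := wm_map (f := -AddMonoidHom.id A) (g := 1) neg_injective
    (fun a b => (psi_neg m a b).symm) hx hy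
  rwa [cy_one, one_mul] at h

/-- The untwisted isotropy on small subgroups of a decomposition group. -/
theorem iso_sub (hn : n ≠ 0) (hq : q.Prime) (hD : IsClosed (D : Set Gam)) (h3 : D ≤ B2.GK 3)
    (hd : D ≤ Gq q) (hP : ∀ g ∈ D, 3 ^ m • cob (CU.act n e) P g = 0)
    (hQ : ∀ g ∈ D, 3 ^ m • cob (CU.act n e) Q g = 0) :
    Spl m D fun g h => wm m (cob (CU.act n e) P g) (CU.act n e g (cob (CU.act n e) Q h)) := by
  have hx : tacK (TT n e) D (fun g => crd m (cob (CU.act n e) P g)) P :=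
    fun g hg => emb_crd (hP g hg)
  have hy : tacK (TT n e) D (fun g => crd m (cob (CU.act n e) Q g)) Q :=
    fun g hg => emb_crd (hQ g hg)
  suffices k : Spl m D (tacU (TT n e) _ _) by
    refine tac_lin k k 1 0 fun g _ h hh => ?_
    conv_lhs => rw [← emb_crd (hQ h hh), TT_smul, wm, crd_emb]
    exact ((add_zero _).symm.trans (by rw [one_mul, zero_mul]; rfl))
  obtain ⟨R, r1, r2⟩ := CU.exists_nt hn hq
  have r3 : ∀ g ∈ D, CU.act n e g R = R := fun g hg => by
    have := r1 g (hd hg)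
    rwa [CU.act_apply, ep, if_pos (mem_GK.1 (h3 hg)), one_pow, ← one_pow (e + 1),
      ← if_pos (c := chi g = 1) (e := (-1 : ℤ)) (t := 1) (mem_GK.1 (h3 hg))] at this
  obtain ⟨S, hx', s1⟩ := e6_nt r3 r2 hx
  obtain ⟨S', hy', s2⟩ := e6_nt r3 r2 hy
  by_cases h1 : 3 ^ m • S ∈ AddSubgroup.zmultiples (3 ^ m • S')
  · exact e6_mem hD h3 hx' hy' s2 h1
  by_cases h2 : 3 ^ m • S' ∈ AddSubgroup.zmultiples (3 ^ m • S)
  · exact tac_swap (TT_sm n e) (TT_det n e) hx' hy' (e6_mem hD h3 hy' hx' s1 h2)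
  · exact e6_gen hD hx' hy' ⟨h1, h2⟩

variable [δ : Qd]

theorem act_ker {g : Gam} (h : g ∈ (B2.chi δ.D0).ker) (n e : ℕ) : act n e g = CU.act n e g := by
  have k := B2.chi_spec δ.h0 g
  rw [MonoidHom.mem_ker.1 h, Units.val_one, Int.cast_one, one_mul] at k
  exact act_eq n (by rw [mu, de_eq_one.2 k, one_mul])

theorem wm_act (n e : ℕ) (g : Gam) (hx : 3 ^ m • x = 0) (hy : 3 ^ m • y = 0) :
    wm m (act n e g x) (act n e g y) = cy m g * wm m x y := by
  rw [← CU.wm_act n e g hx hy, act_def, act_def]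
  rcases sg_cases g with h | h <;> rw [h]
  · rw [one_smul, one_smul]
  · rw [neg_one_smul, neg_one_smul, wm_neg (by rw [← map_nsmul, hx, map_zero])
      (by rw [← map_nsmul, hy, map_zero])]

theorem e6_sm {b : Gam → A} (hb : Sm D b) : Sm2 D fun g h => act n e g (b h) := by
  have := hb.finite_range.to_subtype
  obtain ⟨U, u1, u2, u3⟩ := (B2.Sm.pi fun s : b '' (D : Set Gam) => sm_act n e D s.1).left.comp₂
    hb.right fun f y => if hy : y ∈ b '' (D : Set Gam) then f ⟨y, hy⟩ else 0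
  have k : ∀ h ∈ D, b h ∈ b '' (D : Set Gam) := fun h hh => ⟨h, hh, rfl⟩
  refine ⟨U, u1, u2, fun g hg g' hg' h hh h' hh' s t => ?_⟩
  simpa only [dif_pos (k _ hh), dif_pos (k _ hh')] using u3 g hg g' hg' h hh h' hh' s t

theorem wm_c2 {a b : Gam → A} (ha : Coc D (act n e) a) (hb : Coc D (act n e) b)
    (ka : ∀ g ∈ D, 3 ^ m • a g = 0) (kb : ∀ g ∈ D, 3 ^ m • b g = 0) :
    C2 m D fun g h => wm m (a g) (act n e g (b h)) := by
  have t : ∀ (g : Gam) {x : A}, 3 ^ m • x = 0 → 3 ^ m • act n e g x = 0 := fun g x h => by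
    rw [← map_nsmul, h, map_zero]
  refine ⟨ha.1.left.comp₂ (e6_sm hb.1) (wm m), fun g hg h hh l hl => ?_⟩
  dsimp only
  rw [ha.2 g hg h hh, hb.2 h hh l hl, map_add, act_mul,
    wm_add_right _ (t _ (kb h hh)) (t _ (t _ (kb l hl))), wm_add_left (ka g hg) (t _ (ka h hh)),
    wm_act n e g (ka h hh) (t _ (kb l hl))]
  ring

theorem wm_iso (hn : n ≠ 0) (hq : q.Prime) (hP : ∀ g ∈ Gq q, 3 ^ m • cob (act n e) P g = 0)
    (hQ : ∀ g ∈ Gq q, 3 ^ m • cob (act n e) Q g = 0) :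
    Spl m (Gq q) fun g h => wm m (cob (act n e) P g) (act n e g (cob (act n e) Q h)) := by
  have hD : IsClosed (Gq q : Set Gam) := B2.closed_Dec _
  have hD' : IsClosed ((B2.GK 3 ⊓ Gq q : Subgroup Gam) : Set Gam) := (B2.op_GK 3).closed.inter hD
  have hc := wm_c2 (coc_cob n e _ P) (coc_cob n e _ Q) hP hQ
  have k : ∀ g ∈ (B2.chi δ.D0).ker ⊓ (B2.GK 3 ⊓ Gq q), ∀ R : A,
      cob (act n e) R g = cob (CU.act n e) R g := fun g hg R => by rw [cob, cob, act_ker hg.1]
  have s := iso_sub (D := (B2.chi δ.D0).ker ⊓ (B2.GK 3 ⊓ Gq q)) hn hq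
    ((B2.op_ker_chi _).closed.inter hD') (fun _ h => h.2.1) (fun _ h => h.2.2)
    (fun g hg => k g hg P ▸ hP g hg.2.2) fun g hg => k g hg Q ▸ hQ g hg.2.2
  refine spl_of_GK hD hc (spl_ker δ.D0 hD' (hc.mono inf_le_right)
    (tac_lin s s 1 0 fun g hg h hh => ?_))
  rw [k g hg, k h hh, act_ker hg.1, one_mul, zero_mul, add_zero]

end

variable [δ : Qd] {n q : ℕ} {u k : Gam → F3}

/-- What is used of the Weil pairing on the points of order three. -/
structure IsWe (we : A → A → F3) : Prop where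
  add_left : ∀ x x' y, 3 • x = 0 → 3 • x' = 0 → 3 • y = 0 → we (x + x') y = we x y + we x' y
  skew : ∀ x y, 3 • x = 0 → 3 • y = 0 → we y x = -we x y
  kT : ∀ a b y, th • y = kT b → we (kT a) y = a * b
  act : ∀ n g x y, 3 • x = 0 → 3 • y = 0 → we (act n 0 g x) (act n 0 g y) = chi g * we x y
  iso : ∀ n q P Q, n ≠ 0 → q.Prime → (∀ g ∈ Gq q, 3 • cob (CV.act n 0) P g = 0) →
    (∀ g ∈ Gq q, 3 • cob (CV.act n 0) Q g = 0) →
    Spl 1 (Gq q) fun g h => we (cob (CV.act n 0) P g) (CV.act n 0 g (cob (CV.act n 0) Q h))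

theorem exists_we : ∃ we, IsWe we := by
  obtain ⟨ε, h0, h⟩ := wm_T 0
  have h2 := e6_sq h0
  refine ⟨fun x y => ε * (wm 1 x y : F3), fun x x' y hx hx' _ => ?_, fun x y _ _ => ?_,
    fun a b y hy => ?_, fun n g x y hx hy => ?_, fun n q P Q hn hq hP hQ => ?_⟩
  · exact (congrArg (ε * ·) (wm_add_left (m := 1) hx hx' y)).trans (mul_add _ _ _)
  · exact (congrArg (ε * ·) (wm_skew 1 x y)).trans (mul_neg _ _)
  · have e1 : (wm 1 T y : F3) = 1 * ((ε * b).val : F3) := h y b hy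
    have e2 : (wm 1 (kT a) y : F3) = (a.val : F3) * wm 1 T y := wm_nsmul (m := 1) three_T a.val y
    rw [e2, e1, ZMod.natCast_zmod_val, ZMod.natCast_zmod_val]
    linear_combination a * b * h2
  · exact (congrArg (ε * ·) (wm_act (m := 1) n 0 g hx hy)).trans (mul_left_comm _ _ _)
  · have k := wm_iso (m := 1) hn hq hP hQ
    exact H3.TA.tac_lin k k ε 0 fun _ _ _ _ => ((add_zero _).symm.trans (by rw [zero_mul]))

theorem f3 (hn : n ≠ 0) (hq : q.Prime) (hu : Loc n 0 q (kC u)) (hk : Loc n 1 q (kC k)) :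
    lp q u k = 0 := by
  obtain ⟨we, h⟩ := exists_we
  obtain ⟨P, hP⟩ := hu
  obtain ⟨Q, hQ⟩ := hk
  obtain ⟨Q, rfl⟩ := exists_root 1 Q
  have e : ∀ g ∈ Gq q, th • cob (act n 0) Q g = kT (k g) := fun g hg => by
    rw [← cob_th, ← pow_one th]
    exact (hQ g hg).symm
  have h1 := h.iso n q P Q hn hq (fun g hg => by
    rw [← hP g hg]
    exact three_pow_smul (k := 1) (by rw [pow_one, th_kT])) fun g hg =>
    (three_pow_iff 1 _).2 (by rw [mul_one, pow_two, mul_smul, e g hg, th_kT])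
  refine (inv_congr fun g hg j hj => ?_).trans ((inv_eq_zero (H3.Spl.c2 h1)).2 h1)
  rw [← hP g hg, h.kT (u g) (mu 1 g * k j) _ (by rw [← act_th, e j hj, act_kT])]
  exact mul_assoc _ _ _

end Pool.Agent.Lib.MP_696deb_nt.CU.CV
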