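import Pool.Agent.Lib.MP_696deb_nt.CV.E4
import Pool.Agent.Lib.MP_696deb_nt.CU.E7a

/-! Lifts over the biquadratic field. -/

set_option autoImplicit false
set_option linter.unusedSectionVars false

open scoped Classical

namespace Pool.Agent.Lib.MP_696deb_nt.CU.CV

variable [δ : Qd] {n e l : ℕ} {c : Gam → A}

/-- The group of the biquadratic field. -/
noncomputable abbrev HB : Subgroup Gam := GK 3 ⊓ HD

theorem op_HB : Op HB := (B2.op_GK 3).inf op_HD

theorem chi_HB {g : Gam} (hg : g ∈ HB) : chi g = 1 := mem_GK.1 hg.1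

theorem e7a_act_kT {g : Gam} (hg : g ∈ HB) (b : F3) : act n e g (kT b) = kT b := by
  rw [act_kT, mu_HD hg.2, chi_HB hg, one_pow, one_mul]

variable (n e c) in
/-- The defect of the naive lift. -/
noncomputable def e7a_d (g h : Gam) : A :=
  e7a_nu (c g) + act n (e + 1) g (e7a_nu (c h)) - e7a_nu (c (g * h))

variable (n e c) in
/-- The obstruction. -/
noncomputable def e7a_o (g h : Gam) : F3 := e7a_lg (e7a_d n e c g h)

theorem e7a_kT_o (hc : Coc ⊤ (act n e) c) (g h : Gam) :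
    kT (e7a_o n e c g h) = e7a_d n e c g h := by
  refine e7a_kT_lg ?_
  rw [e7a_d, smul_sub, smul_add, ← act_th', e7a_th_nu, e7a_th_nu, e7a_th_nu,
    hc.2 g trivial h trivial, sub_self]

theorem e7a_sm2 {f : Gam → A} (hf : Sm ⊤ f) : Sm2 ⊤ fun g h => act n e g (f h) := by
  have := hf.finite_range.to_subtype
  have h1 := (B2.Sm.pi fun s : f '' ((⊤ : Subgroup Gam) : Set Gam) =>
    sm_act n e ⊤ s.1).left.comp₂ hf.right
      fun F Q => if k : Q ∈ f '' ((⊤ : Subgroup Gam) : Set Gam) then F ⟨Q, k⟩ else 0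
  have h2 : ∀ h, f h ∈ f '' ((⊤ : Subgroup Gam) : Set Gam) := fun h => ⟨h, trivial, rfl⟩
  simpa only [h2, dif_pos] using h1

theorem e7a_c2 (hc : Coc ⊤ (act n e) c) : C2 1 HB (e7a_o n e c) := by
  have h0 := hc.1.comp e7a_nu
  refine ⟨((((h0.left.comp₂ (e7a_sm2 h0) (· + ·)).comp₂ h0.mul (· - ·)).comp e7a_lg).mono le_top :),
    fun g hg h _ k _ => ?_⟩
  show chi g * e7a_o n e c h k + e7a_o n e c g (h * k) =
    e7a_o n e c (g * h) k + e7a_o n e c g h
  apply kT_inj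
  rw [chi_HB hg, one_mul, map_add, map_add, ← e7a_act_kT (n := n) (e := e + 1) hg]
  simp only [e7a_kT_o hc, e7a_d, map_add, map_sub, act_mul, mul_assoc]
  abel

theorem e7a_spl (hc : Coc ⊤ (act n e) c) {D : Subgroup Gam} (hD : D ≤ HB) {P : A}
    (h : ∀ g ∈ D, c g = cob (act n e) P g) : Spl 1 D (e7a_o n e c) := by
  have h1 : ∀ g ∈ D, kT (e7a_lg (e7a_nu (c g) - cob (act n (e + 1)) (e7a_nu P) g)) =
      e7a_nu (c g) - cob (act n (e + 1)) (e7a_nu P) g := fun g hg => e7a_kT_lg (by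
    rw [smul_sub, ← cob_th', e7a_th_nu, e7a_th_nu, h g hg, sub_self])
  refine ⟨fun g => e7a_lg (e7a_nu (c g) - cob (act n (e + 1)) (e7a_nu P) g),
    (hc.1.mono le_top).comp₂ (coc_cob n (e + 1) D (e7a_nu P)).1
      fun x y => e7a_lg (e7a_nu x - y), fun g hg k hk => ?_⟩
  show e7a_o n e c g k = e7a_lg _ + chi g * e7a_lg _ - e7a_lg _
  apply kT_inj
  rw [chi_HB (hD hg), one_mul, map_sub, map_add, h1 g hg, h1 _ (D.mul_mem hg hk), e7a_kT_o hc,
    ← e7a_act_kT (n := n) (e := e + 1) (hD hg), h1 k hk]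
  simp only [e7a_d, cob, map_sub, act_mul]
  abel

theorem e7a_conj (hc : Coc ⊤ (act n e) c) (s x : Gam) :
    c x = c s + act n e s (c (s⁻¹ * x * s)) - act n e x (c s) := by
  rw [← hc.2 s trivial _ trivial, show s * (s⁻¹ * x * s) = x * s by group,
    hc.2 x trivial s trivial, add_sub_cancel_right]

theorem e7a_fix {q : ℕ} (hq : q.Prime) (h3 : ¬ q ∣ MM) (hn : ¬ q ∣ n) {s x : Gam}
    (hx : x ∈ Ine (s • pl q)) {P : A} (hP : th ^ l • P = 0) : act n e x P = P := by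
  have h1 := B2.mem_Ine_smul.1 hx
  have h2 : th ^ l • act n e s⁻¹ P = 0 := by rw [← act_th_pow, hP, map_zero]
  rw [show x = s * (s⁻¹ * x * s * s⁻¹) by group, act_mul, act_mul, act_ine hq h3 h1 h2,
    kk_ine hq (ne_three h3) hn h1, un_zero, one_smul, ← act_mul, mul_inv_cancel, act_one]

theorem e7a_inv (hc : c ∈ Zs n e l) (w : Plc) : FF.inv 1 HB w (e7a_o n e c) = 0 := by
  have hq := w.prime
  have h2 : C2 1 (HB ⊓ Dec w) (e7a_o n e c) := (e7a_c2 hc.coc).mono inf_le_left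
  obtain ⟨s, hs⟩ := B2.plc_conj (pl_p hq)
  by_cases hd : w.p ∣ MM * n
  · obtain ⟨P, hP⟩ := hc.loc _ hq hd
    refine (FF.zero_iff op_HB h2).2 (e7a_spl hc.coc inf_le_left
      (P := act n e s P - c s) fun x hx => ?_)
    rw [e7a_conj hc.coc s x, hP _ (B2.mem_Dec_smul.1 (hs.symm ▸ hx.2))]
    simp only [cob, map_sub, ← act_mul]
    rw [show s * (s⁻¹ * x * s) = x * s by group]
    abel
  have h3 : ¬ w.p ∣ MM := fun k => hd (k.mul_right n)
  have hn : ¬ w.p ∣ n := fun k => hd (k.mul_left _)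
  have h4 : ∀ x ∈ Ine w, ∀ g, c (g * x) = c g := fun x hx g => by
    rw [← hs] at hx
    rw [hc.coc.2 g trivial x trivial, e7a_conj hc.coc s x,
      det_ine hq h3 ⟨hc.coc.1.mono le_top, fun a _ b _ => hc.coc.2 a trivial b trivial⟩
        (fun a _ => hc.kil a) (hc.unr _ hq hd) (B2.mem_Ine_smul.1 hx),
      e7a_fix hq h3 hn hx (hc.kil s), map_zero, add_zero, sub_self, map_zero, add_zero]
  refine FF.unr op_HB h2 fun g _ h hh x hx y hy => congrArg e7a_lg ?_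
  have h5 : th ^ (l + 1) • e7a_nu (c h) = 0 := by rw [pow_succ, mul_smul, e7a_th_nu, hc.kil]
  rw [e7a_d, e7a_d, h4 x hx.2, h4 y hy.2, act_mul, e7a_fix hq h3 hn (hs.symm ▸ hx.2) h5,
    show g * x * (h * y) = g * h * (h⁻¹ * x * h⁻¹⁻¹) * y by group, h4 y hy.2,
    h4 _ (B2.conj_mem_Ine (inv_mem hh.2) hx.2)]

/-- A lift on the group of the biquadratic field. -/
theorem ext_K (hc : c ∈ Zs n e l) :
    ∃ c', Coc HB (act n (e + 1)) c' ∧ ∀ g ∈ HB, th • c' g = c g := by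
  obtain ⟨b, h1, h2⟩ := FF.abhn op_HB (e7a_c2 hc.coc) (e7a_inv hc)
  refine ⟨fun g => e7a_nu (c g) - kT (b g),
    ⟨(hc.coc.1.mono le_top).comp₂ h1 fun x (y : F3) => e7a_nu x - kT y, fun g hg h hh => ?_⟩,
    fun g _ => by rw [smul_sub, e7a_th_nu, th_kT, sub_zero]⟩
  have h3 : e7a_o n e c g h = (b g : F3) + chi g * (b h : F3) - (b (g * h) : F3) := h2 g hg h hh
  have h4 := e7a_kT_o hc.coc g h
  rw [h3, chi_HB hg, one_mul, map_sub, map_add, e7a_d] at h4
  rw [map_sub, e7a_act_kT hg]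
  rw [sub_eq_sub_iff_add_eq_add] at h4
  rw [sub_add_sub_comm, sub_eq_sub_iff_add_eq_add, add_comm, h4]

end Pool.Agent.Lib.MP_696deb_nt.CU.CV
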