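import Pool.Agent.Lib.MP_696deb_nt.CV.E1
import Pool.Agent.Lib.MP_696deb_nt.CU.KtB

/-! Cocycles of level one that are ramified at one large prime. -/

set_option autoImplicit false
set_option linter.unusedSectionVars false

open scoped Classical

namespace Pool.Agent.Lib.MP_696deb_nt.CU.CV

open Kt (zt cr ex zt_add zt_zero zt_inj smul_zt cr_cube ex_spec)

variable [δ : Qd] {e p q : ℕ} {g : Gam} {κ : Gam → F3} {a b : Qbar}

theorem mu_one_iff : mu 1 g = chi g ↔ g δ.r0 = δ.r0 := by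
  rw [← de_eq_one, mu, pow_one]
  rcases de_cases g with h | h <;> rcases chi_cases g with k | k <;> rw [h, k] <;> decide

/-- The exponents of a root pair form a cocycle. -/
theorem Rp.mul_eq (h : Rp (mu e) κ a b) (ha : a ≠ 0) (g k : Gam) :
    κ (g * k) = κ g + mu e g * κ k := by
  have z : ∀ {s t : F3} {y : Qbar}, zt (κ (g * k)) * a = g (zt s * y) → g y = zt (κ g) * a →
      chi g * s = t → κ (g * k) = κ g + t := fun {s t y} h1 h2 h3 => by
    rw [map_mul, smul_zt, h2, ← mul_assoc, ← zt_add] at h1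
    rw [zt_inj (mul_right_cancel₀ ha h1), ← h3, add_comm]
    rfl
  have c : ∀ x y x' y' : F3, (x = 1 ∨ x = -1) → (y = 1 ∨ y = -1) → (x' = 1 ∨ x' = -1) →
      (y' = 1 ∨ y' = -1) → (x * y = x' * y' ↔ (x = x' ↔ y = y')) ∧ (x ≠ x' → x' = -x) := by decide
  obtain ⟨c1, c2⟩ := c _ _ _ _ (mu_cases e g) (mu_cases e k) (chi_cases g) (chi_cases k)
  rw [← mu_mul, ← chi_mul] at c1
  by_cases h1 : mu e g = chi g <;> by_cases h2 : mu e k = chi k
  · exact z (((h _).1 (c1.2 (iff_of_true h1 h2))).1.symm.trans (congrArg g ((h k).1 h2).1))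
      ((h g).1 h1).1 (by rw [h1])
  · exact z (((h _).2 fun e => h2 ((c1.1 e).1 h1)).2.symm.trans (congrArg g ((h k).2 h2).2))
      ((h g).1 h1).1 (by rw [h1])
  · exact z (((h _).2 fun e => h1 ((c1.1 e).2 h2)).2.symm.trans (congrArg g ((h k).1 h2).2))
      ((h g).2 h1).2 (by rw [c2 h1, neg_mul_neg])
  · exact z (((h _).1 (c1.2 (iff_of_false h1 h2))).1.symm.trans (congrArg g ((h k).2 h2).1))
      ((h g).2 h1).2 (by rw [c2 h1, neg_mul_neg])

theorem kap_V (hq : q.Prime) (h : ¬ q ∣ MM) : (pl q).V δ.r0 = 1 ∧ (pl q).V 2 = 1 := by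
  refine ⟨(pow_eq_one_iff_of_nonneg zero_le two_ne_zero).1 ?_, ?_⟩
  · rw [← map_pow, δ.h0, B2.Plc.V_int_eq_one, pl_p hq, Int.natCast_dvd]
    exact fun k => h (k.trans D0_dvd)
  · exact_mod_cast e2a_V (n := 2) hq fun k => h (k.trans two_dvd)

theorem kap_ine (hq : q.Prime) (h : ¬ q ∣ MM) (hg : g ∈ Iq q) : g δ.r0 = δ.r0 := by
  refine (sq_cases δ.h0 g).resolve_right fun e => ?_
  have k := hg.2 _ (kap_V hq h).1.le
  rw [e, show -δ.r0 - δ.r0 = -(2 * δ.r0) by ring, Valuation.map_neg, map_mul, (kap_V hq h).1,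
    (kap_V hq h).2, one_mul] at k
  exact k.false

theorem kap_int : IsIntegral ℤ δ.r0 :=
  IsIntegral.of_pow two_pos (by rw [δ.h0]; exact isIntegral_algebraMap (x := δ.D0))

/-- A small number of the quadratic field above a split prime. -/
theorem kap_thue (hp : p.Prime) (hM : ¬ p ∣ MM) (h : fq p δ.r0 = δ.r0) : ∃ x y c : ℤ,
    |x| ≤ p ∧ |y| ≤ p ∧ c ≠ 0 ∧ c.natAbs ∣ MM ∧ x ^ 2 - δ.D0 * y ^ 2 = p * c ∧
      (pl p).V (x - y * δ.r0) = 1 := by
  obtain ⟨v1, v2⟩ := kap_V hp hM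
  obtain ⟨t, ht⟩ := Kt.int_of_frob (w := pl p) (by rw [pl_p hp]; exact fq_frob hp) v1.le
    (by rw [h]; simp)
  obtain ⟨n, n0, hB, hn⟩ := Sm.thue ![1, t] hp.pos (B := p.sqrt) (by simpa using p.lt_succ_sqrt')
  obtain ⟨x, hx⟩ : ∃ x, x = n 0 := ⟨_, rfl⟩
  obtain ⟨y, hy⟩ : ∃ y, y = n 1 := ⟨_, rfl⟩
  have h0 : ¬ (x = 0 ∧ y = 0) := fun k => n0 (funext fun i => by
    fin_cases i
    exacts [hx.symm.trans k.1, hy.symm.trans k.2])
  have b1 : |x| ≤ p.sqrt := hx ▸ hB 0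
  have b2 : |y| ≤ p.sqrt := hy ▸ hB 1
  have s1 : (p.sqrt : ℤ) < p := by exact_mod_cast Nat.sqrt_lt_self hp.one_lt
  have s2 : (p.sqrt : ℤ) ^ 2 ≤ p := by exact_mod_cast p.sqrt_le'
  have lt : ∀ {z : ℤ}, (pl p).V z < 1 ↔ (p : ℤ) ∣ z := fun {z} => by rw [B2.b2c_lt, pl_p hp]
  have e : ((x : Qbar) + y * δ.r0) * (x - y * δ.r0) = (x ^ 2 - δ.D0 * y ^ 2 : ℤ) := by
    push_cast
    rw [← δ.h0]
    ring
  have a1 : (pl p).V (x + y * δ.r0) < 1 := by
    have k := (pl p).V.map_add_lt (lt.2 hn) (B2.b2a_mul_lt _ ((pl p).V_int_le y) ht)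
    refine lt_of_eq_of_lt (congrArg _ ?_) k
    simp only [Fin.sum_univ_two, Matrix.cons_val_zero, Matrix.cons_val_one, ← hx, ← hy]
    push_cast
    ring
  have a2 : (pl p).V (x - y * δ.r0) ≤ 1 :=
    (pl p).V.map_sub_le ((pl p).V_int_le x) (B2.b2a_mul_le _ ((pl p).V_int_le y) v1.le)
  obtain ⟨c, hc⟩ := lt.1 (e ▸ mul_comm _ (_ : Qbar) ▸ B2.b2a_mul_lt _ a2 a1)
  have z : ∀ {z : ℤ}, |z| ≤ p.sqrt → (pl p).V (2 * z) < 1 → z = 0 := fun {z} k k' => by
    rw [map_mul, v2, one_mul] at k'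
    exact Int.eq_zero_of_abs_lt_dvd (lt.1 k') (k.trans_lt s1)
  have a3 : (pl p).V (x - y * δ.r0) = 1 := by
    refine a2.eq_of_not_lt fun k => h0 ⟨z b1 ?_, z b2 ?_⟩
    · exact lt_of_eq_of_lt (congrArg _ (by ring)) ((pl p).V.map_add_lt a1 k)
    · have k' : (pl p).V (2 * y * δ.r0) < 1 :=
        lt_of_eq_of_lt (congrArg _ (by ring)) ((pl p).V.map_sub_lt a1 k)
      rwa [map_mul, v1, mul_one] at k'
  have c0 : c ≠ 0 := by
    rintro rfl
    obtain ⟨q, -, -, g, -, hg⟩ := δ.nt0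
    rw [hc, mul_zero, Int.cast_zero, mul_eq_zero] at e
    have k := congrArg g (e.resolve_right fun k => by simp [k] at a3)
    rw [map_add, map_mul, map_intCast, map_intCast, (sq_cases δ.h0 g).resolve_left hg, mul_neg,
      ← sub_eq_add_neg, map_zero] at k
    simp [k] at a3
  refine ⟨x, y, c, b1.trans s1.le, b2.trans s1.le, c0,
    δ.big _ (Int.natAbs_ne_zero.2 c0) ?_, hc, a3⟩
  have x2 : x ^ 2 ≤ p := (sq_abs x ▸ pow_le_pow_left₀ (abs_nonneg x) b1 2).trans s2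
  have y2 : y ^ 2 ≤ p := (sq_abs y ▸ pow_le_pow_left₀ (abs_nonneg y) b2 2).trans s2
  have p0 : (0 : ℤ) < p := by exact_mod_cast hp.pos
  have k : p * |c| ≤ p * (1 + |δ.D0|) := by
    rw [← abs_of_pos p0, ← abs_mul, ← hc, abs_of_pos p0]
    refine (abs_sub _ _).trans ?_
    rw [abs_mul, abs_of_nonneg (sq_nonneg x), abs_of_nonneg (sq_nonneg y)]
    nlinarith [mul_le_mul_of_nonneg_left y2 (abs_nonneg δ.D0)]
  have k' := le_of_mul_le_mul_left k p0
  rw [Int.abs_eq_natAbs, Int.abs_eq_natAbs] at k'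
  omega

theorem kap_norm {x y : ℤ} (hx : |x| ≤ p) (hy : |y| ≤ p) :
    ‖B2.jC (x + y * δ.r0)‖ ≤ MM * p := by
  have h1 : (1 : ℝ) ≤ δ.D0.natAbs := Nat.one_le_cast.2 (Int.natAbs_pos.2 D0_ne)
  have h2 : ‖B2.jC δ.r0‖ ≤ δ.D0.natAbs := by
    refine le_of_pow_le_pow_left₀ two_ne_zero (by positivity) ?_
    rw [← norm_pow, ← map_pow, δ.h0, map_intCast, Complex.norm_intCast, ← Int.cast_abs,
      Int.abs_eq_natAbs, Int.cast_natCast]
    nlinarith
  have h3 : (1 + δ.D0.natAbs : ℝ) ≤ MM := by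
    have := Nat.le_of_dvd (Nat.pos_of_ne_zero MM_ne) (δ.big (1 + δ.D0.natAbs) (by omega) (by omega))
    exact_mod_cast this
  have h4 : |(x : ℝ)| ≤ p := by exact_mod_cast hx
  have h5 : |(y : ℝ)| ≤ p := by exact_mod_cast hy
  rw [map_add, map_mul, map_intCast, map_intCast]
  refine (norm_add_le _ _).trans ?_
  rw [norm_mul, Complex.norm_intCast, Complex.norm_intCast]
  nlinarith [mul_le_mul h5 h2 (norm_nonneg _) (Nat.cast_nonneg p),
    mul_le_mul_of_nonneg_right h3 (Nat.cast_nonneg (α := ℝ) p)]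

theorem exists_kap_one (hp : p.Prime) (hM : ¬ p ∣ MM) (h : fq p δ.r0 = δ.r0) :
    ∃ κ, IsKap (mu 1) MM p κ := by
  obtain ⟨x, y, c, hx, hy, c0, hc, hN, hV⟩ := kap_thue hp hM h
  obtain ⟨α, hα⟩ : ∃ α : Qbar, α = x + y * δ.r0 := ⟨_, rfl⟩
  obtain ⟨β, hβ⟩ : ∃ β : Qbar, β = x - y * δ.r0 := ⟨_, rfl⟩
  have e : α * β = (p * c : ℤ) := by
    rw [← hN, hα, hβ]
    push_cast
    rw [← δ.h0]
    ring
  have n0 : α * β ≠ 0 := by
    rw [e]
    exact_mod_cast mul_ne_zero (Int.natCast_ne_zero.2 hp.ne_zero) c0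
  have α0 := left_ne_zero_of_mul n0
  have β0 := right_ne_zero_of_mul n0
  obtain ⟨a, ha⟩ : ∃ a : Qbar, a ^ 3 = α * β ^ 2 := ⟨_, cr_cube _⟩
  have a0 : a ≠ 0 := fun k => mul_ne_zero α0 (pow_ne_zero 2 β0) (by rw [← ha, k]; norm_num)
  obtain ⟨b, hb⟩ : ∃ b : Qbar, a * b = α * β := ⟨α * β / a, mul_div_cancel₀ _ a0⟩
  have b0 : b ≠ 0 := right_ne_zero_of_mul (hb ▸ n0)
  have b3 : b ^ 3 = α ^ 2 * β := mul_left_cancel₀ (pow_ne_zero 3 a0) (by
    rw [← mul_pow, hb, ha]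
    ring)
  have fx : ∀ g : Gam, g a * g b = a * b := fun g => by rw [← map_mul, hb, e, map_intCast]
  have zz : ∀ t : F3, zt t * zeta 1 ^ (-t).val = 1 := fun t =>
    (zt_add t (-t)).symm.trans (by rw [add_neg_cancel, zt_zero])
  obtain ⟨κ, hκ⟩ : ∃ κ : Gam → F3, ∀ g, κ g = ex (if g δ.r0 = δ.r0 then g a else g b) a :=
    ⟨_, fun _ => rfl⟩
  have R : Rp (mu 1) κ a b := fun g => ⟨fun k => ?_, fun k => ?_⟩
  rotate_left
  · rw [mu_one_iff] at k
    have k1 : g a = zt (κ g) * a := by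
      rw [hκ, if_pos k]
      refine ex_spec ?_
      rw [← map_pow, ha, hα, hβ]
      simp only [map_mul, map_pow, map_add, map_sub, map_intCast, k]
    refine ⟨k1, mul_left_cancel₀ (mul_ne_zero (Kt.zt_ne (κ g)) a0) ?_⟩
    rw [← k1, fx, k1]
    linear_combination (-(a * b)) * zz (κ g)
  · have k0 := (sq_cases δ.h0 g).resolve_left (mt mu_one_iff.2 k)
    have k1 : g b = zt (κ g) * a := by
      rw [hκ, if_neg (mt mu_one_iff.2 k)]
      refine ex_spec ?_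
      rw [← map_pow, ha, b3, hα, hβ]
      simp only [map_mul, map_pow, map_add, map_sub, map_intCast, k0]
      ring
    refine ⟨mul_left_cancel₀ (mul_ne_zero (Kt.zt_ne (κ g)) a0) ?_, k1⟩
    rw [← k1, mul_comm, fx, k1]
    linear_combination (-(a * b)) * zz (κ g)
  have iy : IsIntegral ℤ ((y : Qbar) * δ.r0) := (isIntegral_algebraMap (x := y)).mul kap_int
  have iα : IsIntegral ℤ α := hα ▸ (isIntegral_algebraMap (x := x)).add iy
  have iβ : IsIntegral ℤ β := hβ ▸ (isIntegral_algebraMap (x := x)).sub iy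
  have nα : ‖B2.jC α‖ ≤ MM * p := hα ▸ kap_norm hx hy
  have nβ : ‖B2.jC β‖ ≤ MM * p := by
    have k := kap_norm (p := p) (y := -y) hx (by rwa [abs_neg])
    rwa [Int.cast_neg, neg_mul, ← sub_eq_add_neg, ← hβ] at k
  have vc : ∀ q : ℕ, q.Prime → ¬ q ∣ MM → (pl q).V c = 1 := fun q hq k => by
    rw [B2.Plc.V_int_eq_one, pl_p hq, Int.natCast_dvd]
    exact fun d => k (d.trans hc)
  have rs : ∀ q : ℕ, q.Prime → ¬ q ∣ MM → sq q a = zt (κ (sq q)) * a := fun q hq k =>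
    ((R _).1 (mu_one_iff.2 (kap_ine hq k (sq_ine hq (ne_three k))))).1
  have cube : ∀ {w : Plc} {u : Qbar}, w.V (u ^ 3) = 1 → w.V u = 1 := fun k => by
    rwa [map_pow, pow_eq_one_iff_of_nonneg zero_le three_ne_zero] at k
  refine ⟨κ, ⟨?_, fun g _ k _ => R.mul_eq a0 g k⟩, ?_, fun q hq k k' => ?_, a, b, R, a0, b0,
    IsIntegral.of_pow three_pos (ha ▸ iα.mul (iβ.pow 2)),
    IsIntegral.of_pow three_pos (b3 ▸ (iα.pow 2).mul iβ), ?_, ?_⟩
  · exact (((B2.sm_apply δ.r0).comp₂ (B2.sm_apply a) Prod.mk).comp₂ (B2.sm_apply b)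
      fun s t => ex (if s.1 = δ.r0 then s.2 else t) a).congr fun g _ => (hκ g).symm
  · have h3 := ne_three hM
    have r0 := rho_ne hp.ne_zero
    have p0 : (p : Qbar) ≠ 0 := Nat.cast_ne_zero.2 hp.ne_zero
    refine sub_eq_zero.1 (H3.b4a_zero (m := 1) (e2a_ne hp h3) (sq_ine hp h3) (u := a / rho p)
      (cube ?_) ?_)
    · rw [div_pow, ha, rho_cube, pow_two, ← mul_assoc, e, Int.cast_mul, Int.cast_natCast, mul_assoc,
        mul_div_cancel_left₀ _ p0, map_mul, vc p hp hM, hβ, hV, one_mul]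
    · have k : zt (κ (sq p)) = zt (κ (sq p) - 1) * zt 1 := by rw [← zt_add, sub_add_cancel]
      rw [map_div₀, rs p hp hM, kk_spec, kk_sq_self hp h3, k]
      change _ / (_ * zt 1) = _ * zt _
      have := Kt.zt_ne 1
      field_simp
  · have h3 := ne_three k
    have v : (pl q).V α * (pl q).V β = 1 := by
      rw [← map_mul, e, Int.cast_mul, map_mul, vc q hq k, Int.cast_natCast, mul_one]
      exact e2a_V hq fun d => k' ((Nat.prime_dvd_prime_iff_eq hq hp).1 d)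
    have v2 : (pl q).V β = 1 := le_antisymm ((pl q).V_le_one_of_isIntegral iβ)
      (v ▸ mul_le_of_le_one_left' ((pl q).V_le_one_of_isIntegral iα))
    refine H3.b4a_zero (m := 1) (e2a_ne hq h3) (sq_ine hq h3) (u := a) (cube ?_)
      ((rs q hq k).trans (mul_comm _ _))
    rw [ha, pow_two, ← mul_assoc, map_mul, map_mul, v, v2, one_mul]
  · refine le_of_pow_le_pow_left₀ three_ne_zero (by positivity) ?_
    rw [← norm_pow, ← map_pow, ha, map_mul, map_pow, norm_mul, norm_pow, pow_succ' _ 2]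
    exact mul_le_mul nα (pow_le_pow_left₀ (norm_nonneg _) nβ 2) (by positivity) (by positivity)
  · refine le_of_pow_le_pow_left₀ three_ne_zero (by positivity) ?_
    rw [← norm_pow, ← map_pow, b3, map_mul, map_pow, norm_mul, norm_pow, pow_succ _ 2]
    exact mul_le_mul (pow_le_pow_left₀ (norm_nonneg _) nα 2) nβ (by positivity) (by positivity)

theorem exists_kap (hp : p.Prime) (hM : ¬ p ∣ MM) (h : mu (e + 1) (fq p) = 1) :
    ∃ κ, IsKap (mu e) MM p κ := by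
  rcases Nat.even_or_odd e with k | k
  · have k1 := exists_kap_one (δ := δ.sw) hp hM ((de_eq_one (δ := δ.sw)).1 (by
      rw [← mu_zero (δ := δ.sw), mu_sw, ← h, mu_eq (a := 0 + 1) (b := e + 1) (by
        obtain ⟨j, rfl⟩ := k
        exact ⟨j + 1, by ring⟩)]))
    rwa [mu_sw, mu_eq (a := 1 + 1) (b := e) (by
      obtain ⟨j, rfl⟩ := k
      exact ⟨j + 1, by ring⟩)] at k1
  · rw [mu_eq (a := e) (b := 1) k.add_one]
    refine exists_kap_one hp hM (de_eq_one.1 ?_)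
    rw [← mu_zero, ← h, mu_eq (a := 0) (b := e + 1) (by simpa using k.add_one)]

theorem kap_spec (hp : p.Prime) (hM : ¬ p ∣ MM) (h : mu (e + 1) (fq p) = 1) :
    IsKap (mu e) MM p (kap e p) := by
  rw [kap, kp, dif_pos (exists_kap hp hM h)]
  exact (exists_kap hp hM h).choose_spec

theorem kc_kap (e p : ℕ) (D : Subgroup Gam) : Kc e D (kap e p) := by
  refine Kc.mono ?_ le_top
  rw [kap, kp]
  split_ifs with h
  exacts [h.choose_spec.kd, Kc.zero e ⊤]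

theorem kap_ne (hq : q.Prime) (hM : ¬ q ∣ MM) (h : q ≠ p) : kap e p (sq q) = 0 := by
  rw [kap, kp]
  split_ifs with k
  exacts [k.choose_spec.ne q hq hM h, rfl]

theorem kap_self (hp : p.Prime) (hM : ¬ p ∣ MM) (h : mu (e + 1) (fq p) = 1) :
    kap e p (sq p) = 1 := (kap_spec hp hM h).self

theorem kap_ht (hp : p.Prime) (hM : ¬ p ∣ MM) (h : mu (e + 1) (fq p) = 1) :
    Ht (mu e) (kap e p) (MM * p) := (kap_spec hp hM h).ht

end Pool.Agent.Lib.MP_696deb_nt.CU.CV
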