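import Pool.Agent.Lib.MP_696deb_nt.CV.E7b
import Pool.Agent.Lib.MP_696deb_nt.CV.E7a
import Pool.Agent.Lib.MP_696deb_nt.CV.Kap

/-! Existence of lifts. -/

set_option autoImplicit false
set_option linter.unusedSectionVars false

open scoped Classical

namespace Pool.Agent.Lib.MP_696deb_nt.CU.CV

variable [δ : Qd] {n e l : ℕ} {c : Gam → A}

theorem ext_Q (hc : c ∈ Zs n e l) : ∃ c', Coc ⊤ (act n (e + 1)) c' ∧ ∀ g, th • c' g = c g := by
  obtain ⟨c₀, k1, k2⟩ := ext_K hc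
  obtain ⟨c₁, k3, k4⟩ := ext_two (G := GK 3) op_HB inf_le_left (fun x hx y hy a b =>
    ⟨mul_mem hx hy, mul_mem_HD (fun k => a ⟨hx, k⟩) fun k => b ⟨hy, k⟩⟩)
    (hc.coc.lo_mono le_top) k1 k2
  obtain ⟨c₂, k5, k6⟩ := ext_two (G := ⊤) (B2.op_GK 3) le_top (fun _ _ _ _ => B2.mul_mem_GK)
    hc.coc k3 k4
  exact ⟨c₂, k5, fun g => k6 g trivial⟩

/-- Lifts to the other side that are unramified outside of `M n`. -/
theorem ext_gen (hc : c ∈ Zs n e l) :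
    ∃ c', Coc ⊤ (act n (e + 1)) c' ∧ (∀ g, th • c' g = c g) ∧
      ∀ q : ℕ, q.Prime → ¬ q ∣ MM * n → c' (sq q) = 0 := by
  have hz := mem_Zs.1 hc
  obtain ⟨c₁, k3, k4⟩ := ext_Q hc
  have ha : ∀ q : ℕ, ∃ b, q.Prime → ¬ q ∣ MM * n → c₁ (sq q) = kT b := fun q => by
    by_cases h : q.Prime ∧ ¬ q ∣ MM * n
    · obtain ⟨b, hb⟩ := exists_kT (P := c₁ (sq q)) (by rw [k4, hz.unr q h.1 h.2])
      exact ⟨b, fun _ _ => hb⟩
    · exact ⟨0, fun a b => absurd ⟨a, b⟩ h⟩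
  choose a ha using ha
  have hne : ∀ q : ℕ, ¬ q ∣ MM * n → ¬ q ∣ MM := fun q h e => h (e.mul_right n)
  set S := (finite_sq k3.1).toFinset.filter fun q => ¬ q ∣ MM * n with hS
  have hm : ∀ q, q ∈ S ↔ q.Prime ∧ ¬ q ∣ MM * n ∧ c₁ (sq q) ≠ 0 := fun q => by
    simp only [hS, Finset.mem_filter, Set.Finite.mem_toFinset, Set.mem_ofPred_eq, coc_one k3]
    exact ⟨fun h => ⟨h.1.1, h.2, h.1.2.2⟩, fun h => ⟨⟨h.1, ne_three (hne q h.2.1), h.2.2⟩, h.2.1⟩⟩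
  have hu : Kc (e + 1) ⊤ fun g => ∑ q ∈ S, a q * kap (e + 1) q g :=
    Kc.sum S fun q _ => (kc_kap (e + 1) q ⊤).smul (a q)
  refine ⟨c₁ + -kC fun g => ∑ q ∈ S, a q * kap (e + 1) q g, k3.add (coc_kC.2 hu).neg, fun g => ?_,
    fun q hq hn => ?_⟩
  · rw [Pi.add_apply, Pi.neg_apply, smul_add, smul_neg, th_kT, neg_zero, add_zero, k4]
  · have h4 : ∑ p ∈ S, a p * kap (e + 1) p (sq q) =
        if q ∈ S then a q * kap (e + 1) q (sq q) else 0 := by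
      rw [← Finset.sum_ite_eq S q fun p => a p * kap (e + 1) p (sq q)]
      refine Finset.sum_congr rfl fun p _ => ?_
      split_ifs with h
      · rfl
      · rw [kap_ne hq (hne q hn) h, mul_zero]
    change c₁ (sq q) + -kT (∑ p ∈ S, a p * kap (e + 1) p (sq q)) = 0
    rw [h4]
    split_ifs with h
    · rw [kap_self hq (hne q hn) ?_, mul_one, ha q hq hn, add_neg_cancel]
      by_contra h5
      refine ((hm q).1 h).2.2 (ev (l := l + 1) hq (hne q hn) h5 (fun e => hn (e.mul_left _))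
        (k3.lo_mono le_top) (fun g _ => ?_) ?_)
      · rw [pow_succ, mul_smul, k4, hz.kil]
      · rw [k4, hz.unr q hq hn]
    · rw [map_zero, neg_zero, add_zero]
      by_contra h5
      exact h ((hm q).2 ⟨hq, hn, h5⟩)

theorem ext (hc : c ∈ Zs n 1 l) : ∃ c', IsLift n c c' := by
  obtain ⟨c', h1, h2, h3⟩ := ext_gen hc
  rw [act_add_two n 0] at h1
  exact ⟨c', h1, h2, h3⟩

theorem ext_one (hc : c ∈ Zs n 0 l) : ∃ c', Coc ⊤ (act n 1) c' ∧ (∀ g, th • c' g = c g) ∧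
    ∀ q : ℕ, q.Prime → ¬ q ∣ MM * n → c' (sq q) = 0 := ext_gen hc

end Pool.Agent.Lib.MP_696deb_nt.CU.CV
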