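import Pool.Agent.Lib.MP_696deb_nt.CV.Ht
import Pool.Agent.Lib.MP_696deb_nt.CU.B1p

/-! The masses of the primes of a given type. -/

set_option autoImplicit false
set_option linter.unusedSectionVars false

open Finset
open scoped Classical

namespace Pool.Agent.Lib.MP_696deb_nt.CU.CV

open Pool.Agent.B6.S
open Kt (zt zt_add zt_zero zt_ne smul_zt zt_inj zt_cube)

theorem ms_split {y z X : ℕ} (h1 : y ≤ z) (h2 : z ≤ X) (P : ℕ → Prop) :
    B6.S.ms (Wn y X P) = B6.S.ms (Wn y z P) + B6.S.ms (Wn z X P) := by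
  rw [B6.S.ms, B6.S.ms, B6.S.ms, ← sum_union (disjoint_left.2 fun p a b => by
    rw [mem_Wn] at a b
    omega)]
  refine sum_congr (Finset.ext fun p => ?_) fun _ _ => rfl
  simp only [mem_union, mem_Wn]
  constructor
  · rintro ⟨a, b, c⟩
    rcases le_or_gt p z with k | k
    exacts [.inl ⟨a, k, c⟩, .inr ⟨k, b, c⟩]
  · rintro (⟨a, b, c⟩ | ⟨a, b, c⟩)
    exacts [⟨a, b.trans h2, c⟩, ⟨h1.trans_lt a, b, c⟩]

theorem ms_or (z X : ℕ) (P Q R : ℕ → Prop) (h : ∀ p, P p ↔ Q p ∨ R p) (k : ∀ p, Q p → ¬ R p) :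
    B6.S.ms (Wn z X P) = B6.S.ms (Wn z X Q) + B6.S.ms (Wn z X R) := by
  rw [B6.S.ms, B6.S.ms, B6.S.ms, ← sum_union (disjoint_left.2 fun p a b => k p (mem_Wn.1 a).2.2 (mem_Wn.1 b).2.2)]
  refine sum_congr (Finset.ext fun p => ?_) fun _ _ => rfl
  simp only [mem_union, mem_Wn, h, and_or_left]

theorem ms_near {N : ℕ} (hN : N ≠ 0) {P Q : ℕ → Prop} (h : ∀ p, ¬ p ∣ N → P p → Q p) (z X : ℕ) :
    B6.S.ms (Wn z X P) ≤ B6.S.ms (Wn z X Q) + B6.S.ms N.divisors :=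
  (ms_mono fun p hp => by
    rw [mem_union, mem_Wn, Nat.mem_divisors]
    rw [mem_Wn] at hp
    by_cases k : p ∣ N
    exacts [.inr ⟨k, hN⟩, .inl ⟨hp.1, hp.2.1, h p k hp.2.2⟩]).trans (ms_union _ _)

theorem half_zero {D : ℤ} (hD : ¬ IsSquare D) {N : ℕ} (hN : N ≠ 0) {P : ℕ → Prop}
    (h : ∀ p, p.Prime → ¬ p ∣ N → (P p ↔ B6.S.Spl D p)) :
    ∃ c : ℝ, ∀ X, 2 ≤ X → |B6.S.ms (Wn 0 X fun p => p.Prime ∧ P p) - LL X / 2| ≤ c := by
  obtain ⟨c1, h1⟩ := spl_lower hD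
  obtain ⟨c2, h2⟩ := spl_upper hD
  refine ⟨|c1| + |c2| + B6.S.ms N.divisors, fun X hX => ?_⟩
  have a1 := h1 X hX
  have a2 := h2 X hX
  have a3 := ms_near hN (P := fun p => p.Prime ∧ P p) (Q := fun p => p.Prime ∧ B6.S.Spl D p)
    (fun p k j => ⟨j.1, (h p j.1 k).1 j.2⟩) 0 X
  have a4 := ms_near hN (Q := fun p => p.Prime ∧ P p) (P := fun p => p.Prime ∧ B6.S.Spl D p)
    (fun p k j => ⟨j.1, (h p j.1 k).2 j.2⟩) 0 X
  have := le_abs_self c1
  have := le_abs_self c2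
  have := abs_nonneg c1
  have := abs_nonneg c2
  rw [abs_le]
  constructor <;> linarith

theorem half_mass {D : ℤ} (hD : ¬ IsSquare D) {N : ℕ} (hN : N ≠ 0) {P : ℕ → Prop}
    (h : ∀ p, p.Prime → ¬ p ∣ N → (P p ↔ B6.S.Spl D p)) :
    ∃ c : ℝ, ∀ z X, 2 ≤ z → z ≤ X →
      |B6.S.ms (Wn z X fun p => p.Prime ∧ P p) - (LL X - LL z) / 2| ≤ c := by
  obtain ⟨c, hc⟩ := half_zero hD hN h
  refine ⟨2 * c, fun z X hz hX => ?_⟩
  have a1 := abs_le.1 (hc z hz)
  have a2 := abs_le.1 (hc X (hz.trans hX))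
  rw [ms_split z.zero_le hX] at a2
  rw [abs_le]
  constructor <;> linarith [a1.1, a1.2, a2.1, a2.2]

theorem full_mass {z X : ℕ} (hz : 2 ≤ z) (hX : z ≤ X) :
    |B6.S.ms (Wn z X Nat.Prime) - (LL X - LL z)| ≤ 40 := by
  have a1 := ms_win hz (hz.trans hX)
  have a2 := ms_le (P := Wn 0 X Nat.Prime) (hz.trans hX) fun p hp =>
    ⟨(mem_Wn.1 hp).2.2, (mem_Wn.1 hp).2.1⟩
  have a3 := ms_win (z := 2) le_rfl hz
  have a4 := ms_mono (P := Wn 2 z Nat.Prime) (Q := Wn 0 z Nat.Prime) fun p hp => by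
    rw [mem_Wn] at hp ⊢
    exact ⟨by omega, hp.2⟩
  have a5 : LL 2 ≤ 0 := Real.log_nonpos (Real.log_nonneg (by norm_num)) (by
    have := Real.log_le_sub_one_of_pos (show (0 : ℝ) < (2 : ℕ) by norm_num)
    push_cast at this ⊢
    linarith)
  rw [ms_split z.zero_le hX] at a2
  rw [abs_le]
  constructor <;> linarith

variable [δ : Qd]

theorem fix_iff {r : Qbar} {D : ℤ} (hr : r ^ 2 = D) {p : ℕ} (hp : p.Prime)
    (h : ¬ p ∣ 4 * D.natAbs) : dr r (fq p) = 1 ↔ B6.S.Spl D p := by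
  have ir : IsIntegral ℤ r :=
    IsIntegral.of_pow two_pos (by rw [hr]; exact isIntegral_algebraMap (x := D))
  have fr := fq_frob hp
  have v1 := (pl p).V_le_one_of_isIntegral ir
  rw [dr_eq_one]
  constructor
  · intro k
    obtain ⟨a, ha⟩ := B6.frob_int (w := pl p) (by rwa [pl_p hp]) ir k
    have h1 : (pl p).V ((a * a - D : ℤ) : Qbar) < 1 := by
      rw [show ((a * a - D : ℤ) : Qbar) = -((r - a) * (r + a)) by
        push_cast; linear_combination hr, Valuation.map_neg, map_mul]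
      exact mul_lt_one_of_nonneg_of_lt_one_left zero_le ha
        ((pl p).V.map_add_le v1 ((pl p).V_int_le a))
    have h2 := (ZMod.intCast_zmod_eq_zero_iff_dvd _ p).2 ((Sm.nrm_int_lt hp).1 h1)
    exact ⟨a, by push_cast at h2; linear_combination -h2⟩
  · rintro ⟨s, hs⟩
    refine (sq_cases hr _).resolve_right fun e => h ?_
    obtain ⟨a, rfl⟩ := ZMod.intCast_surjective s
    have h1 : (pl p).V ((a * a - D : ℤ) : Qbar) < 1 := (Sm.nrm_int_lt hp).2
      ((ZMod.intCast_zmod_eq_zero_iff_dvd _ p).1 (by push_cast; linear_combination -hs))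
    have k : ∀ b : ℤ, (pl p).V (r - b) < 1 → (pl p).V (2 * r) < 1 := fun b hb => by
      have h2 : (pl p).V (fq p (r - b)) < 1 := by rwa [B2.mem_Dec.1 fr.1]
      rw [map_sub, e, map_intCast] at h2
      rw [show 2 * r = (r - b) - (-r - b) by ring]
      exact (pl p).V.map_sub_lt hb h2
    have h3 : (pl p).V (2 * r) < 1 := by
      rw [show ((a * a - D : ℤ) : Qbar) = -((r - a) * (r - (-a : ℤ))) by
        push_cast; linear_combination hr, Valuation.map_neg, map_mul] at h1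
      by_contra c
      exact absurd h1 (not_lt.2 (one_le_mul (not_lt.1 fun x => c (k _ x))
        (not_lt.1 fun x => c (k _ x))))
    have h4 : (pl p).V ((4 * D : ℤ) : Qbar) < 1 := by
      rw [show ((4 * D : ℤ) : Qbar) = (2 * r) * (2 * r) by push_cast; linear_combination -4 * hr,
        map_mul]
      exact mul_lt_one_of_nonneg_of_lt_one_left zero_le h3 h3.le
    have := Int.natCast_dvd.1 ((Sm.nrm_int_lt hp).1 h4)
    rwa [Int.natAbs_mul] at this

theorem root_mass {r : Qbar} {D : ℤ} (hr : r ^ 2 = D) (h : ∃ g : Gam, g r ≠ r) :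
    ∃ c : ℝ, ∀ z X, 2 ≤ z → z ≤ X →
      |B6.S.ms (Wn z X fun p => p.Prime ∧ dr r (fq p) = 1) - (LL X - LL z) / 2| ≤ c := by
  obtain ⟨g, hg⟩ := h
  have hD : ¬ IsSquare D := fun ⟨a, ha⟩ => hg (by
    rcases sq_eq_sq_iff_eq_or_eq_neg.1 (show r ^ 2 = (a : Qbar) ^ 2 by
      rw [hr, ha]; push_cast; ring) with e | e <;> rw [e] <;> simp)
  exact half_mass hD (N := 4 * D.natAbs) (mul_ne_zero four_ne_zero (Int.natAbs_ne_zero.2
    fun e => hD (e ▸ IsSquare.zero))) fun p hp k => fix_iff hr hp k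

theorem chi_mass : ∃ c : ℝ, ∀ z X, 2 ≤ z → z ≤ X →
    |B6.S.ms (Wn z X fun p => p.Prime ∧ chi (fq p) = 1) - (LL X - LL z) / 2| ≤ c :=
  half_mass not_sq_neg_three (N := 6) (by norm_num) fun p hp k => by
    have h2 : p ≠ 2 := fun e => k (by rw [e]; norm_num)
    have h3 : p ≠ 3 := fun e => k (by rw [e]; norm_num)
    have h0 : p % 3 ≠ 0 := fun e =>
      h3 ((Nat.prime_dvd_prime_iff_eq Nat.prime_three hp).1 (Nat.dvd_of_mod_eq_zero e)).symm
    rw [chi_fq hp h3, ← ZMod.natCast_mod]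
    rcases (by omega : p % 3 = 1 ∨ p % 3 = 2) with e | e
    · exact iff_of_true (by rw [e]; rfl) (spl_of_one hp e)
    · exact iff_of_false (by rw [e]; decide) (not_spl hp e h2)

theorem mu_mass (e : ℕ) : ∃ c : ℝ, ∀ z X, 2 ≤ z → z ≤ X →
    |B6.S.ms (Wn z X fun p => p.Prime ∧ mu e (fq p) = 1) - (LL X - LL z) / 2| ≤ c := by
  rw [← mu_mod]
  rcases Nat.mod_two_eq_zero_or_one e with j | j <;> rw [j]
  · obtain ⟨-, -, -, g, -, hg⟩ := δ.nt0
    simpa only [mu_zero, de] using root_mass δ.h0 ⟨g, hg⟩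
  · obtain ⟨-, -, -, g, -, hg⟩ := δ.nt1
    simpa only [mu, pow_one, de, δ.rel] using root_mass δ.h1 ⟨g, hg⟩

theorem ty_mass (s t : F3) (hs : s ≠ 0) (ht : t ≠ 0) : ∃ c : ℝ, ∀ z X, 2 ≤ z → z ≤ X →
    |B6.S.ms (Wn z X fun p => p.Prime ∧ mu 0 (fq p) = s ∧ mu 1 (fq p) = t) - (LL X - LL z) / 4| ≤ c := by
  obtain ⟨c0, h0⟩ := mu_mass 0
  obtain ⟨c1, h1⟩ := mu_mass 1
  obtain ⟨c2, h2⟩ := chi_mass
  refine ⟨|c0| + |c1| + |c2| + 40, fun z X hz hX => ?_⟩
  obtain ⟨T, hT⟩ : ∃ T : F3 → F3 → ℝ, ∀ s t, T s t =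
    B6.S.ms (Wn z X fun p => p.Prime ∧ mu 0 (fq p) = s ∧ mu 1 (fq p) = t) := ⟨_, fun _ _ => rfl⟩
  have n1 : (1 : F3) ≠ -1 := by decide
  have a0 := abs_le.1 (h0 z X hz hX)
  have a1 := abs_le.1 (h1 z X hz hX)
  have a2 := abs_le.1 (h2 z X hz hX)
  have a3 := abs_le.1 (full_mass hz hX)
  have b0 : ∀ s, B6.S.ms (Wn z X fun p => p.Prime ∧ mu 0 (fq p) = s) = T s 1 + T s (-1) := fun s => by
    rw [hT, hT]
    exact ms_or z X _ _ _ (fun p => by have := mu_cases 1 (fq p); tauto)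
      fun p a b => n1 (a.2.2.symm.trans b.2.2)
  have b1 : B6.S.ms (Wn z X fun p => p.Prime ∧ mu 1 (fq p) = 1) = T 1 1 + T (-1) 1 := by
    rw [hT, hT]
    exact ms_or z X _ _ _ (fun p => by have := mu_cases 0 (fq p); tauto)
      fun p a b => n1 (a.2.1.symm.trans b.2.1)
  have b2 : B6.S.ms (Wn z X fun p => p.Prime ∧ chi (fq p) = 1) = T 1 1 + T (-1) (-1) := by
    rw [hT, hT]
    refine ms_or z X _ _ _ (fun p => ?_) fun p a b => n1 (a.2.1.symm.trans b.2.1)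
    rw [← mu_mul_succ 0, ← and_or_left]
    refine and_congr_right fun _ => ?_
    rcases mu_cases 0 (fq p) with a | a <;> rcases mu_cases 1 (fq p) with b | b <;>
      rw [a, b] <;> decide
  have b3 : B6.S.ms (Wn z X Nat.Prime) = B6.S.ms (Wn z X fun p => p.Prime ∧ mu 0 (fq p) = 1) +
      B6.S.ms (Wn z X fun p => p.Prime ∧ mu 0 (fq p) = -1) :=
    ms_or z X _ _ _ (fun p => by have := mu_cases 0 (fq p); tauto)
      fun p a b => n1 (a.2.symm.trans b.2)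
  rw [b3, b0, b0] at a3
  rw [b0] at a0
  rw [b1] at a1
  rw [b2] at a2
  have := le_abs_self c0
  have := le_abs_self c1
  have := le_abs_self c2
  have := abs_nonneg c0
  have := abs_nonneg c1
  have := abs_nonneg c2
  have k : ∀ a : F3, a ≠ 0 → a = 1 ∨ a = -1 := by decide
  rw [← hT, abs_le]
  rcases k s hs with rfl | rfl <;> rcases k t ht with rfl | rfl <;> constructor <;>
    linarith [a0.1, a0.2, a1.1, a1.2, a2.1, a2.2, a3.1, a3.2]

/-- The three conjugates that belong to a root pair. -/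
theorem tc_of_ht {e : ℕ} {k : Gam → F3} {t : ℝ} (hk : Kc e ⊤ k)
    (hn : ¬ ∃ s : F3, ∀ g, k g = s * (mu e g - 1)) (h : Ht (mu e) k t) (h1 : 1 ≤ t) :
    ∃ y : F3 → Qbar, B6.Tc y (fun g i => mu e g * i + k g) (2 * t) := by
  obtain ⟨a, b, r, a0, b0, ia, ib, na, nb⟩ := h
  obtain ⟨g, g1, g2⟩ : ∃ g, mu e g = 1 ∧ k g ≠ 0 := by
    by_contra c
    exact hn (cob_of_ker hk fun g hg => by_contra fun x => c ⟨g, hg, x⟩)
  have act : ∀ (g : Gam) (i : F3), g (zt i * a + zt (-i) * b) =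
      zt (mu e g * i + k g) * a + zt (-(mu e g * i + k g)) * b := fun g i => by
    rw [map_add, map_mul, map_mul, smul_zt, smul_zt]
    change zt (chi g * i) * _ + zt (chi g * -i) * _ = _
    by_cases c : mu e g = chi g
    · rw [((r g).1 c).1, ((r g).1 c).2, c, neg_add, zt_add, zt_add, mul_neg]
      simp only [zt, mul_assoc]
    · rw [((r g).2 c).1, ((r g).2 c).2, (ht_iff g).2 c, neg_add, zt_add, zt_add, mul_neg, neg_mul,
        neg_neg, add_comm]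
      simp only [zt, mul_assoc]
  have tr : ∀ i j : F3, ∃ g : Gam, mu e g * i + k g = j := fun i j => by
    refine ⟨g ^ ((j - i) * k g).val, ?_⟩
    rw [mu_pow, g1, one_pow, hk.pow g1, ZMod.natCast_zmod_val]
    revert g2
    generalize k g = c
    revert i j c
    decide
  have iz : ∀ i, IsIntegral ℤ (zt i) := fun i =>
    IsIntegral.of_pow three_pos (by rw [zt_cube]; exact isIntegral_one)
  have nz : ∀ i, ‖B2.jC (zt i)‖ = 1 := fun i =>
    (pow_eq_one_iff_of_nonneg (norm_nonneg _) three_ne_zero).1 (by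
      rw [← norm_pow, ← map_pow, zt_cube, map_one, norm_one])
  refine ⟨fun i => zt i * a + zt (-i) * b, fun i j hij => ?_,
    fun i => ((iz _).mul ia).add ((iz _).mul ib), act, tr, by linarith, fun i => ?_⟩
  · by_contra c
    have q : ∀ i j : F3, i ≠ j → zt i * a + zt (-i) * b = zt j * a + zt (-j) * b →
        zt (i + j) * a = b := fun i j x y => by
      have z1 := zt_add i (-i)
      have z2 := zt_add j (-j)
      rw [add_neg_cancel, zt_zero] at z1 z2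
      refine mul_left_cancel₀ (sub_ne_zero.2 fun w => x (zt_inj w)) ?_
      rw [zt_add]
      linear_combination zt i * zt j * y + zt j * b * z1 - zt i * b * z2
    have y1 := congrArg g hij
    rw [act, act, g1, one_mul, one_mul] at y1
    have y2 := (q _ _ c hij).trans (q _ _ (fun w => c (add_right_cancel w)) y1).symm
    have y3 := zt_inj (mul_right_cancel₀ a0 y2)
    exact g2 ((by decide : ∀ i j c : F3, i + j = i + c + (j + c) → c = 0) _ _ _ y3)
  · rw [map_add, map_mul, map_mul]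
    refine (norm_add_le _ _).trans ?_
    rw [norm_mul, norm_mul, nz, nz]
    linarith

theorem tc_fq {y : F3 → Qbar} {ac : Gam → F3 → F3} {B : ℝ} (h : B6.Tc y ac B) {z X : ℕ}
    (hX : 2 ≤ X) (hz : (2 * B) ^ 9 ≤ z) (P Q : ℕ → Prop)
    (hP : ∀ p, P p → p.Prime ∧ ¬ Q p ∧ 1 ≤ #{i | ac (fq p) i = i})
    (hQ : ∀ p, Q p → p.Prime ∧ 3 ≤ #{i | ac (fq p) i = i}) :
    B6.S.ms (Wn z X P) + 3 * B6.S.ms (Wn z X Q) ≤ LL X + 65 := by
  have hd : Disjoint (Wn z X P) (Wn z X Q) :=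
    disjoint_left.2 fun p hp hq => (hP p (mem_Wn.1 hp).2.2).2.1 (mem_Wn.1 hq).2.2
  have B1 := h.B1
  have h1 := h.mass (P := Wn z X P ∪ Wn z X Q) (w := pl) (φ := fq) (z := z) hX
    (by
      rw [ZMod.card]
      refine le_trans ?_ hz
      have : 0 ≤ B ^ 9 := by positivity
      push_cast
      ring_nf
      linarith) (by rw [ZMod.card]; exact hz) fun p hp => by
      have k : p.Prime ∧ z < p ∧ p ≤ X := by
        rcases mem_union.1 hp with k | k <;> rw [mem_Wn] at k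
        · exact ⟨(hP p k.2.2).1, k.1, k.2.1⟩
        · exact ⟨(hQ p k.2.2).1, k.1, k.2.1⟩
      exact ⟨Nat.cast_lt.2 k.2.1, k.2.2, pl_p k.1, fq_frob k.1⟩
  rw [ZMod.card, sum_union hd] at h1
  refine le_trans ?_ (h1.trans_eq (by rw [LL]; norm_num))
  rw [B6.S.ms, B6.S.ms, mul_sum]
  refine add_le_add (sum_le_sum fun p hp => ?_) (sum_le_sum fun p hp => ?_)
  · refine div_le_div_of_nonneg_right ?_ p.cast_nonneg
    convert Nat.one_le_cast (α := ℝ).2 (hP p (mem_Wn.1 hp).2.2).2.2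
    rfl
  · rw [mul_one_div]
    refine div_le_div_of_nonneg_right ?_ p.cast_nonneg
    convert Nat.ofNat_le_cast (α := ℝ).2 (hQ p (mem_Wn.1 hp).2.2).2
    rfl

theorem neg_mass : ∃ c : ℝ, ∀ e z X : ℕ, 2 ≤ z → 2 ≤ X →
    B6.S.ms (Wn z X fun p => p.Prime ∧ mu e (fq p) = -1) ≤ LL X / 2 + c := by
  have h : ∀ e : ℕ, ∃ c : ℝ, ∀ z X : ℕ, 2 ≤ z → 2 ≤ X →
      B6.S.ms (Wn z X fun p => p.Prime ∧ mu e (fq p) = -1) ≤ LL X / 2 + c := fun e => by
    obtain ⟨c, hc⟩ := mu_mass e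
    refine ⟨c + 40 - LL 2 / 2, fun z X hz hX => ?_⟩
    have a1 := abs_le.1 (hc 2 X le_rfl hX)
    have a2 := abs_le.1 (full_mass le_rfl hX)
    rw [ms_or 2 X _ (fun p => p.Prime ∧ mu e (fq p) = 1) (fun p => p.Prime ∧ mu e (fq p) = -1)
      (fun p => by have := mu_cases e (fq p); tauto)
      fun p a b => absurd (a.2.symm.trans b.2) (by decide)] at a2
    have a3 := ms_mono (P := Wn z X fun p => p.Prime ∧ mu e (fq p) = -1)
      (Q := Wn 2 X fun p => p.Prime ∧ mu e (fq p) = -1) fun p hp => by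
        rw [mem_Wn] at hp ⊢
        exact ⟨by omega, hp.2⟩
    linarith [a1.1, a2.2]
  obtain ⟨c0, h0⟩ := h 0
  obtain ⟨c1, h1⟩ := h 1
  refine ⟨max c0 c1, fun e z X hz hX => ?_⟩
  rw [← mu_mod]
  rcases Nat.mod_two_eq_zero_or_one e with j | j <;> rw [j]
  · exact (h0 z X hz hX).trans (by linarith [le_max_left c0 c1])
  · exact (h1 z X hz hX).trans (by linarith [le_max_right c0 c1])

theorem kap_mass : ∃ (c : ℝ) (C : ℕ), ∀ e d z X : ℕ, d ≠ 0 → ∀ k ∈ KK d e,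
    (¬ ∃ s : F3, ∀ g, k g = s * (mu e g - 1)) → (C * d) ^ C ≤ z → 2 ≤ X →
    LL X / 3 - LL z - c ≤ B6.S.ms (Wn z X fun p => p.Prime ∧ mu e (fq p) = 1 ∧ k (fq p) ≠ 0) := by
  obtain ⟨c, hc⟩ := neg_mass
  obtain ⟨C, hC⟩ := exists_ht
  refine ⟨40 + 2 / 3 * c, 9 * C + 18, fun e d z X hd k hk hn hz hX => ?_⟩
  have d1 : 1 ≤ d := Nat.pos_of_ne_zero hd
  have t1 : 1 ≤ (C * d) ^ C := by
    rcases C.eq_zero_or_pos with rfl | k
    · simp
    · exact Nat.one_le_pow _ _ (Nat.mul_pos k d1)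
  have z1 : (2 * (2 * (C * d) ^ C)) ^ 9 ≤ z := by
    refine le_trans ?_ hz
    rw [pow_add, show (2 * (2 * (C * d) ^ C)) ^ 9 = (C * d) ^ (9 * C) * 2 ^ 18 by ring]
    exact Nat.mul_le_mul (Nat.pow_le_pow_left (Nat.mul_le_mul_right d (by omega)) _)
      (Nat.pow_le_pow_left (by nlinarith) _)
  have z2 : 2 ≤ z := le_trans (le_trans (by omega) (Nat.le_self_pow (by norm_num) _)) z1
  obtain ⟨y, hy⟩ := tc_of_ht hk.1 hn (hC e d hd k hk) (Nat.one_le_cast.2 t1)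
  have h1 := tc_fq hy hX (z := z) (by exact_mod_cast z1)
    (fun p => p.Prime ∧ mu e (fq p) = -1) (fun p => p.Prime ∧ mu e (fq p) = 1 ∧ k (fq p) = 0)
    (fun p a => ⟨a.1, fun b => absurd (b.2.1.symm.trans a.2) (by decide),
      card_pos.2 ⟨-k (fq p), mem_filter.2 ⟨mem_univ _, by
        rw [a.2]
        generalize k (fq p) = c
        revert c
        decide⟩⟩⟩)
    fun p a => ⟨a.1, by simp [a.2.1, a.2.2]⟩
  have h2 := hc e z X z2 hX
  have h3 := ms_win z2 hX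
  rw [ms_or z X _ (fun p => p.Prime ∧ mu e (fq p) = -1) (fun p => p.Prime ∧ mu e (fq p) = 1)
      (fun p => by have := mu_cases e (fq p); tauto)
      fun p a b => absurd (b.2.symm.trans a.2) (by decide),
    ms_or z X (fun p => p.Prime ∧ mu e (fq p) = 1)
      (fun p => p.Prime ∧ mu e (fq p) = 1 ∧ k (fq p) = 0)
      (fun p => p.Prime ∧ mu e (fq p) = 1 ∧ k (fq p) ≠ 0) (fun p => by tauto)
      fun p a b => b.2.2 a.2.2] at h3
  linarith

end Pool.Agent.Lib.MP_696deb_nt.CU.CV
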