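import Pool.Agent.Lib.MP_696deb_nt.CV.Z1

/-! Every cocycle of level one has a root pair of polynomial height. -/

set_option autoImplicit false
set_option linter.unusedSectionVars false

open scoped Classical

namespace Pool.Agent.Lib.MP_696deb_nt.CU.CV

open Kt (zt zt_add zt_zero zt_ne smul_zt)

theorem Ht.mono {μ κ : Gam → F3} {s t : ℝ} (h : Ht μ κ s) (k : s ≤ t) : Ht μ κ t := by
  obtain ⟨a, b, h1, h2, h3, h4, h5, h6, h7⟩ := h
  exact ⟨a, b, h1, h2, h3, h4, h5, h6.trans k, h7.trans k⟩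

theorem Ht.zero (μ : Gam → F3) : Ht μ 0 1 :=
  ⟨1, 1, fun g => by simp, one_ne_zero, one_ne_zero, isIntegral_one, isIntegral_one, by simp,
    by simp⟩

theorem Ht.neg {μ κ : Gam → F3} {t : ℝ} (h : Ht μ κ t) : Ht μ (-κ) t := by
  obtain ⟨a, b, h1, h2, h3, h4, h5, h6, h7⟩ := h
  refine ⟨b, a, fun g => ?_, h3, h2, h5, h4, h7, h6⟩
  simp only [Pi.neg_apply, neg_neg]
  exact ⟨fun k => ((h1 g).1 k).symm, fun k => ((h1 g).2 k).symm⟩

theorem Ht.add {μ κ κ' : Gam → F3} {s t : ℝ} (h : Ht μ κ s) (h' : Ht μ κ' t) :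
    Ht μ (κ + κ') (s * t) := by
  obtain ⟨a, b, h1, h2, h3, h4, h5, h6, h7⟩ := h
  obtain ⟨c, d, k1, k2, k3, k4, k5, k6, k7⟩ := h'
  have z : ∀ {g : Gam} {x y x' y' : Qbar} {i j : F3}, g x = zt i * x' → g y = zt j * y' →
      g (x * y) = zt (i + j) * (x' * y') := fun e e' => by
    rw [map_mul, e, e', zt_add]
    ring
  have n : ∀ {x y : Qbar}, ‖B2.jC x‖ ≤ s → ‖B2.jC y‖ ≤ t → ‖B2.jC (x * y)‖ ≤ s * t :=
    fun e e' => by
      rw [map_mul, norm_mul]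
      exact mul_le_mul e e' (norm_nonneg _) ((norm_nonneg _).trans e)
  refine ⟨a * c, b * d, fun g => ?_, mul_ne_zero h2 k2, mul_ne_zero h3 k3, h4.mul k4, h5.mul k5,
    n h6 k6, n h7 k7⟩
  rw [Pi.add_apply, neg_add]
  exact ⟨fun k => ⟨z ((h1 g).1 k).1 ((k1 g).1 k).1, z ((h1 g).1 k).2 ((k1 g).1 k).2⟩,
    fun k => ⟨z ((h1 g).2 k).1 ((k1 g).2 k).1, z ((h1 g).2 k).2 ((k1 g).2 k).2⟩⟩

theorem Ht.smul {μ κ : Gam → F3} {t : ℝ} (h : Ht μ κ t) (ht : 1 ≤ t) (c : F3) :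
    Ht μ (c • κ) t := by
  rcases (by decide : ∀ c : F3, c = 0 ∨ c = 1 ∨ c = -1) c with rfl | rfl | rfl
  · rw [zero_smul]
    exact (Ht.zero μ).mono ht
  · rwa [one_smul]
  · rw [neg_smul, one_smul]
    exact h.neg

theorem Ht.sum {μ : Gam → F3} {ι : Type*} (S : Finset ι) {κ : ι → Gam → F3} {t : ι → ℝ}
    (h : ∀ i ∈ S, Ht μ (κ i) (t i)) : Ht μ (∑ i ∈ S, κ i) (∏ i ∈ S, t i) := by
  induction S using Finset.induction_on with
  | empty => exact Ht.zero μ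
  | insert i S hi ih =>
    rw [Finset.sum_insert hi, Finset.prod_insert hi]
    exact (h i (Finset.mem_insert_self i S)).add (ih fun j hj => h j (Finset.mem_insert_of_mem hj))

variable [δ : Qd] {e : ℕ} {κ : Gam → F3}

theorem ht_iff (g : Gam) :
    (mu e g = chi g ↔ mu (e + 1) g = 1) ∧ (mu e g ≠ chi g → mu e g = -chi g) := by
  rw [mu_succ]
  rcases mu_cases e g with h | h <;> rcases chi_cases g with k | k <;> rw [h, k] <;> decide

/-- The group on which the character of the side `e` is the cyclotomic character. -/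
noncomputable def HtG (e : ℕ) : Subgroup Gam where
  carrier := {g | mu (e + 1) g = 1}
  one_mem' := mu_one _
  mul_mem' := fun {a b} h k => by
    rw [Set.mem_ofPred_eq] at h k ⊢
    rw [mu_mul, h, k, one_mul]
  inv_mem' := fun {a} h => (mu_inv _ a).trans h

theorem op_HtG (e : ℕ) : Op (HtG e) := by
  obtain ⟨U, h1, -, h3⟩ := sm_mu (e + 1) ⊤
  exact Subgroup.isOpen_mono (fun a ha =>
    ((h3 1 trivial a trivial (by rwa [inv_one, one_mul])).symm.trans (mu_one _) :)) h1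

/-- Every cocycle has a root pair. -/
theorem Kc.ht (h : Kc e ⊤ κ) : ∃ t : ℕ, Ht (mu e) κ t := by
  obtain ⟨-, r, r0, -, hr⟩ := H3.kum_surj (H := HtG e) ((HtG e).isClosed_of_isOpen (op_HtG e))
    (m := 1) (κ := κ) (h.1.mono le_top) fun g hg k _ => by
      rw [h.2 g trivial k trivial, (ht_iff g).1.2 hg]
      rfl
  obtain ⟨N, N0, ia⟩ := IsAlgebraic.exists_integral_multiple (R := ℤ) (z := r)
    ((IsFractionRing.isAlgebraic_iff ℤ ℚ Qbar).2 (Algebra.IsAlgebraic.isAlgebraic r))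
  obtain ⟨a, ha⟩ : ∃ a : Qbar, a = N • r := ⟨_, rfl⟩
  rw [← ha] at ia
  have a0 : a ≠ 0 := ha ▸ smul_ne_zero N0 r0
  have h1 : ∀ g : Gam, mu (e + 1) g = 1 → g a = zt (κ g) * a := fun g hg => by
    rw [ha, map_zsmul, hr g hg, mul_smul_comm, mul_comm]
    rfl
  obtain ⟨s, -, hs⟩ := exists_nt (e + 1)
  have s1 : mu e s = -chi s := (ht_iff s).2 fun k => absurd (hs.symm.trans ((ht_iff s).1.1 k))
    (by decide)
  obtain ⟨b, hb⟩ : ∃ b : Qbar, b = zt (κ s) * s a := ⟨_, rfl⟩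
  have h2 : ∀ g : Gam, mu (e + 1) g = -1 → g a = zt (-κ g) * b := fun g hg => by
    have k1 : g a = s ((s⁻¹ * g) a) := by
      rw [← AlgEquiv.mul_apply, mul_inv_cancel_left]
    have k2 := h.2 s trivial (s⁻¹ * g) trivial
    rw [mul_inv_cancel_left, s1] at k2
    rw [k1, h1 _ (by rw [mu_mul, mu_inv, hs, hg]; decide), map_mul, smul_zt, hb, ← mul_assoc,
      ← zt_add, k2]
    congr 2
    change chi s * _ = _
    ring
  have h3 : ∀ g : Gam, g b = zt (chi g * κ s) * (g * s) a := fun g => by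
    rw [hb, map_mul, smul_zt]
    rfl
  have ib : IsIntegral ℤ b := by
    rw [hb]
    refine IsIntegral.mul (IsIntegral.pow (IsIntegral.of_pow (n := 3 ^ 1) (by norm_num) ?_) _)
      (ia.map s.toRingHom.toIntAlgHom)
    rw [(H3.zeta_prim 1).pow_eq_one]
    exact isIntegral_one
  refine ⟨⌈max ‖B2.jC a‖ ‖B2.jC b‖⌉₊, a, b, fun g => ⟨fun k => ?_, fun k => ?_⟩, a0,
    hb ▸ mul_ne_zero (zt_ne _) ((map_ne_zero s).2 a0), ia, ib,
    (le_max_left _ _).trans (Nat.le_ceil _), (le_max_right _ _).trans (Nat.le_ceil _)⟩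
  · have k1 := (ht_iff g).1.1 k
    refine ⟨h1 g k1, ?_⟩
    rw [h3, h2 _ (by rw [mu_mul, k1, hs, one_mul]), ← mul_assoc, ← zt_add,
      h.2 g trivial s trivial, k]
    exact congrArg (zt · * b) (by ring)
  · have k1 := (mu_cases (e + 1) g).resolve_left (mt (ht_iff g).1.2 k)
    refine ⟨h2 g k1, ?_⟩
    rw [h3, h1 _ (by rw [mu_mul, k1, hs]; decide), ← mul_assoc, ← zt_add,
      h.2 g trivial s trivial, (ht_iff g).2 k]
    exact congrArg (zt · * a) (by ring)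

/-- A common bound for the cocycles that are unramified outside of the modulus. -/
theorem ht_base : ∃ T : ℕ, ∀ e : ℕ, ∀ w ∈ KK 1 e, Ht (mu e) w T := by
  have h : ∀ e : ℕ, ∃ T : ℕ, ∀ w ∈ KK 1 e, Ht (mu e) w T := fun e => by
    choose! t ht using fun (w : Gam → F3) (hw : w ∈ KK 1 e) => Kc.ht hw.1
    obtain ⟨T, hT⟩ := ((finite_KK one_ne_zero e).image t).bddAbove
    exact ⟨T, fun w hw => (ht w hw).mono (Nat.cast_le.2 (hT ⟨w, hw, rfl⟩))⟩
  obtain ⟨T0, h0⟩ := h 0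
  obtain ⟨T1, h1⟩ := h 1
  refine ⟨T0 + T1, fun e w hw => ?_⟩
  have k : w ∈ KK 1 (e % 2) := ⟨kc_mod.2 hw.1, hw.2⟩
  rw [← mu_mod]
  rcases Nat.mod_two_eq_zero_or_one e with j | j <;> rw [j] at k ⊢
  · exact (h0 w k).mono (Nat.cast_le.2 (by omega))
  · exact (h1 w k).mono (Nat.cast_le.2 (by omega))

theorem exists_ht : ∃ C : ℕ, ∀ e d : ℕ, d ≠ 0 → ∀ k ∈ KK d e,
    Ht (mu e) k (((C * d) ^ C : ℕ) : ℝ) := by
  obtain ⟨T, hT⟩ := ht_base
  refine ⟨T + MM + 1, fun e d hd k hk => ?_⟩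
  obtain ⟨S, hS⟩ : ∃ S : Finset ℕ,
    S = d.primeFactors.filter fun q => ¬ q ∣ MM ∧ mu (e + 1) (fq q) = 1 := ⟨_, rfl⟩
  have m : ∀ q, q ∈ S ↔ q.Prime ∧ q ∣ d ∧ ¬ q ∣ MM ∧ mu (e + 1) (fq q) = 1 := fun q => by
    simp [hS, hd, and_assoc]
  have h1 : k - ∑ q ∈ S, k (sq q) • kap e q ∈ KK 1 e := by
    refine ⟨hk.1.sub ((Kc.sum S fun q _ => (kc_kap e q ⊤).smul (k (sq q))).congr fun g _ => by
      simp), fun q hq h => ?_⟩
    rw [mul_one] at h
    rw [Pi.sub_apply, Finset.sum_apply, sub_eq_zero, Finset.sum_eq_single q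
      (fun p _ j => by rw [Pi.smul_apply, kap_ne hq h j.symm, smul_zero]) fun j => ?_]
    all_goals
      by_cases j1 : mu (e + 1) (fq q) = 1
    · rw [Pi.smul_apply, kap_self hq h j1, smul_eq_mul, mul_one]
    · rw [(hk.1.mono le_top).ev hq h j1, zero_smul, Pi.zero_apply]
    · rw [hk.2 q hq fun i => (hq.dvd_mul.1 i).elim h fun i => j ((m q).2 ⟨hq, i, h, j1⟩),
        zero_smul, Pi.zero_apply]
    · rw [(hk.1.mono le_top).ev hq h j1, zero_smul, Pi.zero_apply]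
  have h2 : Ht (mu e) (∑ q ∈ S, k (sq q) • kap e q) (∏ q ∈ S, ((q ^ (MM + 1) : ℕ) : ℝ)) :=
    Ht.sum S fun q hq => by
      obtain ⟨q1, -, q2, q3⟩ := (m q).1 hq
      refine ((kap_ht q1 q2 q3).mono ?_).smul
        (Nat.one_le_cast.2 (Nat.one_le_pow _ _ q1.pos)) _
      rw [← Nat.cast_mul, Nat.cast_le, pow_succ]
      exact Nat.mul_le_mul_right _ (Nat.lt_pow_self q1.one_lt).le
  have h3 := (hT e _ h1).add h2
  rw [sub_add_cancel] at h3
  refine h3.mono ?_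
  rw [← Nat.cast_prod, ← Nat.cast_mul, Nat.cast_le, Finset.prod_pow, mul_pow]
  refine Nat.mul_le_mul ((by omega : T ≤ T + MM + 1).trans (Nat.le_self_pow (by omega) _))
    ((Nat.pow_le_pow_left (Nat.le_of_dvd (Nat.pos_of_ne_zero hd) ?_) _).trans
      (Nat.pow_le_pow_right (Nat.pos_of_ne_zero hd) (by omega)))
  exact (Finset.prod_dvd_prod_of_subset _ _ _ (hS ▸ Finset.filter_subset _ _)).trans
    (Nat.prod_primeFactors_dvd d)

end Pool.Agent.Lib.MP_696deb_nt.CU.CV
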