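import Pool.Agent.Lib.MP_696deb_nt.CV.AnD

/-! Rare events. -/

set_option autoImplicit false
set_option linter.unusedSectionVars false

open scoped Classical
open Finset

namespace Pool.Agent.Lib.MP_696deb_nt.CU.CV.Av

open Pool.Agent.Lib.MP_696deb_nt.Sa Pool.Agent.B6.S An

theorem see (F : ℕ → Finset (ℕ → Prop)) (c : ℝ) (K C : ℕ) (T : ℕ → ℕ)
    (hT : ∀ m, 1 ≤ m → YY m ≤ T m ∧ T m ≤ 2 * TT m)
    (hF : ∀ d, d ≠ 0 → (F d).card ≤ K * 3 ^ d.primeFactors.card)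
    (hP : ∀ d, ∀ i ∈ F d, ∀ p, i p → p.Prime)
    (hm : ∀ d z X : ℕ, d ≠ 0 → (2 * d) ^ C ≤ z → 2 ≤ X → ∀ i ∈ F d,
      LL X / 3 - LL z - c ≤ ms (Wn z X i)) :
    Rare fun m _ n => G0 m n ∧ H7 m n ∧ ∃ i ∈ F (lo (T m) n), ∀ p ∈ up (T m) n, ¬ i p := by
  obtain ⟨m1, h1⟩ := exists_nat_ge c
  refine rare_of (m1 + K + C + 100) 27 fun m hm' X hX S hS => ?_
  obtain ⟨t1, t2⟩ := hT m (by omega)
  have y2 := le_YY m
  have m3 : 100 * m ^ 3 ≤ m ^ 4 := by
    rw [pow_succ _ 3, mul_comm]; exact Nat.mul_le_mul_left _ (by omega)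
  have m4 := Nat.le_self_pow three_ne_zero m
  obtain ⟨a, ha⟩ : ∃ a, a = 2 ^ (2 * m ^ 3) := ⟨_, rfl⟩
  have a1 : 2 * m ^ 3 ≤ a := ha ▸ Nat.lt_two_pow_self.le
  obtain ⟨D, hD⟩ : ∃ D, D = (Icc 1 (2 ^ a)).filter fun d => 100 * d.primeFactors.card ≤ m ^ 4 :=
    ⟨_, rfl⟩
  obtain ⟨G, hG⟩ : ∃ G : ℕ → (ℕ → Prop) → Finset ℕ, ∀ d i, G d i = (Den.SO (X / d)).filter
    fun k => ∀ p ∈ Wn (2 ^ (2 * a * a)) (X / d) i, ¬ p ∣ k := ⟨_, fun _ _ => rfl⟩
  have c1 : S.card ≤ ∑ d ∈ D, ∑ i ∈ F d, (G d i).card := by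
    refine le_trans (card_le_card (t := D.biUnion fun d => (F d).biUnion fun i =>
      (G d i).image fun k => d * k) fun n hn => ?_) (card_biUnion_le.trans (sum_le_sum fun d _ =>
        card_biUnion_le.trans (sum_le_sum fun c _ => card_image_le)))
    obtain ⟨b1, b2, b3, i, b4, b5⟩ := hS n hn
    obtain ⟨n1, n2⟩ := mem_Icc.1 b1
    have d1 := Nat.pos_of_ne_zero (lo_ne (T := T m) (n := n) (by omega))
    have b6 : 100 * (n.primeFactors.filter fun p => p ≤ T m).card ≤ m ^ 4 :=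
      (Nat.mul_le_mul_left 100 (card_le_card (monotone_filter_right _
        fun p _ hp => hp.trans t2))).trans b3
    have hk : Squarefree (∏ p ∈ up (T m) n, p) :=
      Finset.squarefree_prod_of_pairwise_isCoprime (fun p hp q hq h => by
        simp only [Function.onFun, ← Nat.coprime_iff_isRelPrime]
        exact (Nat.coprime_primes (up_prime hp) (up_prime hq)).2 h)
        fun p hp => (up_prime hp).squarefree
    have pf : ∀ p, p.Prime → p ∣ ∏ p ∈ up (T m) n, p → p ∈ up (T m) n := fun p hp e => by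
      rw [← Nat.primeFactors_prod fun p (hp : p ∈ up (T m) n) => up_prime hp]
      exact Nat.mem_primeFactors.2 ⟨hp, e, hk.ne_zero⟩
    refine mem_biUnion.2 ⟨lo (T m) n, ?_, mem_biUnion.2 ⟨i, b4, mem_image.2 ⟨_, ?_, lo_mul _ n⟩⟩⟩
    · rw [hD]
      refine mem_filter.2 ⟨mem_Icc.2 ⟨d1, (lo_le b2 (by omega)).trans ?_⟩,
        by rwa [lo_pf b2 (by omega) (by omega)]⟩
      refine (Nat.mul_le_mul (Nat.pow_le_pow_left Nat.lt_two_pow_self.le 2)
        ((Nat.pow_le_pow_left t2 _).trans (Nat.pow_le_pow_right (n := 2 * TT m)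
          (by omega) (j := m ^ 4) (by omega)))).trans ?_
      rw [TT, ← pow_succ', ← pow_mul, ← pow_mul, ← pow_add]
      refine Nat.pow_le_pow_right two_pos (le_trans ?_ (ha ▸ aa_le (by omega)))
      nlinarith
    · rw [hG]
      refine mem_filter.2 ⟨Mom.HT.mem_SO.2 ⟨⟨Nat.pos_of_ne_zero hk.ne_zero, ?_⟩, hk,
        Nat.not_even_iff_odd.1 fun e => ?_⟩, fun p hp e => ?_⟩
      · rwa [Nat.le_div_iff_mul_le d1, mul_comm, lo_mul]
      · have := (mem_up.1 (pf 2 Nat.prime_two e.two_dvd)).2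
        omega
      · have := (mem_Wn.1 hp).2.2
        exact b5 p (pf p (hP _ i b4 p this) e) this
  obtain ⟨μ, hμ⟩ : ∃ μ : ℝ, μ = (((m : ℝ) ^ 4 - 1) / 2 - 1) / 3 - (4 * (m : ℝ) ^ 3 + 1) - c :=
    ⟨_, rfl⟩
  have c2 : ∀ d ∈ D, ((∑ i ∈ F d, (G d i).card : ℕ) : ℝ) ≤
      Real.exp ((m : ℝ) ^ 4 / 50 + m) * (27 * X * Real.exp (15 - μ)) * (1 / d : ℝ) := by
    intro d hd
    obtain ⟨d1, d2⟩ := mem_filter.1 (hD ▸ hd)
    obtain ⟨d0, d1⟩ := mem_Icc.1 d1
    have hZ : 2 ^ 2 ^ (m ^ 4 - 1) ≤ X / d := by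
      rw [Nat.le_div_iff_mul_le d0]
      refine le_trans (Nat.mul_le_mul_left _ (d1.trans (Nat.pow_le_pow_right two_pos
        (ha ▸ Nat.pow_le_pow_right two_pos (j := m ^ 4 - 1) (by omega))))) (le_trans ?_ hX.1)
      rw [← pow_add, ← two_mul, ← pow_succ', Nat.sub_add_cancel (by omega)]
    have hZ2 : 2 ≤ X / d := le_trans (Nat.le_self_pow (by positivity) 2) hZ
    have e2 : ((F d).card : ℝ) ≤ Real.exp ((m : ℝ) ^ 4 / 50 + m) := by
      have k : (100 * d.primeFactors.card : ℝ) ≤ (m : ℝ) ^ 4 := by exact_mod_cast d2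
      refine (Nat.cast_le.2 (hF d (by omega))).trans ?_
      push_cast
      rw [Real.exp_add, mul_comm]
      refine mul_le_mul ((pow_le_pow_left₀ (by norm_num) (show (3 : ℝ) ≤ Real.exp 2 by
        linarith [Real.add_one_le_exp 2]) _).trans ?_) ((Nat.cast_le.2 (by omega : K ≤ m)).trans
          (by linarith [Real.add_one_le_exp m])) K.cast_nonneg (Real.exp_pos _).le
      rw [← Real.exp_nat_mul]
      exact Real.exp_le_exp.2 (by linarith)
    have z1 : (2 * d) ^ C ≤ 2 ^ (2 * a * a) := by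
      refine (Nat.pow_le_pow_left (Nat.mul_le_mul_left 2 d1) C).trans ?_
      rw [← pow_succ', ← pow_mul]
      exact Nat.pow_le_pow_right two_pos (Nat.mul_le_mul (by omega) (by omega))
    have a0 : 0 < 2 * a * a := Nat.mul_pos (by omega) (by omega)
    have z2 := LL_le (a := 2 * a * a) (e := 4 * m ^ 3 + 1) a0.ne' (by
      rw [ha, ← pow_succ', ← pow_add]
      exact Nat.pow_le_pow_right two_pos (by omega))
    have z3 := LL_ge hZ
    rw [Nat.cast_sub (by omega)] at z3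
    push_cast at z2 z3
    rw [Nat.cast_sum, mul_assoc]
    refine (sum_le_card_nsmul _ _ (27 * X * Real.exp (15 - μ) * (1 / d : ℝ))
      fun i hi => ?_).trans ?_
    · have f4 := hm d _ (X / d) (by omega) z1 hZ2 i hi
      have hq : ((X / d : ℕ) : ℝ) ≤ X / d := Nat.cast_div_le
      refine (sieve hZ2 (P := Wn (2 ^ (2 * a * a)) (X / d) i)
        (fun p hp => ?_) fun k hk => mem_filter.1 (hG d i ▸ hk)).trans ?_
      · obtain ⟨b0, b1, b2⟩ := mem_Wn.1 hp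
        have := Nat.le_self_pow a0.ne' 2
        exact ⟨hP d i hi p b2, (hP d i hi p b2).odd_of_ne_two (by omega), b1⟩
      · exact (mul_le_mul (mul_le_mul_of_nonneg_left hq (by norm_num)) (Real.exp_le_exp.2
          (show _ ≤ 15 - μ by linarith)) (Real.exp_pos _).le (by positivity)).trans_eq (by ring)
    · rw [nsmul_eq_mul]
      exact mul_le_mul_of_nonneg_right e2 (by positivity)
  have c4 : ∑ d ∈ D, (1 / d : ℝ) ≤ Real.exp (2 * (m : ℝ) ^ 3 + 1) := by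
    have k1 : (a : ℝ) ≤ Real.exp (2 * (m : ℝ) ^ 3) := by
      rw [ha]
      push_cast
      refine (pow_le_pow_left₀ (by norm_num) (show (2 : ℝ) ≤ Real.exp 1 by
        linarith [Real.add_one_le_exp 1]) _).trans_eq ?_
      rw [← Real.exp_nat_mul]
      simp
    have k2 := Real.one_le_exp (x := 2 * (m : ℝ) ^ 3) (by positivity)
    rw [hD, Real.exp_add]
    refine (sum_le_sum_of_subset_of_nonneg (filter_subset _ _) fun d _ _ => by positivity).trans
      ((sum_inv_le _).trans ?_)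
    nlinarith [(log_pow_two a).2, Real.add_one_le_exp 1]
  have c3 := (Nat.cast_le (α := ℝ).2 c1).trans (Nat.cast_sum (R := ℝ) _ _ ▸ sum_le_sum c2)
  rw [← mul_sum] at c3
  have r1 : (m1 : ℝ) ≤ m := by exact_mod_cast (by omega : m1 ≤ m)
  have r2 : (100 : ℝ) ≤ m := by exact_mod_cast (by omega : 100 ≤ m)
  have r3 : 100 * (m : ℝ) ^ 3 ≤ (m : ℝ) ^ 4 := by exact_mod_cast m3
  have r4 : (m : ℝ) ≤ (m : ℝ) ^ 3 := by exact_mod_cast m4
  refine (mul_le_mul (c3.trans (mul_le_mul_of_nonneg_left c4 (by positivity)))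
    (show (m : ℝ) ≤ Real.exp m by linarith [Real.add_one_le_exp m]) m.cast_nonneg
    (by positivity)).trans (le_of_eq_of_le (b := 27 * X * Real.exp ((m : ℝ) ^ 4 / 50 + m +
      (15 - μ) + (2 * (m : ℝ) ^ 3 + 1) + m)) (by simp only [Real.exp_add]; ring)
    (mul_le_of_le_one_right (by positivity) (Real.exp_le_one_iff.2 (by linarith))))

theorem rare_cnt {P : ℕ → Prop} (hP : ∀ p, P p → p.Prime) {z0 : ℕ} {c : ℝ} (z : ℕ → ℕ)
    (hz : ∀ m, 6 ≤ m → m ≤ z m ∧ z m ≤ TT m) (h : ∀ z X : ℕ, z0 ≤ z → 2 ≤ X →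
      LL X / 4 - LL z - c ≤ ms (Wn z X P)) :
    Rare fun m X n => ¬ m ^ 4 ≤ 10 * (n.primeFactors ∩ Wn (z m) X P).card := by
  intro ε hε
  obtain ⟨m0, h0⟩ := r7a (P := fun _ => P) (fun _ => hP) z ε hε
  obtain ⟨m1, h1⟩ := exists_nat_ge c
  refine ⟨m0 + m1 + z0 + 300, fun m hm X hX => le_trans (Nat.cast_le.2
    (card_le_card fun n hn => ?_)) (h0 m (by omega) X hX)⟩
  simp only [mem_filter] at hn ⊢
  refine ⟨hn.1, le_abs.2 (.inr ?_)⟩
  obtain ⟨z1, z2⟩ := hz m (by omega)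
  have h2 := h (z m) X (by omega) (two_le_X hX)
  have h4 := (LL_mono (by omega) z2).trans (LL_le (a := aa m 1) (e := 2 * m ^ 3)
    (Nat.mul_pos (pow_pos (by omega) _) (pow_pos two_pos _)).ne' (le_trans (by
      have := Nat.one_le_pow 4 m (by omega)
      nlinarith) (aa_le (by omega))))
  have h5 := LL_ge hX.1
  have m2 : (300 : ℝ) ≤ m := by exact_mod_cast (by omega : 300 ≤ m)
  have m1 : (m1 : ℝ) ≤ m := by exact_mod_cast (by omega : m1 ≤ m)
  have m3 : (m : ℝ) ≤ (m : ℝ) ^ 3 := le_self_pow₀ (by linarith) three_ne_zero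
  have m4 : 300 * (m : ℝ) ^ 3 ≤ (m : ℝ) ^ 4 := by nlinarith
  have h6 : (10 * (n.primeFactors ∩ Wn (z m) X P).card : ℝ) ≤ (m : ℝ) ^ 4 := by
    exact_mod_cast (not_le.1 hn.2).le
  push_cast at h4 h5
  linarith

variable [δ : Qd]

theorem card_Ck (m X : ℕ) : (((Wn (YY m) X Nat.Prime).image (Ck m X)).card : ℝ) ≤
    (Real.log X * (m : ℝ) ^ 11 + 1) * 9 := by
  let g : ℕ × F3 × F3 → Finset ℕ := fun t =>
    Wn (YY m) X fun q => q.Prime ∧ Sa.kap m q = t.1 ∧ cl q = t.2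
  have hs : (Wn (YY m) X Nat.Prime).image (Ck m X) ⊆
      (range (Sa.kap m X + 1) ×ˢ univ).image g := by
    intro T hT
    obtain ⟨p, hp, rfl⟩ := mem_image.1 hT
    obtain ⟨p1, p2, -⟩ := mem_Wn.1 hp
    refine mem_image.2 ⟨(Sa.kap m p, cl p), ?_, rfl⟩
    simp only [mem_product, mem_range]
    refine ⟨Nat.lt_succ_of_le (Nat.floor_le_floor ?_), mem_univ _⟩
    have h0 : (0 : ℝ) < p := by exact_mod_cast (Nat.zero_le _).trans_lt p1
    exact mul_le_mul_of_nonneg_right (Real.log_le_log h0 (by exact_mod_cast p2)) (by positivity)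
  have h1 := (card_le_card hs).trans card_image_le
  rw [card_product, card_range, card_univ, Fintype.card_prod, ZMod.card] at h1
  have h2 : (Sa.kap m X : ℝ) ≤ Real.log X * (m : ℝ) ^ 11 :=
    Nat.floor_le (mul_nonneg (Real.log_natCast_nonneg X) (by positivity))
  refine (Nat.cast_le.2 h1).trans ?_
  push_cast
  linarith

theorem rareH4 : Rare fun m X n => ¬ H4 m X n := by
  refine rare_of 20 1 fun m hm X hX S hS => ?_
  have h1 := markov (T := 1) ((Wn (YY m) X Nat.Prime).filter fun p =>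
    ((Ck m X p).card : ℝ) < (1 / 2) ^ m ^ 5 * p) (fun n hn => (hS n hn).1) fun n hn => by
      obtain ⟨a, b⟩ := hS n hn
      simp only [H4, not_forall, not_le] at b
      obtain ⟨p, hp, b⟩ := b
      exact_mod_cast card_pos.2 ⟨p, mem_inter.2 ⟨(mem_up.1 hp).1, mem_filter.2 ⟨mem_Wn.2
        ⟨(mem_up.1 hp).2, (Nat.le_of_mem_primeFactors (mem_up.1 hp).1).trans (mem_Icc.1 a).2,
          up_prime hp⟩, b⟩⟩⟩
  have h2 := (small_cls (Wn (YY m) X Nat.Prime) (Ck m X) (fun p hp => by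
    rw [mem_Wn] at hp
    exact mem_Ck.2 ⟨hp.1, hp.2.1, hp.2.2, rfl, rfl⟩) (θ := (1 / 2) ^ m ^ 5) (by positivity)).trans
      (mul_le_mul_of_nonneg_left (card_Ck m X) (by positivity))
  have h3 := hX.log_le (by omega)
  have h4 : ((1 : ℝ) / 2) ^ m ^ 5 * ((Real.log X * (m : ℝ) ^ 11 + 1) * 9) ≤ (1 / 2) ^ m := by
    refine le_trans ?_ (anB_num hm)
    refine le_trans ?_ (le_mul_of_one_le_left (by positivity) (le_add_of_nonneg_right
      (by positivity)))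
    rw [mul_assoc _ 8]
    gcongr
    linarith [le_self_pow₀ (one_le_two (α := ℝ)) (n := m + 3) (by omega)]
  have h5 : ((1 : ℝ) / 2) ^ m * m ≤ 1 := by
    rw [one_div_pow, one_div_mul_eq_div, div_le_one (by positivity)]
    exact_mod_cast Nat.lt_two_pow_self.le
  rw [mul_one] at h1
  refine (mul_le_mul_of_nonneg_right (h1.trans (mul_le_mul_of_nonneg_left (h2.trans h4)
    X.cast_nonneg)) m.cast_nonneg).trans ?_
  rw [mul_assoc, one_mul]
  exact mul_le_of_le_one_right X.cast_nonneg h5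

theorem rareW0 : Rare fun m _ n => ¬ m ^ 2 ≤ (n.primeFactors ∩ W0 m).card := by
  obtain ⟨c, h⟩ := ty_mass
  obtain ⟨m1, k1⟩ := exists_nat_ge c
  refine rare_of (MM + m1 + 40) 12 fun m hm X hX S hS => ?_
  have a0 : 0 < aa m 0 := Nat.mul_pos (pow_pos (by omega) _) (pow_pos two_pos _)
  have b0 : 0 < aa m 0 * 2 ^ m ^ 3 := Nat.mul_pos a0 (pow_pos two_pos _)
  have h1 := (h (YY m) _ (le_trans (by omega) (le_YY m)) (Nat.le_self_pow b0.ne' 2)).2
  have h2 := LL_ge (Nat.pow_le_pow_right two_pos (Nat.le_mul_of_pos_left (2 ^ m ^ 3) a0))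
  have h3 := LL_YY (m := m) (by omega)
  have h5 : (W0 m).card ≤ X := (card_le_card fun p hp => mem_Ioc.2
    ⟨by simpa [aa, YY] using (mem_Wn.1 hp).1, (mem_Wn.1 hp).2.1⟩).trans
      (ane_win (k := 0) (by omega) three_pos hX)
  have m2 : (40 : ℝ) ≤ m := by exact_mod_cast (by omega : 40 ≤ m)
  have m1 : (m1 : ℝ) ≤ m := by exact_mod_cast (by omega : m1 ≤ m)
  rw [← W0] at h1
  push_cast at h2
  have m3 : 40 * (m : ℝ) ≤ (m : ℝ) ^ 2 := by nlinarith
  have m4 : 40 * (m : ℝ) ^ 2 ≤ (m : ℝ) ^ 3 := by nlinarith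
  have h6 : 2 * (m : ℝ) ^ 2 ≤ ms (W0 m) := by linarith
  have h7 := cheb (fun p hp => (mem_Wn.1 hp).2.2.1) h5 (S := S) (fun n hn => (hS n hn).1)
    (δ := ms (W0 m) / 2) (by linarith [ms_nonneg (W0 m)]) fun n hn => by
      have a : ((n.primeFactors ∩ W0 m).card : ℝ) ≤ (m : ℝ) ^ 2 := by
        exact_mod_cast (not_le.1 (hS n hn).2).le
      exact le_abs.2 (.inr (by linarith))
  generalize ms (W0 m) = μ at h6 h7
  refine (mul_le_mul_of_nonneg_left (show (m : ℝ) ≤ μ by linarith) (Nat.cast_nonneg _)).trans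
    (le_of_mul_le_mul_right (a := μ / 4) ?_ (by linarith))
  linarith

theorem rareW1 : Rare fun m X n => ¬ m ^ 4 ≤ 10 * (n.primeFactors ∩ W1 m X).card :=
  rare_cnt (fun _ h => h.1) TT (fun m hm => ⟨(le_YY m).trans (YY_TT (by omega)), le_rfl⟩)
    fun z X a b => (ty_mass.choose_spec z X a b).1

theorem rareGap (c : ℕ) : Rare fun m _ n => G0 m n ∧ ¬ Gap c m n := by
  obtain ⟨c', h'⟩ := inert_mass
  refine ((rare_cnt (P := fun p => p.Prime ∧ p % 3 = 2) (z0 := 3) (c := c' + 1) (fun _ h => h.1) YY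
    (fun m hm => ⟨le_YY m, YY_TT (by omega)⟩) fun z X a b => ?_).or (rare_of
      (P := fun m X n => G0 m n ∧ ¬ Gap c m n ∧ m ^ 4 ≤ 10 * (n.primeFactors ∩
        Wn (YY m) X fun p => p.Prime ∧ p % 3 = 2).card) (MM + c + 20)
      (36 * Real.exp 17 * (6 * c + 3)) fun m hm X hX S hS => ?_)).mono fun m X n h => by tauto
  · have := (LL_pow one_ne_zero).1.trans (LL_mono le_rfl b)
    norm_num at this
    linarith [h' z X a b]
  obtain ⟨P, hP⟩ : ∃ P : ℕ → Finset ℕ, ∀ e, P e =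
    Wn (YY m) X fun p => p.Prime ∧ mu e (fq p) = 1 ∧ mu (e + 1) (fq p) ≠ 1 := ⟨_, fun _ => rfl⟩
  have m4 : 20 ^ 2 * m ^ 2 ≤ m ^ 4 := (Nat.mul_le_mul_right _
    (Nat.pow_le_pow_left (by omega) 2)).trans_eq (pow_add m 2 2).symm
  have m2 : 3 * c * m ≤ 3 * m ^ 2 := by nlinarith
  have m3 : 20 * m ≤ m ^ 2 := by nlinarith
  have h1 := near (P := P 0) (Q := P 1) (k := m ^ 4 / 25) (H := 3 * c * m) (m := m) (X := X)
    (disjoint_left.2 fun p a b => (mem_Wn.1 (hP 0 ▸ a)).2.2.2.2 (mem_Wn.1 (hP 1 ▸ b)).2.2.2.1)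
    (by omega) (le_trans (le_trans (by omega) (Nat.lt_two_pow_self.trans Nat.lt_two_pow_self).le)
      hX.1) (fun p hp => by
        rcases mem_union.1 hp with a | a <;> exact (le_YY m).trans_lt (mem_Wn.1 (hP _ ▸ a)).1)
    (S := S) fun n hn => by
      obtain ⟨a1, a2, a3, a4⟩ := hS n hn
      refine ⟨a1, a2, ?_⟩
      have b1 : ∀ e, cn e m n = ((lP m n).filter fun p => mu e (fq p) = 1 ∧
          mu (e + 1) (fq p) = 1).card + (n.primeFactors ∩ P e).card := fun e => by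
        rw [cn, ← card_filter_add_card_filter_not fun p => mu (e + 1) (fq p) = 1, filter_filter]
        refine congrArg _ (congrArg _ (Finset.ext fun p => ?_))
        simp only [hP, lP, mem_filter, mem_inter, mem_Wn]
        exact ⟨fun x => ⟨x.1.1.1, x.1.1.2, (Nat.le_of_mem_primeFactors x.1.1.1).trans
          (mem_Icc.1 a1).2, Nat.prime_of_mem_primeFactors x.1.1.1, x.1.2, x.2⟩,
          fun x => ⟨⟨⟨x.1, x.2.1⟩, x.2.2.2.2.1⟩, x.2.2.2.2.2⟩⟩
      have b2 := b1 1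
      have b3 := (card_le_card (s := n.primeFactors ∩ Wn (YY m) X fun p => p.Prime ∧ p % 3 = 2)
        (t := n.primeFactors ∩ P 0 ∪ n.primeFactors ∩ P 1) fun p hp => by
          simp only [hP, mem_union, mem_inter, mem_Wn, show mu (1 + 1) = mu 0 from mu_add_two 0]
            at hp ⊢
          have d := not_dvd (le_trans (by omega) (le_YY m)) hp.2.1
          have x := mu_mul_succ 0 (fq p)
          rw [chi_fq hp.2.2.2.1 (ne_three d), ← ZMod.natCast_mod, hp.2.2.2.2] at x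
          have y : ∀ a b : F3, a * b = (2 : ℕ) → a = 1 ∧ b ≠ 1 ∨ b = 1 ∧ a ≠ 1 := by decide
          have := y _ _ x
          tauto).trans (card_union_le _ _)
      rw [show mu (1 + 1) = mu 0 from mu_add_two 0, filter_congr fun p _ => and_comm] at b2
      rw [Gap, b1 0, b2, zero_add] at a3
      rw [Nr]
      omega
  have m0 : (1 : ℝ) ≤ m := by exact_mod_cast (by omega : 1 ≤ m)
  have h2 : (m : ℝ) ^ 2 / 6 ≤ √(m ^ 4 / 25 : ℕ) := Real.le_sqrt_of_sq_le (by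
    rw [div_pow, ← pow_mul, div_le_iff₀ (by norm_num)]
    exact_mod_cast (by omega : m ^ 4 ≤ m ^ 4 / 25 * 36))
  have h3 := (mul_le_mul_of_nonneg_left h2 S.card.cast_nonneg).trans h1
  push_cast at h3
  have h4 := mul_le_mul_of_nonneg_left m0 (show 0 ≤ Real.exp 17 * X by positivity)
  refine le_of_mul_le_mul_right (a := (m : ℝ) / 6) ?_ (by positivity)
  linarith

theorem exists_T : ∃ T : ℕ, ∀ e, ∀ w ∈ KK 1 e, Ht (mu e) w (T + 1 : ℕ) := by
  have h : ∀ e, ∃ T : ℕ, ∀ w ∈ KK 1 e, Ht (mu e) w T := fun e => by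
    choose! f hf using fun (w : Gam → F3) (hw : Kc e ⊤ w) => exists_ht hw
    exact ⟨(finite_KK e).toFinset.sup f, fun w hw => ht_mono (hf w hw.1)
      (Nat.cast_le.2 (le_sup ((Set.Finite.mem_toFinset _).2 hw)))⟩
  obtain ⟨a, ha⟩ := h 0
  obtain ⟨b, hb⟩ := h 1
  refine ⟨a + b, fun e w hw => ?_⟩
  have k : w ∈ KK 1 (e % 2) := ⟨kc_mod.2 hw.1, hw.2⟩
  rw [← mu_mod]
  rcases Nat.mod_two_eq_zero_or_one e with x | x <;> rw [x] at k ⊢
  exacts [ht_mono (ha w k) (Nat.cast_le.2 (by omega)), ht_mono (hb w k) (Nat.cast_le.2 (by omega))]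

theorem rarePe (e : ℕ) : Rare fun m _ n => G0 m n ∧ H7 m n ∧ ∃ k ∈ KK (lo (2 * TT m) n) e,
    lo (2 * TT m) n ≠ 0 ∧ (∀ q ∈ up (2 * TT m) n, mu e (fq q) = 1 → k (fq q) = 0) ∧
      ¬ ∃ s : F3, ∀ g, k g = s * (mu e g - 1) := by
  obtain ⟨c, hc⟩ := see_mass
  obtain ⟨T, hT⟩ := exists_T
  let v : ∀ d : ℕ, (Gam → F3) × (d.primeFactors → F3) → Gam → F3 := fun d x =>
    x.1 + rm e d fun q => if h : q ∈ d.primeFactors then x.2 ⟨q, h⟩ else 0
  let F : ℕ → Finset (ℕ → Prop) := fun d => ((((finite_KK e).toFinset ×ˢ univ).image (v d)).filter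
    fun k => ¬ ∃ s : F3, ∀ g, k g = s * (mu e g - 1)).image
      fun k p => p.Prime ∧ mu e (fq p) = 1 ∧ k (fq p) ≠ 0
  refine (see F c (finite_KK e).toFinset.card (9 * (T + MM + 3)) (fun m => 2 * TT m)
    (fun m hm => ⟨by have := YY_TT hm; omega, le_rfl⟩) (fun d hd => ?_) (fun d i hi p hp => ?_)
    fun d z X hd hz hX i hi => ?_).mono fun m X n h => ?_
  · refine card_image_le.trans ((card_filter_le _ _).trans (card_image_le.trans_eq ?_))
    rw [card_product, card_univ, Fintype.card_fun, ZMod.card, Fintype.card_coe]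
  · obtain ⟨k, -, rfl⟩ := mem_image.1 hi
    exact hp.1
  · obtain ⟨k, a, rfl⟩ := mem_image.1 hi
    obtain ⟨a1, a2⟩ := mem_filter.1 a
    obtain ⟨x, b, rfl⟩ := mem_image.1 a1
    have b1 : x.1 ∈ KK 1 e := (Set.Finite.mem_toFinset _).1 (mem_product.1 b).1
    have d1 : 1 ≤ d ^ (MM + 1) := pow_pos hd.bot_lt _
    have z1 : (4 * ((T + 1) * d ^ (MM + 1))) ^ 9 ≤ z := by
      refine le_trans ?_ hz
      rw [mul_comm 9, pow_mul, mul_pow 2, ← mul_assoc]
      refine Nat.pow_le_pow_left (Nat.mul_le_mul ?_ (Nat.pow_le_pow_right hd.bot_lt (by omega))) 9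
      rw [show T + MM + 3 = 2 + (T + MM + 1) by omega, pow_add]
      exact Nat.mul_le_mul_left 4 (le_trans (by omega) Nat.lt_two_pow_self.le)
    refine hc e z X _ _ (b1.1.add (kc_rm _)) a2 (ht_add (hT e _ b1) (ht_rm hd _))
      (by exact_mod_cast Nat.mul_pos T.succ_pos d1) (by exact_mod_cast z1) ?_ hX
    exact le_trans (le_trans (by omega) (Nat.lt_pow_self (by omega)).le) hz
  · obtain ⟨g0, g7, k, a, d0, b, g⟩ := h
    refine ⟨g0, g7, _, mem_image_of_mem _ (mem_filter.2 ⟨mem_image.2 ⟨(_, fun q => k (sq q)),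
      mem_product.2 ⟨(Set.Finite.mem_toFinset _).2 (sub_rm d0 a), mem_univ _⟩, ?_⟩, g⟩),
        fun p hp x => x.2.2 (b p hp x.2.1)⟩
    refine Eq.trans (congrArg (_ + ·) (sum_congr rfl fun q hq => ?_)) (sub_add_cancel k _)
    exact congrArg (· • kap e q) (dif_pos (mem_filter.1 hq).1)

theorem rareP : Rare fun m _ n => n ≠ 0 ∧ G0 m n ∧ H7 m n ∧ ¬ P1 m n := by
  refine ((rarePe 0).or (rarePe 1)).mono fun m X n h => ?_
  obtain ⟨n0, g0, g7, g⟩ := h
  simp only [P1, not_forall] at g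
  obtain ⟨e, k, a, b, g⟩ := g
  replace a : k ∈ KK (lo (2 * TT m) n) (e % 2) := ⟨kc_mod.2 a.1, a.2⟩
  rw [← mu_mod] at b g
  rcases Nat.mod_two_eq_zero_or_one e with x | x <;> rw [x] at a b g
  exacts [.inl ⟨g0, g7, k, a, lo_ne n0, b, g⟩, .inr ⟨g0, g7, k, a, lo_ne n0, b, g⟩]

end Pool.Agent.Lib.MP_696deb_nt.CU.CV.Av
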