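import Pool.Agent.Lib.MP_696deb_nt.CV.AnE
import Pool.Agent.Lib.MP_696deb_nt.CV.AnF

/-! Almost all integers lie in good boxes. -/

set_option autoImplicit false

open scoped Classical
open Finset

namespace Pool.Agent.Lib.MP_696deb_nt.CU.CV

open Pool.Agent.Lib.MP_696deb_nt.Sa Av

theorem an_main [δ : Qd] : AnStmt := fun c ε hε => by
  obtain ⟨m1, h1⟩ := (((((((((An.rare0.or rare1).or rare2).or rare3).or rareH4).or rareW0).or
    rareW1).or (rareGap c)).or An.rareH7).or rareP) ε hε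
  obtain ⟨X0, h3⟩ := exists_sz (m1 + 5 * c + MM + 17)
  refine ⟨X0, fun X hX => ?_⟩
  obtain ⟨m, hm, hz⟩ := h3 X hX
  obtain ⟨N, f, a1, a2, a3⟩ := Av.cover (c := c) (m := m) (X := X) (by omega)
  refine ⟨N, fun i => bx c m X (f i), fun i => ⟨bx_hyp (by omega) (by omega) hz (a1 i),
    bx_gap (a1 i)⟩, a2, le_trans ?_ (h1 m (by omega) X hz)⟩
  refine Nat.cast_le.2 (card_le_card fun n hn => ?_)
  simp only [mem_filter, mem_Icc] at hn ⊢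
  refine ⟨hn.1, ?_⟩
  by_contra hc
  simp only [not_or, not_and, not_not] at hc
  obtain ⟨⟨⟨⟨⟨⟨⟨⟨⟨b0, b1⟩, b2⟩, b3⟩, b4⟩, b5⟩, b6⟩, b7⟩, b8⟩, b9⟩ := hc
  obtain ⟨i, x, hx, e⟩ := a3 n ⟨hn.1.1, hn.1.2, b0, b1, b2, b3, b4, b5, b6, b7 b0⟩
  exact hn.2 ⟨i, x, hx, e, (a1 i).b1p (by omega) hx (e.symm ▸ b9 (by omega) b0 b8)⟩

end Pool.Agent.Lib.MP_696deb_nt.CU.CV
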