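import Pool.Agent.Lib.MP_696deb_nt.CV.E2
import Pool.Agent.Lib.MP_696deb_nt.CU.E4

/-! Finiteness of the local cocycles at the modulus. -/

set_option autoImplicit false
set_option linter.unusedSectionVars false

open scoped Classical

namespace Pool.Agent.Lib.MP_696deb_nt.CU.CV

variable [δ : Qd]

/-- The kernel of the quadratic character. -/
noncomputable def HD : Subgroup Gam where
  carrier := {g | de g = 1}
  one_mem' := de_one
  mul_mem' := fun {a b} h k => by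
    rw [Set.mem_ofPred_eq] at h k ⊢
    rw [de_mul, h, k, one_mul]
  inv_mem' := fun {a} h => by
    have := de_mul a a⁻¹
    rw [Set.mem_ofPred_eq] at h ⊢
    rw [mul_inv_cancel, de_one, h, one_mul] at this
    exact this.symm

theorem mem_HD {g : Gam} : g ∈ HD ↔ de g = 1 := Iff.rfl

theorem op_HD : Op HD := by
  obtain ⟨U, h1, -, h3⟩ := sm_de ⊤
  exact Subgroup.isOpen_mono (fun a ha => mem_HD.2
    ((h3 1 trivial a trivial (by rwa [inv_one, one_mul])).symm.trans de_one)) h1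

theorem de_inv (g : Gam) : de g⁻¹ = de g := by
  have := de_mul g⁻¹ g
  rw [inv_mul_cancel, de_one] at this
  rw [← mul_one (de g⁻¹), ← de_sq g, ← mul_assoc, ← this, one_mul]

theorem normal_HD : HD.Normal := ⟨fun a ha g => by
  rw [mem_HD] at ha ⊢
  rw [de_mul, de_mul, ha, de_inv, mul_one, de_sq]⟩

theorem mul_mem_HD {g h : Gam} (hg : g ∉ HD) (hh : h ∉ HD) : g * h ∈ HD := by
  rw [mem_HD, de_mul, (de_cases g).resolve_left hg, (de_cases h).resolve_left hh]
  decide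

theorem mu_HD {g : Gam} (hg : g ∈ HD) (e : ℕ) : mu e g = chi g ^ e := by
  rw [mu, mem_HD.1 hg, one_mul]

/-- The cocycles of level one on one decomposition group. -/
def Zq (e q : ℕ) : Set (Gam → F3) := {u | Kc e (Gq q) u ∧ ∀ g ∉ Gq q, u g = 0}

theorem finite_Zq (e q : ℕ) : (Zq e q).Finite := by
  have h := (H3.ld FF 1 HD (pl q) F3 F3 (e4_a e) (e4_a (e + 1)) H3.mu3 op_HD normal_HD
    (e4_dual e _)).1
  obtain ⟨t, t1, t2⟩ : ∃ t ∈ Gq q, ∀ g ∈ Gq q, g ∉ HD → t⁻¹ * g ∈ HD := by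
    by_cases k : Gq q ≤ HD
    · exact ⟨1, one_mem _, fun g hg n => absurd (k hg) n⟩
    · obtain ⟨t, t1, t2⟩ := SetLike.not_le_iff_exists.1 k
      exact ⟨t, t1, fun g _ n => mul_mem_HD (fun i => t2 (inv_mem_iff.1 i)) n⟩
  have h' : (H3.Z1 (HD ⊓ Gq q) (e4_a e) : Set (Gam → F3)).Finite := h
  refine Set.Finite.of_injOn (f := fun u => (H3.rs (HD ⊓ Gq q) u, u t))
    (t := (H3.Z1 (HD ⊓ Gq q) (e4_a e) : Set (Gam → F3)) ×ˢ Set.univ)
    (fun u hu => ⟨H3.rs_mem_Z1 ?_, trivial⟩) (fun u hu v hv k => funext fun g => ?_)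
    (h'.prod Set.finite_univ)
  · exact (kc_iff (D := HD ⊓ Gq q) fun g hg => mu_HD hg.1 e).1 (hu.1.mono inf_le_right)
  · have k1 : ∀ g ∈ HD ⊓ Gq q, u g = v g := fun g hg => by
      have := congrFun (congrArg Prod.fst k) g
      simpa only [H3.rs_of_mem hg] using this
    have k2 : u t = v t := congrArg Prod.snd k
    by_cases hg : g ∈ Gq q
    · by_cases n : g ∈ HD
      · exact k1 g ⟨n, hg⟩
      · have m := mul_mem (inv_mem t1) hg
        rw [← mul_inv_cancel_left t g, hu.1.2 t t1 _ m, hv.1.2 t t1 _ m, k2, k1 _ ⟨t2 g hg n, m⟩]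
    · rw [hu.2 g hg, hv.2 g hg]

/-- The cocycles of level one on the decomposition groups at the modulus. -/
def Z3 (e : ℕ) : Set (Gam → F3) :=
  {u | (∀ q : ℕ, q.Prime → q ∣ MM → Kc e (Gq q) u) ∧ ∀ g ∉ GM, u g = 0}

theorem finite_Z3 (e : ℕ) : (Z3 e).Finite := by
  refine Set.Finite.of_injOn (f := fun u (q : MM.primeFactors) => H3.rs (Gq q) u)
    (t := Set.univ.pi fun q : MM.primeFactors => Zq e q) (fun u hu q _ => ?_)
    (fun u hu v hv k => funext fun g => ?_) (Set.Finite.pi fun q => finite_Zq e q)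
  · have hq := Nat.mem_primeFactors.1 q.2
    exact ⟨(hu.1 q hq.1 hq.2.1).congr fun g hg => (H3.rs_of_mem hg u).symm, fun g hg => if_neg hg⟩
  · by_cases hg : g ∈ GM
    · obtain ⟨q, a, b, c⟩ := hg
      have := congrFun (congrFun k ⟨q, Nat.mem_primeFactors.2 ⟨a, b, MM_ne⟩⟩) g
      simpa only [H3.rs_of_mem c] using this
    · rw [hu.2 g hg, hv.2 g hg]

theorem rsM_mem {e : ℕ} {u : Gam → F3} (h : Kc e ⊤ u) : rsM u ∈ Z3 e :=
  ⟨fun _ a b => (h.mono le_top).congr fun _ hg => (rsM_of_mem (mem_GM a b hg) u).symm,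
    fun _ hg => rsM_of_notMem hg u⟩

/-- The number of local cocycles at the modulus. -/
noncomputable def K3 : ℕ := max (Z3 0).ncard (Z3 1).ncard

theorem e4_mod (e : ℕ) : Z3 (e % 2) = Z3 e := Set.ext fun _ => and_congr_left' (by simp only [kc_mod])

theorem card_Z3 (e : ℕ) : (Z3 e).ncard ≤ K3 := by
  rw [← e4_mod]
  rcases Nat.mod_two_eq_zero_or_one e with h | h <;> rw [h]
  · exact le_max_left _ _
  · exact le_max_right _ _

theorem K3_pos : 0 < K3 :=
  ((Set.ncard_pos (finite_Z3 0)).2 ⟨0, fun _ _ _ => Kc.zero 0 _, fun _ _ => rfl⟩).trans_le (card_Z3 0)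

/-- The cocycles of level `l` on the decomposition group at the modulus. -/
def Z3l (n e l : ℕ) : Set (Gam → A) :=
  {c | (∀ q : ℕ, q.Prime → q ∣ MM → Coc (Gq q) (act n e) c) ∧ (∀ g, th ^ l • c g = 0) ∧
    ∀ g ∉ GM, c g = 0}

theorem e4_zero (n e : ℕ) : Z3l n e 0 ⊆ {0} := fun c hc => funext fun g => by
  have := hc.2.1 g
  rwa [pow_zero, one_smul] at this

theorem e4_top {n e l : ℕ} {c : Gam → A} (hc : c ∈ Z3l n e (l + 1)) :
    th ^ l • c ∈ kC '' Z3 (e + l) := by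
  have k : ∀ g, kT (Function.invFun kT (th ^ l • c g)) = th ^ l • c g := fun g => by
    obtain ⟨b, hb⟩ := exists_kT (P := th ^ l • c g) (by rw [← mul_smul, ← pow_succ', hc.2.1])
    rw [hb, Function.leftInverse_invFun kT_inj]
  refine ⟨fun g => Function.invFun kT (th ^ l • c g), ⟨fun q a b => (coc_kC (n := n)).1
    ((coc_th_pow (hc.1 q a b) l).lo_congr fun g _ => k g), fun g hg => ?_⟩, funext k⟩
  refine kT_inj ?_
  rw [k, hc.2.2 g hg, smul_zero, map_zero]

theorem e4_step (n e l : ℕ) : ∃ f : (Gam → A) → (Gam → A) × (Gam → A), Function.Injective f ∧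
    Set.MapsTo f (Z3l n e (l + 1)) ((kC '' Z3 (e + l)) ×ˢ Z3l n e l) := by
  obtain ⟨s, hs⟩ : ∃ s : (Gam → A) → Gam → A, ∀ c ∈ Z3l n e (l + 1),
      s (th ^ l • c) ∈ Z3l n e (l + 1) ∧ th ^ l • s (th ^ l • c) = th ^ l • c := by
    refine ⟨fun y => if h : ∃ c ∈ Z3l n e (l + 1), th ^ l • c = y then h.choose else 0,
      fun c hc => ?_⟩
    have h : ∃ c' ∈ Z3l n e (l + 1), th ^ l • c' = th ^ l • c := ⟨c, hc, rfl⟩
    simp only [dif_pos h]
    exact h.choose_spec
  refine ⟨fun c => (th ^ l • c, c + -s (th ^ l • c)), fun c c' h => ?_, fun c hc => ?_⟩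
  · have h1 : th ^ l • c = th ^ l • c' := congrArg Prod.fst h
    have h2 : c + -s (th ^ l • c) = c' + -s (th ^ l • c') := congrArg Prod.snd h
    rwa [h1, add_left_inj] at h2
  · obtain ⟨k1, k2⟩ := hs c hc
    refine ⟨e4_top hc, fun q a b => (hc.1 q a b).add (k1.1 q a b).neg, fun g => ?_, fun g hg => ?_⟩
    · have k3 : th ^ l • s (th ^ l • c) g = th ^ l • c g := congrFun k2 g
      show th ^ l • (c g + -s (th ^ l • c) g) = 0
      rw [smul_add, smul_neg, k3, add_neg_cancel]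
    · show c g + -s (th ^ l • c) g = 0
      rw [hc.2.2 g hg, k1.2.2 g hg, neg_zero, add_zero]

theorem finite_Z3l (n e l : ℕ) : (Z3l n e l).Finite := by
  induction l with
  | zero => exact (Set.finite_singleton 0).subset (e4_zero n e)
  | succ l ih =>
    obtain ⟨f, f1, f2⟩ := e4_step n e l
    exact Set.Finite.of_injOn f2 f1.injOn (((finite_Z3 _).image _).prod ih)

theorem card_Z3l (n e l : ℕ) : (Z3l n e l).ncard ≤ K3 ^ l := by
  induction l with
  | zero =>
    exact (Set.ncard_le_ncard (e4_zero n e) (Set.finite_singleton 0)).trans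
      (Set.ncard_singleton _).le
  | succ l ih =>
    obtain ⟨f, f1, f2⟩ := e4_step n e l
    refine (Set.ncard_le_ncard_of_injOn f f2 f1.injOn
      (((finite_Z3 _).image _).prod (finite_Z3l n e l))).trans ?_
    rw [Set.ncard_prod, pow_succ']
    exact Nat.mul_le_mul ((Set.ncard_image_le (finite_Z3 _)).trans (card_Z3 _)) ih

theorem rsM_mem_l {n e l : ℕ} {c : Gam → A} (h : Coc ⊤ (act n e) c) (k : ∀ g, th ^ l • c g = 0) :
    rsM c ∈ Z3l n e l := by
  refine ⟨fun _ a b => (h.lo_mono le_top).lo_congr fun _ hg =>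
    rsM_of_mem (mem_GM a b hg) c, fun g => ?_, fun _ hg => rsM_of_notMem hg c⟩
  by_cases hg : g ∈ GM
  · rw [rsM_of_mem hg, k]
  · rw [rsM_of_notMem hg, smul_zero]

theorem Z3l_congr {n n' : ℕ} (h : ∀ g ∈ GM, kk n g = kk n' g) (e l : ℕ) :
    Z3l n e l ⊆ Z3l n' e l := fun _ hc =>
  ⟨fun q a b => coc_congr_act (hc.1 q a b) fun g hg => h g (mem_GM a b hg), hc.2⟩

end Pool.Agent.Lib.MP_696deb_nt.CU.CV
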