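import Pool.Agent.Lib.MP_696deb_nt.CV.E3
import Pool.Agent.Lib.MP_696deb_nt.CV.E4
import Pool.Agent.Lib.MP_696deb_nt.CU.B1p

/-! Heights of cocycles of level one and their cubic fields. -/

set_option autoImplicit false
set_option linter.unusedSectionVars false

open scoped Classical
open Finset

namespace Pool.Agent.Lib.MP_696deb_nt.CU.CV.Av

open Kt (zt zt_add zt_zero zt_inj zt_ne zt_cube smul_zt)
open Pool.Agent.B6 Pool.Agent.B6.S

variable {μ κ κ' : Gam → F3} {t t' : ℝ}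

theorem ht_zero : Ht μ 0 1 :=
  ⟨1, 1, fun g => by simp, one_ne_zero, one_ne_zero, isIntegral_one, isIntegral_one, by simp,
    by simp⟩

theorem ht_neg (h : Ht μ κ t) : Ht μ (-κ) t := by
  obtain ⟨a, b, h, a0, b0, a1, b1, a2, b2⟩ := h
  refine ⟨b, a, fun g => ?_, b0, a0, b1, a1, b2, a2⟩
  rw [Pi.neg_apply, neg_neg]
  exact ⟨fun e => ((h g).1 e).symm, fun e => ((h g).2 e).symm⟩

theorem ht_mono (h : Ht μ κ t) (k : t ≤ t') : Ht μ κ t' := by
  obtain ⟨a, b, h, a0, b0, a1, b1, a2, b2⟩ := h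
  exact ⟨a, b, h, a0, b0, a1, b1, a2.trans k, b2.trans k⟩

theorem ht_add (h : Ht μ κ t) (h' : Ht μ κ' t') : Ht μ (κ + κ') (t * t') := by
  obtain ⟨a, b, h, a0, b0, a1, b1, a2, b2⟩ := h
  obtain ⟨c, d, k, c0, d0, c1, d1, c2, d2⟩ := h'
  have z : ∀ (g : Gam) {x y u v : Qbar} {i j : F3}, g x = zt i * u → g y = zt j * v →
      g (x * y) = zt (i + j) * (u * v) := fun g x y u v i j e e' => by
    rw [map_mul, e, e', zt_add]
    ring
  have n : ∀ {x y : Qbar}, ‖B2.jC x‖ ≤ t → ‖B2.jC y‖ ≤ t' → ‖B2.jC (x * y)‖ ≤ t * t' :=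
    fun e e' => by
      rw [map_mul, norm_mul]
      exact mul_le_mul e e' (norm_nonneg _) ((norm_nonneg _).trans e)
  refine ⟨a * c, b * d, fun g => ?_, mul_ne_zero a0 c0, mul_ne_zero b0 d0, a1.mul c1, b1.mul d1,
    n a2 c2, n b2 d2⟩
  rw [Pi.add_apply, neg_add]
  exact ⟨fun e => ⟨z g ((h g).1 e).1 ((k g).1 e).1, z g ((h g).1 e).2 ((k g).1 e).2⟩,
    fun e => ⟨z g ((h g).2 e).1 ((k g).2 e).1, z g ((h g).2 e).2 ((k g).2 e).2⟩⟩

theorem ht_smul (h : Ht μ κ t) (h1 : 1 ≤ t) (c : F3) : Ht μ (c • κ) t := by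
  rcases F3_cases c with rfl | rfl | rfl
  · exact (zero_smul F3 κ).symm ▸ ht_mono ht_zero h1
  · rwa [one_smul]
  · rw [show (2 : F3) = -1 from rfl, neg_one_smul]
    exact ht_neg h

theorem ht_sum {s : Finset ℕ} {v : ℕ → Gam → F3} {r : ℕ → ℝ} (h : ∀ i ∈ s, Ht μ (v i) (r i)) :
    Ht μ (∑ i ∈ s, v i) (∏ i ∈ s, r i) := by
  induction s using Finset.induction_on with
  | empty => exact ht_zero
  | insert i s hi ih =>
    rw [sum_insert hi, prod_insert hi]
    exact ht_add (h i (mem_insert_self i s)) (ih fun j hj => h j (mem_insert_of_mem hj))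

variable [δ : Qd] {e d : ℕ} {k : Gam → F3}

theorem mu_iff (g : Gam) : mu e g = chi g ↔ mu (e + 1) g = 1 := by
  rw [mu_succ]
  rcases mu_cases e g with h | h <;> rcases chi_cases g with k | k <;> rw [h, k] <;> decide

theorem mu_neg {g : Gam} (h : mu e g ≠ chi g) : chi g = -mu e g := by
  revert h
  rcases mu_cases e g with h | h <;> rcases chi_cases g with k | k <;> rw [h, k] <;> decide

theorem exists_ht (hk : Kc e ⊤ k) : ∃ t : ℕ, Ht (mu e) k t := by
  let H : Subgroup Gam :=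
    { carrier := {g | mu (e + 1) g = 1}
      one_mem' := mu_one _
      mul_mem' := fun {a b} x y => by rw [Set.mem_ofPred_eq, mu_mul, x, y, one_mul]
      inv_mem' := fun {a} x => (mu_inv _ a).trans x }
  have ho : Op H := by
    obtain ⟨U, h1, -, h3⟩ := sm_mu (e + 1) ⊤
    exact Subgroup.isOpen_mono (fun a ha =>
      (h3 1 trivial a trivial (by rwa [inv_one, one_mul])).symm.trans (mu_one _)) h1
  obtain ⟨-, r, r0, -, h⟩ := H3.kum_surj (H := H) (m := 1) (κ := k) ho.closed (hk.1.mono le_top)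
    fun g hg h _ => (hk.2 g trivial h trivial).trans (by rw [(mu_iff g).2 hg]; rfl)
  obtain ⟨N, N0, a1⟩ := ((IsFractionRing.isAlgebraic_iff ℤ ℚ Qbar).2
    (Algebra.IsAlgebraic.isAlgebraic r)).exists_integral_multiple
  obtain ⟨a, ha⟩ : ∃ a, a = N • r := ⟨_, rfl⟩
  have a0 : a ≠ 0 := ha ▸ smul_ne_zero N0 r0
  have a2 : ∀ g : Gam, mu (e + 1) g = 1 → g a = zt (k g) * a := fun g hg => by
    rw [ha, map_zsmul, h g hg, mul_smul_comm, mul_comm]
    rfl
  obtain ⟨s, -, hs⟩ := exists_nt (e + 1)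
  have s1 : chi s = -mu e s := mu_neg fun x => by rw [(mu_iff s).1 x] at hs; exact absurd hs (by decide)
  have w : ∀ g x : Gam, mu (e + 1) x = 1 → (g * x) a = zt (chi g * k x) * g a := fun g x hx => by
    rw [AlgEquiv.mul_apply, a2 x hx, map_mul, smul_zt]
    rfl
  have v : ∀ g : Gam, g (zt (k s) * s a) = zt (chi g * k s) * (g * s) a := fun g => by
    rw [map_mul, smul_zt]
    rfl
  rw [← ha] at a1
  refine ⟨⌈‖B2.jC a‖ + ‖B2.jC (zt (k s) * s a)‖⌉₊, a, zt (k s) * s a, fun g => ⟨fun x =>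
    ⟨a2 g ((mu_iff g).1 x), ?_⟩, fun x => ?_⟩, a0, mul_ne_zero (zt_ne _)
    ((map_ne_zero s).2 a0), a1, (IsIntegral.of_pow three_pos (zt_cube _ ▸ isIntegral_one)).mul
    (a1.map s.toRingEquiv.toRingHom.toIntAlgHom),
    (le_add_of_nonneg_right (norm_nonneg _)).trans (Nat.le_ceil _),
    (le_add_of_nonneg_left (norm_nonneg _)).trans (Nat.le_ceil _)⟩
  · have y := w s (s⁻¹ * g * s) (by
      rw [mu_mul, mu_mul, mu_inv, (mu_iff g).1 x, mul_one, mu_sq])
    have y1 := hk.2 s trivial (s⁻¹ * g * s) trivial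
    rw [← mul_assoc, mul_inv_cancel_left] at y y1
    rw [hk.2 g trivial s trivial] at y1
    change _ = zt _ * _
    rw [v, y, ← mul_assoc, ← mul_assoc, ← zt_add, ← zt_add, s1, ← x]
    congr 2
    linear_combination y1
  · have x1 : mu (e + 1) g = -1 := (mu_cases _ g).resolve_left fun y => x ((mu_iff g).2 y)
    have y := w s (s⁻¹ * g) (by rw [mu_mul, mu_inv, hs, x1]; decide)
    have y1 := hk.2 s trivial (s⁻¹ * g) trivial
    rw [mul_inv_cancel_left] at y y1
    change _ = zt _ * _ ∧ _ = zt _ * _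
    rw [v, a2 (g * s) (by rw [mu_mul, hs, x1]; decide), y, ← mul_assoc, ← mul_assoc, ← zt_add,
      ← zt_add, s1, mu_neg x, hk.2 g trivial s trivial]
    constructor <;> congr 2
    · linear_combination y1
    · ring

theorem finite_KK (e : ℕ) : (KK 1 e : Set (Gam → F3)).Finite := by
  refine Set.Finite.of_finite_image (f := rsM) ((finite_Z3 e).subset ?_) fun u hu v hv h => ?_
  · rintro _ ⟨u, hu, rfl⟩
    exact rsM_mem hu.1
  · have x := sub_mem hu hv
    refine sub_eq_zero.1 (funext (unr x.1 (fun g hg => ?_) fun q a b => x.2 q a (by rwa [mul_one])))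
    rw [← rsM_of_mem hg (u - v), map_sub, h, sub_self, Pi.zero_apply]

/-- The part of a cocycle that is ramified outside of the modulus. -/
noncomputable def rm (e d : ℕ) (a : ℕ → F3) : Gam → F3 :=
  ∑ q ∈ d.primeFactors with ¬ q ∣ MM, a q • kap e q

theorem kc_rm (a : ℕ → F3) : Kc e ⊤ (rm e d a) :=
  (Kc.sum _ fun q _ => (kc_kap e q ⊤).smul (a q)).congr fun g _ =>
    (Finset.sum_apply g _ fun q => a q • kap e q).symm

theorem sub_rm (hd : d ≠ 0) (hk : k ∈ KK d e) : k - rm e d (fun q => k (sq q)) ∈ KK 1 e := by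
  refine ⟨hk.1.sub (kc_rm _), fun q hq h => ?_⟩
  rw [mul_one] at h
  rw [Pi.sub_apply, rm, Finset.sum_apply, sum_eq_single q (fun p _ x => by
    rw [Pi.smul_apply, kap_ne hq h x.symm, smul_zero]) fun x => by
      rw [hk.2 q hq fun y => x (mem_filter.2 ⟨Nat.mem_primeFactors.2
        ⟨hq, (hq.dvd_mul.1 y).resolve_left h, hd⟩, h⟩), zero_smul, Pi.zero_apply]]
  by_cases x : mu (e + 1) (fq q) = 1
  · rw [Pi.smul_apply, kap_self hq h x, smul_eq_mul, mul_one, sub_self]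
  · rw [(hk.1.mono le_top).ev hq h x, zero_smul, Pi.zero_apply, sub_self]

theorem ht_rm (hd : d ≠ 0) (a : ℕ → F3) : Ht (mu e) (rm e d a) (d ^ (MM + 1) : ℕ) := by
  refine ht_mono (ht_sum (r := fun q => (q ^ (MM + 1) : ℕ)) fun q hq => ?_) ?_
  · obtain ⟨a1, a2⟩ := mem_filter.1 hq
    have a3 := Nat.prime_of_mem_primeFactors a1
    have a4 : (1 : ℝ) ≤ (q ^ (MM + 1) : ℕ) := Nat.one_le_cast.2 (pow_pos a3.pos _)
    refine ht_smul ?_ a4 _
    by_cases x : mu (e + 1) (fq q) = 1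
    · refine ht_mono (kap_ht a3 a2 x) ?_
      rw [← Nat.cast_mul, pow_succ]
      exact Nat.cast_le.2 (Nat.mul_le_mul_right _ (Nat.lt_pow_self a3.one_lt).le)
    · exact kap_zero a3 a2 x ▸ ht_mono ht_zero a4
  · rw [← Nat.cast_prod, prod_pow]
    exact Nat.cast_le.2 (Nat.pow_le_pow_left (Nat.le_of_dvd hd.bot_lt ((prod_dvd_prod_of_subset _ _ _
      (filter_subset _ _)).trans (Nat.prod_primeFactors_dvd d))) _)

theorem tc_ht (hk : Kc e ⊤ k) (hn : ¬ ∃ s : F3, ∀ g, k g = s * (mu e g - 1))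
    (h : Ht (mu e) k t) (h1 : 1 ≤ t) :
    ∃ x : F3 → Qbar, Tc x (fun g i => mu e g * i + k g) (2 * t) := by
  obtain ⟨a, b, h, a0, -, a1, b1, a2, b2⟩ := h
  have ac : ∀ (g : Gam) (i : F3), g (zt i * a + zt (-i) * b) =
      zt (mu e g * i + k g) * a + zt (-(mu e g * i + k g)) * b := fun g i => by
    rw [map_add, map_mul, map_mul, smul_zt, smul_zt, neg_add, zt_add, zt_add]
    change zt (chi g * _) * _ + zt (chi g * _) * _ = _
    by_cases x : mu e g = chi g
    · rw [((h g).1 x).1, ((h g).1 x).2, x, mul_neg, mul_assoc, mul_assoc]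
      rfl
    · rw [((h g).2 x).1, ((h g).2 x).2, mu_neg x, neg_mul_neg, neg_mul, mul_assoc, mul_assoc,
        add_comm]
      rfl
  obtain ⟨g0, g1, g2⟩ : ∃ g, mu e g = 1 ∧ k g ≠ 0 := by
    by_contra x
    exact hn (cob_of_ker hk fun g hg => by_contra fun y => x ⟨g, hg, y⟩)
  have tr : ∀ c : F3, ∃ g : Gam, mu e g = 1 ∧ k g = c := fun c =>
    ⟨g0 ^ (c * k g0).val, by rw [mu_pow, g1, one_pow], by
      rw [hk.pow g1, ZMod.natCast_zmod_val]
      revert g2
      generalize k g0 = y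
      revert c y
      decide⟩
  have zi : ∀ i, IsIntegral ℤ (zt i) := fun i =>
    IsIntegral.of_pow three_pos (zt_cube _ ▸ isIntegral_one)
  have zn : ∀ i, ‖B2.jC (zt i)‖ = 1 := fun i =>
    Complex.norm_eq_one_of_pow_eq_one (n := 3) (by rw [← map_pow, zt_cube, map_one]) three_ne_zero
  refine ⟨fun i => zt i * a + zt (-i) * b, fun i j x => by_contra fun y => ?_,
    fun i => ((zi _).mul a1).add ((zi _).mul b1), ac, fun i j => ?_, by linarith, fun i => ?_⟩
  · have u : ∀ c, zt (i + c) * a + zt (-(i + c)) * b = zt (j + c) * a + zt (-(j + c)) * b :=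
      fun c => by
        obtain ⟨g, c1, rfl⟩ := tr c
        have := congrArg g x
        rwa [ac, ac, c1, one_mul, one_mul] at this
    have u0 := u 0
    have u1 := u 1
    simp only [neg_add, zt_add, add_zero] at u0 u1
    have u2 : (zt i - zt j) * (zt 1 - zt (-1)) * a = 0 := by linear_combination u1 - zt (-1) * u0
    exact a0 ((mul_eq_zero.1 u2).resolve_left (mul_ne_zero (sub_ne_zero.2 fun x => y (zt_inj x))
      (sub_ne_zero.2 fun x => absurd (zt_inj x) (by decide))))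
  · obtain ⟨g, c1, c2⟩ := tr (j - i)
    exact ⟨g, by rw [c1, c2, one_mul, add_sub_cancel]⟩
  · rw [map_add]
    refine (norm_add_le _ _).trans ?_
    rw [map_mul, map_mul, norm_mul, norm_mul, zn, zn]
    linarith

end Pool.Agent.Lib.MP_696deb_nt.CU.CV.Av
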