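import Pool.Agent.Lib.MP_696deb_nt.CU.N2
import Mathlib.Analysis.SpecialFunctions.Stirling

/-! The numbers of prime factors in two disjoint sets of primes are rarely close. -/

set_option autoImplicit false

open scoped Classical Nat
open Finset

namespace Pool.Agent.Lib.MP_696deb_nt.CU.CV.Av

open Pool.Agent.Lib.MP_696deb_nt.Sa Pool.Agent.B6.S

export Pool.Agent.B6.S (ms)

theorem sum_le_inj {α β : Type*} {A : Finset α} {B : Finset β} (e : α → β) (he : Set.InjOn e A)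
    (hm : ∀ a ∈ A, e a ∈ B) {f : α → ℝ} {g : β → ℝ} (h : ∀ a ∈ A, f a ≤ g (e a))
    (g0 : ∀ b ∈ B, 0 ≤ g b) : ∑ a ∈ A, f a ≤ ∑ b ∈ B, g b :=
  (sum_le_sum h).trans ((sum_image he).symm.trans_le (sum_le_sum_of_subset_of_nonneg
    (image_subset_iff.2 hm) fun b hb _ => g0 b hb))

/-- The weight of a set of primes. -/
noncomputable def wt (V : Finset ℕ) : ℝ := ∏ p ∈ V, (1 / p : ℝ)

theorem wt_nonneg (V : Finset ℕ) : 0 ≤ wt V := prod_nonneg fun _ _ => by positivity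

theorem wt_eq (V : Finset ℕ) : wt V = 1 / (∏ p ∈ V, p : ℕ) := by
  rw [wt, prod_div_distrib, prod_const_one, Nat.cast_prod]

theorem esym_le (P : Finset ℕ) : ∀ k, ∑ T ∈ powersetCard k P, wt T ≤ ms P ^ k / k ! := by
  induction P using Finset.induction_on with
  | empty =>
    intro k
    rcases k with _ | k
    · simp [wt]
    · rw [powersetCard_eq_empty.2 (by simp), sum_empty]
      exact div_nonneg (pow_nonneg (ms_nonneg _) _) (Nat.cast_nonneg _)
  | insert p P hp ih =>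
    intro k
    rcases k with _ | k
    · simp [wt]
    have h1 : ∑ T ∈ (powersetCard k P).image (insert p), wt T ≤ 1 / p * (ms P ^ k / k !) := by
      refine (sum_image_le_of_nonneg fun T _ => wt_nonneg T).trans ?_
      refine le_trans (le_of_eq ?_) (mul_le_mul_of_nonneg_left (ih k) (by positivity))
      rw [mul_sum]
      exact sum_congr rfl fun T hT => prod_insert fun a => hp ((mem_powersetCard.1 hT).1 a)
    have h2 := sum_union_inter (s₁ := powersetCard (k + 1) P)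
      (s₂ := (powersetCard k P).image (insert p)) (f := wt)
    have h3 := sum_nonneg fun T (_ : T ∈ powersetCard (k + 1) P ∩
      (powersetCard k P).image (insert p)) => wt_nonneg T
    have h4 := pow_add_mul_le_add_pow (ms_nonneg P) (b := (1 / p : ℝ))
      (by have := ms_nonneg P; positivity) (k + 1)
    have h5 : ms (insert p P) = ms P + 1 / p := by rw [ms, sum_insert hp, add_comm, ms]
    have h6 : (0 : ℝ) < k ! := Nat.cast_pos.2 k.factorial_pos
    rw [powersetCard_succ_insert hp, h5]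
    refine le_trans ?_ (div_le_div_of_nonneg_right h4 (Nat.cast_nonneg _))
    have h7 : (ms P ^ (k + 1) + ((k + 1 : ℕ) : ℝ) * ms P ^ (k + 1 - 1) * (1 / p)) / (k + 1)! =
        ms P ^ (k + 1) / (k + 1)! + 1 / p * (ms P ^ k / k !) := by
      rw [Nat.add_sub_cancel, Nat.factorial_succ]
      push_cast
      field_simp
    linarith [ih (k + 1)]

theorem pois {x : ℝ} (hx : 0 ≤ x) {k j : ℕ} (hk : 1 ≤ k) (h : k ≤ j) :
    x ^ j / j ! * √k ≤ Real.exp x := by
  have j0 : (0 : ℝ) < j := by exact_mod_cast hk.trans h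
  have h1 : x ^ j ≤ (j / Real.exp 1) ^ j * Real.exp x := by
    have a : x ≤ j / Real.exp 1 * Real.exp (x / j) := by
      have := Real.add_one_le_exp (x / j - 1)
      rw [Real.exp_sub, sub_add_cancel, div_le_iff₀ j0] at this
      exact this.trans_eq (by ring)
    refine (pow_le_pow_left₀ hx a j).trans_eq ?_
    rw [mul_pow, ← Real.exp_nat_mul, mul_div_cancel₀ _ j0.ne']
  have h2 : √(k : ℝ) ≤ √(2 * Real.pi * j) := Real.sqrt_le_sqrt (by
    have : (k : ℝ) ≤ j := Nat.cast_le.2 h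
    nlinarith [Real.pi_gt_three])
  rw [div_mul_eq_mul_div, div_le_iff₀ (Nat.cast_pos.2 j.factorial_pos)]
  refine (mul_le_mul h1 h2 (Real.sqrt_nonneg _) (by positivity)).trans (le_of_eq_of_le ?_
    (mul_le_mul_of_nonneg_left (Stirling.le_factorial_stirling j) (Real.exp_pos x).le))
  ring

/-- Many elements in `P`, and about as many in `Q`. -/
def Nr (P Q : Finset ℕ) (k H : ℕ) (V : Finset ℕ) : Prop :=
  k ≤ (V ∩ P).card ∧ (V ∩ P).card ≤ (V ∩ Q).card + H ∧ (V ∩ Q).card ≤ (V ∩ P).card + H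

variable {P Q R : Finset ℕ} {k H Z : ℕ}

theorem wt_near (hd : Disjoint P Q) (hk : 1 ≤ k) :
    (∑ V ∈ R.powerset.filter (Nr P Q k H), wt V) * √k ≤ (2 * H + 1) * Real.exp (ms R) := by
  obtain ⟨J, hJ⟩ : ∃ J : Finset ℕ → Finset ℕ, ∀ W, J W =
    (Icc ((W ∩ Q).card - H) ((W ∩ Q).card + H)).filter (k ≤ ·) := ⟨_, fun _ => rfl⟩
  have h1 : ∑ V ∈ R.powerset.filter (Nr P Q k H), wt V ≤ ∑ x ∈ (R \ P).powerset.sigma
      fun W => (J W).sigma fun j => powersetCard j (R ∩ P), wt x.1 * wt x.2.2 := by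
    refine sum_le_inj (fun V => ⟨V \ P, (V ∩ P).card, V ∩ P⟩) (fun V _ V' _ e => ?_)
      (fun V hV => ?_) (fun V _ => (prod_sdiff (s₁ := V ∩ P) inter_subset_left).symm.trans_le
        (by rw [sdiff_inter_self_left]; rfl)) fun _ _ => mul_nonneg (wt_nonneg _) (wt_nonneg _)
    · rw [← sdiff_union_inter V P, ← sdiff_union_inter V' P]
      exact congrArg₂ _ (congrArg (·.1) e) (congrArg (·.2.2) e)
    · obtain ⟨a, b1, b2, b3⟩ := mem_filter.1 hV
      have c : V \ P ∩ Q = V ∩ Q := by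
        ext p
        simp only [mem_inter, mem_sdiff]
        exact ⟨fun x => ⟨x.1.1, x.2⟩, fun x => ⟨⟨x.1, fun y => disjoint_left.1 hd y x.2⟩, x.2⟩⟩
      refine mem_sigma.2 ⟨mem_powerset.2 (sdiff_subset_sdiff (mem_powerset.1 a) subset_rfl),
        mem_sigma.2 ⟨?_, mem_powersetCard.2 ⟨inter_subset_inter_right (mem_powerset.1 a), rfl⟩⟩⟩
      rw [hJ, c]
      exact mem_filter.2 ⟨mem_Icc.2 ⟨Nat.sub_le_of_le_add b3, b2⟩, b1⟩
  have h2 : ∀ W, (∑ j ∈ J W, ∑ T ∈ powersetCard j (R ∩ P), wt T) * √k ≤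
      (2 * H + 1) * Real.exp (ms (R ∩ P)) := fun W => by
    rw [sum_mul]
    refine (sum_le_card_nsmul _ _ (Real.exp (ms (R ∩ P))) fun j hj => ?_).trans ?_
    · exact (mul_le_mul_of_nonneg_right (esym_le _ j) (Real.sqrt_nonneg _)).trans
        (pois (ms_nonneg _) hk (mem_filter.1 (hJ W ▸ hj)).2)
    · rw [nsmul_eq_mul, hJ]
      refine mul_le_mul_of_nonneg_right ?_ (Real.exp_pos _).le
      exact_mod_cast (card_filter_le _ _).trans (by rw [Nat.card_Icc]; omega)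
  have h3 : ∑ W ∈ (R \ P).powerset, wt W ≤ Real.exp (ms (R \ P)) :=
    (prod_one_add _).symm.trans_le (Real.prod_one_add_le_exp_sum _ fun _ => by positivity)
  have h4 : ms R = ms (R \ P) + ms (R ∩ P) := by
    rw [ms, ← sum_sdiff (s₁ := R ∩ P) inter_subset_left, sdiff_inter_self_left, ms, ms]
  refine (mul_le_mul_of_nonneg_right h1 (Real.sqrt_nonneg _)).trans ?_
  rw [sum_sigma, sum_mul, h4, Real.exp_add, mul_left_comm]
  refine le_trans (sum_le_sum fun W _ => ?_) ((sum_mul _ _ _).symm.trans_le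
    (mul_le_mul_of_nonneg_right h3 (by positivity)))
  simp only [sum_sigma, ← mul_sum]
  rw [mul_assoc]
  exact mul_le_mul_of_nonneg_left (h2 W) (wt_nonneg W)

theorem log_card {F F' : Finset (Finset ℕ)} (h : ∀ V ∈ F, (∀ p ∈ V, p.Prime) ∧ ∏ p ∈ V, p ≤ Z ∧
    V ∈ F' ∧ ∀ p ∈ V, V.erase p ∈ F') : F.card * Real.log Z ≤ 3 * Z * ∑ V ∈ F', wt V := by
  have h1 : ∑ x ∈ F.sigma fun V => V, Real.log x.2 ≤ ∑ y ∈ F'.sigma
      fun V => (Ioc 0 ⌊Z * wt V⌋₊).filter Nat.Prime, Real.log y.2 := by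
    refine sum_le_inj (fun x => ⟨x.1.erase x.2, x.2⟩) ?_ (fun x hx => ?_) (fun _ _ => le_rfl)
      fun _ _ => Real.log_natCast_nonneg _
    · rintro ⟨V, p⟩ hx ⟨V', p'⟩ hy e
      obtain rfl : p = p' := congrArg (·.2) e
      have e1 : V.erase p = V'.erase p := congrArg (·.1) e
      have a : p ∈ V := (mem_sigma.1 hx).2
      have b : p ∈ V' := (mem_sigma.1 hy).2
      rw [← insert_erase a, e1, insert_erase b]
    · obtain ⟨a, b⟩ := mem_sigma.1 hx
      obtain ⟨c1, c2, -, c3⟩ := h _ a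
      refine mem_sigma.2 ⟨c3 _ b, mem_filter.2 ⟨mem_Ioc.2 ⟨(c1 _ b).pos, Nat.le_floor ?_⟩, c1 _ b⟩⟩
      rw [wt_eq, mul_one_div, le_div_iff₀ (Nat.cast_pos.2 (prod_pos fun p hp =>
        (c1 p (mem_of_mem_erase hp)).pos)), ← Nat.cast_mul, mul_prod_erase _ (fun p => p) b]
      exact Nat.cast_le.2 c2
  have h2 : ∀ V, ∑ p ∈ (Ioc 0 ⌊Z * wt V⌋₊).filter Nat.Prime, Real.log p ≤ 2 * (Z * wt V) :=
    fun V => by
      have a := mul_nonneg (Nat.cast_nonneg Z) (wt_nonneg V)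
      refine (Chebyshev.theta_le_log4_mul_x a).trans (mul_le_mul_of_nonneg_right ?_ a)
      rw [show (4 : ℝ) = 2 ^ 2 by norm_num, Real.log_pow]
      push_cast
      linarith [anA_log2]
  have h3 : ∀ V ∈ F, Real.log Z ≤ ∑ p ∈ V, Real.log p + Z * wt V := fun V hV => by
    obtain ⟨c1, c2, -⟩ := h V hV
    have n0 : 0 < ∏ p ∈ V, p := prod_pos fun p hp => (c1 p hp).pos
    have n1 : (0 : ℝ) < (∏ p ∈ V, p : ℕ) := Nat.cast_pos.2 n0
    have Z0 : (0 : ℝ) < Z := Nat.cast_pos.2 (n0.trans_le c2)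
    have a := Real.log_le_sub_one_of_pos (div_pos Z0 n1)
    rw [Real.log_div Z0.ne' n1.ne'] at a
    rw [wt_eq, mul_one_div, ← Real.log_prod fun p hp => Nat.cast_ne_zero.2 (c1 p hp).ne_zero,
      ← Nat.cast_prod]
    linarith
  have h5 : ∑ V ∈ F, Z * wt V ≤ ∑ V ∈ F', Z * wt V := sum_le_sum_of_subset_of_nonneg
    (fun V hV => (h V hV).2.2.1) fun V _ _ => mul_nonneg (Nat.cast_nonneg Z) (wt_nonneg V)
  have h6 := card_nsmul_le_sum F _ _ h3
  rw [sum_sigma, sum_sigma] at h1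
  have h7 := h1.trans (sum_le_sum fun V _ => h2 V)
  rw [nsmul_eq_mul, sum_add_distrib] at h6
  rw [← mul_sum] at h7
  rw [mul_assoc, mul_sum]
  linarith

theorem near_sf (hd : Disjoint P Q) (hk : 1 ≤ k) (hZ : 2 ≤ Z) {S : Finset ℕ}
    (h : ∀ n ∈ S, n ≤ Z ∧ Squarefree n ∧ Nr P Q (k + 1) H n.primeFactors) :
    S.card * √k ≤ 3 * Real.exp 17 * (2 * H + 3) * Z := by
  have h1 := log_card (Z := Z) (F := S.image Nat.primeFactors)
    (F' := (Wn 0 Z Nat.Prime).powerset.filter (Nr P Q k (H + 1))) fun V hV => by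
      obtain ⟨n, hn, rfl⟩ := mem_image.1 hV
      obtain ⟨a, b, c1, c2, c3⟩ := h n hn
      have d : n.primeFactors ⊆ Wn 0 Z Nat.Prime := fun p hp =>
        mem_Wn.2 ⟨(Nat.prime_of_mem_primeFactors hp).pos,
          (Nat.le_of_mem_primeFactors hp).trans a, Nat.prime_of_mem_primeFactors hp⟩
      refine ⟨fun p => Nat.prime_of_mem_primeFactors, (Nat.prod_primeFactors_of_squarefree b).trans_le
        a, mem_filter.2 ⟨mem_powerset.2 d, by omega, by omega, by omega⟩, fun p _ => mem_filter.2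
          ⟨mem_powerset.2 ((erase_subset _ _).trans d), ?_⟩⟩
      have e1 := pred_card_le_card_erase (s := n.primeFactors ∩ P) (a := p)
      have e2 := pred_card_le_card_erase (s := n.primeFactors ∩ Q) (a := p)
      have e3 := card_erase_le (s := n.primeFactors ∩ P) (a := p)
      have e4 := card_erase_le (s := n.primeFactors ∩ Q) (a := p)
      rw [Nr, erase_inter, erase_inter]
      omega
  rw [card_image_of_injOn fun n hn n' hn' e => by
    rw [← Nat.prod_primeFactors_of_squarefree (h n hn).2.1, e,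
      Nat.prod_primeFactors_of_squarefree (h n' hn').2.1]] at h1
  have h2 := (wt_near (R := Wn 0 Z Nat.Prime) (H := H + 1) hd hk).trans
    (mul_le_mul_of_nonneg_left (Real.exp_le_exp.2 (ms_le hZ fun p hp =>
      ⟨(mem_Wn.1 hp).2.2, (mem_Wn.1 hp).2.1⟩)) (by positivity))
  have h3 : 0 < Real.log Z := Real.log_pos (by exact_mod_cast hZ)
  rw [Real.exp_add, LL, Real.exp_log h3] at h2
  refine le_of_mul_le_mul_right ?_ h3
  rw [mul_right_comm]
  refine (mul_le_mul_of_nonneg_right h1 (Real.sqrt_nonneg _)).trans ?_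
  rw [mul_assoc]
  refine (mul_le_mul_of_nonneg_left h2 (by positivity)).trans_eq ?_
  push_cast
  ring

theorem near {m X : ℕ} (hd : Disjoint P Q) (hk : 1 ≤ k) (hX : 2 * m ^ 2 ≤ X)
    (hP : ∀ p ∈ P ∪ Q, m < p) {S : Finset ℕ}
    (h : ∀ n ∈ S, n ∈ Icc 1 X ∧ An.G0 m n ∧ Nr P Q (k + 1) H n.primeFactors) :
    S.card * √k ≤ 6 * Real.exp 17 * (2 * H + 3) * X := by
  obtain ⟨G, hG⟩ : ∃ G : ℕ → Finset ℕ, ∀ a, G a = (Icc 1 (X / a ^ 2)).filter
    fun n => Squarefree n ∧ Nr P Q (k + 1) H n.primeFactors := ⟨_, fun _ => rfl⟩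
  have h1 : S.card ≤ ∑ a ∈ Icc 1 m, (G a).card := by
    refine (card_le_card (t := (Icc 1 m).biUnion fun a => (G a).image (a ^ 2 * ·))
      fun n hn => ?_).trans (card_biUnion_le.trans (sum_le_sum fun _ _ => card_image_le))
    obtain ⟨c, ⟨a, b, a1, a2, rfl⟩, d⟩ := h n hn
    obtain ⟨c1, c2⟩ := mem_Icc.1 c
    have a0 : a ≠ 0 := fun e => by simp [e] at c1
    have e : ∀ T ⊆ P ∪ Q, (a ^ 2 * b).primeFactors ∩ T = b.primeFactors ∩ T := fun T hT => by
      rw [Nat.primeFactors_mul (pow_ne_zero 2 a0) a2.ne_zero, Nat.primeFactors_pow _ two_ne_zero,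
        union_inter_distrib_right, disjoint_iff_inter_eq_empty.1 (disjoint_left.2 fun p x y =>
          (hP p (hT y)).not_ge ((Nat.le_of_mem_primeFactors x).trans a1)), empty_union]
    rw [Nr, e P subset_union_left, e Q subset_union_right] at d
    refine mem_biUnion.2 ⟨a, mem_Icc.2 ⟨by omega, a1⟩, mem_image.2 ⟨b, ?_, rfl⟩⟩
    rw [hG]
    exact mem_filter.2 ⟨mem_Icc.2 ⟨a2.ne_zero.bot_lt, (Nat.le_div_iff_mul_le (by positivity)).2
      (by rwa [mul_comm])⟩, a2, d⟩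
  refine (mul_le_mul_of_nonneg_right (Nat.cast_le.2 h1) (Real.sqrt_nonneg _)).trans ?_
  rw [Nat.cast_sum, sum_mul]
  refine (sum_le_sum (g := fun a : ℕ => 3 * Real.exp 17 * (2 * H + 3) * X * (1 / (a : ℝ) ^ 2))
    fun a ha => ?_).trans ?_
  · obtain ⟨a1, a2⟩ := mem_Icc.1 ha
    refine (near_sf (Z := X / a ^ 2) (H := H) hd hk ((Nat.le_div_iff_mul_le (by positivity)).2
      ((Nat.mul_le_mul_left 2 (Nat.pow_le_pow_left a2 2)).trans hX)) fun n hn => ?_).trans ?_
    · obtain ⟨b1, b2⟩ := mem_filter.1 (hG a ▸ hn)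
      exact ⟨(mem_Icc.1 b1).2, b2⟩
    · rw [mul_assoc _ (X : ℝ), mul_one_div]
      exact mul_le_mul_of_nonneg_left (Nat.cast_div_le.trans_eq (by rw [Nat.cast_pow]))
        (by positivity)
  · rw [← mul_sum]
    refine (mul_le_mul_of_nonneg_left (sum_inv_sq_le m) ?_).trans_eq ?_
    · positivity
    · ring

end Pool.Agent.Lib.MP_696deb_nt.CU.CV.Av
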