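import Pool.Agent.Lib.MP_696deb_nt.CV.AnA
import Pool.Agent.Lib.MP_696deb_nt.CV.AnC

/-! The masses of the types of primes and of the primes that see a cocycle. -/

set_option autoImplicit false
set_option linter.unusedSectionVars false

open scoped Classical
open Finset

namespace Pool.Agent.Lib.MP_696deb_nt.CU.CV.Av

open Pool.Agent.B6 Pool.Agent.B6.S

theorem ms_disj {P Q : Finset ℕ} (h : Disjoint P Q) : ms (P ∪ Q) = ms P + ms Q := sum_union h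

theorem ms_add (z X : ℕ) (P Q : ℕ → Prop) : ms (Wn z X P) + ms (Wn z X Q) =
    ms (Wn z X fun p => P p ∨ Q p) + ms (Wn z X fun p => P p ∧ Q p) := by
  refine sum_union_inter.symm.trans (congrArg₂ (fun a b => ms a + ms b) ?_ ?_) <;> ext p <;>
    simp only [mem_union, mem_inter, mem_Wn] <;> tauto

theorem ms_imp {z X : ℕ} {P Q : ℕ → Prop} (h : ∀ p, z < p → P p → Q p) :
    ms (Wn z X P) ≤ ms (Wn z X Q) := ms_mono fun p hp => by
  rw [mem_Wn] at hp ⊢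
  exact ⟨hp.1, hp.2.1, h p hp.1 hp.2.2⟩

variable [δ : Qd] {e d p z X : ℕ} {k : Gam → F3}

theorem not_dvd (hz : MM ≤ z) (h : z < p) : ¬ p ∣ MM := fun x =>
  (Nat.le_of_dvd MM_ne.bot_lt x).not_gt (hz.trans_lt h)

theorem three_le : 3 ≤ MM := Nat.le_of_dvd MM_ne.bot_lt three_dvd

theorem de_spl (hp : p.Prime) (hM : ¬ p ∣ MM) : de (fq p) = 1 ↔ S.Spl δ.D0 p := by
  have := Fact.mk hp
  have h0 : ¬ (p : ℤ) ∣ δ.D0 := fun x => hM ((Int.natCast_dvd.1 x).trans D0_dvd)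
  have h1 := B2.chi_frob (w := pl p) (a := δ.D0) (φ := fq p) (by
    rw [pl_p hp]
    exact fun x => ((Nat.prime_iff_prime_int.1 hp).dvd_or_dvd x).elim
      (fun x => hM ((Int.natCast_dvd.1 x).trans two_dvd)) h0) ((pl_p hp).symm ▸ fq_frob hp)
  rw [pl_p hp, ← jacobiSym.legendreSym.to_jacobiSym] at h1
  rw [de_eq_one, B2.chi_spec δ.h0, mul_eq_right₀ r0_ne, h1, Int.cast_eq_one]
  exact legendreSym.eq_one_iff p fun x => h0 ((ZMod.intCast_zmod_eq_zero_iff_dvd _ _).1 x)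

theorem not_sq : ¬ IsSquare δ.D0 := fun ⟨r, hr⟩ => by
  obtain ⟨-, -, -, g, -, hg⟩ := δ.nt0
  have := δ.h0
  rw [hr, Int.cast_mul, ← pow_two] at this
  rcases sq_eq_sq_iff_eq_or_eq_neg.1 this with h | h <;> simp [h] at hg

theorem de_mass : ∃ c : ℝ, ∀ z X : ℕ, MM ≤ z → 2 ≤ X →
    ms (Wn z X fun p => p.Prime ∧ mu 0 (fq p) = 1) ≤ LL X / 2 + c ∧
      ms (Wn z X fun p => p.Prime ∧ mu 0 (fq p) ≠ 1) ≤ LL X / 2 + c := by
  obtain ⟨c, h⟩ := spl_lower not_sq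
  obtain ⟨c', h'⟩ := spl_upper not_sq
  refine ⟨|c| + |c'| + 17, fun z X hz hX => ?_⟩
  have h1 := ms_mono (P := Wn z X fun p => p.Prime ∧ mu 0 (fq p) = 1)
    (Q := Wn 0 X fun p => p.Prime ∧ S.Spl δ.D0 p) fun p hp => by
      obtain ⟨a, b, x, y⟩ := mem_Wn.1 hp
      exact mem_Wn.2 ⟨x.pos, b, x, (de_spl x (not_dvd hz a)).1 (mu_zero _ ▸ y)⟩
  have h2 := ms_le (P := (Wn z X fun p => p.Prime ∧ mu 0 (fq p) ≠ 1) ∪
    Wn 0 X fun p => p.Prime ∧ S.Spl δ.D0 p) hX fun p hp => by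
      rcases mem_union.1 hp with k | k <;> exact ⟨(mem_Wn.1 k).2.2.1, (mem_Wn.1 k).2.1⟩
  rw [ms_disj (disjoint_left.2 fun p hp hq => by
    obtain ⟨a, b, x, y⟩ := mem_Wn.1 hp
    exact y ((mu_zero _).trans ((de_spl x (not_dvd hz a)).2 (mem_Wn.1 hq).2.2.2)))] at h2
  constructor <;> linarith [h X hX, h' X hX, le_abs_self c, le_abs_self c', abs_nonneg c,
    abs_nonneg c']

theorem mu_mass : ∃ c : ℝ, ∀ e z X : ℕ, MM ≤ z → 2 ≤ X →
    ms (Wn z X fun p => p.Prime ∧ mu e (fq p) = 1) ≤ LL X / 2 + c ∧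
      ms (Wn z X fun p => p.Prime ∧ mu e (fq p) ≠ 1) ≤ LL X / 2 + c := by
  obtain ⟨c, h⟩ := de_mass
  obtain ⟨c', h'⟩ := de_mass (δ := δ.sw)
  rw [mu_sw] at h'
  refine ⟨max c c', fun e z X hz hX => ?_⟩
  rw [← mu_mod]
  rcases Nat.mod_two_eq_zero_or_one e with x | x <;> rw [x]
  · exact (h z X hz hX).imp (·.trans (by simp)) (·.trans (by simp))
  · exact (h' z X hz hX).imp (·.trans (by simp)) (·.trans (by simp))

theorem ty_mass : ∃ c : ℝ, ∀ z X : ℕ, MM ≤ z → 2 ≤ X →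
    LL X / 4 - LL z - c ≤ ms (Wn z X fun p => p.Prime ∧ mu 1 (fq p) = 1 ∧ mu 0 (fq p) = 1) ∧
      LL X / 4 - LL z - c ≤ ms (Wn z X fun p => p.Prime ∧ mu 1 (fq p) ≠ 1 ∧ mu 0 (fq p) ≠ 1) := by
  obtain ⟨c, h⟩ := mu_mass
  obtain ⟨c', h'⟩ := inert_mass_le
  refine ⟨18 + c + c' / 2, fun z X hz hX => ?_⟩
  have z2 : 2 ≤ z := by have := three_le; omega
  have w := ms_win z2 hX
  have k : ∀ P : ℕ → ℕ → Prop, (∀ p, p.Prime → z < p → (P 0 p ↔ ¬ P 1 p) → p % 3 = 2) →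
      (∀ e, ms (Wn z X fun p => p.Prime ∧ P e p) ≤ LL X / 2 + c) →
      LL X / 4 - LL z - (18 + c + c' / 2) ≤ ms (Wn z X fun p => p.Prime ∧ ¬ P 1 p ∧ ¬ P 0 p) :=
    fun P a b => by
      have b1 := ms_add z X (fun p => p.Prime ∧ P 0 p) fun p => p.Prime ∧ P 1 p
      have b2 := (ms_imp (X := X) (P := Nat.Prime) fun p _ hp => by tauto).trans ((le_add_of_nonneg_right
        (ms_nonneg _)).trans_eq (ms_add z X (fun p => p.Prime ∧ P 0 p ∨ p.Prime ∧ P 1 p)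
          fun p => p.Prime ∧ ¬ P 1 p ∧ ¬ P 0 p).symm)
      have b3 := (ms_imp (X := X) (P := Nat.Prime) fun p x hp => by
        have := a p hp x
        tauto).trans (((le_add_of_nonneg_right (ms_nonneg _)).trans_eq (ms_add z X
          (fun p => p.Prime ∧ p % 3 = 2 ∨ (p.Prime ∧ P 0 p) ∧ p.Prime ∧ P 1 p)
          fun p => p.Prime ∧ ¬ P 1 p ∧ ¬ P 0 p).symm).trans (add_le_add_left
            ((le_add_of_nonneg_right (ms_nonneg _)).trans_eq (ms_add z X _ _).symm) _))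
      linarith [b 0, b 1, h' z X z2 hX]
  have m2 : ∀ p, p.Prime → z < p → (mu 0 (fq p) = 1 ↔ mu 1 (fq p) ≠ 1) → p % 3 = 2 :=
    fun p a b x => mod_two (e := 0) a (not_dvd hz b) fun y => by rw [y] at x; tauto
  refine ⟨?_, k (fun e p => mu e (fq p) = 1) m2 fun e => (h e z X hz hX).1⟩
  simpa only [not_not] using k (fun e p => mu e (fq p) ≠ 1) (fun p a b x => m2 p a b (by tauto))
    fun e => (h e z X hz hX).2

theorem see_mass : ∃ c : ℝ, ∀ (e z X : ℕ) (k : Gam → F3) (t : ℝ), Kc e ⊤ k →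
    (¬ ∃ s : F3, ∀ g, k g = s * (mu e g - 1)) → Ht (mu e) k t → 1 ≤ t → (4 * t) ^ 9 ≤ z → MM ≤ z →
    2 ≤ X → LL X / 3 - LL z - c ≤
      ms (Wn z X fun p => p.Prime ∧ mu e (fq p) = 1 ∧ k (fq p) ≠ 0) := by
  obtain ⟨c, h⟩ := mu_mass
  refine ⟨40 + 2 / 3 * c, fun e z X k t hk hn ht t1 hz hM hX => ?_⟩
  obtain ⟨x, hx⟩ := tc_ht hk hn ht t1
  have z2 : 2 ≤ z := by have := three_le; omega
  have hd : Disjoint (Wn z X fun p => p.Prime ∧ mu e (fq p) = 1 ∧ k (fq p) = 0)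
      (Wn z X fun p => p.Prime ∧ mu e (fq p) ≠ 1) :=
    disjoint_left.2 fun p hp hq => (mem_Wn.1 hq).2.2.2 (mem_Wn.1 hp).2.2.2.1
  have h1 := hx.mass (P := _ ∪ _) (w := pl) (φ := fq) (z := z) hX (by
    rw [ZMod.card 3]
    refine le_trans ?_ hz
    push_cast
    nlinarith [pow_pos (zero_lt_one.trans_le t1) 9]) (by
      rw [ZMod.card 3]
      exact le_of_eq_of_le (by ring) hz) fun p hp => by
    have y : p.Prime ∧ z < p ∧ p ≤ X := by
      rcases mem_union.1 hp with y | y <;> rw [mem_Wn] at y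
      exacts [⟨(y : _ ∧ _ ∧ p.Prime ∧ mu e (fq p) = 1 ∧ k (fq p) = 0).2.2.1, y.1, y.2.1⟩,
        ⟨(y : _ ∧ _ ∧ p.Prime ∧ mu e (fq p) ≠ 1).2.2.1, y.1, y.2.1⟩]
    exact ⟨Nat.cast_lt.2 y.2.1, y.2.2, pl_p y.1, fq_frob y.1⟩
  have h2 : 3 * ms (Wn z X fun p => p.Prime ∧ mu e (fq p) = 1 ∧ k (fq p) = 0) +
      ms (Wn z X fun p => p.Prime ∧ mu e (fq p) ≠ 1) ≤ LL X + 65 := by
    refine le_trans ?_ (h1.trans_eq (by rw [ZMod.card 3, LL]; norm_num))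
    rw [sum_union hd, ms, ms, mul_sum]
    refine add_le_add (sum_le_sum fun p hp => ?_) (sum_le_sum fun p hp => ?_)
    · obtain ⟨-, -, -, a, b⟩ := mem_Wn.1 hp
      simp [a, b, div_eq_mul_inv]
    · refine div_le_div_of_nonneg_right (Nat.one_le_cast.2 (card_pos.2 ⟨-k (fq p),
        (Sa.anf_mem_filter _ _).2 ?_⟩)) p.cast_nonneg
      rw [(mu_cases e _).resolve_left (mem_Wn.1 hp).2.2.2]
      generalize k (fq p) = y
      revert y
      decide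
  have h3 := (ms_win z2 hX).trans ((ms_mono fun p hp => by
    simp only [mem_union, mem_Wn] at hp ⊢
    tauto).trans ((ms_union ((Wn z X fun p => p.Prime ∧ mu e (fq p) = 1 ∧ k (fq p) = 0) ∪
      Wn z X fun p => p.Prime ∧ mu e (fq p) ≠ 1) (Wn z X fun p => p.Prime ∧ mu e (fq p) = 1 ∧
        k (fq p) ≠ 0)).trans (add_le_add_left (ms_union _ _) _)))
  linarith [(h e z X hM hX).2]

end Pool.Agent.Lib.MP_696deb_nt.CU.CV.Av
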