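import Pool.Agent.Lib.MP_696deb_nt.CV.Box
import Pool.Agent.Lib.MP_696deb_nt.CV.AnB
import Pool.Agent.Lib.MP_696deb_nt.CU.N1

/-! Good integers and their boxes. -/

set_option autoImplicit false
set_option linter.unusedSectionVars false

open scoped Classical
open Finset

namespace Pool.Agent.Lib.MP_696deb_nt.CU.CV.Av

open Pool.Agent.Lib.MP_696deb_nt.Sa Pool.Agent.B6.S An

variable [δ : Qd]

/-- The type of a prime. -/
noncomputable def cl (p : ℕ) : F3 × F3 := (mu 1 (fq p), mu 0 (fq p))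

/-- The class of a large prime. -/
noncomputable def Ck (m X p : ℕ) : Finset ℕ :=
  Wn (YY m) X fun q => q.Prime ∧ Sa.kap m q = Sa.kap m p ∧ cl q = cl p

def H4 (m X n : ℕ) : Prop := ∀ p ∈ lP m n, (1 / 2 : ℝ) ^ m ^ 5 * p ≤ (Ck m X p).card

/-- The lower window. -/
noncomputable def W0 (m : ℕ) : Finset ℕ := Wn (YY m) (2 ^ (aa m 0 * 2 ^ m ^ 3))
  fun p => p.Prime ∧ mu 1 (fq p) ≠ 1 ∧ mu 0 (fq p) ≠ 1

/-- The upper window. -/
noncomputable def W1 (m X : ℕ) : Finset ℕ :=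
  Wn (TT m) X fun p => p.Prime ∧ mu 1 (fq p) = 1 ∧ mu 0 (fq p) = 1

/-- The number of large prime factors with trivial action. -/
noncomputable def cn (e m n : ℕ) : ℕ := ((lP m n).filter fun p => mu e (fq p) = 1).card

def Gap (c m n : ℕ) : Prop := 3 * c * m + cn 1 m n ≤ cn 0 m n ∨ 3 * c * m + cn 0 m n ≤ cn 1 m n

/-- Cocycles that are unramified at the upper primes are seen by an upper prime. -/
def P1 (m n : ℕ) : Prop := ∀ e, ∀ k ∈ KK (lo (2 * TT m) n) e,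
  (∀ q ∈ up (2 * TT m) n, mu e (fq q) = 1 → k (fq q) = 0) → ∃ s : F3, ∀ g, k g = s * (mu e g - 1)

structure Gn (c m X n : ℕ) : Prop where
  pos : 1 ≤ n
  le : n ≤ X
  g0 : G0 m n
  g1 : Sa.G1 m n
  g2 : Sa.G2 m n
  g3 : Sa.G3 m n
  h4 : H4 m X n
  w0 : m ^ 2 ≤ (n.primeFactors ∩ W0 m).card
  w1 : m ^ 4 ≤ 10 * (n.primeFactors ∩ W1 m X).card
  gap : Gap c m n

noncomputable def bx (c m X n : ℕ) : Bx where
  r := (lP m n).card
  N0 := lo (YY m) n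
  X j := Ck m X (xs m n j)
  t j := sInf (Ck m X (xs m n j) : Set ℕ) - 1
  P0 := univ.filter fun j => mu 1 (fq (xs m n j)) = 1
  P1 := univ.filter fun j => mu 0 (fq (xs m n j)) = 1
  I k := univ.filter fun j => xs m n j ∈ if k = 0 then W0 m else W1 m X
  Up := univ.filter fun j => TT m < xs m n j
  H := 3 * c * m
  Y := YY m
  θ := (1 / 2) ^ m ^ 5

variable {c T m X n p q : ℕ}

theorem mem_Ck : q ∈ Ck m X p ↔ YY m < q ∧ q ≤ X ∧ q.Prime ∧ Sa.kap m q = Sa.kap m p ∧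
    cl q = cl p := mem_Wn

theorem Ck_eq (h : q ∈ Ck m X p) : Ck m X q = Ck m X p := by
  obtain ⟨-, -, -, a, b⟩ := mem_Ck.1 h
  ext x
  rw [mem_Ck, mem_Ck, a, b]

theorem Gn.ne (h : Gn c m X n) : n ≠ 0 := by have := h.pos; omega

theorem Gn.self (h : Gn c m X n) (hp : p ∈ lP m n) : p ∈ Ck m X p :=
  mem_Ck.2 ⟨(mem_up.1 hp).2, (Nat.le_of_mem_primeFactors (mem_up.1 hp).1).trans h.le,
    up_prime hp, rfl, rfl⟩

theorem Gn.small (h : Gn c m X n) (hp : p.Prime) (k : p ∣ lo (YY m) n) : p ≤ YY m :=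
  lo_small h.g0 h.ne (le_YY m) hp k

theorem mem_P0 {j : Fin (lP m n).card} : j ∈ (bx c m X n).P0 ↔ mu 1 (fq (xs m n j)) = 1 :=
  anf_mem_filter (P := fun j => mu 1 (fq (xs m n j)) = 1) _ j

theorem mem_P1 {j : Fin (lP m n).card} : j ∈ (bx c m X n).P1 ↔ mu 0 (fq (xs m n j)) = 1 :=
  anf_mem_filter (P := fun j => mu 0 (fq (xs m n j)) = 1) _ j

theorem mem_I {k : Fin 2} {j : Fin (lP m n).card} :
    j ∈ (bx c m X n).I k ↔ xs m n j ∈ if k = 0 then W0 m else W1 m X :=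
  anf_mem_filter (P := fun j => xs m n j ∈ if k = 0 then W0 m else W1 m X) _ j

theorem mem_I0 {j : Fin (lP m n).card} : j ∈ (bx c m X n).I 0 ↔ xs m n j ∈ W0 m := mem_I

theorem mem_I1 {j : Fin (lP m n).card} : j ∈ (bx c m X n).I 1 ↔ xs m n j ∈ W1 m X := mem_I

theorem mem_Up {j : Fin (lP m n).card} : j ∈ (bx c m X n).Up ↔ TT m < xs m n j :=
  anf_mem_filter (P := fun j => TT m < xs m n j) _ j

theorem card_cn (e : ℕ) : (univ.filter fun j => mu e (fq (xs m n j)) = 1).card = cn e m n := by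
  rw [cn, ← congrArg (filter _) anG_image, filter_image, card_image_of_injective _ anG_xs_inj]

theorem bx_gap (h : Gn c m X n) :
    (bx c m X n).H + (bx c m X n).P0.card ≤ (bx c m X n).P1.card ∨
      (bx c m X n).H + (bx c m X n).P1.card ≤ (bx c m X n).P0.card := by
  have := h.gap
  rwa [Gap, ← card_cn, ← card_cn] at this

theorem bx_wf (hm : MM ≤ m) (h : Gn c m X n) : (bx c m X n).Wf := by
  refine ⟨lo_ne h.ne, fun j p hp => (mem_Ck.1 hp).2.2.1, fun j p hp k => ?_, fun i j p hi hj => ?_,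
    fun j => ⟨_, h.self (anG_xs j)⟩, fun j p hp => ?_, fun j p hp => ?_⟩
  · obtain ⟨a, -, b, -⟩ := mem_Ck.1 hp
    exact ((Nat.Prime.dvd_mul b).1 k).elim (not_dvd (hm.trans (le_YY m)) a)
      fun k => (h.small b k).not_gt a
  · exact anG_xs_inj (h.g3 _ (anG_xs i) _ (anG_xs j)
      ((mem_Ck.1 hi).2.2.2.1.symm.trans (mem_Ck.1 hj).2.2.2.1))
  · exact mem_P0.trans (by rw [(Prod.mk.inj (mem_Ck.1 hp).2.2.2.2).1])
  · exact mem_P1.trans (by rw [(Prod.mk.inj (mem_Ck.1 hp).2.2.2.2).2])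

theorem bx_rng (hm : 2 ≤ m) {j : Fin (lP m n).card} (hp : p ∈ (bx c m X n).X j) :
    (bx c m X n).t j < p ∧ p ≤ 2 * (bx c m X n).t j ∧ YY m ≤ (bx c m X n).t j := by
  have hr : sInf (Ck m X (xs m n j) : Set ℕ) ∈ Ck m X (xs m n j) :=
    Nat.sInf_mem (s := (Ck m X (xs m n j) : Set ℕ)) ⟨p, hp⟩
  have h1 : sInf (Ck m X (xs m n j) : Set ℕ) ≤ p := Nat.sInf_le hp
  change sInf (Ck m X (xs m n j) : Set ℕ) - 1 < p ∧
    p ≤ 2 * (sInf (Ck m X (xs m n j) : Set ℕ) - 1) ∧ YY m ≤ sInf (Ck m X (xs m n j) : Set ℕ) - 1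
  generalize sInf (Ck m X (xs m n j) : Set ℕ) = R at hr h1
  have h2 := (mem_Ck.1 hr).1
  have h3 := anf_YY hm
  have h4 := kap_ratio (m := m) (p := R) (p' := p) (by omega) (by omega) (by omega)
    ((mem_Ck.1 hr).2.2.2.1.trans (mem_Ck.1 hp).2.2.2.1.symm)
  have h5 : (4 : ℝ) ≤ (m : ℝ) ^ 11 := by
    exact_mod_cast le_trans (by norm_num) (Nat.pow_le_pow_left hm 11)
  have h6 : Real.exp (1 / (m : ℝ) ^ 11) ≤ 4 / 3 :=
    ((Real.exp_le_exp.2 (one_div_le_one_div_of_le (by norm_num) h5)).trans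
      (Real.exp_bound_div_one_sub_of_interval (x := 1 / 4) (by norm_num) (by norm_num))).trans_eq
      (by norm_num)
  have h7 := h4.trans (mul_le_mul_of_nonneg_right h6 (Nat.cast_nonneg R))
  have h8 : 3 * p ≤ 4 * R := by exact_mod_cast (show (3 * p : ℝ) ≤ 4 * R by linarith)
  omega

theorem bx_k0 (hm : MM ≤ m) (h : Gn c m X n) : (bx c m X n).k0 ≤ 2 * m := by
  change (MM * lo (YY m) n).primeFactors.card ≤ _
  rw [Nat.primeFactors_mul MM_ne (lo_ne h.ne), lo_pf h.g0 h.ne (le_YY m)]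
  have h1 := card_union_le MM.primeFactors (sP m n)
  have h2 : (sP m n).card ≤ m := h.g2
  have h3 := card_le_card (s := MM.primeFactors) (t := Ioc 0 m) fun p hp => mem_Ioc.2
    ⟨(Nat.prime_of_mem_primeFactors hp).pos, (Nat.le_of_mem_primeFactors hp).trans hm⟩
  rw [Nat.card_Ioc] at h3
  exact h1.trans (by omega)

theorem exp_le {r k : ℕ} (hm : 2 ≤ m) (hc : 5 * c ≤ m) (hr : r ≤ m ^ 10) (hk : k ≤ 2 * m) :
    ((r + k + 1) ^ 2 + m ^ 5) * c ≤ m ^ 24 := by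
  have h1 : 2 ^ 9 * m ≤ m ^ 10 := Nat.mul_le_mul_right _ (Nat.pow_le_pow_left hm 9)
  have h2 : (r + k + 1) ^ 2 ≤ (2 * m ^ 10) ^ 2 := Nat.pow_le_pow_left (by omega) 2
  have h3 : m ^ 5 ≤ m ^ 20 := Nat.pow_le_pow_right (by omega) (by norm_num)
  have h5 : (2 * m ^ 10) ^ 2 = 4 * m ^ 20 := by ring
  calc ((r + k + 1) ^ 2 + m ^ 5) * c ≤ (5 * m ^ 20) * c := Nat.mul_le_mul_right _ (by omega)
    _ = m ^ 20 * (5 * c) := by ring
    _ ≤ m ^ 21 := Nat.mul_le_mul_left _ hc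
    _ ≤ _ := Nat.pow_le_pow_right (by omega) (by norm_num)

theorem bx_hyp (hm : 5 * c + 17 ≤ m) (hM : MM ≤ m) (hX : Sz m X) (h : Gn c m X n) :
    (bx c m X n).Hyp0 c := by
  have hm2 : 2 ≤ m := by omega
  have hk := bx_k0 hM h
  have hx := fun j => bx_rng (c := c) (X := X) hm2 (h.self (anG_xs (m := m) (n := n) j))
  have hT := YY_TT (m := m) (by omega)
  have a3 := anf_aa_succ (m := m) 0
  have a4 : 0 < aa m 0 * 2 ^ m ^ 3 := by unfold aa; positivity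
  refine ⟨bx_wf hM h, fun j p hp => ⟨(bx_rng hm2 hp).1, (bx_rng hm2 hp).2.1⟩, ?_, ?_, fun j => ?_,
    fun j => ?_, fun j => (hx j).2.2, ?_, ?_, Fin.forall_fin_two.2 ⟨?_, ?_⟩,
    fun j hj => mem_Up.2 (mem_Wn.1 (mem_I1.1 hj)).1, ?_, fun i hi j hj => ?_,
    fun j hj => (mem_Wn.1 (mem_I0.1 hj)).2.2.2.imp mem_P0.not.2 mem_P1.not.2,
    fun j hj => (mem_Wn.1 (mem_I1.1 hj)).2.2.2.imp mem_P0.2 mem_P1.2⟩
  · change (0 : ℝ) < (1 / 2) ^ m ^ 5
    positivity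
  · exact pow_le_one₀ (by norm_num) (by norm_num)
  · refine le_trans ?_ (h.h4 _ (anG_xs j))
    exact mul_le_mul_of_nonneg_left (Nat.cast_le.2 (hx j).1.le)
      (by change (0 : ℝ) ≤ (1 / 2) ^ m ^ 5; positivity)
  · have b1 : (bx c m X n).t j ≤ X := (hx j).1.le.trans (mem_Ck.1 (h.self (anG_xs j))).2.1
    have b2 : 32 ≤ (bx c m X n).t j := (anf_YY hm2).trans (hx j).2.2
    have b3 : (0 : ℝ) < (bx c m X n).t j := by exact_mod_cast (by omega : 0 < (bx c m X n).t j)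
    have b4 := Real.log_le_log b3 (Nat.cast_le.2 b1)
    have b5 := hX.log_le (by omega)
    have b6 : (2 : ℝ) ^ (16 * m ^ 4 + 1) ≤ 2 ^ m ^ 5 := pow_le_pow_right₀ one_le_two (by
      have := Nat.one_le_pow 4 m (by omega)
      rw [pow_succ m 4]
      nlinarith)
    have b7 : (1 : ℝ) ≤ 2 ^ (16 * m ^ 4) := one_le_pow₀ one_le_two
    change _ ≤ 1 / (1 / 2 : ℝ) ^ m ^ 5
    rw [Real.log_mul two_ne_zero b3.ne', one_div_pow, one_div_one_div]
    rw [pow_succ] at b6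
    linarith [anA_log2]
  · have h1 := exp_le (c := c) (r := (bx c m X n).r) (k := (bx c m X n).k0) hm2 (by omega)
      ((card_filter_le _ _).trans h.g1) hk
    change ((2 : ℝ) ^ (((bx c m X n).r + (bx c m X n).k0 + 1) ^ 2) / (1 / 2) ^ m ^ 5) ^ c ≤
      ((2 ^ m ^ 24 : ℕ) : ℝ)
    rw [one_div, inv_pow, div_inv_eq_mul, ← pow_add, ← pow_mul, Nat.cast_pow, Nat.cast_ofNat]
    exact pow_le_pow_right₀ (by norm_num) h1
  · change c * ((bx c m X n).k0 + 1) ≤ 3 * c * m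
    nlinarith
  · refine le_trans (show 3 * c * m ≤ m ^ 2 by nlinarith) (h.w0.trans (anf_card_le (fun p hp =>
      mem_filter.2 ⟨(mem_inter.1 hp).1, (mem_Wn.1 (mem_inter.1 hp).2).1⟩)
      fun j hj => mem_I0.2 (mem_inter.1 hj).2))
  · refine le_trans ?_ (anf_card_le (S := n.primeFactors ∩ W1 m X) (fun p hp =>
      mem_filter.2 ⟨(mem_inter.1 hp).1, hT.trans_lt (mem_Wn.1 (mem_inter.1 hp).2).1⟩)
      fun j hj => mem_I1.2 (mem_inter.1 hj).2)
    have b1 : 17 ^ 2 * m ^ 2 ≤ m ^ 4 := (Nat.mul_le_mul_right _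
      (Nat.pow_le_pow_left (by omega) 2)).trans_eq (pow_add m 2 2).symm
    have b2 : 3 * c * m ≤ m ^ 2 := by nlinarith
    have b3 := h.w1
    change 3 * c * m ≤ _
    omega
  · refine disjoint_left.2 fun j a b => ?_
    have a1 : xs m n j ≤ 2 ^ (aa m 0 * 2 ^ m ^ 3) := (mem_Wn.1 (mem_I0.1 a)).2.1
    refine (mem_Up.1 b).not_ge (a1.trans (Nat.pow_le_pow_right two_pos ?_))
    rw [a3]
    exact Nat.le_mul_of_pos_left _ (by omega)
  · have a1 : xs m n i ≤ 2 ^ (aa m 0 * 2 ^ m ^ 3) := (mem_Wn.1 (mem_I0.1 hi)).2.1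
    have a2 : 2 ^ aa m 1 < xs m n j := mem_Up.1 hj
    rw [a3] at a2
    generalize aa m 0 * 2 ^ m ^ 3 = E at a1 a2 a4
    have a7 : (bx c m X n).t i ^ c ≤ 2 ^ (c * E) := by
      rw [mul_comm, pow_mul]; exact Nat.pow_le_pow_left ((hx i).1.le.trans a1) c
    have a8 : 2 ^ (c * E + 1) ≤ 2 ^ (m * E) := Nat.pow_le_pow_right two_pos (by nlinarith)
    have a9 := (hx j).2.1
    rw [pow_succ] at a8
    omega

end Pool.Agent.Lib.MP_696deb_nt.CU.CV.Av
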