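import Pool.Agent.Lib.MP_696deb_nt.CV.D0

/-! Boxes of primes for cubic twists. -/

set_option autoImplicit false
set_option linter.unusedSectionVars false

open scoped Classical
open Finset

namespace Pool.Agent.Lib.MP_696deb_nt.CU.CV

/-- A box: a fixed part, `r` sets of large primes, the indices of primes that can ramify on the
sides zero and one, two windows, the set of upper indices and numerical parameters. -/
structure Bx where
  r : ℕ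
  N0 : ℕ
  X : Fin r → Finset ℕ
  t : Fin r → ℕ
  P0 : Finset (Fin r)
  P1 : Finset (Fin r)
  I : Fin 2 → Finset (Fin r)
  Up : Finset (Fin r)
  H : ℕ
  Y : ℕ
  θ : ℝ

namespace Bx

variable [δ : Qd] (B : Bx)

/-- The box with the two sides exchanged. -/
@[reducible] def sw : Bx := { B with P0 := B.P1, P1 := B.P0 }

/-- The indices that can ramify on the side `e`. -/
def P (e : ℕ) : Finset (Fin B.r) := if e % 2 = 0 then B.P0 else B.P1

/-- The small primes. -/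
def S0 : Finset ℕ := (MM * B.N0).primeFactors

def k0 : ℕ := B.S0.card

/-- Points. -/
abbrev Pt := Fin B.r → ℕ

/-- The twisting parameter of a point. -/
def nn (x : B.Pt) : ℕ := B.N0 * ∏ j, x j

def pts : Finset B.Pt := Fintype.piFinset B.X

/-- All losses are bounded powers of this number. -/
noncomputable def Z : ℝ := 2 ^ ((B.r + B.k0 + 1) ^ 2) / B.θ

/-- Every value is taken often in the upper window. -/
def Bal (v : Fin B.r → ZMod 3) : Prop :=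
  ∀ s : ZMod 3, 3 * (B.I 1).card ≤ 10 * ((B.I 1).filter fun j => v j = s).card

/-- A cocycle without upper primes that vanishes at the Frobenius elements of the upper primes
with trivial action is a coboundary. -/
def B1p (x : B.Pt) : Prop := ∀ (e : ℕ) (k : Gam → F3), Kc e ⊤ k →
  (∀ q : ℕ, q.Prime → ¬ q ∣ MM * B.N0 → (∀ j ∉ B.Up, x j ≠ q) → k (sq q) = 0) →
  (∀ j ∈ B.Up, mu e (fq (x j)) = 1 → k (fq (x j)) = 0) → ∃ s : F3, ∀ g, k g = s * (mu e g - 1)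

/-- The qualitative hypotheses on a box. -/
structure Wf : Prop where
  n0 : B.N0 ≠ 0
  prime : ∀ j, ∀ p ∈ B.X j, p.Prime
  cop : ∀ j, ∀ p ∈ B.X j, ¬ p ∣ MM * B.N0
  disj : ∀ i j, ∀ p ∈ B.X i, p ∈ B.X j → i = j
  ne : ∀ j, (B.X j).Nonempty
  t0 : ∀ j, ∀ p ∈ B.X j, j ∈ B.P0 ↔ mu 1 (fq p) = 1
  t1 : ∀ j, ∀ p ∈ B.X j, j ∈ B.P1 ↔ mu 0 (fq p) = 1

/-- The quantitative hypotheses on a box that do not distinguish the two sides. -/
structure Hyp0 (c : ℕ) : Prop where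
  wf : B.Wf
  rng : ∀ j, ∀ p ∈ B.X j, B.t j < p ∧ p ≤ 2 * B.t j
  pos : 0 < B.θ
  le1 : B.θ ≤ 1
  big : ∀ j, B.θ * B.t j ≤ (B.X j).card
  lg : ∀ j, Real.log (2 * B.t j) ≤ 1 / B.θ
  hY : ∀ j, B.Y ≤ B.t j
  hc : B.Z ^ c ≤ B.Y
  hH : c * (B.k0 + 1) ≤ B.H
  win : ∀ k, B.H ≤ (B.I k).card
  up : B.I 1 ⊆ B.Up
  dj : Disjoint (B.I 0) B.Up
  ord : ∀ i ∈ B.I 0, ∀ j ∈ B.Up, B.t i ^ c ≤ B.t j
  lo : ∀ j ∈ B.I 0, j ∉ B.P0 ∧ j ∉ B.P1
  hi : ∀ j ∈ B.I 1, j ∈ B.P0 ∧ j ∈ B.P1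

/-- The quantitative hypotheses on a box. -/
structure Hyp (c : ℕ) : Prop extends B.Hyp0 c where
  gap : B.H + B.P0.card ≤ B.P1.card

variable {B}

theorem two_le_Z (h : 0 < B.θ) (k : B.θ ≤ 1) : 2 ≤ B.Z := by
  rw [Z, le_div_iff₀ h]
  calc 2 * B.θ ≤ 2 ^ 1 := by linarith
    _ ≤ _ := pow_le_pow_right₀ one_le_two (Nat.one_le_pow _ _ (by omega))

theorem Hyp.two_le {c : ℕ} (h : B.Hyp c) : 2 ≤ B.Z := two_le_Z h.pos h.le1

theorem Hyp.inv_le {c : ℕ} (h : B.Hyp c) : 1 / B.θ ≤ B.Z :=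
  div_le_div_of_nonneg_right (one_le_pow₀ one_le_two) h.pos.le

theorem Hyp.mono {c c' : ℕ} (h : B.Hyp c') (hc : c ≤ c') : B.Hyp c := by
  have h1 : (1 : ℝ) ≤ B.Z := one_le_two.trans h.two_le
  refine ⟨⟨h.wf, h.rng, h.pos, h.le1, h.big, h.lg, h.hY, (pow_le_pow_right₀ h1 hc).trans h.hc,
    (Nat.mul_le_mul_right _ hc).trans h.hH, h.win, h.up, h.dj, fun i hi j hj => ?_, h.lo, h.hi⟩,
    h.gap⟩
  have h2 : (1 : ℝ) ≤ B.t i := ((one_le_pow₀ h1).trans h.hc).trans (Nat.cast_le.2 (h.hY i))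
  exact (Nat.pow_le_pow_right (by exact_mod_cast h2) hc).trans (h.ord i hi j hj)

end Bx

variable [δ : Qd]

/-- The output of the analytic part: almost all integers lie in good boxes. -/
def AnStmt : Prop := ∀ (c : ℕ) (ε : ℝ), 0 < ε → ∃ X0 : ℕ, ∀ X ≥ X0, ∃ (N : ℕ) (B : Fin N → Bx),
  (∀ i, (B i).Hyp0 c ∧ ((B i).H + (B i).P0.card ≤ (B i).P1.card ∨
    (B i).H + (B i).P1.card ≤ (B i).P0.card)) ∧ ∑ i, (B i).pts.card ≤ 2 * X ∧
    (((Icc 1 X).filter fun n => ¬ ∃ i, ∃ x ∈ (B i).pts, (B i).nn x = n ∧ (B i).B1p x).card : ℝ) ≤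
      ε * X

end Pool.Agent.Lib.MP_696deb_nt.CU.CV
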