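import Pool.Agent.Lib.MP_696deb_nt.CV.E2
import Pool.Agent.Lib.MP_696deb_nt.CU.E5

/-! The local conditions at good primes and at the primes of the twist. -/

set_option autoImplicit false
set_option linter.unusedSectionVars false

open scoped Classical

namespace Pool.Agent.Lib.MP_696deb_nt.CU.CV

variable [δ : Qd]

variable {n e l q : ℕ} {g : Gam} {P : A} {c : Gam → A} {u k : Gam → F3}

theorem act_K1 {w : Plc} (hg : g ∈ Dec w) (h : P ∈ K1 w) : act n e g P ∈ K1 w :=
  zsmul_mem (CU.act_K1 hg h) _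

theorem e5_ine (hq : q.Prime) (h3 : ¬ q ∣ MM) (n e : ℕ) (hg : g ∈ Iq q) (P : A) :
    cob (act n e) P g = un (kk n g) • g • P - P := by
  rw [H3.cob, act_def, sg_ine hq h3 hg, one_smul]
  exact CU.e5_ine n e (chi_ine hq (ne_three h3) hg) P

theorem e5_kil (h : th ^ l • P = 0) (g : Gam) : th ^ l • cob (act n e) P g = 0 := by
  rw [H3.cob, smul_sub, ← act_th_pow, h, map_zero, sub_zero]

theorem loc_good (hq : q.Prime) (h3 : ¬ q ∣ MM) (hn : ¬ q ∣ n) (h : Loc n e q c)
    (hl : ∀ g ∈ Gq q, th ^ l • c g = 0) : c (sq q) = 0 := by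
  obtain ⟨P, hP⟩ := h
  have q3 := ne_three h3
  have hs := sq_ine hq q3
  refine H3.rd_K1_tors (w := pl q) ?_ (three_pow_smul (hl _ (sq_mem hq q3)))
  rw [hP _ (sq_mem hq q3), e5_ine hq h3 n e hs, kk_ine hq q3 hn hs, un_zero, one_smul]
  exact H3.K1_ine (by rwa [pl_p hq]) hs P

theorem e5_mem (h : ∀ g, th ^ l • cob (act n e) P g = 0) : cob (act n e) P ∈ Zs n e l :=
  ⟨coc_cob n e ⊤ P, h, fun q _ _ => loc_cob n e q P, fun q hq k =>
    loc_good hq (fun e => k (e.mul_right n)) (fun e => k (e.mul_left _)) (loc_cob n e q P)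
      fun g _ => h g⟩

theorem cob_mem_Zs (n e : ℕ) (h : th ^ l • P = 0) : cob (act n e) P ∈ Zs n e l :=
  e5_mem (e5_kil h)

theorem e5_kC (n e : ℕ) (a : F3) : kC (fun g => a * (mu e g - 1)) ∈ Zs n e 1 := by
  rw [show kC _ = cob (act n e) (kT a) from (funext (cob_kT n e a)).symm]
  exact cob_mem_Zs n e (by rw [pow_one, th_kT])

theorem mu_mem_Zs (n e : ℕ) : kC (fun g => mu e g - 1) ∈ Zs n e 1 := by
  simpa only [one_mul] using e5_kC n e 1

theorem loc_iff {e' : ℕ} (h : ∀ g ∈ Gq q, act n e g = CU.act n e' g) :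
    Loc n e q c ↔ CU.Loc n e' q c :=
  exists_congr fun P => forall₂_congr fun g hg => by rw [H3.cob, H3.cob, h g hg]

/-- The local condition of level one at a prime that divides the twist exactly once. -/
theorem f1 (hq : q.Prime) (h3 : ¬ q ∣ MM) (hn : kk n (sq q) = 1) (hk : Kc e (Gq q) k) :
    Loc n e q (kC k) ↔ (mu e (fq q) = 1 → k (fq q) = k (sq q) * kk n (fq q)) := by
  have q3 := ne_three h3
  by_cases h1 : mu (e + 1) (fq q) = 1
  · rw [loc_iff fun g hg => act_one' hq h3 h1 n hg, f1_one hq q3 hn ((kc_one hq h3 h1).1 hk),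
      or_iff_not_imp_left]
    exact imp_congr_left ⟨fun h => by_contra fun k => h (mod_two hq h3 (h1 ▸ k)),
      fun h k => by have := mod_one hq h3 h h1; omega⟩
  have hs := hk.ev hq h3 h1
  by_cases h0 : mu e (fq q) = 1
  · refine ⟨fun h _ => f1_zero hq q3 hn ((loc_iff fun g hg => act_zero hq h3 h0 n hg).1 h)
      (fq_mem hq), fun h => ⟨0, fun g hg => ?_⟩⟩
    rw [cob_zero, kC, hk.det hq h3 hs (by rw [h h0, hs, zero_mul]) hg, map_zero]
  · refine iff_of_true ⟨kT (k (fq q)), fun g hg => ?_⟩ fun h => absurd h h0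
    rw [cob_kT]
    refine congrArg kT (sub_eq_zero.1 ((hk.sub ((kc_mu e _).smul (k (fq q)))).det hq h3 ?_ ?_ hg))
    · rw [Pi.sub_apply, hs, mu_ine hq h3 (sq_ine hq q3), sub_self, mul_zero, sub_zero]
    · rw [Pi.sub_apply, (mu_cases _ _).resolve_left h0]
      generalize k (fq q) = t
      revert t
      decide

end Pool.Agent.Lib.MP_696deb_nt.CU.CV
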