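import Pool.Agent.Lib.MP_696deb_nt.CV.E3
import Pool.Agent.Lib.MP_696deb_nt.CV.E4
import Pool.Agent.Lib.MP_696deb_nt.CV.E5
import Pool.Agent.Lib.MP_696deb_nt.CV.E7
import Pool.Agent.Lib.MP_696deb_nt.CU.Z1

/-! Finiteness and counting of Selmer cocycles. -/

set_option autoImplicit false
set_option linter.unusedSectionVars false

open scoped Classical
open Finset

namespace Pool.Agent.Lib.MP_696deb_nt.CU.CV

variable [δ : Qd]

/-- The cocycles of level one on the side zero that are unramified outside of `M n`. -/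
def WW (n : ℕ) : Set (Gam → F3) := KK n 0

/-- Cocycles of level `l` on the side zero that are unramified outside of `M n`. -/
structure Pre (n l : ℕ) (c : Gam → A) : Prop where
  coc : Coc ⊤ (act n 0) c
  kil : ∀ g, th ^ l • c g = 0
  unr : ∀ q : ℕ, q.Prime → ¬ q ∣ MM * n → c (sq q) = 0

/-- Relaxed lifts of level `l`. -/
structure RL (n l : ℕ) (c : Gam → A) : Prop extends Pre n l c where
  loc : ∀ q : ℕ, q.Prime → q ∣ MM * n → Loc n 1 q (th • c)

/-- The top digits of the Selmer cocycles of level `2 m` on the side zero. -/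
noncomputable def AA (n m : ℕ) : AddSubgroup (Gam → A) :=
  (Zs n 0 (2 * m)).map (DistribSMul.toAddMonoidHom (Gam → A) (th ^ (2 * m - 1)))

/-- There are many top digits. -/
def Big (n m : ℕ) : Prop := 9 < Nat.card (AA n m)

/-- The Selmer cocycles of level one on the side zero are coboundaries. -/
def Tv (n : ℕ) : Prop := ∀ c ∈ Zs n 0 1, ∃ s : F3, c = kC fun g => s * (mu 0 g - 1)

variable {n e l m : ℕ} {c y : Gam → A} {u : Gam → F3}

theorem z1_mem {q : ℕ} (hn : n ≠ 0) (hq : q.Prime) : q ∈ (MM * n).primeFactors ↔ q ∣ MM * n := by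
  simp [Nat.mem_primeFactors, hq, hn, MM_ne]

theorem z1_inj (hn : n ≠ 0) : Set.InjOn (fun u : Gam → F3 =>
    (rsM u, fun q : (MM * n).primeFactors => u (sq q))) (KK n e) := fun u hu v hv h => by
  obtain ⟨h1, h2⟩ := Prod.mk.inj h
  refine funext fun g => sub_eq_zero.1 (unr (hu.1.sub hv.1) (fun g hg => sub_eq_zero.2 ?_)
    (fun q hq _ => sub_eq_zero.2 ?_) g)
  · simpa only [rsM_of_mem hg] using congrFun h1 g
  · by_cases k : q ∣ MM * n
    · exact congrFun h2 ⟨q, (z1_mem hn hq).2 k⟩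
    · rw [hu.2 q hq k, hv.2 q hq k]

theorem z1_maps (n e : ℕ) : Set.MapsTo (fun u : Gam → F3 =>
    (rsM u, fun q : (MM * n).primeFactors => u (sq q))) (KK n e) (Z3 e ×ˢ Set.univ) :=
  fun _ hu => ⟨rsM_mem hu.1, trivial⟩

theorem finite_KK (hn : n ≠ 0) (e : ℕ) : (KK n e : Set (Gam → F3)).Finite :=
  Set.Finite.of_injOn (z1_maps n e) (z1_inj hn) ((finite_Z3 e).prod Set.finite_univ)

theorem card_KK (hn : n ≠ 0) (e : ℕ) :
    (KK n e : Set (Gam → F3)).ncard ≤ K3 * 3 ^ (MM * n).primeFactors.card := by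
  refine (Set.ncard_le_ncard_of_injOn _ (z1_maps n e) (z1_inj hn)
    ((finite_Z3 e).prod Set.finite_univ)).trans ?_
  rw [Set.ncard_prod, Set.ncard_univ, Nat.card_fun, Nat.card_zmod, Nat.card_eq_fintype_card,
    Fintype.card_coe]
  exact Nat.mul_le_mul_right _ (card_Z3 e)

theorem card_KK_pos (hn : n ≠ 0) (e : ℕ) : 0 < (KK n e : Set (Gam → F3)).ncard :=
  (Set.ncard_pos (finite_KK hn e)).2 ⟨0, zero_mem _⟩

theorem finite_WW (hn : n ≠ 0) : (WW n).Finite := finite_KK hn 0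

theorem card_WW_le (hn : n ≠ 0) : (WW n).ncard ≤ K3 * 3 ^ (MM * n).primeFactors.card := card_KK hn 0

theorem zero_mem_WW (n : ℕ) : 0 ∈ WW n := zero_mem (KK n 0)

theorem card_WW_pos (hn : n ≠ 0) : 0 < (WW n).ncard := card_KK_pos hn 0

theorem finite_unr (hn : n ≠ 0) (e l : ℕ) : {c : Gam → A | Coc ⊤ (act n e) c ∧
    (∀ g, th ^ l • c g = 0) ∧ ∀ q : ℕ, q.Prime → ¬ q ∣ MM * n → c (sq q) = 0}.Finite := by
  refine Set.Finite.of_injOn (f := fun c : Gam → A =>
    (rsM c, fun q : (MM * n).primeFactors => c (sq q)))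
    (t := Z3l n e l ×ˢ Set.univ.pi fun _ => {P : A | th ^ l • P = 0})
    (fun c hc => ⟨rsM_mem_l hc.1 hc.2.1, fun _ _ => hc.2.1 _⟩)
    (fun c hc d hd h => ?_) ((finite_Z3l n e l).prod (Set.Finite.pi fun _ => finite_tors l))
  obtain ⟨h1, h2⟩ := Prod.mk.inj h
  refine funext fun g => sub_eq_zero.1 (unr_l (l := l) (hc.1.lo_sub hd.1) (fun g => ?_)
    (fun g hg => sub_eq_zero.2 ?_) (fun q hq _ => sub_eq_zero.2 ?_) g)
  · rw [Pi.sub_apply, smul_sub, hc.2.1, hd.2.1, sub_self]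
  · simpa only [rsM_of_mem hg] using congrFun h1 g
  · by_cases k : q ∣ MM * n
    · exact congrFun h2 ⟨q, (z1_mem hn hq).2 k⟩
    · rw [hc.2.2 q hq k, hd.2.2 q hq k]

theorem finite_Pre (hn : n ≠ 0) (l : ℕ) : {c | Pre n l c}.Finite :=
  (finite_unr hn 0 l).subset fun _ h => ⟨h.coc, h.kil, h.unr⟩

theorem finite_RL (hn : n ≠ 0) (l : ℕ) : {c | RL n l c}.Finite :=
  (finite_Pre hn l).subset fun _ h => h.toPre

theorem finite_Zs (hn : n ≠ 0) (e l : ℕ) : (Zs n e l : Set (Gam → A)).Finite :=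
  (finite_unr hn e l).subset fun _ h => ⟨h.coc, h.kil, h.unr⟩

theorem zs_level {l' : ℕ} (h : c ∈ Zs n e l) (k : ∀ g, th ^ l' • c g = 0) : c ∈ Zs n e l' :=
  ⟨h.coc, k, h.loc, h.unr⟩

theorem zs_zero (n e : ℕ) : Zs n e 0 = ⊥ :=
  (AddSubgroup.eq_bot_iff_forall _).2 fun _ h => funext fun g => by simpa using h.kil g

theorem zs_add_two (n e l : ℕ) : Zs n (e + 2) l = Zs n e l := by
  rw [← zs_mod, Nat.add_mod_right, zs_mod]

/-- The top digits of the Selmer cocycles of level `l + 1`. -/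
noncomputable def Top (n e l : ℕ) : AddSubgroup (Gam → A) :=
  (Zs n e (l + 1)).map (DistribSMul.toAddMonoidHom (Gam → A) (th ^ l))

theorem mem_Top : y ∈ Top n e l ↔ ∃ c ∈ Zs n e (l + 1), th ^ l • c = y := Iff.rfl

theorem AA_eq (n m : ℕ) : AA n (m + 1) = Top n 0 (2 * m + 1) := rfl

theorem mem_AA : y ∈ AA n m ↔ ∃ c ∈ Zs n 0 (2 * m), th ^ (2 * m - 1) • c = y := Iff.rfl

theorem Top_le (n e l : ℕ) : Top n e l ≤ Zs n (e + l) 1 := by
  rintro _ ⟨c, hc, rfl⟩
  exact zs_th_pow l (by rwa [add_comm])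

theorem Top_anti (n e l : ℕ) : Top n e (l + 2) ≤ Top n e l := by
  rintro _ ⟨c, hc, rfl⟩
  exact ⟨th ^ 2 • c, zs_add_two n e _ ▸ zs_th_pow 2 hc, by
    simp only [DistribSMul.toAddMonoidHom_apply, smul_smul, ← pow_add]⟩

theorem AA_le1 (n m : ℕ) : AA n m ≤ Zs n 1 1 := by
  rcases m with _ | m
  · rintro _ ⟨c, hc, rfl⟩
    rw [mul_zero, zs_zero] at hc
    rw [AddSubgroup.mem_bot.1 hc, map_zero]
    exact zero_mem _
  · rw [AA_eq, ← zs_mod n 1, show 1 % 2 = (0 + (2 * m + 1)) % 2 by omega, zs_mod]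
    exact Top_le _ _ _

theorem AA_anti {m' : ℕ} (hm : 1 ≤ m) (h : m ≤ m') : AA n m' ≤ AA n m := by
  induction h with
  | refl => exact le_rfl
  | @step k hk ih =>
    refine le_trans ?_ ih
    obtain ⟨k, rfl⟩ := Nat.exists_eq_add_of_le' (hm.trans hk)
    exact Top_anti n 0 (2 * k + 1)

theorem finite_Top (hn : n ≠ 0) (e l : ℕ) : (Top n e l : Set (Gam → A)).Finite :=
  (finite_Zs hn _ 1).subset (Top_le n e l)

theorem finite_AA (hn : n ≠ 0) (m : ℕ) : (AA n m : Set (Gam → A)).Finite :=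
  (finite_Zs hn 1 1).subset (AA_le1 n m)

theorem card_top (n e l : ℕ) :
    Nat.card (Zs n e (l + 1)) = Nat.card (Zs n e l) * Nat.card (Top n e l) :=
  z1_card _ _ _ fun _ => ⟨fun h => ⟨zs_mono (Nat.le_succ l) h, funext h.kil⟩,
    fun h => zs_level h.1 (congrFun h.2)⟩

theorem card_Zs_th (hn : n ≠ 0) (e l : ℕ) :
    Nat.card (Zs n e (l + 1)) ≤ Nat.card (Zs n e 1) * Nat.card (Zs n (e + 1) l) := by
  rw [z1_card (DistribSMul.toAddMonoidHom (Gam → A) th) (Zs n e (l + 1)) (Zs n e 1) fun _ =>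
    ⟨fun h => ⟨zs_mono (by omega) h, funext fun g => by simpa using h.kil g⟩,
      fun h => zs_level h.1 fun g => by simpa using congrFun h.2 g⟩]
  have := (finite_Zs hn (e + 1) l).to_subtype
  refine Nat.mul_le_mul_left _ (AddSubgroup.card_le_of_le ?_)
  rintro _ ⟨c, hc, rfl⟩
  exact zs_th hc

/-- The Selmer cocycles with a given top digit form a coset. -/
theorem fib_eq (hc : c ∈ Zs n e (l + 1)) :
    {d | d ∈ Zs n e (l + 1) ∧ th ^ l • d = th ^ l • c} = (c + ·) '' (Zs n e l : Set (Gam → A)) := by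
  ext d
  constructor
  · rintro ⟨h1, h2⟩
    refine ⟨d - c, zs_level (sub_mem h1 hc) fun g => ?_, add_sub_cancel _ _⟩
    rw [← Pi.smul_apply, smul_sub, h2, sub_self, Pi.zero_apply]
  · rintro ⟨z, hz, rfl⟩
    exact ⟨add_mem hc (zs_mono (Nat.le_succ l) hz), by
      rw [smul_add, show th ^ l • z = 0 from funext hz.kil, add_zero]⟩

theorem card_fib (hy : y ∈ Top n e l) :
    {d | d ∈ Zs n e (l + 1) ∧ th ^ l • d = y}.ncard = Nat.card (Zs n e l) := by
  obtain ⟨c, hc, rfl⟩ := mem_Top.1 hy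
  rw [fib_eq hc, Set.ncard_image_of_injective _ (add_right_injective c)]
  rfl

theorem cob_th_pow (n e j : ℕ) (P : A) (g : Gam) :
    cob (act n (e + j)) (th ^ j • P) g = th ^ j • cob (act n e) P g := by
  rw [cob, cob, act_th_pow, smul_sub]

theorem mu_mem_Top (n e l : ℕ) (s : F3) : kC (fun g => s * (mu (e + l) g - 1)) ∈ Top n e l := by
  obtain ⟨Q, hQ⟩ := exists_root l (kT s)
  refine ⟨cob (act n e) Q, cob_mem_Zs n e (by rw [pow_succ', mul_smul, hQ, th_kT]),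
    funext fun g => ?_⟩
  exact (cob_th_pow n e l Q g).symm.trans (by rw [hQ, cob_kT])

theorem mu_inj (e : ℕ) : Function.Injective fun s : F3 => kC fun g => s * (mu e g - 1) :=
  fun s t h => by
    obtain ⟨g, -, hg⟩ := exists_nt e
    have : s * (mu e g - 1) = t * (mu e g - 1) := kT_inj (congrFun h g)
    rw [hg] at this
    exact mul_right_cancel₀ (by decide) this

theorem three_le_Top (hn : n ≠ 0) (e l : ℕ) : 3 ≤ Nat.card (Top n e l) := by
  have := (finite_Top hn e l).to_subtype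
  exact (Nat.card_zmod 3).ge.trans (Nat.card_le_card_of_injective
    (fun s : F3 => (⟨_, mu_mem_Top n e l s⟩ : Top n e l)) fun s t h =>
      mu_inj (e + l) (congrArg Subtype.val h))

theorem Tv.card (h0 : Tv n) : Nat.card (Zs n 0 1) = 3 := by
  refine Eq.trans (Nat.card_congr (Equiv.ofBijective
    (fun s : F3 => (⟨_, e5_kC n 0 s⟩ : Zs n 0 1)) ⟨fun s t h => mu_inj 0 (congrArg Subtype.val h),
      fun c => ?_⟩).symm) (Nat.card_zmod 3)
  obtain ⟨s, hs⟩ := h0 c.1 c.2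
  exact ⟨s, Subtype.ext hs.symm⟩

theorem card_odd (hn : n ≠ 0) (h0 : Tv n) (m : ℕ) :
    Nat.card (Zs n 0 (2 * m + 1)) = Nat.card (Zs n 0 (2 * m)) * 3 := by
  have h := Top_le n 0 (2 * m)
  rw [← zs_mod, show (0 + 2 * m) % 2 = 0 by omega] at h
  have := (finite_Zs hn 0 1).to_subtype
  rw [card_top, le_antisymm ((AddSubgroup.card_le_of_le h).trans h0.card.le) (three_le_Top hn 0 _)]

theorem card_even (hn : n ≠ 0) (h0 : Tv n) (m : ℕ) : Nat.card (Zs n 0 (2 * (m + 1))) =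
    Nat.card (Zs n 0 (2 * m)) * 3 * Nat.card (AA n (m + 1)) := by
  rw [← card_odd hn h0 m, AA_eq, ← card_top]
  rfl

theorem gro_zero (hn : n ≠ 0) (h0 : Tv n) (hm : 1 ≤ m) (h : ¬ Big n m) (k : ℕ) :
    Nat.card (Zs n 0 (2 * (m + k))) ≤ Nat.card (Zs n 0 (2 * m)) * 27 ^ k := by
  induction k with
  | zero => simp
  | succ k ih =>
    have := (finite_AA hn m).to_subtype
    rw [← add_assoc, card_even hn h0, pow_succ, ← mul_assoc, mul_assoc _ 3]
    exact Nat.mul_le_mul ih (Nat.mul_le_mul_left 3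
      ((AddSubgroup.card_le_of_le (AA_anti hm (by omega))).trans (not_lt.1 h)))

theorem gro_of (hn : n ≠ 0) (h0 : Tv n) (hm : 1 ≤ m) (h : ¬ Big n m) : Gro n 3 := by
  refine ⟨Nat.card (Zs n 1 1) * Nat.card (Zs n 0 (2 * m)), fun k => ?_⟩
  have h1 := (finite_Zs hn 1 (2 * (m + k) + 1)).to_subtype
  have h2 := card_Zs_th hn 1 (2 * (m + k))
  rw [zs_add_two n 0] at h2
  rw [pow_mul, mul_assoc]
  exact ((AddSubgroup.card_le_of_le (zs_mono (by omega))).trans h2).trans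
    (Nat.mul_le_mul_left _ (gro_zero hn h0 hm h k))

/-- The growth condition does not depend on the side. -/
theorem gro_sw {s : ℕ} (hn : n ≠ 0) (h : Gro (δ := δ.sw) n s) : Gro n s := by
  obtain ⟨C, hC⟩ := h
  refine ⟨Nat.card (Zs n 1 1) * C, fun k => ?_⟩
  have h1 := (finite_Zs hn 1 (2 * k + 1)).to_subtype
  have h3 := hC k
  rw [zs_sw] at h3
  rw [mul_assoc]
  exact ((AddSubgroup.card_le_of_le (zs_mono (Nat.le_succ _))).trans (card_Zs_th hn 1 _)).trans
    (Nat.mul_le_mul_left _ h3)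

theorem three_Zs (h : c ∈ Zs n e 1) : 3 • c = 0 :=
  funext fun g => by simpa using three_pow_smul (h.kil g)

theorem card_pow (hn : n ≠ 0) {H : AddSubgroup (Gam → A)} (h : H ≤ Zs n e 1) :
    ∃ k, Nat.card H = 3 ^ k := by
  have : Finite H := ((finite_Zs hn e 1).subset h).to_subtype
  have := Fact.mk Nat.prime_three
  have hp : IsPGroup 3 (Multiplicative H) := fun c =>
    ⟨1, Subtype.ext (three_Zs (h (Multiplicative.toAdd c).2))⟩
  exact hp.exists_card_eq

theorem Big.le27 (h : Big n m) (hn : n ≠ 0) : 27 ≤ Nat.card (AA n m) := by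
  obtain ⟨k, hk⟩ := card_pow hn (AA_le1 n m)
  rw [Big, hk, show 9 = 3 ^ 2 from rfl, Nat.pow_lt_pow_iff_right (by norm_num)] at h
  rw [hk]
  exact Nat.pow_le_pow_right (i := 3) (n := 3) (by norm_num) h

theorem Big.pos (h : Big n m) : 1 ≤ m := by
  refine Nat.pos_of_ne_zero ?_
  rintro rfl
  rw [Big, AA, mul_zero, zs_zero, AddSubgroup.map_bot, AddSubgroup.card_bot] at h
  omega

theorem card_Zs_mono (hn : n ≠ 0) (e : ℕ) {l' : ℕ} (h : l ≤ l') :
    Nat.card (Zs n e l) ≤ Nat.card (Zs n e l') := by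
  have := (finite_Zs hn e l').to_subtype
  exact AddSubgroup.card_le_of_le fun _ hc => zs_mono h hc

theorem card_succ (hn : n ≠ 0) (e l : ℕ) : Nat.card (Zs n e l) * 3 ≤ Nat.card (Zs n e (l + 1)) := by
  rw [card_top]
  exact Nat.mul_le_mul_left _ (three_le_Top hn e l)

theorem Big.card0 (h : Big n m) (hn : n ≠ 0) {i : ℕ} (hi : i ≤ m) :
    81 ^ i ≤ Nat.card (Zs n 0 (2 * i)) := by
  induction i with
  | zero => rw [mul_zero, zs_zero, AddSubgroup.card_bot, pow_zero]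
  | succ i ih =>
    have := (finite_AA hn (i + 1)).to_subtype
    rw [show 2 * (i + 1) = 2 * i + 1 + 1 from rfl, card_top, ← AA_eq, pow_succ,
      show 81 = 3 * 27 from rfl, ← mul_assoc]
    exact Nat.mul_le_mul ((Nat.mul_le_mul_right 3 (ih (by omega))).trans (card_succ hn 0 _))
      ((h.le27 hn).trans (AddSubgroup.card_le_of_le (AA_anti (by omega) hi)))

/-- Every top digit has many lifts. -/
theorem Big.fib (h : Big n m) (hn : n ≠ 0) (hy : y ∈ AA n m) :
    3 * 81 ^ (m - 1) ≤ {d | d ∈ Zs n 0 (2 * m) ∧ th ^ (2 * m - 1) • d = y}.ncard := by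
  obtain ⟨m, rfl⟩ := Nat.exists_eq_add_of_le' h.pos
  rw [mul_comm]
  exact ((Nat.mul_le_mul_right 3 (h.card0 hn (Nat.le_succ m))).trans (card_succ hn 0 _)).trans_eq
    (card_fib hy).symm

theorem mu_AA (hm : 1 ≤ m) (s : F3) : kC (fun g => s * (mu 1 g - 1)) ∈ AA n m := by
  obtain ⟨m, rfl⟩ := Nat.exists_eq_add_of_le' hm
  rw [AA_eq, mu_eq (a := 1) (b := 0 + (2 * m + 1)) ⟨m + 1, by omega⟩]
  exact mu_mem_Top n 0 _ s

theorem RL.th_mem {d : Gam → A} (h : RL n (l + 1) d) : th • d ∈ Zs n 1 l :=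
  ⟨coc_th h.coc, fun g => by rw [Pi.smul_apply, ← mul_smul, ← pow_succ, h.kil], h.loc,
    fun q hq k => by rw [Pi.smul_apply, h.unr q hq k, smul_zero]⟩

theorem RL.isLift {d : Gam → A} (h : RL n l d) : IsLift n (th • d) d := ⟨h.coc, fun _ => rfl, h.unr⟩

theorem rl_of_mem (hc : c ∈ Zs n 0 l) : RL n l c :=
  ⟨⟨hc.coc, hc.kil, hc.unr⟩, fun q hq k => (hc.loc q hq k).th_smul⟩

theorem rl_lift (hc : c ∈ Zs n 1 l) {d : Gam → A} : RL n (l + 1) d ∧ th • d = c ↔ IsLift n c d :=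
  ⟨fun h => ⟨h.1.coc, congrFun h.2, h.1.unr⟩, fun h => ⟨⟨⟨h.coc, fun g => by
    rw [pow_succ, mul_smul, h.th_smul, hc.kil], h.unr⟩, fun q hq k => by
    rw [show th • d = c from funext h.th_smul]
    exact hc.loc q hq k⟩, funext h.th_smul⟩⟩

/-- The lifts form a torsor. -/
theorem lift_eq {d : Gam → A} (h : IsLift n c d) :
    {d' | IsLift n c d'} = (fun u => d + kC u) '' WW n := by
  ext d'
  constructor
  · intro h'
    obtain ⟨u, u1, u2⟩ := exists_kC (h'.coc.add h.coc.neg) fun g _ => by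
      rw [Pi.add_apply, Pi.neg_apply, smul_add, smul_neg, h.th_smul, h'.th_smul, add_neg_cancel]
    refine ⟨u, ⟨u1, fun q hq k => kT_inj ?_⟩, funext fun g => ?_⟩
    · rw [← u2 _ trivial, Pi.add_apply, Pi.neg_apply, h.unr q hq k, h'.unr q hq k, neg_zero,
        add_zero, map_zero]
    · beta_reduce
      rw [Pi.add_apply, kC, ← u2 g trivial, Pi.add_apply, Pi.neg_apply, add_comm (d' g),
        add_neg_cancel_left]
  · rintro ⟨u, hu, rfl⟩
    beta_reduce
    exact ⟨h.coc.add (coc_kC.2 hu.1), fun g => by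
      rw [Pi.add_apply, smul_add, h.th_smul, kC, th_kT, add_zero],
      fun q hq e => by rw [Pi.add_apply, h.unr q hq e, kC, hu.2 q hq e, map_zero, add_zero]⟩

theorem card_lift_of {d : Gam → A} (hd : IsLift n c d) :
    {d | IsLift n c d}.ncard = (WW n).ncard := by
  rw [lift_eq hd, Set.ncard_image_of_injective _ fun _ _ h => kC_inj (add_left_cancel h)]

theorem card_lift (hc : c ∈ Zs n 1 l) : {d | IsLift n c d}.ncard = (WW n).ncard := by
  obtain ⟨d, hd⟩ := ext hc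
  exact card_lift_of hd

end Pool.Agent.Lib.MP_696deb_nt.CU.CV
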