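import Pool.Agent.Lib.MP_696deb_nt.CV.Cb0
import Pool.Agent.Lib.MP_696deb_nt.CV.S0
import Pool.Agent.Lib.MP_696deb_nt.CV.E4

/-! Points of a box, colours and the vertices of a cube. -/

set_option autoImplicit false
set_option linter.unusedSectionVars false

open scoped Classical
open Finset

namespace Pool.Agent.Lib.MP_696deb_nt.CU.CV.Bx

variable [δ : Qd]

variable {B : Bx} {x x' y y' : B.Pt} {l q : ℕ} {a : B.Pat} {γ : B.Col} {c c' : Gam → A}
  {S b w : Finset (Fin B.r)}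

theorem c_mem (hx : x ∈ B.pts) (j : Fin B.r) : x j ∈ B.X j := Fintype.mem_piFinset.1 hx j

theorem Wf.c_pr (hB : B.Wf) (hx : x ∈ B.pts) (j : Fin B.r) : (x j).Prime :=
  hB.prime j _ (c_mem hx j)

theorem Wf.c_nM (hB : B.Wf) (hx : x ∈ B.pts) (j : Fin B.r) : ¬ x j ∣ MM := fun h =>
  hB.cop j _ (c_mem hx j) (h.mul_right _)

theorem Wf.c_ne3 (hB : B.Wf) (hx : x ∈ B.pts) (j : Fin B.r) : x j ≠ 3 := ne_three (hB.c_nM hx j)

theorem Wf.c_notMem (hB : B.Wf) (hx : x ∈ B.pts) (j : Fin B.r) : x j ∉ B.S0 := fun h =>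
  hB.cop j _ (c_mem hx j) (Nat.dvd_of_mem_primeFactors h)

theorem Wf.c_inj (hB : B.Wf) (hx : x ∈ B.pts) (hy : y ∈ B.pts) {i j : Fin B.r} (h : x i = y j) :
    i = j := hB.disj i j _ (c_mem hx i) (h ▸ c_mem hy j)

theorem Wf.c_nn (hB : B.Wf) (hx : x ∈ B.pts) : B.nn x ≠ 0 :=
  mul_ne_zero hB.n0 (prod_ne_zero_iff.2 fun j _ => (hB.c_pr hx j).ne_zero)

theorem c_S0 (h : q ∈ B.S0) : q.Prime := Nat.prime_of_mem_primeFactors h

theorem Wf.c_dvd (hB : B.Wf) (hx : x ∈ B.pts) (hq : q.Prime) :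
    q ∣ MM * B.nn x ↔ q ∈ B.S0 ∨ ∃ j, x j = q := by
  rw [nn, ← mul_assoc, hq.dvd_mul, hq.prime.dvd_finsetProd_iff]
  refine or_congr ⟨fun h => Nat.mem_primeFactors.2 ⟨hq, h, mul_ne_zero MM_ne hB.n0⟩,
    Nat.dvd_of_mem_primeFactors⟩ (exists_congr fun j => ?_)
  rw [Nat.prime_dvd_prime_iff_eq hq (hB.c_pr hx j)]
  simp [eq_comm]

theorem Wf.c_sum {M : Type} [AddCommMonoid M] (hB : B.Wf) (hx : x ∈ B.pts) (f : ℕ → M) :
    ∑ q ∈ (MM * B.nn x).primeFactors, f q = ∑ q ∈ B.S0, f q + ∑ j, f (x j) := by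
  have e : (MM * B.nn x).primeFactors = B.S0 ∪ univ.image x := Finset.ext fun q => by
    rw [mem_union, mem_image, Nat.mem_primeFactors]
    constructor
    · exact fun h => ((hB.c_dvd hx h.1).1 h.2.1).imp_right fun ⟨j, hj⟩ => ⟨j, mem_univ _, hj⟩
    · intro h
      have hq : q.Prime := h.elim c_S0 fun ⟨j, _, hj⟩ => hj ▸ hB.c_pr hx j
      exact ⟨hq, (hB.c_dvd hx hq).2 (h.imp_right fun ⟨j, _, hj⟩ => ⟨j, hj⟩),
        mul_ne_zero MM_ne (hB.c_nn hx)⟩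
  rw [e, sum_union, sum_image fun i _ j _ h => hB.c_inj hx hx h]
  exact disjoint_right.2 fun q hq h => by
    obtain ⟨j, _, rfl⟩ := mem_image.1 hq
    exact hB.c_notMem hx j h

theorem c_pw (hx : x ∈ B.pts) (hx' : x' ∈ B.pts) (w : Finset (Fin B.r)) :
    w.piecewise x' x ∈ B.pts := Fintype.mem_piFinset.2 fun j => by
  rw [piecewise]
  split_ifs
  exacts [c_mem hx' j, c_mem hx j]

theorem Wf.c_kk (hB : B.Wf) (hx : x ∈ B.pts) (g : Gam) :
    kk (B.nn x) g = kk B.N0 g + ∑ j, kk (x j) g := by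
  rw [nn, kk_mul hB.n0 (prod_ne_zero_iff.2 fun j _ => (hB.c_pr hx j).ne_zero),
    kk_prod _ fun j _ => (hB.c_pr hx j).ne_zero]

theorem c_kE (e : ℕ) (x : B.Pt) (a : B.Pe e) (g : Gam) :
    B.kE e x a g = a.1.1 g + ∑ j, a.2 j * kap e (x j) g := by
  simp [kE]

theorem c_kc {e : ℕ} (x : B.Pt) (a : B.Pe e) (D : Subgroup Gam) : Kc e D (B.kE e x a) :=
  ((Kc.mono a.1.2.1 le_top).add
    (Kc.sum univ fun j _ => (kc_kap e (x j) D).smul (a.2 j))).congr fun g _ => (c_kE e x a g).symm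

theorem c_sum_pw {M : Type} [AddCommGroup M] (f : Fin B.r → ℕ → M) (w : Finset (Fin B.r)) :
    ∑ j, f j (w.piecewise x' x j) = ∑ j, f j (x j) + ∑ i ∈ w, (f i (x' i) - f i (x i)) := by
  rw [← sum_filter_add_sum_filter_not univ (· ∈ w), ← sum_filter_add_sum_filter_not univ (· ∈ w)
    fun j => f j (x j), filter_mem_eq_inter, univ_inter, sum_sub_distrib,
    sum_congr rfl fun j hj => by rw [piecewise_eq_of_mem _ _ _ hj],
    sum_congr (s₂ := univ.filter (· ∉ w)) rfl fun j hj => by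
      rw [piecewise_eq_of_notMem _ _ _ (mem_filter.1 hj).2]]
  abel

theorem c_kA_pw (a : B.Pat) (w : Finset (Fin B.r)) (g : Gam) : B.kA (w.piecewise x' x) a g =
    B.kA x a g + ∑ i ∈ w, a.2 i * (kap 1 (x' i) g - kap 1 (x i) g) := by
  rw [c_kE, c_kE, c_sum_pw fun j p => a.2 j * kap 1 p g, add_assoc]
  simp only [mul_sub]

theorem Wf.c_dirs (hB : B.Wf) (hx : x ∈ B.pts) (hx' : x' ∈ B.pts) (S : Finset (Fin B.r)) :
    Dirs S (fun w => B.nn (w.piecewise x' x)) fun i => kk (x' i) - kk (x i) := fun w _ g => by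
  rw [hB.c_kk (c_pw hx hx' w), hB.c_kk (c_pw hx hx' ∅), c_sum_pw fun _ p => kk p g,
    piecewise_empty, add_assoc]
  rfl

theorem Wf.c_kk_sq (hB : B.Wf) (hx : x ∈ B.pts) (hq : q.Prime) (h3 : q ≠ 3) (j : Fin B.r) :
    kk (x j) (sq q) = if x j = q then 1 else 0 := by
  split_ifs with h
  · rw [h, kk_sq_self hq h3]
  · exact kk_ine hq h3 (fun k => h ((Nat.prime_dvd_prime_iff_eq hq (hB.c_pr hx j)).1 k).symm)
      (sq_ine hq h3)

theorem Wf.c_kA_sq (hB : B.Wf) (hx : x ∈ B.pts) (ha : a ∈ B.Sup 1) (j : Fin B.r) :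
    B.kA x a (sq (x j)) = a.2 j := by
  have hq := hB.c_pr hx j
  have h3 := hB.c_nM hx j
  rw [c_kE, a.1.2.2 _ hq (by
      rw [max_eq_left (Nat.pos_of_ne_zero hB.n0)]
      exact hB.cop j _ (c_mem hx j)), zero_add, sum_eq_single j (fun i _ hi => by
      rw [kap_ne hq h3 fun k => hi (hB.c_inj hx hx k.symm), mul_zero]) (by simp)]
  by_cases k : j ∈ B.P1
  · rw [kap_self hq h3 (by rw [mu_add_two]; exact (hB.t1 j _ (c_mem hx j)).1 k), mul_one]
  · rw [ha j k, zero_mul]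

/-- Points with the same level one data have the same Kummer cocycles at common primes. -/
theorem Wf.lv_agree (hB : B.Wf) (hy : y ∈ B.pts) (hy' : y' ∈ B.pts) (h : B.lv y = B.lv y')
    (hq : q ∈ B.S0 ∨ ∃ j, y j = q ∧ y' j = q) (i : Fin B.r) {g : Gam} (hg : g ∈ Gq q) :
    kk (y i) g = kk (y' i) g := by
  rcases hq with hq | ⟨j, rfl, e⟩
  · have k := congrFun (congrArg Prod.fst (congrFun (congrFun (congrArg Prod.fst h) i) ⟨q, hq⟩)) g
    simp only [lv] at k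
    rwa [H3.rs_of_mem hg, H3.rs_of_mem hg] at k
  · have hq := hB.c_pr hy j
    have h3 := hB.c_ne3 hy j
    refine sub_eq_zero.1 (((kc_kk (y i) _).sub (kc_kk (y' i) _)).det hq h3 ?_ ?_ hg)
    · rw [Pi.sub_apply, hB.c_kk_sq hy hq h3, hB.c_kk_sq hy' hq h3, sub_eq_zero]
      refine if_congr ⟨fun k => ?_, fun k => ?_⟩ rfl rfl
      · rw [hB.c_inj hy hy k, e]
      · rw [hB.c_inj hy' hy k]
    · have k := congrArg Prod.fst (congrFun (congrFun (congrArg (fun z => z.2.2) h) i) j)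
      simp only [lv] at k
      rw [Pi.sub_apply, k, e, sub_self]

theorem Wf.lv_kk (hB : B.Wf) (hy : y ∈ B.pts) (hy' : y' ∈ B.pts) (h : B.lv y = B.lv y')
    (hq : q ∈ B.S0 ∨ ∃ j, y j = q ∧ y' j = q) (g : Gam) (hg : g ∈ Gq q) :
    kk (B.nn y) g = kk (B.nn y') g := by
  rw [hB.c_kk hy, hB.c_kk hy', sum_congr rfl fun i _ => hB.lv_agree hy hy' h hq i hg]

theorem Wf.lv_kap (hB : B.Wf) (hy : y ∈ B.pts) (hy' : y' ∈ B.pts) (h : B.lv y = B.lv y')
    (hq : q ∈ B.S0 ∨ ∃ j, y j = q ∧ y' j = q) (i : Fin B.r) {g : Gam} (hg : g ∈ Gq q) :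
    kap 1 (y i) g = kap 1 (y' i) g := by
  rcases hq with hq | ⟨j, rfl, e⟩
  · have k := congrFun (congrArg (fun z => z.2.2)
      (congrFun (congrFun (congrArg Prod.fst h) i) ⟨q, hq⟩)) g
    simp only [lv] at k
    rwa [H3.rs_of_mem hg, H3.rs_of_mem hg] at k
  · by_cases hi : i = j
    · rw [hi, e]
    have hq := hB.c_pr hy j
    have h3 := hB.c_nM hy j
    refine sub_eq_zero.1 (((kc_kap 1 (y i) _).sub (kc_kap 1 (y' i) _)).det hq h3 ?_ ?_ hg)
    · rw [Pi.sub_apply, kap_ne hq h3 fun k => hi (hB.c_inj hy hy k.symm),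
        kap_ne hq h3 fun k => hi (hB.c_inj hy' hy k.symm), sub_self]
    · have k := congrArg (fun z => z.2.2)
        (congrFun (congrFun (congrArg (fun z => z.2.2) h) i) j)
      simp only [lv] at k
      rw [Pi.sub_apply, k, e, sub_self]

theorem Wf.lv_kA (hB : B.Wf) (hy : y ∈ B.pts) (hy' : y' ∈ B.pts) (h : B.lv y = B.lv y')
    (hq : q ∈ B.S0 ∨ ∃ j, y j = q ∧ y' j = q) (a : B.Pat) (g : Gam) (hg : g ∈ Gq q) :
    B.kA y a g = B.kA y' a g := by
  simp only [c_kE, fun i => hB.lv_kap hy hy' h hq i hg]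

/-- A lift is determined by its colour. -/
theorem Wf.col_inj (hB : B.Wf) (hx : x ∈ B.pts) (h : Pre (B.nn x) l c) (h' : Pre (B.nn x) l c')
    (e : B.col x c = B.col x c') : c = c' := by
  refine sub_eq_zero.1 (funext (unr_l (l := l) (h.coc.lo_sub h'.coc) (fun g => ?_)
    (fun g hg => ?_) fun q hq _ => ?_))
  · rw [Pi.sub_apply, smul_sub, h.kil, h'.kil, sub_self]
  · have k := congrFun (congrArg (fun z => z.2.2) e) g
    simp only [col] at k
    rw [rsM_of_mem hg, rsM_of_mem hg] at k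
    exact sub_eq_zero.2 k
  · refine sub_eq_zero.2 ?_
    by_cases hd : q ∣ MM * B.nn x
    · rcases (hB.c_dvd hx hq).1 hd with k | ⟨j, rfl⟩
      · exact congrFun (congrArg Prod.fst e) ⟨q, k⟩
      · exact congrFun (congrArg (fun z => z.2.1) e) j
    · rw [h.unr q hq hd, h'.unr q hq hd]

theorem c_rs_mem {n : ℕ} (h : Pre n l c) : rsM c ∈ Z3l n 0 l := rsM_mem_l h.coc h.kil

theorem Wf.finite_Pre (hB : B.Wf) (hx : x ∈ B.pts) (l : ℕ) :
    {c | Pre (B.nn x) l c}.Finite := by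
  refine Set.Finite.of_finite_image (f := B.col x) (((Set.Finite.pi' fun _ => finite_tors l).prod
    ((Set.Finite.pi' fun _ => finite_tors l).prod (finite_Z3l (B.nn x) 0 l))).subset ?_)
    fun c h c' h' e => hB.col_inj hx h h' e
  rintro _ ⟨c, h, rfl⟩
  exact ⟨fun _ => h.kil _, fun _ => h.kil _, c_rs_mem h⟩

theorem Wf.mem_RF (hB : B.Wf) (hx : x ∈ B.pts) :
    c ∈ B.RF x l a ↔ RL (B.nn x) l c ∧ th ^ (l - 1) • c = kC (B.kA x a) :=
  mem_fs ((hB.finite_Pre hx l).subset fun _ h => h.1.toPre)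

theorem Has.spec (h : B.Has l a γ x) : RL (B.nn x) l (B.cg l a γ x) ∧
    th ^ (l - 1) • B.cg l a γ x = kC (B.kA x a) ∧ B.col x (B.cg l a γ x) = γ := by
  rw [cg, dif_pos h]
  exact ⟨(mem_of_fs h.choose_spec.1).1, (mem_of_fs h.choose_spec.1).2, h.choose_spec.2⟩

theorem Wf.cg_eq (hB : B.Wf) (hx : x ∈ B.pts) (h : c ∈ B.RF x l a) (e : B.col x c = γ) :
    B.cg l a γ x = c :=
  have k := Has.spec ⟨c, h, e⟩
  hB.col_inj hx k.1.toPre (mem_of_fs h).1.toPre (k.2.2.trans e.symm)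

/-- The value at an inertia generator that is prescribed by a colour. -/
noncomputable def sv (γ : B.Col) (x : B.Pt) (q : ℕ) : A :=
  (if h : q ∈ B.S0 then γ.1 ⟨q, h⟩ else 0) + ∑ j, if x j = q then γ.2.1 j else 0

theorem Wf.sv_S0 (hB : B.Wf) (hx : x ∈ B.pts) (q : B.S0) : sv γ x q = γ.1 q := by
  rw [sv, dif_pos q.2, sum_eq_zero fun j _ => if_neg fun k : x j = q =>
    hB.c_notMem hx j (k.symm ▸ q.2), add_zero]

theorem Wf.sv_pt (hB : B.Wf) (hx : x ∈ B.pts) (j : Fin B.r) : sv γ x (x j) = γ.2.1 j := by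
  rw [sv, dif_neg (hB.c_notMem hx j), zero_add,
    sum_eq_single j (fun i _ hi => if_neg fun k => hi (hB.c_inj hx hx k)) (by simp), if_pos rfl]

theorem Wf.sv_zero (hB : B.Wf) (hx : x ∈ B.pts) (hq : q.Prime) (h : ¬ q ∣ MM * B.nn x) :
    sv γ x q = 0 := by
  rw [hB.c_dvd hx hq, not_or, not_exists] at h
  rw [sv, dif_neg h.1, zero_add, sum_eq_zero fun j _ => if_neg (h.2 j)]

theorem Has.sq_eq (h : B.Has l a γ x) (hB : B.Wf) (hx : x ∈ B.pts) (hq : q.Prime) :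
    B.cg l a γ x (sq q) = sv γ x q := by
  by_cases hd : q ∣ MM * B.nn x
  · rcases (hB.c_dvd hx hq).1 hd with k | ⟨j, rfl⟩
    · exact (congrFun (congrArg Prod.fst h.spec.2.2) ⟨q, k⟩).trans (hB.sv_S0 hx ⟨q, k⟩).symm
    · exact (congrFun (congrArg (fun z => z.2.1) h.spec.2.2) j).trans (hB.sv_pt hx j).symm
  · rw [h.spec.1.unr q hq hd, hB.sv_zero hx hq hd]

theorem Has.three_eq (h : B.Has l a γ x) {g : Gam} (hg : g ∈ GM) :
    B.cg l a γ x g = γ.2.2 g :=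
  (rsM_of_mem hg _).symm.trans (congrFun (congrArg (fun z => z.2.2) h.spec.2.2) g)

theorem alt_sv (γ : B.Col) (x x' : B.Pt) (q : ℕ) (w : Finset (Fin B.r)) {T : Finset (Fin B.r)}
    (hT : 2 ≤ T.card) : alt T (fun R => sv γ ((w ∪ R).piecewise x' x) q) = 0 := by
  simp only [sv]
  rw [alt_add, alt_const (card_pos.1 (by omega)), zero_add, alt]
  simp only [smul_sum]
  rw [sum_comm]
  refine sum_eq_zero fun j _ => alt_one hT j fun R _ R' _ e => ?_
  simp only [piecewise, mem_union, e]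

/-- The lifts at the vertices above `b`. -/
theorem Wf.abv (hB : B.Wf) (hx : x ∈ B.pts) (hx' : x' ∈ B.pts)
    (h : ∀ w ⊆ S, b ⊆ w → B.Has l a γ (w.piecewise x' x)) :
    Abv l S (fun w => B.nn (w.piecewise x' x)) (fun w => B.cg l a γ (w.piecewise x' x)) b :=
  ⟨fun w h1 h2 => (h w h2 h1).spec.1.coc, fun w h1 h2 => (h w h2 h1).spec.1.kil,
    fun w h1 h2 w' h3 h4 _ hg => ((h w h2 h1).three_eq hg).trans ((h w' h4 h3).three_eq hg).symm,
    fun q hq _ w h1 h2 _ h3 h4 => (alt_congr fun _ hR => (h _ (union_subset h2 (hR.trans h3))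
      (h1.trans subset_union_left)).sq_eq hB (c_pw hx hx' _) hq).trans (alt_sv γ x x' q w h4)⟩

end Pool.Agent.Lib.MP_696deb_nt.CU.CV.Bx
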