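import Pool.Agent.Lib.MP_696deb_nt.CV.E2a
import Pool.Agent.Lib.MP_696deb_nt.CV.E1

/-! Cocycles on tame decomposition groups, the local pairing. -/

set_option autoImplicit false
set_option linter.unusedSectionVars false

open scoped Classical

namespace Pool.Agent.Lib.MP_696deb_nt.CU.CV

variable [δ : Qd]

variable {n e l q : ℕ} {g : Gam} {P : A} {c c' : Gam → A} {u u' k k' : Gam → F3}

theorem c2_lp {D : Subgroup Gam} (hu : Kc 0 D u) (hk : Kc 1 D k) :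
    C2 1 D fun g h => (u g * mu 1 g * k h : F3) :=
  ⟨(hu.1.comp₂ (sm_mu 1 D) (· * ·)).left.comp₂ hk.1.right (· * ·), fun a ha b hb c hc => by
    change chi a * (u b * mu 1 b * k c) + u a * mu 1 a * k (b * c) =
      u (a * b) * mu 1 (a * b) * k c + u a * mu 1 a * k b
    rw [hu.2 a ha b hb, hk.2 b hb c hc, mu_mul, ← mu_mul_succ 0 a]
    ring⟩

theorem c2_flip {D : Subgroup Gam} (hu : Kc 0 D u) (hk : Kc 1 D k) :
    C2 1 D fun g h => (k g * mu 0 g * u h : F3) := by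
  have h := c2_lp (δ := δ.sw) (kc_sw.2 hk) (kc_sw.2 (kc_add_two.2 hu))
  rwa [mu_sw, mu_add_two] at h

theorem lp_congr (h : ∀ g ∈ Gq q, u g = u' g) (h' : ∀ g ∈ Gq q, k g = k' g) :
    lp q u k = lp q u' k' := inv_congr fun g hg g' hg' => by rw [h g hg, h' g' hg']

theorem lp_add_left (hu : Kc 0 (Gq q) u) (hu' : Kc 0 (Gq q) u') (hk : Kc 1 (Gq q) k) :
    lp q (u + u') k = lp q u k + lp q u' k :=
  (inv_congr fun g _ g' _ => by simp only [Pi.add_apply]; ring).trans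
    (inv_add (c2_lp hu hk) (c2_lp hu' hk))

theorem lp_add_right (hu : Kc 0 (Gq q) u) (hk : Kc 1 (Gq q) k) (hk' : Kc 1 (Gq q) k') :
    lp q u (k + k') = lp q u k + lp q u k' :=
  (inv_congr fun g _ g' _ => by simp only [Pi.add_apply]; ring).trans
    (inv_add (c2_lp hu hk) (c2_lp hu hk'))

theorem lp_smul_left (hu : Kc 0 (Gq q) u) (hk : Kc 1 (Gq q) k) (a : F3) :
    lp q (fun g => a * u g) k = a * lp q u k :=
  (inv_congr fun g _ g' _ => by ring).trans (inv_smul (c2_lp hu hk) a)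

theorem lp_smul_right (hu : Kc 0 (Gq q) u) (hk : Kc 1 (Gq q) k) (a : F3) :
    lp q u (fun g => a * k g) = a * lp q u k :=
  (inv_congr fun g _ g' _ => by ring).trans (inv_smul (c2_lp hu hk) a)

theorem lp_zero_left (h : ∀ g ∈ Gq q, u g = 0) (k : Gam → F3) : lp q u k = 0 :=
  (inv_congr fun g hg g' _ => by rw [h g hg, zero_mul, zero_mul]).trans e2_zero

theorem lp_zero_right (u : Gam → F3) (h : ∀ g ∈ Gq q, k g = 0) : lp q u k = 0 :=
  (inv_congr fun g _ g' hg' => by rw [h g' hg', mul_zero]).trans e2_zero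

/-- The other order of the cup product. -/
theorem inv_flip (hu : Kc 0 (Gq q) u) (hk : Kc 1 (Gq q) k) :
    inv q (fun g h => k g * mu 0 g * u h) = -lp q u k := by
  have h1 := c2_flip hu hk
  have h2 := c2_lp hu hk
  rw [eq_neg_iff_add_eq_zero, lp, ← inv_add h1 h2, inv_eq_zero (h1.add h2)]
  refine ⟨fun g => (-(u g * k g) : F3), hu.1.comp₂ hk.1 fun a b => -(a * b), fun a ha b hb => ?_⟩
  change k a * mu 0 a * u b + u a * mu 1 a * k b =
    -(u a * k a) + chi a * -(u b * k b) - -(u (a * b) * k (a * b))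
  rw [hu.2 a ha b hb, hk.2 a ha b hb, ← mu_mul_succ 0 a]
  ring

theorem lp_sw (hu : Kc 0 (Gq q) u) (hk : Kc 1 (Gq q) k) : lp (δ := δ.sw) q k u = -lp q u k := by
  rw [← inv_flip hu hk]
  unfold lp
  rw [mu_sw, mu_add_two]

theorem lp_mu (hu : Kc 0 (Gq q) u) : lp q u (fun g => mu 1 g - 1) = 0 := by
  rw [lp, inv_eq_zero (c2_lp hu (kc_mu 1 _))]
  refine ⟨fun g => -(u g * mu 1 g), hu.1.comp₂ (sm_mu 1 _) fun a b => -(a * b),
    fun a ha b hb => ?_⟩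
  change u a * mu 1 a * (mu 1 b - 1) =
    -(u a * mu 1 a) + chi a * -(u b * mu 1 b) - -(u (a * b) * mu 1 (a * b))
  rw [hu.2 a ha b hb, mu_mul, ← mu_mul_succ 0 a]
  ring

theorem lp_mu' (hk : Kc 1 (Gq q) k) : lp q (fun g => mu 0 g - 1) k = 0 := by
  have h := lp_mu (δ := δ.sw) (kc_sw.2 hk)
  rwa [mu_sw, mu_add_two, lp_sw (kc_mu 0 _) hk, neg_eq_zero] at h

theorem e2_ine (hq : q.Prime) (h3 : ¬ q ∣ MM) (hu : Kc e (Gq q) u) (hs : u (sq q) = 0)
    (hg : g ∈ Iq q) : u g = 0 := by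
  rw [(hu.mono (B2.Ine_le _)).ine hq h3 hg, hs, mul_zero]

theorem lp_eq (hq : q.Prime) (h3 : ¬ q ∣ MM) (h : mu 0 (fq q) = 1) (u k : Gam → F3) :
    lp q u k = CU.lp q u k :=
  inv_congr fun g hg _ _ => by rw [mu_Gq' hq h3 (e := 1) (by rwa [mu_add_two]) hg]

theorem lp_good (hq : q.Prime) (h3 : ¬ q ∣ MM) (hu : Kc 0 (Gq q) u) (hk : Kc 1 (Gq q) k)
    (hs : u (sq q) = 0) (hs' : k (sq q) = 0) : lp q u k = 0 :=
  inv_unr (c2_lp hu hk) fun a ha b hb s h t ht => by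
    rw [hu.2 a ha s (B2.Ine_le _ h), hk.2 b hb t (B2.Ine_le _ ht), mu_mul, mu_ine hq h3 h,
      e2_ine hq h3 hu hs h, e2_ine hq h3 hk hs' ht]
    ring

theorem lp_unr (hq : q.Prime) (h3 : ¬ q ∣ MM) (hu : Kc 0 (Gq q) u) (hk : Kc 1 (Gq q) k)
    (hs : u (sq q) = 0) : lp q u k = u (fq q) * k (sq q) := by
  by_cases h : mu 0 (fq q) = 1
  · rw [lp_eq hq h3 h, CU.lp_unr hq (ne_three h3) ((kc_zero hq h3 h).1 hu)
      ((kc_one hq h3 (by rwa [mu_add_two])).1 hk) hs]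
  · have h1 := hk.ev hq h3 (by rwa [mu_add_two])
    rw [lp_good hq h3 hu hk hs h1, h1, mul_zero]

theorem lp_unr' (hq : q.Prime) (h3 : ¬ q ∣ MM) (hu : Kc 0 (Gq q) u) (hk : Kc 1 (Gq q) k)
    (hs : k (sq q) = 0) : lp q u k = -(k (fq q) * u (sq q)) := by
  rw [← lp_unr (δ := δ.sw) hq h3 (kc_sw.2 hk) (kc_sw.2 (kc_add_two.2 hu)) hs, lp_sw hu hk, neg_neg]

theorem lp_tame (hq : q.Prime) (h3 : ¬ q ∣ MM) (hu : Kc 0 (Gq q) u) (hk : Kc 1 (Gq q) k) :
    lp q u k = u (fq q) * k (sq q) - u (sq q) * k (fq q) := by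
  by_cases h : mu 0 (fq q) = 1
  · rw [lp_eq hq h3 h, CU.lp_tame hq (ne_three h3) ((kc_zero hq h3 h).1 hu)
      ((kc_one hq h3 (by rwa [mu_add_two])).1 hk)]
  · have h1 := hk.ev hq h3 (by rwa [mu_add_two])
    rw [lp_unr' hq h3 hu hk h1, h1]
    ring

end Pool.Agent.Lib.MP_696deb_nt.CU.CV
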