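import Pool.Agent.Lib.MP_696deb_nt.CV.Kap
import Pool.Agent.Lib.MP_696deb_nt.CV.E2

/-! Reciprocity and unramified cocycles. -/

set_option autoImplicit false
set_option linter.unusedSectionVars false

open scoped Classical

namespace Pool.Agent.Lib.MP_696deb_nt.CU.CV

variable [δ : Qd] {n e l p q : ℕ} {g : Gam} {c : Gam → A} {u k : Gam → F3}

theorem recip_lp (hu : Kc 0 ⊤ u) (hk : Kc 1 ⊤ k) (S : Finset ℕ) (hS : ∀ q ∈ S, q.Prime)
    (h3 : ∀ q : ℕ, q.Prime → q ∣ MM → q ∈ S)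
    (h : ∀ q : ℕ, q.Prime → q ∉ S → u (sq q) = 0 ∧ k (sq q) = 0) : ∑ q ∈ S, lp q u k = 0 :=
  recip (c2_lp hu hk) S hS fun q hq m => lp_good hq (fun e => m (h3 q hq e)) (hu.mono le_top)
    (hk.mono le_top) (h q hq m).1 (h q hq m).2

theorem kap_zero (hp : p.Prime) (h3 : ¬ p ∣ MM) (h : mu (e + 1) (fq p) ≠ 1) : kap e p = 0 := by
  rw [kap, kp, dif_neg]
  rintro ⟨κ, k⟩
  exact one_ne_zero (k.self.symm.trans (Kc.ev (Kc.mono k.kd le_top) hp h3 h))

theorem e3_frob0 (hu : Kc 0 ⊤ u) (h3 : ∀ g ∈ GM, u g = 0)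
    (hs : ∀ q : ℕ, q.Prime → ¬ q ∣ MM → u (sq q) = 0) (hp : p.Prime) (hn : ¬ p ∣ MM)
    (h : mu 0 (fq p) = 1) : u (fq p) = 0 := by
  have n1 : p ∉ MM.primeFactors := fun e => hn (Nat.dvd_of_mem_primeFactors e)
  have := recip_lp hu (kc_kap 1 p ⊤) (insert p MM.primeFactors)
    (fun q hq => (Finset.mem_insert.1 hq).elim (· ▸ hp) Nat.prime_of_mem_primeFactors)
    (fun q hq d => Finset.mem_insert_of_mem (Nat.mem_primeFactors.2 ⟨hq, d, MM_ne⟩))
    fun q hq m => by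
      rw [Finset.mem_insert, not_or, Nat.mem_primeFactors] at m
      have d : ¬ q ∣ MM := fun d => m.2 ⟨hq, d, MM_ne⟩
      exact ⟨hs q hq d, kap_ne hq d m.1⟩
  rwa [Finset.sum_insert n1, Finset.sum_eq_zero fun q hq => lp_zero_left (fun g hg => h3 g
    (mem_GM (Nat.prime_of_mem_primeFactors hq) (Nat.dvd_of_mem_primeFactors hq) hg)) _, add_zero,
    lp_unr hp hn (hu.mono le_top) (kc_kap 1 p _) (hs p hp hn),
    kap_self hp hn (by rwa [mu_add_two]), mul_one] at this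

theorem Kc.inv (hu : Kc e ⊤ u) (g : Gam) : u g⁻¹ = -(mu e g * u g) := by
  have h := hu.2 g trivial g⁻¹ trivial
  rw [mul_inv_cancel, hu.one] at h
  linear_combination (-mu e g) * h - u g⁻¹ * mu_sq e g

theorem mu_inv (e : ℕ) (g : Gam) : mu e g⁻¹ = mu e g := by
  have := mu_mul e g⁻¹ g
  rw [inv_mul_cancel, mu_one] at this
  rw [← mul_one (mu e g⁻¹), ← mu_sq e g, ← mul_assoc, ← this, one_mul]

theorem Kc.conj (hu : Kc e ⊤ u) (h : mu e g = 1) (t : Gam) :
    u (t * g * t⁻¹) = mu e t * u g := by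
  rw [hu.2 _ trivial _ trivial, hu.2 _ trivial _ trivial, hu.inv, mu_mul, h]
  linear_combination (-u t) * mu_sq e t

theorem Kc.pow (hu : Kc e ⊤ u) (h : mu e g = 1) (j : ℕ) : u (g ^ j) = j * u g := by
  induction j with
  | zero => rw [pow_zero, hu.one, Nat.cast_zero, zero_mul]
  | succ j ih =>
    rw [pow_succ, hu.2 _ trivial _ trivial, ih, mu_pow, h, one_pow]
    push_cast
    ring

/-- A cocycle that vanishes at almost all Frobenius elements with trivial action vanishes on the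
kernel of the action. -/
theorem ker_eq_zero (hu : Kc e ⊤ u) (B : Finset ℕ)
    (h : ∀ q : ℕ, q.Prime → q ∉ B → mu e (fq q) = 1 → u (fq q) = 0) (hg : mu e g = 1) :
    u g = 0 := by
  let K : Subgroup Gam :=
    { carrier := {a | mu e a = 1 ∧ u a = 0}
      one_mem' := ⟨mu_one e, hu.one⟩
      mul_mem' := fun {a b} x y => ⟨by rw [mu_mul, x.1, y.1, one_mul], by
        rw [hu.2 a trivial b trivial, x.2, y.2, mul_zero, add_zero]⟩
      inv_mem' := fun {a} x => ⟨(mu_inv e a).trans x.1, by rw [hu.inv, x.2, mul_zero, neg_zero]⟩ }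
  have hk : ∀ a, a ∈ K ↔ mu e a = 1 ∧ u a = 0 := fun _ => Iff.rfl
  have hN : K.Normal := ⟨fun a x t => ⟨by rw [mu_mul, mu_mul, x.1, mu_inv, mul_one, mu_sq], by
    rw [hu.conj x.1, x.2, mul_zero]⟩⟩
  have hs := (sm_mu e ⊤).comp₂ hu.1 Prod.mk
  have ho : Op K := by
    obtain ⟨U, h1, -, h3⟩ := hs
    refine Subgroup.isOpen_mono (fun a ha => ?_) h1
    have := Prod.mk.inj (h3 1 trivial a trivial (by rwa [inv_one, one_mul]))
    exact ⟨this.1.symm.trans (mu_one e), this.2.symm.trans hu.one⟩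
  obtain ⟨w, φ, a, h1, h2, h3, h4⟩ := H3.cheb K g 1
    (MM.primeFactors ∪ (B ∪ (finite_sq hu.1).toFinset)) ho hN
    ⟨by rw [mu_pow, hg, one_pow], by rw [hu.pow hg]; generalize u g = t; revert t; decide⟩
  simp only [Finset.mem_union, Set.Finite.mem_toFinset, Set.mem_ofPred_eq,
    not_or, not_and, not_not, Nat.mem_primeFactors] at h1
  have d : ¬ w.p ∣ MM := fun d => MM_ne (h1.1 w.prime d)
  obtain ⟨t, ht⟩ := B2.plc_conj (w := w) (v := pl w.p) (pl_p w.prime).symm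
  have h5 := h2.smul t
  rw [ht] at h5
  have i1 := (fq_frob w.prime).inv_mul_mem h5
  have h6 : (fq w.p)⁻¹ * (t * φ * t⁻¹) ∈ K := ⟨mu_ine w.prime d i1 e, by
    rw [(hu.mono le_top).ine w.prime d i1, h1.2.2 w.prime (ne_three d), hu.one, mul_zero]⟩
  have m1 : mu e φ = 1 := by
    have := h4.1
    rwa [mu_mul, mu_pow, hg, one_pow, mul_one, mu_inv] at this
  have m2 : mu e (fq w.p) = 1 := by
    have := h6.1
    rwa [mu_mul, mu_mul, mu_mul, m1, mu_inv, mu_inv, mul_one, mu_sq, mul_one] at this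
  have h7 : φ ∈ K := by
    have := mul_mem ((hk _).2 ⟨m2, h _ w.prime h1.2.1 m2⟩) h6
    rw [mul_inv_cancel_left] at this
    simpa [mul_assoc] using hN.conj_mem _ this t⁻¹
  have h8 := (mul_mem h7 h4).2
  rw [mul_inv_cancel_left, hu.pow hg] at h8
  refine (mul_eq_zero.1 h8).resolve_left fun e => ?_
  exact absurd (h3.coprime_dvd_right (by norm_num : 3 ∣ 6)).symm
    (by rw [Nat.prime_three.coprime_iff_not_dvd, not_not]; exact (ZMod.natCast_eq_zero_iff a 3).1 e)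

/-- A cocycle that vanishes on the kernel of the action is a coboundary. -/
theorem cob_of_ker (hu : Kc e ⊤ u) (h : ∀ g, mu e g = 1 → u g = 0) :
    ∃ s : F3, ∀ g, u g = s * (mu e g - 1) := by
  obtain ⟨t, -, ht⟩ := exists_nt e
  refine ⟨u t, fun g => ?_⟩
  rcases mu_cases e g with k | k
  · rw [h g k, k, sub_self, mul_zero]
  · have := hu.2 t trivial (t⁻¹ * g) trivial
    rw [mul_inv_cancel_left, h (t⁻¹ * g) (by rw [mu_mul, mu_inv, ht, k]; decide)] at this
    rw [this, k]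
    generalize u t = a
    revert a
    simp
    decide

theorem unr_zero (hu : Kc 0 ⊤ u) (h3 : ∀ g ∈ GM, u g = 0)
    (hs : ∀ q : ℕ, q.Prime → ¬ q ∣ MM → u (sq q) = 0) (g : Gam) : u g = 0 := by
  obtain ⟨s, h⟩ := cob_of_ker hu fun g hg => ker_eq_zero hu MM.primeFactors
    (fun q hq m => e3_frob0 hu h3 hs hq fun d => m (Nat.mem_primeFactors.2 ⟨hq, d, MM_ne⟩)) hg
  obtain ⟨t, t1, t2⟩ := exists_nt 0
  have := h3 t t1
  rw [h, t2] at this
  rw [h, (mul_eq_zero.1 this).resolve_right (by decide), zero_mul]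

theorem unr (hu : Kc e ⊤ u) (h3 : ∀ g ∈ GM, u g = 0)
    (hs : ∀ q : ℕ, q.Prime → ¬ q ∣ MM → u (sq q) = 0) (g : Gam) : u g = 0 := by
  rw [← kc_mod] at hu
  rcases Nat.mod_two_eq_zero_or_one e with he | he <;> rw [he] at hu
  · exact unr_zero hu h3 hs g
  · exact unr_zero (δ := δ.sw) (kc_sw.2 hu) h3 hs g

theorem unr_l (hc : Coc ⊤ (act n e) c) (hl : ∀ g, th ^ l • c g = 0) (h3 : ∀ g ∈ GM, c g = 0)
    (hs : ∀ q : ℕ, q.Prime → ¬ q ∣ MM → c (sq q) = 0) (g : Gam) : c g = 0 := by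
  induction l generalizing e c g with
  | zero => simpa using hl g
  | succ l ih =>
    have h1 : ∀ g, th • c g = 0 := ih (coc_th hc)
      (fun g => by rw [smul_smul, ← pow_succ, hl])
      (fun g hg => by rw [h3 g hg, smul_zero])
      fun q hq q3 => by rw [hs q hq q3, smul_zero]
    obtain ⟨u, hu, h2⟩ := exists_kC hc fun g _ => h1 g
    have h4 : ∀ g, c g = 0 → u g = 0 := fun g z =>
      kT_inj ((h2 g trivial).symm.trans (z.trans (map_zero kT).symm))
    rw [h2 g trivial, unr hu (fun g hg => h4 g (h3 g hg)) (fun q hq q3 => h4 _ (hs q hq q3)) g,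
      map_zero]

end Pool.Agent.Lib.MP_696deb_nt.CU.CV
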