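import Pool.Agent.Lib.MP_696deb_nt.CV.E6
import Pool.Agent.Lib.MP_696deb_nt.CV.E7
import Pool.Agent.Lib.MP_696deb_nt.CV.E5
import Pool.Agent.Lib.MP_696deb_nt.CV.E3
import Pool.Agent.Lib.MP_696deb_nt.CU.E8

/-! The pairing. -/

set_option autoImplicit false
set_option linter.unusedSectionVars false

open scoped Classical

namespace Pool.Agent.Lib.MP_696deb_nt.CU.CV

variable [δ : Qd]

variable {n n' l q : ℕ} {c c' d d' : Gam → A} {u k k' : Gam → F3}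

theorem e8_kc {e : ℕ} (h : Loc n e q (kC k)) : Kc e (Gq q) k := by
  obtain ⟨P, hP⟩ := h
  exact coc_kC.1 (e8_congr (coc_cob n e _ P) fun g hg => (hP g hg).symm)

theorem IsLift.kil (h : IsLift n c c') (hc : c ∈ Zs n 1 l) (g : Gam) :
    th ^ (l + 1) • c' g = 0 := by
  rw [pow_succ, mul_smul, h.th_smul, hc.kil]

theorem IsLift.add (h : IsLift n c c') (h' : IsLift n d d') : IsLift n (c + d) (c' + d') :=
  ⟨h.coc.add h'.coc, fun g => by rw [Pi.add_apply, smul_add, h.th_smul, h'.th_smul, Pi.add_apply],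
    fun q hq k => by rw [Pi.add_apply, h.unr q hq k, h'.unr q hq k, add_zero]⟩

theorem IsLift.sub (h : IsLift n c c') (h' : IsLift n c d') :
    ∃ u, Kc 0 ⊤ u ∧ (∀ q : ℕ, q.Prime → ¬ q ∣ MM * n → u (sq q) = 0) ∧ d' = c' + kC u := by
  obtain ⟨u, u1, u2⟩ := exists_kC (h'.coc.add h.coc.neg) fun g _ => by
    rw [Pi.add_apply, Pi.neg_apply, smul_add, smul_neg, h.th_smul, h'.th_smul, add_neg_cancel]
  refine ⟨u, u1, fun q hq k => e8_kT ?_, funext fun g => ?_⟩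
  · rw [← u2 _ trivial, Pi.add_apply, Pi.neg_apply, h.unr q hq k, h'.unr q hq k, neg_zero, add_zero]
  · rw [Pi.add_apply, kC, ← u2 _ trivial, Pi.add_apply, Pi.neg_apply]
    abel

theorem IsLift.add_kC (h : IsLift n c c') (hu : Kc 0 ⊤ u)
    (k : ∀ q : ℕ, q.Prime → ¬ q ∣ MM * n → u (sq q) = 0) : IsLift n c (c' + kC u) :=
  ⟨h.coc.add (coc_kC.2 hu), fun g => by rw [Pi.add_apply, smul_add, h.th_smul, kC, th_kT, add_zero],
    fun q hq e => by rw [Pi.add_apply, h.unr q hq e, kC, k q hq e, map_zero, add_zero]⟩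

theorem isLift_of_mem (h : c' ∈ Zs n 0 l) : IsLift n (th • c') c' := ⟨h.coc, fun _ => rfl, h.unr⟩

theorem exists_dc (h : Loc n 1 q (th • c')) : ∃ u, Dc n q c' u := by
  obtain ⟨P0, hP⟩ := h
  obtain ⟨P, rfl⟩ := exists_root 1 P0
  have e : ∀ g, ∃ b, g ∈ Gq q → c' g = cob (act n 0) P g + kT b := fun g => by
    by_cases hg : g ∈ Gq q
    · obtain ⟨b, hb⟩ := exists_kT (P := c' g - cob (act n 0) P g) (by
        rw [smul_sub, ← cob_th, ← pow_one th, ← hP g hg, pow_one, Pi.smul_apply, sub_self])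
      exact ⟨b, fun _ => by rw [← hb, add_sub_cancel]⟩
    · exact ⟨0, fun k => absurd k hg⟩
  choose u hu using e
  exact ⟨u, P, hu⟩

theorem Dc.kc (h : Dc n q c' u) (hc : Coc (Gq q) (act n 0) c') : Kc 0 (Gq q) u := by
  obtain ⟨P, hP⟩ := h
  refine coc_kC.1 (e8_congr (hc.add (coc_cob n 0 _ P).neg) fun g hg => ?_)
  rw [Pi.add_apply, Pi.neg_apply, hP g hg, add_neg_cancel_comm]

theorem e8_lu (h : ∃ u, Dc n q c' u) : Dc n q c' (lu n q c') := by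
  rw [lu, dif_pos h]
  exact h.choose_spec

theorem e8_lp {v : Gam → F3} (hn : n ≠ 0) (hq : q.Prime) (h : Dc n q c' u) (h' : Dc n q c' v)
    (hu : Kc 0 (Gq q) u) (hk : Loc n 1 q (kC k)) : lp q v k = lp q u k := by
  obtain ⟨P, hP⟩ := h
  obtain ⟨Q, hQ⟩ := h'
  have e : Loc n 0 q (kC (v - u)) := ⟨P - Q, fun g hg => by
    rw [cob_sub, kC, Pi.sub_apply, map_sub, sub_eq_sub_iff_add_eq_add, add_comm, ← hQ g hg,
      hP g hg]⟩
  rw [← add_sub_cancel u v, lp_add_left hu (e8_kc e) (e8_kc hk), f3 hn hq e hk, add_zero]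

theorem dq_eq (hn : n ≠ 0) (hq : q.Prime) (hc : Coc (Gq q) (act n 0) c') (h : Dc n q c' u)
    (hk : Loc n 1 q (kC k)) : Dq n q c' k = lp q u k :=
  e8_lp hn hq h (e8_lu ⟨u, h⟩) (h.kc hc) hk

theorem dq_congr (h : ∀ g ∈ Gq q, kk n g = kk n' g) (hc : ∀ g ∈ Gq q, c' g = d' g)
    (hk : ∀ g ∈ Gq q, k g = k' g) : Dq n q c' k = Dq n' q d' k' := by
  have e : Dc n q c' = Dc n' q d' := funext fun u => propext (exists_congr fun P =>
    forall₂_congr fun g hg => by rw [hc g hg, cob, cob, act_congr 0 (h g hg)])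
  rw [Dq, Dq, lu, lu, e]
  exact lp_congr (fun _ _ => rfl) hk

theorem e8_sum {ι : Type*} (s : Finset ι) (a : ι → ℤ) {m : ι → ℕ} {x : ι → Gam → A}
    (hm : ∀ i ∈ s, ∀ g ∈ Gq q, kk (m i) g = kk n g)
    (hx : ∀ i ∈ s, Coc (Gq q) (act (m i) 0) (x i)) (hl : ∀ i ∈ s, Loc (m i) 1 q (th • x i))
    (hk : Kc 1 (Gq q) k) : ∃ v, Kc 0 (Gq q) v ∧ Dc n q (fun g => ∑ i ∈ s, a i • x i g) v ∧
      ∑ i ∈ s, (a i : F3) * Dq (m i) q (x i) k = lp q v k := by
  induction s using Finset.cons_induction with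
  | empty => exact ⟨0, Kc.zero _ _, ⟨0, fun g _ => by simp [cob_zero]⟩,
      (lp_zero_left (fun _ _ => rfl) k).symm⟩
  | cons i s hi ih =>
    obtain ⟨v, v1, ⟨Q, v2⟩, v3⟩ := ih (fun j hj => hm j (Finset.mem_cons_of_mem hj))
      (fun j hj => hx j (Finset.mem_cons_of_mem hj)) fun j hj => hl j (Finset.mem_cons_of_mem hj)
    have i0 := Finset.mem_cons_self i s (h := hi)
    have d := e8_lu (exists_dc (hl i i0))
    have d1 := d.kc (hx i i0)
    obtain ⟨P, hP⟩ := d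
    refine ⟨(fun g => a i * lu (m i) q (x i) g) + v, (d1.smul _).add v1,
      ⟨a i • P + Q, fun g hg => ?_⟩, ?_⟩
    · beta_reduce at v2 ⊢
      rw [Finset.sum_cons, v2 g hg, hP g hg, Pi.add_apply, map_add, ← zsmul_eq_mul, map_zsmul,
        cob_add, cob, cob, cob, act_congr 0 (hm i i0 g hg), map_zsmul]
      module
    · rw [Finset.sum_cons, v3, lp_add_left (d1.smul _) v1 hk, lp_smul_left d1 hk, Dq]

/-- Integral combinations of lifts that take values in the kernel of `th`. -/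
theorem dq_sum {ι : Type*} (s : Finset ι) (a : ι → ℤ) {m : ι → ℕ} {x : ι → Gam → A} (hn : n ≠ 0)
    (hq : q.Prime) (hm : ∀ i ∈ s, ∀ g ∈ Gq q, kk (m i) g = kk n g)
    (hx : ∀ i ∈ s, Coc (Gq q) (act (m i) 0) (x i)) (hl : ∀ i ∈ s, Loc (m i) 1 q (th • x i))
    (hk : Loc n 1 q (kC k)) (h : ∀ g ∈ Gq q, ∑ i ∈ s, a i • x i g = kT (u g)) :
    ∑ i ∈ s, (a i : F3) * Dq (m i) q (x i) k = lp q u k := by
  obtain ⟨v, v1, v2, v3⟩ := e8_sum s a hm hx hl (e8_kc hk)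
  rw [v3]
  exact (e8_lp hn hq v2 ⟨0, fun g hg => by rw [cob_zero, zero_add]; exact h g hg⟩ v1 hk).symm

theorem e8_mem (h : q ∈ (MM * n).primeFactors) : q.Prime ∧ q ∣ MM * n :=
  ⟨Nat.prime_of_mem_primeFactors h, Nat.dvd_of_mem_primeFactors h⟩

theorem e8_dc (h : IsLift n c c') (hc : c ∈ Zs n 1 l) (hq : q ∈ (MM * n).primeFactors) :
    Dc n q c' (lu n q c') := by
  refine e8_lu (exists_dc ?_)
  rw [show th • c' = c from funext h.th_smul]
  exact hc.loc q (e8_mem hq).1 (e8_mem hq).2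

theorem e8_add {v : Gam → F3} (h : Dc n q c' u) (h' : Dc n q d' v) : Dc n q (c' + d') (u + v) := by
  obtain ⟨P, hP⟩ := h
  obtain ⟨Q, hQ⟩ := h'
  refine ⟨P + Q, fun g hg => ?_⟩
  rw [Pi.add_apply, hP g hg, hQ g hg, cob_add, Pi.add_apply, map_add, add_add_add_comm]

theorem dd_eq (hn : n ≠ 0) (hc : c ∈ Zs n 1 l) (h : IsLift n c c') (hk : kC k ∈ Zs n 1 1) :
    DD n c k = Dl n c' k := by
  have e : ∃ c', IsLift n c c' := ⟨c', h⟩
  obtain ⟨u, u1, u2, u3⟩ := h.sub e.choose_spec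
  have k1 : Kc 1 ⊤ k := coc_kC.1 hk.coc
  have r := recip_lp u1 k1 (MM * n).primeFactors (fun q hq => (e8_mem hq).1)
    (fun q a b => Nat.mem_primeFactors.2 ⟨a, b.mul_right _, mul_ne_zero MM_ne hn⟩) fun q hq hS =>
      have nd : ¬ q ∣ MM * n := fun d => hS (Nat.mem_primeFactors.2 ⟨hq, d, mul_ne_zero MM_ne hn⟩)
      ⟨u2 q hq nd, e8_kT (hk.unr q hq nd)⟩
  rw [DD, dif_pos e, u3, Dl, Dl, ← add_zero (∑ q ∈ _, Dq n q c' k), ← r, ← Finset.sum_add_distrib]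
  refine Finset.sum_congr rfl fun q hq => ?_
  have d := e8_dc h hc hq
  rw [dq_eq hn (e8_mem hq).1 (e8_mono (h.add_kC u1 u2).coc _)
    (e8_add d ⟨0, fun g _ => by rw [cob_zero, zero_add]⟩) (hk.loc q (e8_mem hq).1 (e8_mem hq).2),
    lp_add_left (d.kc (e8_mono h.coc _)) (u1.mono le_top) (k1.mono le_top), Dq]

theorem dd_add_left (hn : n ≠ 0) (hc : c ∈ Zs n 1 l) (hd : d ∈ Zs n 1 l) (hk : kC k ∈ Zs n 1 1) :
    DD n (c + d) k = DD n c k + DD n d k := by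
  obtain ⟨c', h⟩ := ext hc
  obtain ⟨d', h'⟩ := ext hd
  rw [dd_eq hn (add_mem hc hd) (h.add h') hk, dd_eq hn hc h hk, dd_eq hn hd h' hk, Dl, Dl, Dl,
    ← Finset.sum_add_distrib]
  refine Finset.sum_congr rfl fun q hq => ?_
  have e := e8_dc h hc hq
  have e' := e8_dc h' hd hq
  have k1 := hk.loc q (e8_mem hq).1 (e8_mem hq).2
  rw [dq_eq hn (e8_mem hq).1 (e8_mono (h.add h').coc _) (e8_add e e') k1,
    lp_add_left (e.kc (e8_mono h.coc _)) (e'.kc (e8_mono h'.coc _)) (e8_kc k1), Dq, Dq]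

theorem dd_add_right (hn : n ≠ 0) (hc : c ∈ Zs n 1 l) (hk : kC k ∈ Zs n 1 1)
    (hk' : kC k' ∈ Zs n 1 1) : DD n c (k + k') = DD n c k + DD n c k' := by
  obtain ⟨c', h⟩ := ext hc
  have e : kC (k + k') = kC k + kC k' := funext fun g => map_add kT _ _
  rw [dd_eq hn hc h (e ▸ add_mem hk hk'), dd_eq hn hc h hk, dd_eq hn hc h hk', Dl, Dl, Dl,
    ← Finset.sum_add_distrib]
  exact Finset.sum_congr rfl fun q hq => lp_add_right ((e8_dc h hc hq).kc (e8_mono h.coc _))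
    ((coc_kC.1 hk.coc).mono le_top) ((coc_kC.1 hk'.coc).mono le_top)

theorem dd_th (hn : n ≠ 0) (hc : c' ∈ Zs n 0 l) (hk : kC k ∈ Zs n 1 1) :
    DD n (th • c') k = 0 := by
  rw [dd_eq hn (zs_th (zs_mono (Nat.le_succ l) hc)) (isLift_of_mem hc) hk]
  refine Finset.sum_eq_zero fun q hq => ?_
  obtain ⟨P, hP⟩ := hc.loc q (e8_mem hq).1 (e8_mem hq).2
  rw [dq_eq (u := 0) hn (e8_mem hq).1 (e8_mono hc.coc _)
    ⟨P, fun g hg => by rw [hP g hg, Pi.zero_apply, map_zero, add_zero]⟩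
    (hk.loc q (e8_mem hq).1 (e8_mem hq).2)]
  exact lp_zero_left (fun _ _ => rfl) k

end Pool.Agent.Lib.MP_696deb_nt.CU.CV
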