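import Pool.Agent.Lib.MP_696deb_nt.CV.S0

/-! Combinations of closed sets. -/

set_option autoImplicit false
set_option linter.unusedSectionVars false

open scoped Classical
open Finset

namespace Pool.Agent.Lib.MP_696deb_nt.CU.CV

variable [δ : Qd]

namespace Bx

variable {B : Bx} {S : Finset (Fin B.r)} {P Q Q' : B.Pt → Prop} {M M' : ℝ}

theorem Closed.and (h : B.Closed S P) (h' : B.Closed S Q) : B.Closed S fun x => P x ∧ Q x :=
  fun x x' c k => ⟨h x x' c fun y a b => (k y a b).1, h' x x' c fun y a b => (k y a b).2⟩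

theorem Closed.comb (h : B.Closed S Q) : B.Comb S 1 Q :=
  ⟨Unit, univ, 1, fun _ => Q, zero_le_one, by simp, fun _ _ => ⟨h, fun _ _ k => k⟩,
    fun x _ k => by simp [k]⟩

theorem Comb.mono (h : B.Comb S M Q) (k : M ≤ M') : B.Comb S M' Q := by
  obtain ⟨ι, Γ, w, P, a, b, c⟩ := h
  exact ⟨ι, Γ, w, P, a, b.trans k, c⟩

theorem Comb.congr (h : B.Comb S M Q) (k : ∀ x ∈ B.pts, Q x ↔ Q' x) : B.Comb S M Q' := by
  obtain ⟨ι, Γ, w, P, a, b, c, d⟩ := h
  exact ⟨ι, Γ, w, P, a, b, fun γ g => ⟨(c γ g).1, fun x m p => (k x m).1 ((c γ g).2 x m p)⟩,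
    fun x m q => d x m ((k x m).2 q)⟩

theorem Comb.and (h : B.Comb S M Q) (h' : B.Comb S M' Q') :
    B.Comb S (M * M') fun x => Q x ∧ Q' x := by
  obtain ⟨ι, Γ, w, P, a, b, c, d⟩ := h
  obtain ⟨ι', Γ', w', P', a', b', c', d'⟩ := h'
  refine ⟨ι × ι', Γ ×ˢ Γ', w * w', fun γ x => P γ.1 x ∧ P' γ.2 x, mul_nonneg a a', ?_,
    fun γ g => ?_, fun x m q => ?_⟩
  · rw [card_product, Nat.cast_mul, mul_mul_mul_comm]
    exact mul_le_mul b b' (by positivity) (le_trans (by positivity) b)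
  · rw [mem_product] at g
    exact ⟨(c _ g.1).1.and (c' _ g.2).1, fun x m p => ⟨(c _ g.1).2 x m p.1, (c' _ g.2).2 x m p.2⟩⟩
  · have e := filter_product (s := Γ) (t := Γ') (fun γ => P γ x) fun γ => P' γ x
    have := congrArg₂ (· * ·) (d x m q.1) (d' x m q.2)
    rw [mul_one, mul_mul_mul_comm, ← Nat.cast_mul, ← card_product, ← e] at this
    rw [← this]
    congr

theorem Comb.all {ι : Type} (s : Finset ι) {R : ι → B.Pt → Prop} (h : ∀ i ∈ s, B.Comb S M (R i)) :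
    B.Comb S (M ^ s.card) fun x => ∀ i ∈ s, R i x := by
  induction s using Finset.induction_on with
  | empty =>
    rw [card_empty, pow_zero]
    exact Closed.comb fun _ _ _ _ _ k => absurd k (notMem_empty _)
  | insert i s hi ih =>
    rw [card_insert_of_notMem hi, pow_succ']
    exact ((h i (mem_insert_self i s)).and (ih fun j k => h j (mem_insert_of_mem k))).congr
      fun x _ => (forall_mem_insert i s fun j => R j x).symm

theorem Comb.bound (h : B.Comb S M Q) (f : B.Pt → ℂ) {δ : ℝ} (hδ : 0 ≤ δ)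
    (k : ∀ P, B.Closed S P → (∀ x ∈ B.pts, P x → Q x) → ‖∑ x ∈ B.pts.filter P, f x‖ ≤ δ) :
    ‖∑ x ∈ B.pts.filter Q, f x‖ ≤ M * δ := by
  obtain ⟨ι, Γ, w, P, a, b, c, d⟩ := h
  have e : ∑ x ∈ B.pts.filter Q, f x = w * ∑ γ ∈ Γ, ∑ x ∈ B.pts.filter (P γ), f x := by
    rw [sum_comm' (t' := B.pts.filter Q) (s' := fun x => Γ.filter fun γ => P γ x) fun γ x => ?_,
      mul_sum]
    · refine sum_congr rfl fun x m => ?_
      rw [mem_filter] at m
      rw [sum_const, nsmul_eq_mul, ← mul_assoc]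
      have : (w : ℂ) * (Γ.filter fun γ => P γ x).card = 1 := by exact_mod_cast d x m.1 m.2
      rw [this, one_mul]
    · simp only [mem_filter]
      exact ⟨fun t => ⟨⟨t.1, t.2.2⟩, t.2.1, (c γ t.1).2 x t.2.1 t.2.2⟩,
        fun t => ⟨t.1.1, t.2.1, t.1.2⟩⟩
  rw [e, norm_mul, Complex.norm_real, Real.norm_of_nonneg a]
  calc _ ≤ w * (Γ.card * δ) := by
        refine mul_le_mul_of_nonneg_left ((norm_sum_le _ _).trans ?_) a
        rw [← nsmul_eq_mul]
        exact sum_le_card_nsmul _ _ _ fun γ g => k _ (c γ g).1 (c γ g).2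
    _ ≤ _ := by
        rw [← mul_assoc]
        exact mul_le_mul_of_nonneg_right b hδ

/-- Splitting a sum over the points into the fibres of a map. -/
theorem sum_fib_le {κ : Type} (f : B.Pt → κ) (G : B.Pt → Prop) (u : B.Pt → ℝ) {δ : ℝ} (hδ : 0 ≤ δ)
    (hG : ∀ x ∈ B.pts, ∀ z ∈ B.pts, f x = f z → G z → G x)
    (h : ∀ z ∈ B.pts, G z → ∑ x ∈ B.pts with f x = f z, u x ≤ δ) :
    ∑ x ∈ B.pts with G x, u x ≤ (B.pts.image f).card * δ := by
  rw [← sum_fiberwise_of_maps_to (t := B.pts.image f) (g := f)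
    (fun x m => mem_image_of_mem f (mem_filter.1 m).1), ← nsmul_eq_mul]
  refine sum_le_card_nsmul _ _ _ fun t _ => ?_
  rcases ((B.pts.filter G).filter fun x => f x = t).eq_empty_or_nonempty with e | ⟨z, m⟩
  · rw [e, sum_empty]
    exact hδ
  simp only [mem_filter] at m
  obtain ⟨⟨m, g⟩, rfl⟩ := m
  refine le_trans (le_of_eq (sum_congr ?_ fun _ _ => rfl)) (h z m g)
  ext x
  simp only [mem_filter]
  exact ⟨fun t => ⟨t.1.1, t.2⟩, fun t => ⟨⟨t.1, hG x t.1 z m t.2 g⟩, t.2⟩⟩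

end Bx

end Pool.Agent.Lib.MP_696deb_nt.CU.CV
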