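import Pool.Agent.Lib.MP_696deb_nt.CV.KvY
import Pool.Agent.Lib.MP_696deb_nt.CV.E3
import Pool.Agent.Lib.MP_696deb_nt.CV.E4

/-! The two bilinear bounds. -/

set_option autoImplicit false
set_option linter.unusedSectionVars false

open Finset
open scoped Classical

namespace Pool.Agent.Lib.MP_696deb_nt.CU.CV

variable [δ : Qd]

theorem tstH : TstH := by
  refine ⟨((finite_Z3 0).union (finite_Z3 1)).toFinset.image fun u =>
    if h : ∃ g, u g ≠ 0 then h.choose else 1, fun e u hu h3 h4 => ?_⟩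
  refine funext (unr hu (fun g hg => by_contra fun k => ?_) h4)
  have x : ∃ g, rsM u g ≠ 0 := ⟨g, by rwa [rsM_of_mem hg]⟩
  have y : rsM u ∈ Z3 (e % 2) := rsM_mem (kc_mod.2 hu)
  have z := h3 x.choose (mem_image.2 ⟨_, (Set.Finite.mem_toFinset _).2 (by
    rcases Nat.mod_two_eq_zero_or_one e with k | k <;> rw [k] at y
    exacts [Or.inl y, Or.inr y]), dif_pos x⟩)
  refine x.choose_spec ?_
  by_cases m : x.choose ∈ GM
  · rw [rsM_of_mem m, z]
  · exact rsM_of_notMem m u

theorem kapH : KapH := fun _ _ => kap_spec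

theorem ana : AnaStmt := ana_of tstH kapH

theorem linK : LinK := linK_of tstH kapH

end Pool.Agent.Lib.MP_696deb_nt.CU.CV
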