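import Pool.Agent.Lib.MP_696deb_nt.CU.E3

/-! Cubic twists of a quadratic twist of the Fermat cubic: the twisted Galois actions, local
conditions, Selmer cocycles and the pairing. -/

set_option autoImplicit false
set_option linter.unusedSectionVars false

open scoped Classical

namespace Pool.Agent.Lib.MP_696deb_nt.CU.CV

/-- The sign by which `g` acts on a square root. -/
noncomputable def dr (r : Qbar) (g : Gam) : F3 := if g r = r then 1 else -1

/-- Two square roots of integers whose characters differ by the cyclotomic character, and a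
modulus that is divisible by all bad primes. -/
class Qd where
  D0 : ℤ
  D1 : ℤ
  r0 : Qbar
  r1 : Qbar
  M : ℕ
  h0 : r0 ^ 2 = D0
  h1 : r1 ^ 2 = D1
  rel : ∀ g, dr r1 g = dr r0 g * chi g
  M0 : M ≠ 0
  big : ∀ c : ℕ, c ≠ 0 → c ≤ 3 + D0.natAbs + D1.natAbs → c ∣ M
  nt0 : ∃ q : ℕ, q.Prime ∧ q ∣ M ∧ ∃ g ∈ Gq q, g r0 ≠ r0
  nt1 : ∃ q : ℕ, q.Prime ∧ q ∣ M ∧ ∃ g ∈ Gq q, g r1 ≠ r1

/-- The data with the two roots exchanged. -/
@[reducible] def Qd.sw (δ : Qd) : Qd where
  D0 := δ.D1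
  D1 := δ.D0
  r0 := δ.r1
  r1 := δ.r0
  M := δ.M
  h0 := δ.h1
  h1 := δ.h0
  rel g := by rw [δ.rel, mul_assoc, chi_sq, mul_one]
  M0 := δ.M0
  big c h k := δ.big c h (by omega)
  nt0 := δ.nt1
  nt1 := δ.nt0

/-- Smooth cocycles on `D` with values in the character `μ`. -/
def Kd (μ : Gam → F3) (D : Subgroup Gam) (u : Gam → F3) : Prop :=
  Sm D u ∧ ∀ g ∈ D, ∀ h ∈ D, u (g * h) = u g + μ g * u h

/-- A pair of cube roots that is permuted according to the cocycle `κ`. -/
def Rp (μ κ : Gam → F3) (a b : Qbar) : Prop := ∀ g : Gam,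
  (μ g = chi g → g a = zeta 1 ^ (κ g).val * a ∧ g b = zeta 1 ^ (-κ g).val * b) ∧
  (μ g ≠ chi g → g a = zeta 1 ^ (-κ g).val * b ∧ g b = zeta 1 ^ (κ g).val * a)

/-- A root pair of nonzero algebraic integers of size at most `t`. -/
def Ht (μ κ : Gam → F3) (t : ℝ) : Prop := ∃ a b : Qbar, Rp μ κ a b ∧ a ≠ 0 ∧ b ≠ 0 ∧
  IsIntegral ℤ a ∧ IsIntegral ℤ b ∧ ‖B2.jC a‖ ≤ t ∧ ‖B2.jC b‖ ≤ t

/-- A cocycle that is ramified at `p`, unramified outside of `M p` and of small height. -/
structure IsKap (μ : Gam → F3) (M p : ℕ) (κ : Gam → F3) : Prop where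
  kd : Kd μ ⊤ κ
  self : κ (sq p) = 1
  ne : ∀ q : ℕ, q.Prime → ¬ q ∣ M → q ≠ p → κ (sq q) = 0
  ht : Ht μ κ (M * p)

/-- A choice of such a cocycle. -/
noncomputable def kp (μ : Gam → F3) (M p : ℕ) : Gam → F3 :=
  if h : ∃ κ, IsKap μ M p κ then h.choose else 0

variable [δ : Qd]

/-- The modulus. -/
abbrev MM : ℕ := δ.M

/-- The quadratic character. -/
noncomputable def de (g : Gam) : F3 := dr δ.r0 g

/-- The same character as a sign. -/
noncomputable def sg (g : Gam) : ℤ := if g δ.r0 = δ.r0 then 1 else -1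

/-- The character of the kernel of the isogeny on the side `e`. -/
noncomputable def mu (e : ℕ) (g : Gam) : F3 := de g * chi g ^ e

/-- The twisted actions. -/
noncomputable def act (n e : ℕ) (g : Gam) : A →+ A :=
  AddMonoidHom.mk' (fun P => sg g • CU.act n e g P) fun P Q => by rw [map_add, smul_add]

/-- Smooth cocycles on `D` with values in the character of the side `e`. -/
def Kc (e : ℕ) (D : Subgroup Gam) (u : Gam → F3) : Prop := Kd (mu e) D u

/-- The cocycle on the side `e` that is ramified at `p`. -/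
noncomputable def kap (e p : ℕ) : Gam → F3 := kp (mu e) MM p

/-- The union of the decomposition groups at the primes of the modulus. -/
def GM : Set Gam := {g | ∃ q : ℕ, q.Prime ∧ q ∣ MM ∧ g ∈ Gq q}

/-- The restriction to this union. -/
noncomputable def rsM {α : Type} [AddCommGroup α] : (Gam → α) →+ (Gam → α) where
  toFun c g := if g ∈ GM then c g else 0
  map_zero' := funext fun g => by simp
  map_add' c c' := funext fun g => by
    by_cases h : g ∈ GM <;> simp [h]

/-- The local condition. -/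
def Loc (n e q : ℕ) (c : Gam → A) : Prop := ∃ P : A, ∀ g ∈ Gq q, c g = cob (act n e) P g

/-- The local pairing of cocycles on the two sides. -/
noncomputable def lp (q : ℕ) (u k : Gam → F3) : F3 := inv q fun g h => u g * mu 1 g * k h

theorem Loc.zero (n e q : ℕ) : Loc n e q 0 := ⟨0, fun g _ => (cob_zero _ g).symm⟩

theorem Loc.add {n e q : ℕ} {c c' : Gam → A} (h : Loc n e q c) (h' : Loc n e q c') :
    Loc n e q (c + c') := by
  obtain ⟨P, hP⟩ := h
  obtain ⟨Q, hQ⟩ := h'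
  exact ⟨P + Q, fun g hg => by rw [Pi.add_apply, hP g hg, hQ g hg, cob_add]⟩

theorem Loc.neg {n e q : ℕ} {c : Gam → A} (h : Loc n e q c) : Loc n e q (-c) := by
  obtain ⟨P, hP⟩ := h
  exact ⟨-P, fun g hg => by rw [Pi.neg_apply, hP g hg, cob_neg]⟩

/-- The Selmer cocycles of level `l` on the side `e`. -/
structure IsZ (n e l : ℕ) (c : Gam → A) : Prop where
  coc : Coc ⊤ (act n e) c
  kil : ∀ g, th ^ l • c g = 0
  loc : ∀ q : ℕ, q.Prime → q ∣ MM * n → Loc n e q c
  unr : ∀ q : ℕ, q.Prime → ¬ q ∣ MM * n → c (sq q) = 0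

/-- The group of these cocycles. -/
noncomputable def Zs (n e l : ℕ) : AddSubgroup (Gam → A) where
  carrier := {c | IsZ n e l c}
  zero_mem' := ⟨H3.Coc.zero _ _, fun _ => smul_zero _, fun q _ _ => Loc.zero n e q,
    fun _ _ _ => rfl⟩
  add_mem' := fun h h' => ⟨h.coc.add h'.coc, fun g => by
    rw [Pi.add_apply, smul_add, h.kil, h'.kil, add_zero],
    fun q hq k => (h.loc q hq k).add (h'.loc q hq k), fun q hq k => by
    rw [Pi.add_apply, h.unr q hq k, h'.unr q hq k, add_zero]⟩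
  neg_mem' := fun h => ⟨h.coc.neg, fun g => by rw [Pi.neg_apply, smul_neg, h.kil, neg_zero],
    fun q hq k => (h.loc q hq k).neg, fun q hq k => by rw [Pi.neg_apply, h.unr q hq k, neg_zero]⟩

theorem mem_Zs {n e l : ℕ} {c : Gam → A} : c ∈ Zs n e l ↔ IsZ n e l c := Iff.rfl

/-- On the decomposition group `c` is a coboundary up to the cocycle `u`. -/
def Dc (n q : ℕ) (c : Gam → A) (u : Gam → F3) : Prop :=
  ∃ P : A, ∀ g ∈ Gq q, c g = cob (act n 0) P g + kT (u g)

/-- A choice of the cocycle. -/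
noncomputable def lu (n q : ℕ) (c : Gam → A) : Gam → F3 :=
  if h : ∃ u, Dc n q c u then h.choose else 0

/-- The local term of the pairing. -/
noncomputable def Dq (n q : ℕ) (c : Gam → A) (k : Gam → F3) : F3 := lp q (lu n q c) k

/-- The pairing, computed with a lift. -/
noncomputable def Dl (n : ℕ) (c : Gam → A) (k : Gam → F3) : F3 :=
  ∑ q ∈ (MM * n).primeFactors, Dq n q c k

/-- `c'` is a lift of `c` that is unramified outside of `M n`. -/
structure IsLift (n : ℕ) (c c' : Gam → A) : Prop where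
  coc : Coc ⊤ (act n 0) c'
  th_smul : ∀ g, th • c' g = c g
  unr : ∀ q : ℕ, q.Prime → ¬ q ∣ MM * n → c' (sq q) = 0

/-- The pairing of a Selmer cocycle on the side one with a Selmer cocycle of level one. -/
noncomputable def DD (n : ℕ) (c : Gam → A) (k : Gam → F3) : F3 :=
  if h : ∃ c', IsLift n c c' then Dl n h.choose k else 0

/-- The cocycles of level one that are unramified outside of `M n`. -/
noncomputable def KK (n e : ℕ) : AddSubgroup (Gam → F3) where
  carrier := {u | Kc e ⊤ u ∧ ∀ q : ℕ, q.Prime → ¬ q ∣ MM * n → u (sq q) = 0}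
  zero_mem' := ⟨⟨B2.Sm.const 0, fun _ _ _ _ => by simp⟩, fun _ _ _ => rfl⟩
  add_mem' := fun h h' => ⟨⟨h.1.1.comp₂ h'.1.1 (· + ·), fun g hg k hk => by
    simp only [Pi.add_apply, h.1.2 g hg k hk, h'.1.2 g hg k hk]
    ring⟩, fun q hq k => by rw [Pi.add_apply, h.2 q hq k, h'.2 q hq k, add_zero]⟩
  neg_mem' := fun h => ⟨⟨h.1.1.comp Neg.neg, fun g hg k hk => by
    simp only [Pi.neg_apply, h.1.2 g hg k hk]
    ring⟩, fun q hq k => by rw [Pi.neg_apply, h.2 q hq k, neg_zero]⟩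

theorem mem_KK {n e : ℕ} {u : Gam → F3} :
    u ∈ KK n e ↔ Kc e ⊤ u ∧ ∀ q : ℕ, q.Prime → ¬ q ∣ MM * n → u (sq q) = 0 := Iff.rfl

/-- The growth of the Selmer cocycles. -/
def Gro (n s : ℕ) : Prop := ∃ C : ℕ, ∀ k : ℕ, Nat.card (Zs n 1 (2 * k)) ≤ C * 3 ^ (s * k)

/-- The growth is small for almost all twists. -/
def CoreStmt : Prop := ∀ ε : ℝ, 0 < ε → ∃ X0 : ℕ, ∀ X ≥ X0,
  (Set.ncard {n : ℕ | 1 ≤ n ∧ n ≤ X ∧ ¬ Gro n 3} : ℝ) ≤ ε * X

end Pool.Agent.Lib.MP_696deb_nt.CU.CV
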