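import Pool.Agent.Lib.MP_696deb_nt.CV.E1

/-! Cocycles on tame decomposition groups. -/

set_option autoImplicit false
set_option linter.unusedSectionVars false

open scoped Classical

namespace Pool.Agent.Lib.MP_696deb_nt.CU.CV

variable [δ : Qd]

variable {n e l q : ℕ} {g : Gam} {P : A} {c c' : Gam → A} {u u' k k' : Gam → F3}

theorem V_r0 (hq : q.Prime) (h3 : ¬ q ∣ MM) : (pl q).V δ.r0 = 1 := by
  have h := (pl q).V_int_eq_one (a := δ.D0)
  rw [pl_p hq, Int.natCast_dvd] at h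
  have h1 := h.2 fun k => h3 (k.trans D0_dvd)
  rw [← δ.h0, map_pow] at h1
  exact (pow_eq_one_iff_of_nonneg zero_le two_ne_zero).1 h1

theorem V_two (hq : q.Prime) (h3 : ¬ q ∣ MM) : (pl q).V 2 = 1 := by
  have h := (pl q).V_int_eq_one (a := (2 : ℕ))
  rw [pl_p hq, Int.natCast_dvd_natCast] at h
  simpa using h.2 fun k => h3 (k.trans two_dvd)

theorem de_ine (hq : q.Prime) (h3 : ¬ q ∣ MM) (hg : g ∈ Iq q) : de g = 1 := by
  refine de_eq_one.2 ((sq_cases δ.h0 g).resolve_right fun e => ?_)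
  have h := (B2.isFrob_one.2 hg).2 _ (V_r0 hq h3).le
  rw [e, pow_one, show -δ.r0 - δ.r0 = -(2 * δ.r0) by ring, Valuation.map_neg, map_mul,
    V_r0 hq h3, V_two hq h3, one_mul] at h
  exact h.false

theorem sg_ine (hq : q.Prime) (h3 : ¬ q ∣ MM) (hg : g ∈ Iq q) : sg g = 1 :=
  if_pos (de_eq_one.1 (de_ine hq h3 hg))

theorem mu_ine (hq : q.Prime) (h3 : ¬ q ∣ MM) (hg : g ∈ Iq q) (e : ℕ) : mu e g = 1 := by
  rw [mu, de_ine hq h3 hg, chi_ine hq (ne_three h3) hg, one_pow, one_mul]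

theorem mu_pow (e : ℕ) (g : Gam) (j : ℕ) : mu e (g ^ j) = mu e g ^ j := by
  induction j with
  | zero => rw [pow_zero, pow_zero, mu_one]
  | succ j ih => rw [pow_succ, mu_mul, ih, pow_succ]

theorem mu_Gq (hq : q.Prime) (h3 : ¬ q ∣ MM) (h : mu e (fq q) = 1) (hg : g ∈ Gq q) :
    mu e g = 1 := by
  obtain ⟨U, u1, -, u3⟩ := sm_mu e ⊤
  obtain ⟨j, σ, hσ, k⟩ := (e2a_tm hq (ne_three h3)).dg ⟨trivial, hg⟩ u1
  rw [← u3 _ trivial g trivial k, mu_mul, mu_pow, h, mu_ine hq h3 hσ, one_pow, one_mul]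

theorem mu_Gq' (hq : q.Prime) (h3 : ¬ q ∣ MM) (h : mu (e + 1) (fq q) = 1) (hg : g ∈ Gq q) :
    mu e g = chi g := by
  rw [← mu_mul_succ e, mu_Gq hq h3 h hg, mul_one]

/-- If the side `e` has the trivial character at `q`, it is the untwisted side zero. -/
theorem act_zero (hq : q.Prime) (h3 : ¬ q ∣ MM) (h : mu e (fq q) = 1) (n : ℕ) (hg : g ∈ Gq q) :
    act n e g = CU.act n 0 g := act_eq n (by rw [mu_Gq hq h3 h hg, pow_zero])

/-- If the other side has the trivial character at `q`, it is the untwisted side one. -/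
theorem act_one' (hq : q.Prime) (h3 : ¬ q ∣ MM) (h : mu (e + 1) (fq q) = 1) (n : ℕ)
    (hg : g ∈ Gq q) : act n e g = CU.act n 1 g := act_eq n (by rw [mu_Gq' hq h3 h hg, pow_one])

theorem kc_zero (hq : q.Prime) (h3 : ¬ q ∣ MM) (h : mu e (fq q) = 1) :
    Kc e (Gq q) u ↔ CU.Kc 0 (Gq q) u := kc_iff fun g hg => by rw [mu_Gq hq h3 h hg, pow_zero]

theorem kc_one (hq : q.Prime) (h3 : ¬ q ∣ MM) (h : mu (e + 1) (fq q) = 1) :
    Kc e (Gq q) u ↔ CU.Kc 1 (Gq q) u := kc_iff fun g hg => by rw [mu_Gq' hq h3 h hg, pow_one]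

theorem kc_ine (hq : q.Prime) (h3 : ¬ q ∣ MM) : Kc e (Iq q) u ↔ CU.Kc 0 (Iq q) u :=
  kc_iff fun g hg => by rw [mu_ine hq h3 hg, pow_zero]

/-- Both characters are trivial exactly at split primes that are one modulo three. -/
theorem mod_one (hq : q.Prime) (h3 : ¬ q ∣ MM) (h : mu e (fq q) = 1) (h' : mu (e + 1) (fq q) = 1) :
    q % 3 = 1 := by
  rw [mu_succ, h, one_mul, chi_fq hq (ne_three h3), ← ZMod.natCast_mod] at h'
  have : q % 3 < 3 := Nat.mod_lt _ three_pos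
  generalize q % 3 = a at h' this ⊢
  interval_cases a
  · exact absurd h' (by decide)
  · rfl
  · exact absurd h' (by decide)

theorem mod_two (hq : q.Prime) (h3 : ¬ q ∣ MM) (h : mu e (fq q) ≠ mu (e + 1) (fq q)) :
    q % 3 = 2 := by
  have h0 : q % 3 ≠ 0 := fun h => ne_three h3 ((Nat.prime_dvd_prime_iff_eq Nat.prime_three hq).1
    (Nat.dvd_of_mod_eq_zero h)).symm
  by_contra k
  exact h (by rw [mu_succ, chi_Gq hq (by omega) (fq_mem hq), mul_one])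

theorem Kc.ine (h : Kc e (Iq q) u) (hq : q.Prime) (h3 : ¬ q ∣ MM) (hg : g ∈ Iq q) :
    u g = kk q g * u (sq q) := ((kc_ine hq h3).1 h).ine hq (ne_three h3) hg

theorem e2a_ine (h : Kc e (Iq q) u) (hq : q.Prime) (h3 : ¬ q ∣ MM) (hs : u (sq q) = 0)
    (hg : g ∈ Iq q) : u g = 0 := by rw [h.ine hq h3 hg, hs, mul_zero]

theorem Kc.det (h : Kc e (Gq q) u) (hq : q.Prime) (h3 : ¬ q ∣ MM) (hs : u (sq q) = 0)
    (hf : u (fq q) = 0) (hg : g ∈ Gq q) : u g = 0 := by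
  obtain ⟨U, u1, -, u3⟩ := h.1
  obtain ⟨j, σ, hσ, k⟩ := (e2a_tm hq (ne_three h3)).dg ⟨trivial, hg⟩ u1
  have h1 : ∀ j : ℕ, u (fq q ^ j) = 0 := fun j => by
    induction j with
    | zero => rw [pow_zero, h.one]
    | succ j ih => rw [pow_succ, h.2 _ (pow_mem (fq_mem hq) j) _ (fq_mem hq), ih, hf]; simp
  have h2 := pow_mem (fq_mem hq) j
  rw [← u3 _ (mul_mem h2 (B2.Ine_le _ hσ)) g hg k, h.2 _ h2 _ (B2.Ine_le _ hσ), h1,
    e2a_ine (h.mono (B2.Ine_le _)) hq h3 hs hσ, mul_zero, add_zero]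

/-- The tame relation on inertia. -/
theorem e2a_conj (h : Kc e (Iq q) u) (hq : q.Prime) (h3 : ¬ q ∣ MM) :
    u (fq q * sq q * (fq q)⁻¹) = chi (fq q) * u (sq q) := by
  have q3 := ne_three h3
  have h6 := B2.conj_mem_Ine (fq_mem hq) (sq_ine hq q3)
  have h1 := (kc_kk q ⊤).2 (fq q * sq q * (fq q)⁻¹) trivial (fq q) trivial
  rw [inv_mul_cancel_right, (kc_kk q ⊤).2 _ trivial _ trivial, chi_ine hq q3 h6,
    kk_sq_self hq q3] at h1
  rw [h.ine hq h3 h6]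
  congr 1
  linear_combination -h1

theorem e2a_ev {t : F3} (h : mu (e + 1) g ≠ 1) (k : mu e g * t = chi g * t) : t = 0 := by
  rw [← mu_mul_succ e, (mu_cases _ _).resolve_left h] at k
  rcases mu_cases e g with a | a <;> rw [a] at k <;> revert t <;> decide

theorem Kc.ev (h : Kc e (Gq q) u) (hq : q.Prime) (h3 : ¬ q ∣ MM) (h2 : mu (e + 1) (fq q) ≠ 1) :
    u (sq q) = 0 := by
  have q3 := ne_three h3
  have h6 := B2.conj_mem_Ine (fq_mem hq) (sq_ine hq q3)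
  have h1 := h.2 _ (B2.Ine_le _ h6) _ (fq_mem hq)
  rw [inv_mul_cancel_right, h.2 _ (fq_mem hq) _ (sq_mem hq q3), mu_ine hq h3 h6,
    e2a_conj (h.mono (B2.Ine_le _)) hq h3] at h1
  exact e2a_ev h2 (by linear_combination h1)

theorem e2a_ind {D : Subgroup Gam} {S : Gam → Prop}
    (H : ∀ e u, Kc e D u → (∀ s ∈ D, S s → u s = 0) → ∀ g ∈ D, u g = 0)
    (h : Coc D (act n e) c) (hl : ∀ g ∈ D, th ^ l • c g = 0) (hs : ∀ s, S s → c s = 0)
    (hg : g ∈ D) : c g = 0 := by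
  induction l generalizing e c g with
  | zero => simpa using hl g hg
  | succ l ih =>
    obtain ⟨v, h1, h2⟩ := exists_kC h fun a ha => ih (coc_th h)
      (fun b hb => by rw [Pi.smul_apply, smul_smul, ← pow_succ, hl b hb])
      (fun s k => by rw [Pi.smul_apply, hs s k, smul_zero]) ha
    rw [h2 g hg, H e v h1 (fun s k k' => kT_inj (by rw [← h2 s k, hs s k', map_zero])) g hg,
      map_zero]

theorem det_ine (hq : q.Prime) (h3 : ¬ q ∣ MM) (h : Coc (Iq q) (act n e) c)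
    (hl : ∀ g ∈ Iq q, th ^ l • c g = 0) (hs : c (sq q) = 0) (hg : g ∈ Iq q) : c g = 0 :=
  e2a_ind (S := fun s => s = sq q)
    (fun _ _ k k' _ => e2a_ine k hq h3 (k' _ (sq_ine hq (ne_three h3)) rfl)) h hl
    (fun _ k => k ▸ hs) hg

theorem det (hq : q.Prime) (h3 : ¬ q ∣ MM) (h : Coc (Gq q) (act n e) c)
    (hl : ∀ g ∈ Gq q, th ^ l • c g = 0) (hs : c (sq q) = 0) (hf : c (fq q) = 0) (hg : g ∈ Gq q) :
    c g = 0 :=
  e2a_ind (S := fun s => s = sq q ∨ s = fq q)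
    (fun _ _ k k' _ => k.det hq h3 (k' _ (sq_mem hq (ne_three h3)) (.inl rfl))
      (k' _ (fq_mem hq) (.inr rfl)))
    h hl (fun _ k => k.elim (· ▸ hs) (· ▸ hf)) hg

/-- Inertia at a good prime acts trivially on torsion points. -/
theorem act_ine (hq : q.Prime) (h3 : ¬ q ∣ MM) (hg : g ∈ Iq q) (hl : th ^ l • P = 0) :
    act n e g P = un (kk n g) • P := by
  rw [act_def, sg_ine hq h3 hg, one_smul, CU.act_ine hq (ne_three h3) hg hl]

theorem ev (hq : q.Prime) (h3 : ¬ q ∣ MM) (h2 : mu (e + 1) (fq q) ≠ 1) (hn : ¬ q ∣ n)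
    (h : Coc (Gq q) (act n e) c) (hl : ∀ g ∈ Gq q, th ^ l • c g = 0) (hs : th • c (sq q) = 0) :
    c (sq q) = 0 := by
  have q3 := ne_three h3
  have h0 := h.lo_mono (B2.Ine_le (pl q))
  obtain ⟨v, h4, h5⟩ := exists_kC h0 fun a ha => det_ine (l := l) hq h3 (coc_th h0)
    (fun b hb => by rw [Pi.smul_apply, smul_comm, hl b (B2.Ine_le _ hb), smul_zero]) hs ha
  have h6 := B2.conj_mem_Ine (fq_mem hq) (sq_ine hq q3)
  have h1 := h.2 _ (B2.Ine_le _ h6) _ (fq_mem hq)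
  rw [inv_mul_cancel_right, h.2 _ (fq_mem hq) _ (sq_mem hq q3),
    act_ine hq h3 h6 (hl _ (fq_mem hq)), kk_ine hq q3 hn h6, un_zero, one_smul, add_comm,
    add_left_inj, h5 _ h6, h5 _ (sq_ine hq q3), act_kT, e2a_conj h4 hq h3] at h1
  rw [h5 _ (sq_ine hq q3), e2a_ev h2 (kT_inj h1), map_zero]

end Pool.Agent.Lib.MP_696deb_nt.CU.CV
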