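import Pool.Agent.Lib.MP_696deb_nt.CV.E1

/-! Extension of lifts from a subgroup of index two. -/

set_option autoImplicit false
set_option linter.unusedSectionVars false

open scoped Classical

namespace Pool.Agent.Lib.MP_696deb_nt.CU.CV

variable [δ : Qd] {n e l : ℕ} {c c' : Gam → A} {G H : Subgroup Gam}

/-- A cochain on the larger group that lifts `c` and is a cocycle in the direction of the
subgroup. -/
theorem e7b_cochain (hle : H ≤ G) (h2 : ∀ x ∈ G, ∀ y ∈ G, x ∉ H → y ∉ H → x * y ∈ H)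
    (hc : Coc G (act n e) c) (h : Coc H (act n (e + 1)) c')
    (k : ∀ g ∈ H, th • c' g = c g) {t : Gam} (tG : t ∈ G) (t3 : t ∉ H) :
    ∃ f : Gam → A, (∀ x ∈ H, f x = c' x) ∧ (∀ g ∈ G, th • f g = c g) ∧
      ∀ x ∈ G, ∀ u ∈ H, f (x * u) = f x + act n (e + 1) x (f u) := by
  obtain ⟨y, hy⟩ := exists_root 1 (c t)
  rw [pow_one] at hy
  obtain ⟨f, f1, f2⟩ : ∃ f : Gam → A, (∀ x ∈ H, f x = c' x) ∧
      ∀ x ∉ H, f x = y + act n (e + 1) t (c' (t⁻¹ * x)) :=
    ⟨fun x => if x ∈ H then c' x else y + act n (e + 1) t (c' (t⁻¹ * x)),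
      fun _ q => if_pos q, fun _ q => if_neg q⟩
  have m1 : ∀ x ∈ G, x ∉ H → t⁻¹ * x ∈ H := fun x hx q =>
    h2 _ (inv_mem tG) x hx (mt inv_mem_iff.1 t3) q
  refine ⟨f, f1, fun g hg => ?_, fun x hx u hu => ?_⟩
  · by_cases q : g ∈ H
    · rw [f1 g q, k g q]
    · rw [f2 g q, smul_add, hy, ← act_th', k _ (m1 g hg q), ← hc.2 t tG _ (hle (m1 g hg q)),
        mul_inv_cancel_left]
  · by_cases q : x ∈ H
    · rw [f1 _ (mul_mem q hu), f1 x q, f1 u hu, h.2 x q u hu]
    · rw [f2 _ fun r => q ((mul_mem_cancel_right hu).1 r), f2 x q, f1 u hu, ← mul_assoc,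
        h.2 _ (m1 x hx q) u hu, map_add, ← act_mul, mul_inv_cancel_left, add_assoc]

theorem ext_two (hH : Op H) (hle : H ≤ G) (h2 : ∀ x ∈ G, ∀ y ∈ G, x ∉ H → y ∉ H → x * y ∈ H)
    (hc : Coc G (act n e) c) (h : Coc H (act n (e + 1)) c') (k : ∀ g ∈ H, th • c' g = c g) :
    ∃ c'', Coc G (act n (e + 1)) c'' ∧ ∀ g ∈ G, th • c'' g = c g := by
  by_cases hG : G ≤ H
  · obtain rfl := le_antisymm hle hG
    exact ⟨c', h, k⟩
  obtain ⟨t, tG, t3⟩ := SetLike.not_le_iff_exists.1 hG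
  obtain ⟨f, f1, f0, f3⟩ := e7b_cochain hle h2 hc h k tG t3
  have cj : ∀ u ∈ H, t⁻¹ * u * t ∈ H := fun u hu => h2 _ (mul_mem (inv_mem tG) (hle hu)) t tG
    (fun r => t3 (inv_mem_iff.1 ((mul_mem_cancel_right hu).1 r))) t3
  have d3 : ∀ g ∈ G, 3 • (f (g * t) - f g - act n (e + 1) g (f t)) = 0 := fun g hg => by
    have := three_pow_smul (k := 1) (P := f (g * t) - f g - act n (e + 1) g (f t)) (by
      rw [pow_one, smul_sub, smul_sub, ← act_th', f0 _ (mul_mem hg tG), f0 g hg, f0 t tG,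
        hc.2 g hg t tG, add_sub_cancel_left, sub_self])
    rwa [pow_one] at this
  have co : ∀ g ∈ G, ∀ x ∈ G, 2 • f (g * x) - f (g * x * t) + act n (e + 1) (g * x) (f t) =
      2 • f g - f (g * t) + act n (e + 1) g (f t) +
        act n (e + 1) g (2 • f x - f (x * t) + act n (e + 1) x (f t)) := fun g hg x hx => by
    by_cases q : x ∈ H
    · have e1 := f3 (g * t) (mul_mem hg tG) _ (cj x q)
      have e2 := f3 t tG _ (cj x q)
      rw [show g * t * (t⁻¹ * x * t) = g * x * t by group] at e1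
      rw [show t * (t⁻¹ * x * t) = x * t by group] at e2
      rw [e1, e2, f3 g hg x q]
      simp only [act_mul, map_add, map_sub, map_nsmul]
      abel
    · have m1 : t⁻¹ * x ∈ H := h2 _ (inv_mem tG) x hx (mt inv_mem_iff.1 t3) q
      have e1 := f3 (g * t) (mul_mem hg tG) _ m1
      have e2 := f3 t tG _ m1
      have e3 := f3 g hg _ (h2 x hx t tG q t3)
      rw [show g * t * (t⁻¹ * x) = g * x by group] at e1
      rw [mul_inv_cancel_left] at e2
      rw [← mul_assoc] at e3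
      rw [e3, e1, e2]
      simp only [act_mul, map_add, map_sub, map_nsmul]
      linear_combination (norm := abel1) d3 g hg
  obtain ⟨U, u1, u2, u3⟩ := h.1
  obtain ⟨V, v1, -, v3⟩ := sm_act n (e + 1) ⊤ (f t)
  have u4 : ∀ u ∈ H, u ∈ U → f u = 0 := fun u hu q => by
    rw [f1 u hu, ← u3 1 (one_mem _) u hu (by simpa using q), coc_one h]
  refine ⟨fun g => 2 • f g - f (g * t) + act n (e + 1) g (f t),
    ⟨B2.Sm.of_open (U ⊓ V ⊓ H) ((u1.inf v1).inf hH) fun g hg u hu => ?_, co⟩, fun g hg => ?_⟩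
  · have e2 := f3 t tG _ (cj u hu.2.2)
    have e3 := v3 1 trivial u trivial (by simpa using hu.2.1.2)
    rw [show t * (t⁻¹ * u * t) = u * t by group,
      u4 _ (cj u hu.2.2) (u2.conj_mem' u hu.2.1.1 t), map_zero, add_zero] at e2
    beta_reduce at e3 ⊢
    rw [co g hg u hu.1, u4 u hu.2.2 hu.2.1.1, e2, ← e3, act_one, nsmul_zero, zero_sub,
      neg_add_cancel, map_zero, add_zero]
  · beta_reduce
    rw [smul_add, smul_sub, smul_comm, ← act_th', f0 g hg, f0 _ (mul_mem hg tG), f0 t tG,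
      hc.2 g hg t tG]
    abel

end Pool.Agent.Lib.MP_696deb_nt.CU.CV
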