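import Pool.Agent.Lib.MP_696deb_nt.CV.SCb

/-! Properties that only depend on the level one data. -/

set_option autoImplicit false
set_option linter.unusedSectionVars false

open scoped Classical
open Finset

namespace Pool.Agent.Lib.MP_696deb_nt.CU.CV

namespace Bx

variable [δ : Qd] {B : Bx} {x x' z : B.Pt} {a b : B.Pat} {S : Finset (Fin B.r)} {q : ℕ} {g : Gam}

theorem lv_small (e : B.lv x = B.lv z) (hq : q ∈ B.S0) (hg : g ∈ Gq q) (j : Fin B.r) :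
    kk (x j) g = kk (z j) g := by
  have k : H3.rs (Gq q) (kk (x j)) g = H3.rs (Gq q) (kk (z j)) g :=
    congrArg (fun t : B.Lv => (t.1 j ⟨q, hq⟩).1 g) e
  rwa [H3.rs_of_mem hg, H3.rs_of_mem hg] at k

theorem lv_kap_small (e : B.lv x = B.lv z) (hq : q ∈ B.S0) (hg : g ∈ Gq q) (s : ℕ) (j : Fin B.r) :
    kap s (x j) g = kap s (z j) g := by
  have k0 : H3.rs (Gq q) (kap 0 (x j)) g = H3.rs (Gq q) (kap 0 (z j)) g :=
    congrArg (fun t : B.Lv => (t.1 j ⟨q, hq⟩).2.1 g) e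
  have k1 : H3.rs (Gq q) (kap 1 (x j)) g = H3.rs (Gq q) (kap 1 (z j)) g :=
    congrArg (fun t : B.Lv => (t.1 j ⟨q, hq⟩).2.2 g) e
  rw [H3.rs_of_mem hg, H3.rs_of_mem hg] at k0 k1
  rw [← kap_mod s, ← kap_mod s]
  rcases Nat.mod_two_eq_zero_or_one s with h | h <;> rwa [h]

theorem lv_fq (e : B.lv x = B.lv z) (i j : Fin B.r) :
    kk (x i) (fq (x j)) = kk (z i) (fq (z j)) := congrArg (fun t : B.Lv => (t.2.2 i j).1) e

theorem lv_kap_fq (e : B.lv x = B.lv z) (s : ℕ) (i j : Fin B.r) :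
    kap s (x i) (fq (x j)) = kap s (z i) (fq (z j)) := by
  rw [← kap_mod s, ← kap_mod s]
  rcases Nat.mod_two_eq_zero_or_one s with h | h <;> rw [h]
  exacts [congrArg (fun t : B.Lv => (t.2.2 i j).2.1) e, congrArg (fun t : B.Lv => (t.2.2 i j).2.2) e]

theorem lv_N0 (e : B.lv x = B.lv z) (j : Fin B.r) : kk B.N0 (fq (x j)) = kk B.N0 (fq (z j)) :=
  congrArg (fun t : B.Lv => (t.2.1 j).1) e

theorem lv_W (e : B.lv x = B.lv z) {s : ℕ} (w : B.W s) (j : Fin B.r) :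
    w.1 (fq (x j)) = w.1 (fq (z j)) := by
  obtain ⟨w, h1, h2⟩ := w
  rw [← kc_mod] at h1
  rcases Nat.mod_two_eq_zero_or_one s with h | h <;> rw [h] at h1
  exacts [congrArg (fun t : B.Lv => (t.2.1 j).2.1 ⟨w, h1, h2⟩) e,
    congrArg (fun t : B.Lv => (t.2.1 j).2.2 ⟨w, h1, h2⟩) e]

theorem lv_kE_small (e : B.lv x = B.lv z) (hq : q ∈ B.S0) (hg : g ∈ Gq q) {s : ℕ} (a : B.Pe s) :
    B.kE s x a g = B.kE s z a g := by
  rw [kE_apply, kE_apply]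
  exact congrArg _ (sum_congr rfl fun j _ => by rw [lv_kap_small e hq hg s j])

theorem lv_kE_fq (e : B.lv x = B.lv z) (j : Fin B.r) {s : ℕ} (a : B.Pe s) :
    B.kE s x a (fq (x j)) = B.kE s z a (fq (z j)) := by
  rw [kE_apply, kE_apply]
  exact congrArg₂ _ (lv_W e a.1 j) (sum_congr rfl fun i _ => by rw [lv_kap_fq e s i j])

theorem fib_common (h : B.Wf) (hx : x ∈ B.pts) (hz : z ∈ B.pts) (hq : q.Prime)
    (k : q ∣ MM * B.nn x) (k' : q ∣ MM * B.nn z) : q ∈ B.S0 ∨ ∃ j, x j = q ∧ z j = q := by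
  refine or_iff_not_imp_left.2 fun h0 => ?_
  obtain ⟨i, hi⟩ := ((h.dvd_iff hx hq).1 k).resolve_left h0
  obtain ⟨j, hj⟩ := ((h.dvd_iff hz hq).1 k').resolve_left h0
  obtain rfl : i = j := h.disj i j q (hi ▸ mem_pts.1 hx i) (hj ▸ mem_pts.1 hz j)
  exact ⟨i, hi, hj⟩

theorem fib_nM (h : B.Wf) (hx : x ∈ B.pts) (j : Fin B.r) : ¬ x j ∣ MM :=
  fun k => h.cop j _ (mem_pts.1 hx j) (k.mul_right _)

/-- At a common prime the Kummer cocycles of the large primes agree. -/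
theorem lv_agree (h : B.Wf) (hx : x ∈ B.pts) (hz : z ∈ B.pts) (e : B.lv x = B.lv z)
    (hq : q ∈ B.S0 ∨ ∃ j, x j = q ∧ z j = q) (hg : g ∈ Gq q) (i : Fin B.r) :
    kk (x i) g = kk (z i) g := by
  rcases hq with hq | ⟨j, rfl, k⟩
  · exact lv_small e hq hg i
  rcases eq_or_ne i j with rfl | n
  · rw [k]
  have hp := h.prime j _ (mem_pts.1 hx j)
  have h3 := ne_three (fib_nM h hx j)
  have t : ∀ {y}, y ∈ B.pts → y j = x j → kk (y i) (sq (x j)) = 0 := fun hy k =>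
    kk_ine hp h3 (fun d => n (h.inj hy (k.trans ((Nat.prime_dvd_prime_iff_eq hp
      (h.prime i _ (mem_pts.1 hy i))).1 d))).symm) (sq_ine hp h3)
  refine sub_eq_zero.1 (((kc_kk (x i) _).sub (kc_kk (z i) _)).det hp h3 ?_ ?_ hg)
  · rw [Pi.sub_apply, t hx rfl, t hz k, sub_self]
  · rw [Pi.sub_apply, lv_fq e i j, k, sub_self]

/-- At a common prime the ramified cocycles of the large primes agree. -/
theorem lv_agree_kap (h : B.Wf) (hx : x ∈ B.pts) (hz : z ∈ B.pts) (e : B.lv x = B.lv z)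
    (hq : q ∈ B.S0 ∨ ∃ j, x j = q ∧ z j = q) (hg : g ∈ Gq q) (s : ℕ) (i : Fin B.r) :
    kap s (x i) g = kap s (z i) g := by
  rcases hq with hq | ⟨j, rfl, k⟩
  · exact lv_kap_small e hq hg s i
  rcases eq_or_ne i j with rfl | n
  · rw [k]
  have hp := h.prime j _ (mem_pts.1 hx j)
  have h3 := fib_nM h hx j
  have t : ∀ {y}, y ∈ B.pts → y j = x j → kap s (y i) (sq (x j)) = 0 := fun hy k =>
    kap_ne hp h3 fun d => n (h.inj hy (k.trans d)).symm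
  refine sub_eq_zero.1 (((kc_kap s (x i) _).sub (kc_kap s (z i) _)).det hp h3 ?_ ?_ hg)
  · rw [Pi.sub_apply, t hx rfl, t hz k, sub_self]
  · rw [Pi.sub_apply, lv_kap_fq e s i j, k, sub_self]

/-- At a common prime the cocycles of a pattern agree on the decomposition group. -/
theorem lv_kE (h : B.Wf) (hx : x ∈ B.pts) (hz : z ∈ B.pts) (e : B.lv x = B.lv z) (hq : q.Prime)
    (k : q ∣ MM * B.nn x) (k' : q ∣ MM * B.nn z) (hg : g ∈ Gq q) {s : ℕ} (a : B.Pe s) :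
    B.kE s x a g = B.kE s z a g := by
  simp only [kE_apply, lv_agree_kap h hx hz e (fib_common h hx hz hq k k') hg]

theorem lv_kA (h : B.Wf) (hx : x ∈ B.pts) (hz : z ∈ B.pts) (e : B.lv x = B.lv z) (hq : q.Prime)
    (k : q ∣ MM * B.nn x) (k' : q ∣ MM * B.nn z) (hg : g ∈ Gq q) (a : B.Pat) :
    B.kA x a g = B.kA z a g := lv_kE h hx hz e hq k k' hg a

theorem lv_kk (h : B.Wf) (hx : x ∈ B.pts) (hz : z ∈ B.pts) (e : B.lv x = B.lv z) (hq : q.Prime)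
    (k : q ∣ MM * B.nn x) (k' : q ∣ MM * B.nn z) (hg : g ∈ Gq q) :
    kk (B.nn x) g = kk (B.nn z) g := by
  simp only [kk_nn h hx, kk_nn h hz, lv_agree h hx hz e (fib_common h hx hz hq k k') hg]

theorem fib_nn_fq (h : B.Wf) (hx : x ∈ B.pts) (hz : z ∈ B.pts) (e : B.lv x = B.lv z)
    (j : Fin B.r) : kk (B.nn x) (fq (x j)) = kk (B.nn z) (fq (z j)) := by
  simp only [kk_nn h hx, kk_nn h hz, lv_N0 e, lv_fq e]

theorem fib_V_le (h : B.Wf) (hx : x ∈ B.pts) (hz : z ∈ B.pts) (e : B.lv x = B.lv z) (s : ℕ) :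
    B.Ve s x ≤ B.Ve s z := by
  intro a ha
  obtain ⟨h0, h1, h2⟩ := (mem_Ve_iff h hx).1 ha
  refine (mem_Ve_iff h hz).2 ⟨h0, fun q hq => (h1 q hq).congr (fun g hg => ?_) fun g hg => ?_,
    fun j hj => ?_⟩
  · simp only [kk_nn h hx, kk_nn h hz, lv_small e hq hg]
  · exact congrArg kT (lv_kE_small e hq hg a)
  · rw [← lv_kE_fq e j a, ← fib_nn_fq h hx hz e j, h2 j hj]

theorem lv_Ve (h : B.Wf) (hx : x ∈ B.pts) (hz : z ∈ B.pts) (e : B.lv x = B.lv z) (s : ℕ) :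
    B.Ve s x = B.Ve s z := le_antisymm (fib_V_le h hx hz e s) (fib_V_le h hz hx e.symm s)

theorem lv_V (h : B.Wf) (hx : x ∈ B.pts) (hz : z ∈ B.pts) (e : B.lv x = B.lv z) :
    B.V x = B.V z := lv_Ve h hx hz e 1

theorem lv_VF (h : B.Wf) (hx : x ∈ B.pts) (hz : z ∈ B.pts) (e : B.lv x = B.lv z) :
    B.VF x = B.VF z := by
  ext a
  rw [mem_VF, mem_VF, lv_V h hx hz e]

theorem lv_G0 (h : B.Wf) (hx : x ∈ B.pts) (hz : z ∈ B.pts) (e : B.lv x = B.lv z) (k : B.G0 z) :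
    B.G0 x := fun a ha => k a (lv_Ve h hx hz e 1 ▸ ha)

theorem lv_G1 (h : B.Wf) (hx : x ∈ B.pts) (hz : z ∈ B.pts) (e : B.lv x = B.lv z) (k : B.G1 z) :
    B.G1 x := (lv_Ve h hx hz e 0).trans_le k

theorem key_lv (e : B.key x = B.key z) : B.lv x = B.lv z := congrArg Prod.fst e

theorem key_iff (h : B.Wf) (hx : x ∈ B.pts) (hz : z ∈ B.pts) : B.key x = B.key z ↔
    B.lv x = B.lv z ∧ ∀ a ∈ B.V z, ∀ b ∈ B.V z, B.CT x a b = B.CT z a b := by
  refine ⟨fun e => ⟨key_lv e, fun a ha b hb => ?_⟩, fun ⟨e, k⟩ => Prod.ext e ?_⟩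
  · have h1 : (if a ∈ B.V x ∧ b ∈ B.V x then B.CT x a b else 0) =
        if a ∈ B.V z ∧ b ∈ B.V z then B.CT z a b else 0 :=
      congrFun (congrFun (congrArg Prod.snd e) a) b
    rwa [lv_V h hx hz (key_lv e), if_pos ⟨ha, hb⟩, if_pos ⟨ha, hb⟩] at h1
  · funext a b
    show (if a ∈ B.V x ∧ b ∈ B.V x then B.CT x a b else 0) =
      if a ∈ B.V z ∧ b ∈ B.V z then B.CT z a b else 0
    rw [lv_V h hx hz e]
    split_ifs with h1
    exacts [k a h1.1 b h1.2, rfl]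

theorem key_Rad (h : B.Wf) (hx : x ∈ B.pts) (hz : z ∈ B.pts) (e : B.key x = B.key z) :
    B.Rad x = B.Rad z := by
  obtain ⟨e1, k⟩ := (key_iff h hx hz).1 e
  ext a
  show (a ∈ B.V x ∧ ∀ b ∈ B.V x, B.CT x a b = 0) ↔ a ∈ B.V z ∧ ∀ b ∈ B.V z, B.CT z a b = 0
  rw [lv_V h hx hz e1]
  exact and_congr_right fun ha => forall₂_congr fun b hb => by rw [k a ha b hb]

theorem key_Good (h : B.Wf) (hx : x ∈ B.pts) (hz : z ∈ B.pts) (e : B.key x = B.key z)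
    (k : B.Good z) : B.Good x := by
  refine ⟨lv_G0 h hx hz (key_lv e) k.g0, lv_G1 h hx hz (key_lv e) k.g1, fun a ha => ?_⟩
  exact k.bal a (key_Rad h hx hz e ▸ ha)

end Bx

end Pool.Agent.Lib.MP_696deb_nt.CU.CV
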