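import Pool.Agent.Lib.MP_696deb_nt.CV.Fib
import Pool.Agent.Lib.MP_696deb_nt.CU.FibB

/-! The numbers of fibres and colours. -/

set_option autoImplicit false
set_option linter.unusedSectionVars false

open scoped Classical
open Finset

namespace Pool.Agent.Lib.MP_696deb_nt.CU.CV

theorem gen_abs {V : Type} [AddCommGroup V] [Module (ZMod 3) V] [Finite V] (U : AddSubgroup V) :
    ∃ v : Fin (Module.finrank (ZMod 3) V) → V, (∀ i, v i ∈ U) ∧
      ∀ a ∈ U, ∃ s : Fin (Module.finrank (ZMod 3) V) → ZMod 3, a = ∑ i, s i • v i := by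
  have : Fact (Nat.Prime 3) := ⟨Nat.prime_three⟩
  let W : Submodule (ZMod 3) V := AddSubgroup.toZModSubmodule 3 U
  obtain ⟨π, hπ⟩ := W.subtype.exists_leftInverse_of_injective W.ker_subtype
  let e := Module.finBasis (ZMod 3) V
  refine ⟨fun i => π (e i), fun i => (π (e i)).2, fun a ha => ⟨e.repr a, ?_⟩⟩
  have h1 : π a = ⟨a, ha⟩ := LinearMap.congr_fun hπ ⟨a, ha⟩
  have h2 := congrArg (W.subtype ∘ₗ π) (e.sum_repr a)
  rw [map_sum] at h2
  simp only [map_smul, LinearMap.comp_apply, h1, Submodule.subtype_apply] at h2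
  exact h2.symm

variable [δ : Qd]

theorem card_Zq : ∃ K : ℕ, ∀ e q : ℕ, e < 2 → q.Prime → (Zq e q).ncard ≤ K := by
  refine ⟨9 + ∑ t ∈ range 2 ×ˢ MM.primeFactors, (Zq t.1 t.2).ncard, fun e q he hq => ?_⟩
  by_cases h3 : q ∣ MM
  · exact (single_le_sum (f := fun t : ℕ × ℕ => (Zq t.1 t.2).ncard) (a := (e, q))
      (fun _ _ => Nat.zero_le _) (mem_product.2 ⟨mem_range.2 he,
        Nat.mem_primeFactors.2 ⟨hq, h3, MM_ne⟩⟩)).trans (Nat.le_add_left _ _)
  have hi : Set.InjOn (fun u : Gam → F3 => (u (sq q), u (fq q))) (Zq e q) := fun u hu v hv k => by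
    obtain ⟨e1, e2⟩ := Prod.mk.inj k
    funext g
    by_cases hg : g ∈ Gq q
    · exact sub_eq_zero.1 ((hu.1.sub hv.1).det hq h3 (sub_eq_zero.2 e1) (sub_eq_zero.2 e2) hg)
    · rw [hu.2 g hg, hv.2 g hg]
  refine (Set.ncard_le_ncard_of_injOn _ (fun _ _ => Set.mem_univ _) hi Set.finite_univ).trans ?_
  rw [Set.ncard_univ, Nat.card_prod, Nat.card_zmod]
  omega

theorem rs_mem_Zq (e q p : ℕ) : H3.rs (Gq q) (kap e p) ∈ Zq e q :=
  ⟨(kc_kap e p _).congr fun _ hg => (H3.rs_of_mem hg _).symm, fun _ hg => H3.rs_of_notMem hg _⟩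

namespace Bx

variable {B : Bx} {x x' z : B.Pt} {a b : B.Pat} {S : Finset (Fin B.r)} {q : ℕ} {g : Gam}

/-- The dimension of the space of patterns. -/
noncomputable def dm (B : Bx) : ℕ := Module.finrank F3 B.Pat

theorem dm_le (h : B.Wf) : B.dm ≤ (K3 + 1) * (B.r + B.k0 + 1) := by
  have : Fact (Nat.Prime 3) := ⟨Nat.prime_three⟩
  have h1 : Fintype.card B.Pat = Fintype.card F3 ^ B.dm := Module.card_eq_pow_finrank
  rw [card_Pe, ZMod.card] at h1
  have h2 : 3 ^ B.dm ≤ 3 ^ (K3 + B.k0 + B.r) := by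
    rw [← h1, pow_add, pow_add]
    exact Nat.mul_le_mul_right _ ((card_W h 1).trans
      (Nat.mul_le_mul_right _ (Nat.lt_pow_self (by norm_num)).le))
  have h3 := (Nat.pow_le_pow_iff_right (by norm_num)).1 h2
  nlinarith

/-- A small generating family of the Selmer patterns. -/
theorem exists_gen (B : Bx) (z : B.Pt) : ∃ v : Fin B.dm → B.Pat, (∀ i, v i ∈ B.V z) ∧
    ∀ a ∈ B.V z, ∃ s : Fin B.dm → F3, a = ∑ i, s i • v i := gen_abs _

noncomputable instance (B : Bx) (e : ℕ) : Fintype (Module.Dual F3 (B.W e)) :=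
  @Fintype.ofFinite _ (DFunLike.finite _)

theorem card_dual (h : B.Wf) (e : ℕ) : Fintype.card (Module.Dual F3 (B.W e)) ≤ K3 * 3 ^ B.k0 := by
  have : Fact (Nat.Prime 3) := ⟨Nat.prime_three⟩
  refine le_of_eq_of_le ?_ (card_W h e)
  rw [Module.card_eq_pow_finrank (K := F3), Module.card_eq_pow_finrank (K := F3) (V := B.W e),
    Subspace.dual_finrank_eq]

theorem fibB_lv : ∃ K : ℕ, ∀ B : Bx, B.Wf →
    (B.pts.image B.lv).card ≤ K ^ ((B.r + B.k0 + 1) ^ 2) := by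
  obtain ⟨K, hK⟩ := card_Zq
  obtain ⟨L, l1, l2, l3⟩ : ∃ L, (CU.K3 + 9) * (K * K) ≤ L ∧ 3 * (K3 * K3) ≤ L ∧ 27 ≤ L :=
    ⟨(CU.K3 + 9) * (K * K) + 3 * (K3 * K3) + 27, by omega, by omega, by omega⟩
  refine ⟨L, fun B h => ?_⟩
  have hp : ∀ q : B.S0, (q : ℕ).Prime := fun q => Nat.prime_of_mem_primeFactors q.2
  have h1 : B.pts.image B.lv ⊆ (Fintype.piFinset fun _ => Fintype.piFinset fun q : B.S0 =>
      (fibB_fin (hp q)).1.toFinset ×ˢ (finite_Zq 0 q).toFinset ×ˢ (finite_Zq 1 q).toFinset) ×ˢ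
        univ := fun t ht => by
    obtain ⟨x, -, rfl⟩ := mem_image.1 ht
    exact mem_product.2 ⟨Fintype.mem_piFinset.2 fun j => Fintype.mem_piFinset.2 fun q =>
      mem_product.2 ⟨(Set.Finite.mem_toFinset _).2 (fibB_mem q (x j)), mem_product.2
        ⟨(Set.Finite.mem_toFinset _).2 (rs_mem_Zq 0 q (x j)),
          (Set.Finite.mem_toFinset _).2 (rs_mem_Zq 1 q (x j))⟩⟩, mem_univ _⟩
  have h2 : ∏ q : B.S0, ((fibB_fin (hp q)).1.toFinset ×ˢ (finite_Zq 0 q).toFinset ×ˢ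
      (finite_Zq 1 q).toFinset).card ≤ L ^ B.k0 := by
    refine (prod_le_pow_card _ _ L fun q _ => le_trans ?_ l1).trans_eq
      (by rw [card_univ, Fintype.card_coe, k0])
    simp only [card_product, ← Set.ncard_eq_toFinset_card]
    exact Nat.mul_le_mul (fibB_fin (hp q)).2
      (Nat.mul_le_mul (hK 0 q two_pos (hp q)) (hK 1 q one_lt_two (hp q)))
  have h3 : 3 * (Fintype.card (Module.Dual F3 (B.W 0)) * Fintype.card (Module.Dual F3 (B.W 1))) ≤
      L ^ (B.k0 + 1) :=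
    calc _ ≤ 3 * (K3 * 3 ^ B.k0 * (K3 * 3 ^ B.k0)) :=
          Nat.mul_le_mul_left _ (Nat.mul_le_mul (card_dual h 0) (card_dual h 1))
      _ = (3 * 3) ^ B.k0 * (3 * (K3 * K3)) := by rw [mul_pow]; ring
      _ ≤ _ := Nat.mul_le_mul (Nat.pow_le_pow_left (by omega) _) l2
  refine (card_le_card h1).trans ?_
  rw [card_product, Fintype.card_piFinset]
  simp only [Fintype.card_piFinset, prod_const, card_univ, Fintype.card_prod,
    Fintype.card_fun, Fintype.card_fin, ZMod.card]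
  calc _ ≤ (L ^ B.k0) ^ B.r * ((L ^ (B.k0 + 1)) ^ B.r * (L ^ B.r) ^ B.r) :=
        Nat.mul_le_mul (Nat.pow_le_pow_left h2 _) (Nat.mul_le_mul (Nat.pow_le_pow_left h3 _)
          (Nat.pow_le_pow_left (Nat.pow_le_pow_left (by omega) _) _))
    _ ≤ _ := by
      rw [← pow_mul, ← pow_mul, ← pow_mul, ← pow_add, ← pow_add]
      exact Nat.pow_le_pow_right (by omega) (by nlinarith)

theorem card_lv : ∃ E : ℕ, ∀ B : Bx, B.Hyp 0 → ((B.pts.image B.lv).card : ℝ) ≤ B.Z ^ E := by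
  obtain ⟨K, hK⟩ := fibB_lv
  obtain ⟨E, hE⟩ := pow_le_Z K
  exact ⟨E, fun B h => le_trans (by exact_mod_cast hK B h.wf) (hE B h.pos h.le1)⟩

theorem fibB_left (h : B.Wf) (hx : x ∈ B.pts) {ι : Type} {v : ι → B.Pat} (hv : ∀ i, v i ∈ B.V x)
    (hb : b ∈ B.V x) (s : ι → F3) (T : Finset ι) :
    B.CT x (∑ i ∈ T, s i • v i) b = ∑ i ∈ T, s i * B.CT x (v i) b := by
  induction T using Finset.induction_on with
  | empty => simpa using ct_smul_left h hx hb hb 0
  | insert i T hi ih =>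
    rw [sum_insert hi, sum_insert hi, ct_add_left h hx (smul_mem_V (hv i) _)
      (sum_mem fun j _ => smul_mem_V (hv j) _) hb, ct_smul_left h hx (hv i) hb, ih]

theorem fibB_right (h : B.Wf) (hx : x ∈ B.pts) {ι : Type} {v : ι → B.Pat} (hv : ∀ i, v i ∈ B.V x)
    (ha : a ∈ B.V x) (s : ι → F3) (T : Finset ι) :
    B.CT x a (∑ i ∈ T, s i • v i) = ∑ i ∈ T, s i * B.CT x a (v i) := by
  induction T using Finset.induction_on with
  | empty => simpa using ct_smul_right h hx ha ha 0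
  | insert i T hi ih =>
    rw [sum_insert hi, sum_insert hi, ct_add_right h hx ha (smul_mem_V (hv i) _)
      (sum_mem fun j _ => smul_mem_V (hv j) _), ct_smul_right h hx ha (hv i), ih]

theorem fibB_key (h : B.Wf) : (B.pts.image B.key).card ≤
    (B.pts.image B.lv).card * (3 ^ (K3 + 1) ^ 2) ^ ((B.r + B.k0 + 1) ^ 2) := by
  choose v hv hs using B.exists_gen
  let ρ : B.Lv → B.Pt := Function.invFunOn B.lv B.pts
  have hρ : ∀ x ∈ B.pts, B.V x = B.V (ρ (B.lv x)) := fun x hx => by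
    have e : ∃ y ∈ (B.pts : Set B.Pt), B.lv y = B.lv x := ⟨x, hx, rfl⟩
    exact lv_V h hx (Function.invFunOn_mem e) (Function.invFunOn_eq e).symm
  refine (fibB_card B.pts B.key (fun x => (B.lv x,
    fun i j => B.CT x (v (ρ (B.lv x)) i) (v (ρ (B.lv x)) j))) fun x hx y hy e => ?_).trans ?_
  · obtain ⟨e1, e2⟩ := Prod.mk.inj e
    refine (key_iff h hx hy).2 ⟨e1, fun a ha b hb => ?_⟩
    have m1 : ∀ i, v (ρ (B.lv y)) i ∈ B.V x := fun i => by rw [hρ x hx, e1]; exact hv _ i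
    have m2 : ∀ i, v (ρ (B.lv y)) i ∈ B.V y := fun i => by rw [hρ y hy]; exact hv _ i
    have hb' : b ∈ B.V x := by rwa [lv_V h hx hy e1]
    obtain ⟨s, rfl⟩ := hs (ρ (B.lv y)) a (hρ y hy ▸ ha)
    rw [fibB_left h hx m1 hb', fibB_left h hy m2 hb]
    obtain ⟨t, rfl⟩ := hs (ρ (B.lv y)) b (hρ y hy ▸ hb)
    refine sum_congr rfl fun i _ => ?_
    rw [fibB_right h hx m1 (m1 i), fibB_right h hy m2 (m2 i)]
    refine congrArg _ (sum_congr rfl fun j _ => congrArg _ ?_)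
    have e3 := congrFun (congrFun e2 i) j
    rwa [e1] at e3
  · refine (card_le_card (t := B.pts.image B.lv ×ˢ univ) fun t ht => ?_).trans ?_
    · obtain ⟨x, hx, rfl⟩ := mem_image.1 ht
      exact mem_product.2 ⟨mem_image_of_mem _ hx, mem_univ _⟩
    · rw [card_product, card_univ, Fintype.card_fun, Fintype.card_fun, ZMod.card, Fintype.card_fin,
        ← pow_mul, ← pow_mul, ← mul_pow, pow_two]
      exact Nat.mul_le_mul_left _ (Nat.pow_le_pow_right (by omega)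
        (Nat.mul_le_mul (dm_le h) (dm_le h)))

theorem card_key : ∃ E : ℕ, ∀ B : Bx, B.Hyp 0 → ((B.pts.image B.key).card : ℝ) ≤ B.Z ^ E := by
  obtain ⟨E, hE⟩ := card_lv
  obtain ⟨E', hE'⟩ := pow_le_Z (3 ^ (K3 + 1) ^ 2)
  refine ⟨E + E', fun B h => ?_⟩
  have h1 : ((B.pts.image B.key).card : ℝ) ≤
      (B.pts.image B.lv).card * ((3 ^ (K3 + 1) ^ 2 : ℕ) : ℝ) ^ ((B.r + B.k0 + 1) ^ 2) := by
    exact_mod_cast fibB_key h.wf
  rw [pow_add]
  exact h1.trans (mul_le_mul (hE B h) (hE' B h.pos h.le1) (by positivity)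
    (pow_nonneg (zero_le_two.trans h.two_le) _))

/-- The number of colours on a fibre. -/
theorem card_col (l : ℕ) : ∃ K : ℕ, ∀ B : Bx, B.Wf → ∀ F : B.Lv, ∃ Γ : Finset B.Col,
    Γ.card ≤ K ^ (B.r + B.k0 + 1) ∧
      ∀ x ∈ B.pts, B.lv x = F → ∀ c, Pre (B.nn x) l c → B.col x c ∈ Γ := by
  refine ⟨3 ^ l + K3 ^ l, fun B h F => ⟨(Fintype.piFinset fun _ => (finite_tors l).toFinset) ×ˢ
    (Fintype.piFinset fun _ => (finite_tors l).toFinset) ×ˢ
      (finite_Z3l (B.nn (Function.invFunOn B.lv B.pts F)) 0 l).toFinset, ?_,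
    fun x hx e c hc => ?_⟩⟩
  · simp only [card_product, Fintype.card_piFinset, prod_const, card_univ, Fintype.card_fin,
      Fintype.card_coe, ← Set.ncard_eq_toFinset_card, card_tors]
    calc _ ≤ (3 ^ l + K3 ^ l) ^ B.k0 * ((3 ^ l + K3 ^ l) ^ B.r * (3 ^ l + K3 ^ l)) :=
          Nat.mul_le_mul (Nat.pow_le_pow_left (Nat.le_add_right _ _) _) (Nat.mul_le_mul
            (Nat.pow_le_pow_left (Nat.le_add_right _ _) _)
            ((card_Z3l _ 0 l).trans (Nat.le_add_left _ _)))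
      _ = _ := by ring
  · have e1 : ∃ y ∈ (B.pts : Set B.Pt), B.lv y = F := ⟨x, hx, e⟩
    refine mem_product.2 ⟨Fintype.mem_piFinset.2 fun _ => (Set.Finite.mem_toFinset _).2 (hc.kil _),
      mem_product.2 ⟨Fintype.mem_piFinset.2 fun _ => (Set.Finite.mem_toFinset _).2 (hc.kil _),
        (Set.Finite.mem_toFinset _).2 (Z3l_congr (n := B.nn x) (fun g hg => ?_) 0 l
          (rsM_mem_l hc.coc hc.kil))⟩⟩
    obtain ⟨q, q1, q2, q3⟩ := hg
    exact lv_kk h hx (Function.invFunOn_mem e1) (e.trans (Function.invFunOn_eq e1).symm) q1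
      (q2.mul_right _) (q2.mul_right _) q3

end Bx

end Pool.Agent.Lib.MP_696deb_nt.CU.CV
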