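import Pool.Agent.Lib.MP_696deb_nt.CU.Four

/-! A first moment for systems of linear conditions in two kinds of symbols of pairs. -/

set_option autoImplicit false

open Finset Function
open scoped BigOperators Classical

namespace Pool.Agent.Lib.MP_696deb_nt.CU.CV

variable {ι α : Type} [Fintype ι] [DecidableEq ι] {e : AddChar (ZMod 3) ℂ}

/-- A nonzero vector of exponents rarely satisfies the conditions at the indices in `J`. -/
theorem gen_four (he : e.IsPrimitive) {X : ι → Finset α} (hX : ∀ i, (X i).Nonempty) {J : Finset ι}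
    {s u : α → α → ZMod 3} {η : ℝ} (hη : 0 ≤ η) {v : ι → ZMod 3} (hv : v ≠ 0) {o : ι}
    (h0 : v o = 0) (h0' : o ∉ J)
    (hs : ∀ j ∈ J, v j ≠ 0 → ∀ c : ZMod 3, c ≠ 0 → Bil e (X o) (X j) (fun p q => c * s p q) η)
    (hu : ∀ i, v i ≠ 0 → ∀ j ∈ J, i ≠ j → ∀ c : ZMod 3, c ≠ 0 →
      Bil e (X i) (X j) (fun p q => c * u p q) η) (h : ι → α → ZMod 3) :
    (((Fintype.piFinset X).filter fun x => ∀ j ∈ J,
        ∑ i, v i * u (x i) (x j) - v j * ∑ i, s (x i) (x j) + h j (x j) = 0).card : ℝ) ≤
      (1 / 3 ^ J.card + η) * (Fintype.piFinset X).card := by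
  have h1 := four_count he (Fintype.piFinset X)
    (fun x j => if j ∈ J then ∑ i, v i * u (x i) (x j) - v j * ∑ i, s (x i) (x j) + h j (x j)
      else 0) (Fintype.piFinset fun j => if j ∈ J then {0} else univ) hη fun κ hκ => by
      obtain ⟨j0, hj0⟩ := not_forall.1 (mt Fintype.mem_piFinset.2 hκ)
      obtain ⟨k, hk⟩ : ∃ k : ι → ZMod 3, ∀ j, k j = if j ∈ J then κ j else 0 := ⟨_, fun _ => rfl⟩
      have kJ : ∀ j, k j ≠ 0 → j ∈ J := fun j a => by_contra fun b => a (by rw [hk, if_neg b])
      have k0 : k j0 ≠ 0 := by by_cases a : j0 ∈ J <;> simp_all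
      obtain ⟨i, j, hne, hb⟩ : ∃ i j, i ≠ j ∧ Bil e (X i) (X j) (fun p q =>
          k j * (v i * u p q - v j * s p q) + k i * (v j * u q p - v i * s q p)) η := by
        by_cases c : ∃ j, k j ≠ 0 ∧ v j ≠ 0
        · obtain ⟨j, a, b⟩ := c
          refine ⟨o, j, fun t => b (t ▸ h0), (hs j (kJ j a) b _
            (neg_ne_zero.2 (mul_ne_zero a b))).congr fun p _ q _ => ?_⟩
          rw [h0, hk o, if_neg h0']
          ring
        · push Not at c
          obtain ⟨i, hi⟩ := ne_iff.1 hv
          have a : k i = 0 := by_contra fun t => hi (c i t)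
          have b : i ≠ j0 := fun t => k0 (t ▸ a)
          refine ⟨i, j0, b, (hu i hi j0 (kJ _ k0) b _ (mul_ne_zero k0 hi)).congr
            fun p _ q _ => ?_⟩
          rw [a, c j0 k0]
          ring
      refine le_of_eq_of_le (congrArg _ (expect_congr rfl fun x _ => congrArg _ ?_))
        (pair_phase X hX hne (fun a b p q => k b * (v a * u p q - v b * s p q) +
          if a = b then k b * h b q else 0) (hb.congr fun p _ q _ => ?_))
      · rw [sum_comm]
        refine sum_congr rfl fun b _ => ?_
        rw [sum_add_distrib, sum_ite_eq', if_pos (mem_univ _), ← mul_sum, sum_sub_distrib,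
          ← mul_sum, ← mul_add, hk]
        split_ifs <;> simp
      · simp only [if_neg hne, if_neg hne.symm, add_zero]
  refine le_of_eq_of_le (congrArg _ (congrArg _ (filter_congr fun x _ => ?_))) (h1.trans_eq ?_)
  · simp
  · rw [Fintype.card_piFinset, ← card_add_card_compl J, pow_add]
    simp only [apply_ite card, card_singleton, card_univ, ZMod.card]
    rw [prod_ite, prod_const_one, one_mul, prod_const]
    have k : (univ.filter fun j => ¬ j ∈ J) = Jᶜ := by
      ext j
      simp
    rw [k]
    push_cast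
    field_simp

end Pool.Agent.Lib.MP_696deb_nt.CU.CV
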