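import Pool.Agent.Lib.MP_696deb_nt.CV.SCb
import Pool.Agent.Lib.MP_696deb_nt.CU.SD

/-! The counting inequalities at one point. -/

set_option autoImplicit false
set_option linter.unusedSectionVars false

open scoped Classical
open Finset

namespace Pool.Agent.Lib.MP_696deb_nt.CU.CV

variable [δ : Qd]

theorem sd_low {n e l : ℕ} {c c' : Gam → A} (h : c ∈ Zs n e l) (h' : c' ∈ Zs n e l)
    (k : th • c = th • c') : c - c' ∈ Zs n e 1 :=
  have h1 : IsZ n e l (c - c') := sub_mem h h'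
  ⟨h1.coc, fun g => by
    rw [pow_one, Pi.sub_apply, smul_sub, sub_eq_zero]
    exact congrFun k g, h1.loc, h1.unr⟩

theorem sd_three {n l : ℕ} (hn : n ≠ 0) (h0 : Tv n) {s : Finset (Gam → A)}
    (h : ∀ c ∈ s, c ∈ Zs n 0 l) (k : ∀ c ∈ s, ∀ c' ∈ s, th • c = th • c') : s.card ≤ 3 := by
  rcases s.eq_empty_or_nonempty with rfl | ⟨y, hy⟩
  · simp
  rw [← h0.card, ← Set.ncard_coe_finset]
  exact Set.ncard_le_ncard_of_injOn (· - y) (fun z hz => sd_low (h z hz) (h y hy) (k z hz y hy))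
    sub_left_injective.injOn (finite_Zs hn 0 1)

namespace Bx

variable {B : Bx} {x : B.Pt} {a b : B.Pat} {c : Gam → A} {l m : ℕ}

/-- Selmer cocycles give lifts on which the pairing vanishes. -/
theorem om_le (h : B.Wf) (hx : x ∈ B.pts) (h0 : Tv (B.nn x)) (hl : 2 ≤ l) (a : B.Pat) :
    B.wB * (B.Om x l a).card ≤
      3 * ((B.RF x l a).filter fun c => ∀ b ∈ B.V x, B.Dx x c b = 0).card := by
  have hn := h.nn_ne hx
  obtain ⟨l, rfl⟩ : ∃ j, l = j + 1 + 1 := ⟨l - 2, by omega⟩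
  rw [← card_WW_nn h hx, Set.ncard_eq_toFinset_card _ (finite_WW hn), ← card_product]
  refine card_le_mul_card_image_of_maps_to (f := fun z => z.2 + kC z.1) (fun z hz => ?_) 3
    fun d _ => ?_
  · obtain ⟨h1, h2⟩ := mem_product.1 hz
    rw [Set.Finite.mem_toFinset] at h1
    obtain ⟨h2, h3⟩ := (mem_Om h hx).1 h2
    have h4 : RL (B.nn x) (l + 1 + 1) (z.2 + kC z.1) := rl_iff.2 (by
      rw [sd_kC]
      exact ⟨zs_th h2, (isLift_of_mem h2).add_kC h1.1 h1.2⟩)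
    refine mem_filter.2 ⟨(mem_RF h hx).2 ⟨h4, ?_⟩, fun b hb => ?_⟩
    · rw [← h3, Nat.add_sub_cancel, pow_succ, mul_smul, mul_smul, sd_kC]
    · rw [dx_eq h hx h4 hb, sd_kC, dd_th hn h2 hb.2]
  · rw [← card_image_of_injOn (f := Prod.snd) fun z hz z' hz' e => ?_]
    · refine sd_three hn h0 (l := l + 1 + 1) (fun c hc => ?_) fun c hc c' hc' => ?_
      · obtain ⟨z, hz, rfl⟩ := mem_image.1 hc
        exact ((mem_Om h hx).1 (mem_product.1 (mem_filter.1 hz).1).2).1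
      · obtain ⟨z, hz, rfl⟩ := mem_image.1 hc
        obtain ⟨z', hz', rfl⟩ := mem_image.1 hc'
        rw [← sd_kC z.2 z.1, ← sd_kC z'.2 z'.1, (mem_filter.1 hz).2, (mem_filter.1 hz').2]
    · have h2 : z.2 + kC z.1 = z'.2 + kC z'.1 :=
        (mem_filter.1 hz).2.trans (mem_filter.1 hz').2.symm
      rw [e] at h2
      exact Prod.ext (kC_inj (add_left_cancel h2)) e

theorem four_RF (h : B.Wf) (hx : x ∈ B.pts) (hl : 1 ≤ l) (a : B.Pat) :
    ((((B.RF x l a).filter fun c => ∀ b ∈ B.V x, B.Dx x c b = 0).card * (B.VF x).card : ℕ) : ℂ) =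
      ∑ b ∈ B.VF x, ∑ c ∈ B.RF x l a, ee (B.Dx x c b) := by
  obtain ⟨l, rfl⟩ : ∃ j, l = j + 1 := ⟨l - 1, by omega⟩
  rw [sum_comm, Nat.cast_mul, card_filter, Nat.cast_sum, sum_mul]
  refine sum_congr rfl fun c hc => ?_
  have h1 := ((mem_RF h hx).1 hc).1
  obtain ⟨φ, hφ⟩ : ∃ φ : B.V x →+ F3, ∀ b, φ b = B.Dx x c b :=
    ⟨AddMonoidHom.mk' (fun b => B.Dx x c b) fun b b' => by
      rw [dx_eq h hx h1 (b + b').2, dx_eq h hx h1 b.2, dx_eq h hx h1 b'.2, AddSubgroup.coe_add,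
        map_add, dd_add_right (h.nn_ne hx) (rl_iff.1 h1).1 b.2.2 b'.2.2],
      fun _ => rfl⟩
  have h2 : φ = 0 ↔ ∀ b ∈ B.V x, B.Dx x c b = 0 :=
    ⟨fun e b hb => (hφ ⟨b, hb⟩).symm.trans (by rw [e, AddMonoidHom.zero_apply]),
      fun e => AddMonoidHom.ext fun b => (hφ b).trans (e b b.2)⟩
  have : Fintype (B.V x) := .ofFinite _
  have h3 := four_hom ee_prim φ
  simp only [hφ] at h3
  rw [sum_subtype (B.VF x) (p := (· ∈ B.V x)) fun _ => mem_VF, h3,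
    Fintype.card_of_subtype (B.VF x) fun _ => mem_VF]
  by_cases k : φ = 0
  · rw [if_pos k, if_pos (h2.1 k), Nat.cast_one, one_mul]
  · rw [if_neg k, if_neg fun e => k (h2.2 e), Nat.cast_zero, zero_mul]

/-- Translation kills the terms outside of the radical. -/
theorem sum_RF_zero (h : B.Wf) (hx : x ∈ B.pts) (hl : 3 ≤ l) (a : B.Pat) (hb : b ∈ B.V x)
    (k : b ∉ B.Rad x) : ∑ c ∈ B.RF x l a, ee (B.Dx x c b) = 0 := by
  obtain ⟨l, rfl⟩ : ∃ j, l = j + 2 + 1 := ⟨l - 3, by omega⟩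
  obtain ⟨v, hv, h1⟩ : ∃ v ∈ B.V x, B.CT x v b ≠ 0 := by
    by_contra! e
    exact k ⟨hb, fun v hv => by rw [ct_alt h hx hb hv, e v hv, neg_zero]⟩
  obtain ⟨w, hw⟩ := card_pos.1 ((wB_pos h).trans_eq (card_RF_two h hx hv).symm)
  have h2 := ((mem_RF h hx).1 hw).1
  have h3 : RL (B.nn x) (l + 2 + 1) w := h2.mono (by omega)
  have h4 : (B.RF x (l + 2 + 1) a).image (· + w) = B.RF x (l + 2 + 1) a := by
    refine eq_of_subset_of_card_le (fun c hc => ?_)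
      (card_image_of_injective _ (add_left_injective w)).ge
    obtain ⟨d, hd, rfl⟩ := mem_image.1 hc
    obtain ⟨h5, h6⟩ := (mem_RF h hx).1 hd
    refine (mem_RF h hx).2 ⟨h5.add h3, ?_⟩
    rw [smul_add, h6, Nat.add_sub_cancel, pow_add, mul_smul,
      show th ^ 2 • w = 0 from funext h2.kil, smul_zero, add_zero]
  have h5 : ∑ c ∈ B.RF x (l + 2 + 1) a, ee (B.Dx x c b) =
      (∑ c ∈ B.RF x (l + 2 + 1) a, ee (B.Dx x c b)) * ee (B.CT x v b) := by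
    rw [sum_mul]
    refine (congrArg (∑ c ∈ ·, ee (B.Dx x c b)) h4.symm).trans ?_
    rw [sum_image (add_left_injective w).injOn]
    refine sum_congr rfl fun c hc => ?_
    have h6 := ((mem_RF h hx).1 hc).1
    rw [← AddChar.map_add_eq_mul, ← dx_two h hx hw hb, dx_eq h hx (h6.add h3) hb, dx_eq h hx h6 hb,
      dx_eq h hx h3 hb, smul_add, dd_add_left (h.nn_ne hx) (rl_iff.1 h6).1 (rl_iff.1 h3).1 hb.2]
  by_contra e
  exact h1 ((ee_prim.zmod_char_eq_one_iff 3 _).1 (mul_left_cancel₀ e (h5.symm.trans (mul_one _).symm)))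

theorem sd_om (h : B.Wf) (hx : x ∈ B.pts) (hl : 1 ≤ l) (hc : c ∈ B.RF x (l + 2) a) :
    th • th • c ∈ B.Om x l a := by
  obtain ⟨l, rfl⟩ : ∃ j, l = j + 1 := ⟨l - 1, by omega⟩
  obtain ⟨h1, h2⟩ := (mem_RF h hx).1 hc
  refine (mem_Om h hx).2 ⟨?_, ?_⟩
  · rw [← show _ = Zs (B.nn x) 0 (l + 1) from (zs_mod _ 2 _).symm]
    exact zs_th (rl_iff.1 h1).1
  · rw [← h2, Nat.add_sub_cancel, ← mul_smul, ← mul_smul, ← pow_succ, ← pow_succ]
    rfl

theorem card_RF (h : B.Wf) (hx : x ∈ B.pts) (hl : 1 ≤ l) (a : B.Pat) :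
    (B.RF x (l + 2) a).card ≤ B.wB * (B.VF x).card * (B.Om x l a).card := by
  have hn := h.nn_ne hx
  have h1 : ∀ y ∈ (B.RF x (l + 2) a).image (th • ·), y ∈ Zs (B.nn x) 1 (l + 1) ∧
      th • y ∈ B.Om x l a := fun y hy => by
    obtain ⟨c, hc, rfl⟩ := mem_image.1 hy
    exact ⟨(rl_iff.1 ((mem_RF h hx).1 hc).1).1, sd_om h hx hl hc⟩
  rw [mul_assoc]
  refine (card_le_mul_card_image (f := (th • ·)) _ B.wB fun y hy => ?_).trans
    (Nat.mul_le_mul_left _ (card_le_mul_card_image_of_maps_to (f := (th • ·))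
      (fun y hy => (h1 y hy).2) _ fun d _ => ?_))
  · rw [← card_WW_nn h hx, ← card_lifts hn (h1 y hy).1, ← Set.ncard_coe_finset]
    refine Set.ncard_le_ncard (fun c hc => ?_) ((finite_Pre hn (l + 1 + 1)).subset
      fun c hc => hc.1.toPre)
    obtain ⟨h2, h3⟩ := mem_filter.1 hc
    exact ⟨((mem_RF h hx).1 h2).1, h3⟩
  · refine le_trans ?_ (card_Z1 h hx)
    rcases (((B.RF x (l + 2) a).image (th • ·)).filter (th • · = d)).eq_empty_or_nonempty with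
      e | ⟨y, hy⟩
    · rw [e, card_empty]
      exact zero_le
    rw [← Set.ncard_coe_finset]
    refine Set.ncard_le_ncard_of_injOn (· - y) (fun z hz => ?_) sub_left_injective.injOn
      (finite_Zs hn 1 1)
    obtain ⟨h2, h3⟩ := mem_filter.1 hy
    obtain ⟨h4, h5⟩ := mem_filter.1 hz
    exact sd_low (h1 z h4).1 (h1 y h2).1 (h5.trans h3.symm)

theorem rad_of_om (h : B.Wf) (hx : x ∈ B.pts) (hm : 1 ≤ m) (ha : a ∈ B.Sup 1)
    (hc : c ∈ B.Om x (2 * m) a) : a ∈ B.Rad x := by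
  obtain ⟨m, rfl⟩ : ∃ j, m = j + 1 := ⟨m - 1, by omega⟩
  obtain ⟨h1, h2⟩ := (mem_Om h hx).1 hc
  have h3 : th ^ (2 * m) • c ∈ Zs (B.nn x) 0 2 := by
    have h4 := zs_th_pow (l := 2) (2 * m) (by rwa [show 2 + 2 * m = 2 * (m + 1) by ring])
    rwa [← zs_mod, zero_add, Nat.mul_mod_right] at h4
  have h4 : kC (B.kA x a) = th • th ^ (2 * m) • c := by
    rw [← h2, ← mul_smul, ← pow_succ']
    rfl
  refine ⟨mem_V.2 ⟨ha, h4 ▸ zs_th h3⟩, fun b hb => ?_⟩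
  rw [CT, h4, dd_th (h.nn_ne hx) h3 hb.2]

theorem rad_of_RF (h : B.Wf) (hx : x ∈ B.pts) (hm : 1 ≤ m) (ha : a ∈ B.Sup 1)
    (hc : c ∈ B.RF x (2 * m + 2) a) : a ∈ B.Rad x := rad_of_om h hx hm ha (sd_om h hx (by omega) hc)

theorem om_two (h : B.Wf) (hx : x ∈ B.pts) (h0 : Tv (B.nn x)) (ha : a ∈ B.Sup 1) :
    (B.Om x 2 a).card ≤ if a ∈ B.Rad x then 3 else 0 := by
  split_ifs with k
  · refine sd_three (h.nn_ne hx) h0 (fun c hc => ((mem_Om h hx).1 hc).1) fun c hc c' hc' => ?_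
    simpa using ((mem_Om h hx).1 hc).2.trans ((mem_Om h hx).1 hc').2.symm
  · exact (card_eq_zero.2 (eq_empty_of_forall_notMem fun c hc =>
      k (rad_of_om (m := 1) h hx le_rfl ha hc))).le

end Bx

end Pool.Agent.Lib.MP_696deb_nt.CU.CV
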