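import Pool.Agent.Lib.MP_696deb_nt.CV.GenA
import Pool.Agent.Lib.MP_696deb_nt.CV.Tri

/-! Almost all points are good. -/

set_option autoImplicit false
set_option linter.unusedSectionVars false

open scoped Classical
open Finset

namespace Pool.Agent.Lib.MP_696deb_nt.CU.CV

namespace Bx

variable [δ : Qd]

theorem few_bad (ana : AnaStmt) (lin : LinStmt) (lk : LinK) {ε : ℝ} (hε : 0 < ε) :
    ∃ c : ℕ, ∀ B : Bx, B.Hyp c →
      ((B.pts.filter fun x => B.B1p x ∧ ¬ B.Good x).card : ℝ) ≤ ε * B.pts.card := by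
  have h3 : 0 < ε / 3 := by positivity
  obtain ⟨E, hE⟩ := pow_unbounded_of_one_lt (1 / (ε / 3)) (one_lt_two (α := ℝ))
  obtain ⟨c1, h1⟩ := gen_G1 lin lk h3
  obtain ⟨c2, h2⟩ := rad_sum ana E
  obtain ⟨c3, h4⟩ := unbal_sum lin lk h3
  refine ⟨c1 + c2 + c3, fun B h => ?_⟩
  have k1 := h1 B (h.mono (by omega))
  have k2 := h2 B (h.mono (by omega)) fun a => ¬ B.Bal a.2
  have k3 := h4 B (h.mono (by omega))
  have k4 : (B.pts.card : ℝ) / B.Z ^ E ≤ ε / 3 * B.pts.card := by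
    rw [div_eq_mul_one_div, mul_comm]
    refine mul_le_mul_of_nonneg_right ?_ (Nat.cast_nonneg _)
    have z : (0 : ℝ) < B.Z ^ E := pow_pos (two_pos.trans_le h.two_le) E
    exact (one_div_le z h3).2 (hE.le.trans (pow_le_pow_left₀ zero_le_two h.two_le E))
  set P := (B.pts.filter fun x => B.G0 x).filter fun x =>
    ((B.VF x).filter fun a => a ∈ B.Rad x ∧ a ∉ B.L1 ∧ ¬ B.Bal a.2).Nonempty with hP
  have k5 : (P.card : ℝ) ≤ ∑ x ∈ B.pts with B.G0 x,
      (((B.VF x).filter fun a => a ∈ B.Rad x ∧ a ∉ B.L1 ∧ ¬ B.Bal a.2).card : ℝ) := by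
    rw [card_eq_sum_ones, Nat.cast_sum]
    exact (sum_le_sum fun x hx => Nat.cast_le.2 (card_pos.2 (mem_filter.1 hx).2)).trans
      (sum_le_sum_of_subset_of_nonneg (filter_subset _ _) fun _ _ _ => Nat.cast_nonneg _)
  have k6 : (B.pts.filter fun x => B.B1p x ∧ ¬ B.Good x) ⊆
      (B.pts.filter fun x => B.B1p x ∧ ¬ B.G1 x) ∪ P := fun x hx => by
    obtain ⟨x1, x2, x4⟩ := mem_filter.1 hx
    have g : B.G0 x := B1p.ge h.wf x1 x2 1
    by_cases e : B.G1 x
    · refine mem_union_right _ (mem_filter.2 ⟨mem_filter.2 ⟨x1, g⟩, ?_⟩)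
      by_contra hn
      refine x4 ⟨g, e, fun a ha k => by_contra fun b => hn ⟨a, ?_⟩⟩
      exact mem_filter.2 ⟨mem_VF.2 ha.1, ha, k, b⟩
    · exact mem_union_left _ (mem_filter.2 ⟨x1, x2, e⟩)
  have k7 := (Nat.cast_le (α := ℝ)).2 ((card_le_card k6).trans (card_union_le _ _))
  push_cast at k7
  have k8 : (P.card : ℝ) ≤ ε / 3 * B.pts.card + ε / 3 * B.pts.card :=
    (k5.trans (le_trans (le_of_eq (by congr!)) k2)).trans
      (add_le_add (le_trans (le_of_eq (by congr!)) k3) k4)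
  linarith

end Bx

end Pool.Agent.Lib.MP_696deb_nt.CU.CV
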