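import Pool.Agent.Lib.MP_696deb_nt.CV.D0
import Pool.Agent.Lib.MP_696deb_nt.CU.Gov0

/-! Governing families and the statements of the two bilinear bounds. -/

set_option autoImplicit false
set_option linter.unusedSectionVars false

open scoped Classical
open Finset

namespace Pool.Agent.Lib.MP_696deb_nt.CU.CV

variable [δ : Qd]

/-- Governing families for the directions `d` and the bottom cocycle `k`. -/
structure Gov {ι : Type} (U : Finset ι) (d : ι → Gam → F3) (k : Gam → F3)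
    (Φ : Finset ι → Gam → F3) : Prop where
  zero : Φ ∅ = k
  sm : ∀ T ⊆ U, Sm ⊤ (Φ T)
  mul : ∀ T ⊆ U, ∀ g h, Φ T (g * h) = Φ T g +
    ∑ R ∈ T.powerset, (∏ i ∈ R, d i g) * mu ((T \ R).card + 1) g * Φ (T \ R) h
  three : ∀ T ⊆ U, T ≠ ∅ → ∀ g ∈ GM, Φ T g = 0
  unr : ∀ T ⊆ U, T ≠ ∅ → ∀ q : ℕ, q.Prime → ¬ q ∣ MM → Φ T (sq q) = 0

/-- The top function of the governing family, if there is one. -/
noncomputable def gov {ι : Type} (U : Finset ι) (d : ι → Gam → F3) (k : Gam → F3) : Gam → F3 :=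
  if h : ∃ Φ, Gov U d k Φ then h.choose U else 0

/-- The bilinear bound for governing symbols. -/
def AnaStmt : Prop := ∀ n E : ℕ, Odd n → ∃ c : ℕ, ∀ (ι : Type) (U : Finset ι) (Z : ℝ)
  (tu tp tr : ℕ) (P R : Finset ℕ) (u u' : ι → ℕ) (p1 : ℕ) (a t : F3) (α β : ℕ → ℂ),
  U.card = n → 2 ≤ Z → Rng Z c tu tp P → Rng Z c tu tr R → Disjoint P R →
  (∀ i ∈ U, (u i).Prime ∧ (u' i).Prime ∧ u i ≠ 3 ∧ u' i ≠ 3 ∧ u i ≤ 2 * tu ∧ u' i ≤ 2 * tu ∧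
    ¬ u i ∣ MM ∧ ¬ u' i ∣ MM) →
  (∀ i ∈ U, ∀ j ∈ U, u i ≠ u' j ∧ (u i = u j → i = j) ∧ (u' i = u' j → i = j)) →
  (∀ p ∈ P, mu 0 (fq p) = 1) → (∀ r ∈ R, mu 0 (fq r) = 1) →
  a ≠ 0 → t ≠ 0 → (∀ p, ‖α p‖ ≤ 1) → (∀ r, ‖β r‖ ≤ 1) →
  (∀ p ∈ P, α p ≠ 0 →
    (∃ Φ, Gov U (fun i => kk (u' i) - kk (u i)) (a • (kap 1 p - kap 1 p1)) Φ) ∧
    ∀ i ∈ U, kk (u' i) (fq p) = kk (u i) (fq p)) →
  (∀ r ∈ R, β r ≠ 0 → ∀ i ∈ U, kk (u' i) (fq r) = kk (u i) (fq r)) →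
  ‖∑ p ∈ P, ∑ r ∈ R, α p * β r *
      ee (t * gov U (fun i => kk (u' i) - kk (u i)) (a • (kap 1 p - kap 1 p1)) (fq r))‖ ≤
    P.card * R.card / Z ^ E

/-- The bilinear bound for the ramified cocycles of level one. -/
def LinK : Prop := ∀ e E : ℕ, ∃ c : ℕ, ∀ (Z : ℝ) (tp tr : ℕ) (P R : Finset ℕ) (t : F3)
  (α β : ℕ → ℂ), 2 ≤ Z → Rng Z c 1 tp P → Rng Z c 1 tr R → Disjoint P R →
  (∀ p ∈ P, mu (e + 1) (fq p) = 1) → (∀ r ∈ R, mu e (fq r) = 1) →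
  t ≠ 0 → (∀ p, ‖α p‖ ≤ 1) → (∀ r, ‖β r‖ ≤ 1) →
  ‖∑ p ∈ P, ∑ r ∈ R, α p * β r * ee (t * kap e p (fq r))‖ ≤ P.card * R.card / Z ^ E

end Pool.Agent.Lib.MP_696deb_nt.CU.CV
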