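import Pool.Agent.Lib.MP_696deb_nt.CU.KtC2

/-! Numbers of a field generated by cube roots and one square root: global properties. -/

set_option autoImplicit false

open Finset
open scoped Classical

namespace Pool.Agent.Lib.MP_696deb_nt.CU.Kt

open B2 hiding zeta cy cyc Gen Kum C2 Spl cup

/-- Indices of the conjugates, and of the coordinates. -/
abbrev J (U : Type) := (U → ZMod 3) × ℤˣ

/-- A square root `r` of `D` with its character. -/
structure Qd (D : ℤ) (r : Qbar) (dg : Gam → ℤˣ) : Prop where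
  ne : D ≠ 0
  sq : r ^ 2 = D
  act : ∀ g : Gam, g r = (dg g : ℤ) * r

variable {U : Type} [Fintype U]

/-- The conjugates of the number with coordinates `n`. -/
noncomputable def al2 (β : U → Qbar) (r : Qbar) (n : J U → ℤ) (i : J U) : Qbar :=
  al β (fun T => n (T, 1)) i.1 + (i.2 : ℤ) * r * al β (fun T => n (T, -1)) i.1

/-- The action on the indices. -/
noncomputable def ac2 (d : U → Gam → ZMod 3) (dg : Gam → ℤˣ) (g : Gam) (i : J U) : J U :=
  (ac d g i.1, dg g * i.2)

/-- The cochain of the cube roots of the conjugates. -/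
noncomputable def kap2 (β : U → Qbar) (r : Qbar) (d : U → Gam → ZMod 3) (dg : Gam → ℤˣ)
    (n : J U → ℤ) (g : Gam) (i : J U) : ZMod 3 :=
  ex (g (cr (al2 β r n i))) (cr (al2 β r n (ac2 d dg g i)))

/-- The weight of an index. -/
def wt (T : Finset U) (i : J U) : ZMod 3 := (i.2 : ℤ) * ∏ j ∈ T, i.1 j

/-- The expansions of the cochain. -/
noncomputable def Ph2 (β : U → Qbar) (r : Qbar) (d : U → Gam → ZMod 3) (dg : Gam → ℤˣ)
    (n : J U → ℤ) (T : Finset U) (g : Gam) : ZMod 3 :=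
  ∑ i, wt T (ac2 d dg g i) * kap2 β r d dg n g i

/-- Governing families in the directions `d`, twisted by `dg`. -/
def Fam2 (d : U → Gam → ZMod 3) (dg : Gam → ℤˣ) (Φ : Finset U → Gam → ZMod 3) : Prop :=
  (∀ T, Sm ⊤ (Φ T)) ∧ ∀ T g h, Φ T (g * h) = Φ T g + ((dg g : ℤ) : ZMod 3) *
    ∑ R ∈ T.powerset, (∏ j ∈ R, d j g) * ch g ^ ((T \ R).card + 1) * Φ (T \ R) h

/-- The product in coordinates. -/
noncomputable def mul2 (m : U → ℕ) (D : ℤ) (n n' : J U → ℤ) (T : J U) : ℤ :=
  if T.2 = 1 then mul m (fun T => n (T, 1)) (fun T => n' (T, 1)) T.1 +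
    D * mul m (fun T => n (T, -1)) (fun T => n' (T, -1)) T.1
  else mul m (fun T => n (T, 1)) (fun T => n' (T, -1)) T.1 +
    mul m (fun T => n (T, -1)) (fun T => n' (T, 1)) T.1

/-- The kernel of the bilinear form. -/
noncomputable def th2 (β : U → Qbar) (r : Qbar) (w : Plc) (t : ZMod 3) (n : J U → ℤ) : ℂ :=
  if ∀ i, w.V (al2 β r n i) = 1 then ec (t * ∑ i, wt univ i * sym w (al2 β r n i)) else 0

variable {m : U → ℕ} {β : U → Qbar} {d : U → Gam → ZMod 3} {D : ℤ} {r : Qbar} {dg : Gam → ℤˣ}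
  {n : J U → ℤ}

theorem Qd.r_ne (k : Qd D r dg) : r ≠ 0 := fun e => k.ne (Int.cast_injective (α := Qbar) (by
  rw [← k.sq, e, zero_pow two_ne_zero, Int.cast_zero]))

theorem Qd.mul (k : Qd D r dg) (g g' : Gam) : dg (g * g') = dg g * dg g' := by
  refine Units.ext (Int.cast_injective (α := Qbar) (mul_right_cancel₀ k.r_ne ?_))
  rw [← k.act, AlgEquiv.mul_apply, k.act g', map_mul, map_intCast, k.act g]
  push_cast
  ring

theorem Qd.sm (k : Qd D r dg) : Sm ⊤ dg :=
  ((sm_apply r).comp fun x => if x = r then (1 : ℤˣ) else -1).congr fun g _ => by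
    rcases Int.units_eq_one_or (dg g) with e | e
    · rw [e, if_pos (by rw [k.act, e]; simp)]
    · rw [e, if_neg]
      rw [k.act, e]
      simpa [neg_eq_self] using k.r_ne

theorem Qd.int (k : Qd D r dg) : IsIntegral ℤ r :=
  IsIntegral.of_pow two_pos (by rw [k.sq]; exact isIntegral_algebraMap)

omit [Fintype U] in
theorem ac2_mul (h : Rad m β d) (k : Qd D r dg) (g g' : Gam) (i : J U) :
    ac2 d dg (g * g') i = ac2 d dg g (ac2 d dg g' i) := by
  simp only [ac2, ac_mul h, k.mul, mul_assoc]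

theorem ac2_bij (g : Gam) : Function.Bijective (ac2 d dg g) :=
  (ac_bij g).prodMap (Group.mulLeft_bijective (dg g))

theorem smul_al2 (h : Rad m β d) (k : Qd D r dg) (g : Gam) (i : J U) :
    g (al2 β r n i) = al2 β r n (ac2 d dg g i) := by
  simp only [al2, ac2, map_add, map_mul, map_intCast, smul_al h, k.act, Units.val_mul,
    Int.cast_mul]
  ring

theorem isIntegral_al2 (h : Rad m β d) (k : Qd D r dg) (i : J U) : IsIntegral ℤ (al2 β r n i) :=
  (isIntegral_al h _).add ((isIntegral_algebraMap.mul k.int).mul (isIntegral_al h _))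

theorem al2_sub (v v' : J U → ℤ) (i : J U) : al2 β r (v - v') i = al2 β r v i - al2 β r v' i := by
  have e : ∀ s, al β (fun T => (v - v') (T, s)) i.1 = _ := fun s =>
    ktc2_sub (fun T => v (T, s)) (fun T => v' (T, s)) i.1
  rw [al2, e, e, al2, al2]
  ring

theorem al2_ne (h : Rad m β d) (k : Qd D r dg)
    (hs : ∀ i : J U, ∃ g, ch g = 1 ∧ dg g = i.2 ∧ ∀ j, d j g = i.1 j) (hn : n ≠ 0) (i : J U) :
    al2 β r n i ≠ 0 := fun e => by
  have h1 : ∀ i', al2 β r n i' = 0 := fun i' => by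
    obtain ⟨g, a, b, c⟩ := hs (i'.1 - i.1, i'.2 * i.2⁻¹)
    have : ac2 d dg g i = i' := Prod.ext (funext fun j => by simp [ac2, ac, a, c])
      ((congrArg (· * i.2) b).trans (inv_mul_cancel_right _ _))
    rw [← this, ← smul_al2 h k, e, map_zero]
  have h2 := h1 (0, 1)
  have h3 := h1 (0, -1)
  simp only [al2, Units.val_one, Units.val_neg, Int.cast_one, Int.cast_neg] at h2 h3
  have hs' : ∀ γ : U → ZMod 3, ∃ g, ch g = 1 ∧ ∀ j, d j g = γ j := fun γ =>
    (hs (γ, 1)).imp fun _ a => ⟨a.1, a.2.2⟩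
  have a0 : (fun T => n (T, 1)) = 0 := by_contra fun x => al_ne h hs' x 0 (by
    linear_combination (1 / 2) * h2 + (1 / 2) * h3)
  have a1 : (fun T => n (T, -1)) = 0 := by_contra fun x => mul_ne_zero k.r_ne (al_ne h hs' x 0) (by
    linear_combination (1 / 2) * h2 - (1 / 2) * h3)
  refine hn (funext fun ⟨T, x⟩ => ?_)
  rcases Int.units_eq_one_or x with rfl | rfl
  exacts [congrFun a0 T, congrFun a1 T]

theorem kap2_spec (h : Rad m β d) (k : Qd D r dg) (g : Gam) (i : J U) :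
    g (cr (al2 β r n i)) = zt (kap2 β r d dg n g i) * cr (al2 β r n (ac2 d dg g i)) :=
  ex_spec (by rw [← map_pow, cr_cube, cr_cube, smul_al2 h k])

theorem kap2_mul (h : Rad m β d) (k : Qd D r dg) (h0 : ∀ i, al2 β r n i ≠ 0) (g g' : Gam)
    (i : J U) : kap2 β r d dg n (g * g') i =
      kap2 β r d dg n g (ac2 d dg g' i) + ch g * kap2 β r d dg n g' i := by
  refine ex_eq (fun e => h0 (ac2 d dg (g * g') i) ?_) ?_
  · rw [← cr_cube (al2 β r n _), e, zero_pow three_ne_zero]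
  · rw [AlgEquiv.mul_apply, kap2_spec h k g', map_mul, smul_zt, kap2_spec h k g, ac2_mul h k, zt_add]
    ring

theorem Ph2_fam (h : Rad m β d) (k : Qd D r dg) (h0 : ∀ i, al2 β r n i ≠ 0) :
    Fam2 d dg (Ph2 β r d dg n) := by
  refine ⟨fun T => ?_, fun T g g' => ?_⟩
  · have h1 : Sm ⊤ (ac d) := ch_sm.comp₂ (Sm.pi h.sm) fun c e (γ : U → ZMod 3) j => c * γ j + e j
    have h2 : Sm ⊤ (ac2 d dg) := h1.comp₂ k.sm fun a e (i : J U) => (a i.1, e * i.2)
    exact h2.comp₂ (Sm.pi fun δ => sm_apply (cr (al2 β r n δ))) fun a F =>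
      ∑ i, wt T (a i) * ex (F i) (cr (al2 β r n (a i)))
  · simp only [Ph2, kap2_mul h k h0, ac2_mul h k, mul_add, sum_add_distrib]
    congr 1
    · exact (ac2_bij g').sum_comp fun i => wt T (ac2 d dg g i) * kap2 β r d dg n g i
    · simp only [mul_sum]
      rw [sum_comm]
      refine sum_congr rfl fun i _ => ?_
      generalize ac2 d dg g' i = x
      have e : ∏ j ∈ T, ac d g x.1 j = ∏ j ∈ T, (d j g + ch g * x.1 j) :=
        prod_congr rfl fun j _ => add_comm _ _
      simp only [wt, ac2]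
      rw [e, prod_add, mul_sum, sum_mul]
      refine sum_congr rfl fun R _ => ?_
      rw [prod_mul_distrib, prod_const]
      push_cast
      ring

theorem exists_norm2 (h : Rad m β d) (k : Qd D r dg) : ∃ N : ℤ, ∏ i, al2 β r n i = N := by
  have h1 : Fx ⊤ (∏ i, al2 β r n i) := fun g _ => by
    rw [map_prod]
    simp only [smul_al2 h k]
    exact (ac2_bij g).prod_comp (al2 β r n)
  obtain ⟨x, hr⟩ := fx_top h1
  have h2 : IsIntegral ℤ (algebraMap ℚ Qbar x) := by
    rw [eq_ratCast, ← hr]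
    exact IsIntegral.prod _ fun i _ => isIntegral_al2 h k i
  obtain ⟨N, hN⟩ := IsIntegrallyClosed.isIntegral_iff.1
    ((isIntegral_algebraMap_iff (algebraMap ℚ Qbar).injective).1 h2)
  exact ⟨N, by rw [hr, ← hN]; simp⟩

theorem card_J : Fintype.card (J U) = 2 * 3 ^ Fintype.card U := by
  rw [Fintype.card_prod, kta2_card, Fintype.card_units_int, mul_comm]

theorem kv_conj (h : Rad m β d) {v : (U → ZMod 3) → ℤ} {B : ℕ} (hB : ∀ T, |v T| ≤ B)
    (γ : U → ZMod 3) : ‖jC (al β v γ)‖ ≤ (3 ^ Fintype.card U * ∏ i, (m i : ℝ)) * B := by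
  rw [al, map_sum]
  refine (norm_sum_le _ _).trans ((sum_le_card_nsmul _ _ ((∏ i, (m i : ℝ)) * B)
    fun T _ => ?_).trans_eq ?_)
  · rw [map_mul, map_mul, norm_mul, norm_mul, kta2_zt, one_mul, map_intCast,
      Complex.norm_intCast, mul_comm, bT, map_prod, norm_prod]
    refine mul_le_mul (prod_le_prod (fun i _ => norm_nonneg _) fun i _ => ?_) ?_ (abs_nonneg _)
      (by positivity)
    · rw [map_pow, norm_pow]
      exact kta2_root h i _
    · exact_mod_cast hB T
  · rw [card_univ, kta2_card, nsmul_eq_mul]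
    push_cast
    ring

theorem norm2_le (h : Rad m β d) (k : Qd D r dg) {N : ℤ} (hN : ∏ i, al2 β r n i = N) {B : ℕ}
    (hB : ∀ T, |n T| ≤ B) : |N| ≤ ((2 * 3 ^ Fintype.card U * (D.natAbs * ∏ j, m j)) ^
      (2 * 3 ^ Fintype.card U) * B ^ (2 * 3 ^ Fintype.card U) : ℕ) := by
  have a1 : (1 : ℝ) ≤ D.natAbs := by exact_mod_cast Int.natAbs_pos.2 k.ne
  have a2 : ‖jC r‖ ≤ D.natAbs := by
    refine (pow_le_pow_iff_left₀ (norm_nonneg _) (by positivity) two_ne_zero).1 ?_
    rw [← norm_pow, ← map_pow, k.sq, map_intCast, Complex.norm_intCast, ← Int.cast_abs,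
      ← Int.natCast_natAbs, Int.cast_natCast]
    exact le_self_pow₀ a1 two_ne_zero
  have h1 : ∀ i, ‖jC (al2 β r n i)‖ ≤
      (2 * 3 ^ Fintype.card U * (D.natAbs * ∏ i, (m i : ℝ))) * B := fun i => by
    have b1 := kv_conj h (v := fun T => n (T, 1)) (fun T => hB _) i.1
    have b2 := kv_conj h (v := fun T => n (T, -1)) (fun T => hB _) i.1
    have b3 : ‖jC ((i.2 : ℤ) : Qbar)‖ = 1 := by
      rcases Int.units_eq_one_or i.2 with e | e <;> simp [e]
    have b4 : (0 : ℝ) ≤ (3 ^ Fintype.card U * ∏ i, (m i : ℝ)) * B := by positivity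
    rw [al2, map_add]
    refine (norm_add_le _ _).trans ?_
    rw [map_mul, map_mul, norm_mul, norm_mul, b3, one_mul]
    have b5 := mul_le_mul a2 b2 (norm_nonneg _) (by positivity)
    nlinarith
  have h2 : (|N| : ℝ) ≤ ((2 * 3 ^ Fintype.card U * (D.natAbs * ∏ i, (m i : ℝ))) * B) ^
      (2 * 3 ^ Fintype.card U) := by
    rw [← Complex.norm_intCast, ← map_intCast jC, ← hN, map_prod, norm_prod]
    refine (prod_le_prod (fun γ _ => norm_nonneg _) fun γ _ => h1 γ).trans_eq ?_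
    rw [prod_const, card_univ, card_J]
  rw [mul_pow] at h2
  generalize D.natAbs = E at h2
  exact_mod_cast h2

theorem kv_add (v v' : (U → ZMod 3) → ℤ) (c : ℤ) (γ : U → ZMod 3) :
    al β (fun T => v T + c * v' T) γ = al β v γ + c * al β v' γ := by
  simp only [al, Int.cast_add, Int.cast_mul, add_mul, sum_add_distrib, mul_sum, mul_assoc]

theorem al2_mul (h : Rad m β d) (k : Qd D r dg) (n n' : J U → ℤ) (i : J U) :
    al2 β r (mul2 m D n n') i = al2 β r n i * al2 β r n' i := by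
  have e : ((i.2 : ℤ) : Qbar) ^ 2 = 1 := by rcases Int.units_eq_one_or i.2 with e | e <;> simp [e]
  have e2 := kv_add (β := β) (mul m (fun T => n (T, 1)) fun T => n' (T, -1))
    (mul m (fun T => n (T, -1)) fun T => n' (T, 1)) 1 i.1
  simp only [one_mul, Int.cast_one] at e2
  simp only [al2, mul2, if_true, if_neg (show ¬ (-1 : ℤˣ) = 1 by decide), kv_add, e2, al_mul h,
    ← k.sq]
  linear_combination (-(r ^ 2 * al β (fun T => n (T, -1)) i.1 * al β (fun T => n' (T, -1)) i.1)) * e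

theorem mul2_le (h : Rad m β d) (k : Qd D r dg) {n n' : J U → ℤ} {B B' : ℕ}
    (hB : ∀ T, |n T| ≤ B) (hB' : ∀ T, |n' T| ≤ B') (T : J U) : |mul2 m D n n' T| ≤
      ((2 * 3 ^ Fintype.card U * (D.natAbs * ∏ j, m j)) * B * B' : ℕ) := by
  have a : ∀ s s', |mul m (fun T => n (T, s)) (fun T => n' (T, s')) T.1| ≤ _ := fun s s' =>
    mul_le h (fun _ => hB _) (fun _ => hB' _) T.1
  have a1 : 1 ≤ |D| := Int.one_le_abs k.ne
  have a2 : (0 : ℤ) ≤ ((3 ^ Fintype.card U * ∏ j, m j) * B * B' : ℕ) := Nat.cast_nonneg _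
  have e : (((2 * 3 ^ Fintype.card U * (D.natAbs * ∏ j, m j)) * B * B' : ℕ) : ℤ) =
      2 * |D| * ((3 ^ Fintype.card U * ∏ j, m j) * B * B' : ℕ) := by
    push_cast
    ring
  rw [e, mul2]
  split_ifs
  · refine (abs_add_le _ _).trans ?_
    rw [abs_mul]
    nlinarith [a 1 1, mul_le_mul_of_nonneg_left (a (-1) (-1)) (abs_nonneg D)]
  · refine (abs_add_le _ _).trans ?_
    nlinarith [a 1 (-1), a (-1) 1]

theorem exists_prod2 (h : Rad m β d) (k : Qd D r dg) {t B : ℕ} (v : Fin t → J U → ℤ)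
    (hv : ∀ i T, |v i T| ≤ B) : ∃ u : J U → ℤ,
      (∀ T, |u T| ≤ (((2 * 3 ^ Fintype.card U * (D.natAbs * ∏ j, m j)) * B) ^ t : ℕ)) ∧
        ∀ i, al2 β r u i = ∏ j, al2 β r (v j) i := by
  induction t with
  | zero =>
    obtain ⟨u, h1, h2⟩ := exists_prod h (t := 0) (B := 0) (fun i => i.elim0) fun i => i.elim0
    refine ⟨fun T => if T.2 = 1 then u T.1 else 0, fun T => ?_, fun i => ?_⟩
    · dsimp only
      split_ifs
      · simpa using h1 T.1
      · simp
    · simpa [al2, if_neg (show ¬ (-1 : ℤˣ) = 1 by decide), al] using h2 i.1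
  | succ t ih =>
    obtain ⟨u, h1, h2⟩ := ih (fun i => v i.succ) fun i => hv i.succ
    refine ⟨mul2 m D (v 0) u, fun T => ?_, fun γ => ?_⟩
    · rw [pow_succ']
      exact mul2_le h k (hv 0) h1 T
    · rw [al2_mul h k, h2, Fin.prod_univ_succ]

end Pool.Agent.Lib.MP_696deb_nt.CU.Kt
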