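import Pool.Agent.Lib.MP_696deb_nt.CV.KvA

/-! Numbers of a field generated by cube roots and one square root: local properties. -/

set_option autoImplicit false

open Finset
open scoped Classical NNReal

namespace Pool.Agent.Lib.MP_696deb_nt.CU.Kt

open B2 hiding zeta cy cyc Gen Kum C2 Spl cup

variable {U : Type} [Fintype U] {m : U → ℕ} {β : U → Qbar} {d : U → Gam → ZMod 3} {D : ℤ}
  {r : Qbar} {dg : Gam → ℤˣ} {n : J U → ℤ} {w : Plc} {σ φ : Gam}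

theorem Qd.V_eq (k : Qd D r dg) (hD : ¬ (w.p : ℤ) ∣ 2 * D) : w.V r = 1 ∧ w.V 2 = 1 := by
  refine ⟨(pow_eq_one_iff_of_nonneg zero_le two_ne_zero).1 ?_, ?_⟩
  · rw [← map_pow, k.sq]
    exact w.V_int_eq_one.2 fun e => hD (e.mul_left 2)
  · exact_mod_cast (w.V_int_eq_one (a := 2)).2 fun e => hD (e.mul_right D)

theorem Qd.ine (k : Qd D r dg) (hD : ¬ (w.p : ℤ) ∣ 2 * D) (hσ : σ ∈ Ine w) : dg σ = 1 := by
  refine (Int.units_eq_one_or (dg σ)).resolve_right fun e => ?_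
  have h := hσ.2 r (k.V_eq hD).1.le
  rw [k.act, e, show (((-1 : ℤˣ) : ℤ) : Qbar) * r - r = -(2 * r) by push_cast; ring,
    Valuation.map_neg, map_mul, (k.V_eq hD).1, (k.V_eq hD).2, one_mul] at h
  exact h.false

theorem V_al2_le (h : Rad m β d) (k : Qd D r dg) (w : Plc) (i : J U) : w.V (al2 β r n i) ≤ 1 :=
  w.V_le_one_of_isIntegral (isIntegral_al2 h k i)

theorem kvb_prod_le (h : Rad m β d) (k : Qd D r dg) (w : Plc) (s : Finset (J U)) :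
    w.V (∏ i ∈ s, al2 β r n i) ≤ 1 := by
  rw [map_prod]
  exact prod_le_one' fun i _ => V_al2_le h k w i

theorem kvb_one (h : Rad m β d) (k : Qd D r dg) (w : Plc) (i : J U) :
    w.V (∏ i, al2 β r n i) ≤ w.V (al2 β r n i) := by
  rw [← mul_prod_erase univ _ (mem_univ i), map_mul]
  exact mul_le_of_le_one_right' (kvb_prod_le h k w _)

theorem kvb_pair (h : Rad m β d) (k : Qd D r dg) (w : Plc) {i i' : J U} (hi : i' ≠ i) :
    w.V (∏ i, al2 β r n i) ≤ w.V (al2 β r n i) * w.V (al2 β r n i') := by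
  rw [← mul_prod_erase univ _ (mem_univ i), ← mul_prod_erase _ _ (mem_erase.2 ⟨hi, mem_univ i'⟩),
    map_mul, map_mul, ← mul_assoc]
  exact mul_le_of_le_one_right' (kvb_prod_le h k w _)

omit [Fintype U] in
theorem kvb_ac (h : Rad m β d) (k : Qd D r dg) (hw : w.p ≠ 3) (hD : ¬ (w.p : ℤ) ∣ 2 * D)
    (hσ : σ ∈ Ine w) (hm : ∀ j, ¬ w.p ∣ m j) (i : J U) : ac2 d dg σ i = i := by
  rw [ac2, ktb2_ac h hw hσ hm, k.ine hD hσ, one_mul]

theorem kvb_fix (h : Rad m β d) (k : Qd D r dg) (hw : w.p ≠ 3) (hD : ¬ (w.p : ℤ) ∣ 2 * D)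
    (hσ : σ ∈ Ine w) (hm : ∀ j, ¬ w.p ∣ m j) {i : J U} (hV : w.V (al2 β r n i) = 1) :
    kap2 β r d dg n σ i = 0 := by
  have h1 : w.V (cr (al2 β r n i)) = 1 := ktb_cube (by rw [cr_cube, hV])
  rw [kap2, kvb_ac h k hw hD hσ hm]
  refine ex_eq (fun e => ?_) ?_
  · rw [e, map_zero] at h1
    exact zero_ne_one h1
  · rw [zt_zero, one_mul]
    exact unit_fix hw hσ h1 (by rw [cr_cube, smul_al2 h k, kvb_ac h k hw hD hσ hm])

theorem V_al2 (h : Rad m β d) (k : Qd D r dg) {N : ℤ} (hN : ∏ i, al2 β r n i = N)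
    (hp : ¬ (w.p : ℤ) ∣ N) (i : J U) : w.V (al2 β r n i) = 1 := by
  refine (V_al2_le h k w i).antisymm ?_
  rw [← w.V_int_eq_one.2 hp, ← hN]
  exact kvb_one h k w i

theorem Ph2_ine (h : Rad m β d) (k : Qd D r dg) (hw : w.p ≠ 3) (hD : ¬ (w.p : ℤ) ∣ 2 * D)
    (hσ : σ ∈ Ine w) (hm : ∀ j, ¬ w.p ∣ m j) {N : ℤ} (hN : ∏ i, al2 β r n i = N)
    (hp : ¬ (w.p : ℤ) ∣ N) (T : Finset U) : Ph2 β r d dg n T σ = 0 :=
  sum_eq_zero fun i _ => by rw [kvb_fix h k hw hD hσ hm (V_al2 h k hN hp i), mul_zero]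

theorem kvb_gn (h : Rad m β d) (k : Qd D r dg) (hw : w.p ≠ 3) (hD : ¬ (w.p : ℤ) ∣ 2 * D)
    (hσ : Gn w σ) (hm : ∀ j, ¬ w.p ∣ m j) {c : ℤ} (hN : ∏ i, al2 β r n i = (c * w.p : ℤ))
    (hc : ¬ (w.p : ℤ) ∣ c) (h0 : w.V (al2 β r n (0, 1)) < 1) (i : J U) :
    kap2 β r d dg n σ i = if i = (0, 1) then 1 else 0 := by
  have hp : (0 : ℝ≥0) < (w.p : ℝ≥0)⁻¹ := inv_pos.2 (one_pos.trans (b2a_one_lt w))
  have hV : w.V (∏ i, al2 β r n i) = (w.p : ℝ≥0)⁻¹ := by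
    rw [hN, Int.cast_mul, map_mul, w.V_int_eq_one.2 hc, one_mul, Int.cast_natCast, w.hV]
  have h1 : (w.p : ℝ≥0)⁻¹ ≤ w.V (al2 β r n (0, 1)) := hV ▸ kvb_one h k w _
  have a0 : al2 β r n (0, 1) ≠ 0 := fun e => by
    rw [e, map_zero] at h1
    exact hp.not_ge h1
  have h2 : w.V (al2 β r n (0, 1)) = (w.p : ℝ≥0)⁻¹ := by
    refine le_antisymm ?_ h1
    obtain ⟨e, he⟩ := V_of_fx_ine (w := w) (x := al2 β r n (0, 1))
      (fun τ hτ => by rw [smul_al2 h k, kvb_ac h k hw hD hτ hm]) a0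
    rw [he, ← zpow_neg] at h0 ⊢
    rw [← zpow_neg_one]
    have := (zpow_lt_one_iff_right₀ (b2a_one_lt w)).1 h0
    exact zpow_le_zpow_right₀ (b2a_one_lt w).le (by omega)
  split_ifs with hi
  · subst hi
    rw [kap2, kvb_ac h k hw hD hσ.1 hm]
    refine ex_eq (fun e => a0 ?_) ?_
    · rw [← cr_cube (al2 β r n (0, 1)), e, zero_pow three_ne_zero]
    · have := gn_cube hw hσ (x := cr (al2 β r n (0, 1))) (k := 1)
        (by rw [cr_cube, smul_al2 h k, kvb_ac h k hw hD hσ.1 hm]) (by rw [cr_cube, h2, pow_one])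
      rwa [Nat.cast_one] at this
  · refine kvb_fix h k hw hD hσ.1 hm ((V_al2_le h k w i).antisymm ?_)
    have h3 := kvb_pair (n := n) h k w hi
    rw [hV, h2] at h3
    exact (le_mul_iff_one_le_right hp).1 h3

theorem Ph2_gn (h : Rad m β d) (k : Qd D r dg) (hw : w.p ≠ 3) (hD : ¬ (w.p : ℤ) ∣ 2 * D)
    (hσ : Gn w σ) (hm : ∀ j, ¬ w.p ∣ m j) {c : ℤ} (hN : ∏ i, al2 β r n i = (c * w.p : ℤ))
    (hc : ¬ (w.p : ℤ) ∣ c) (h0 : w.V (al2 β r n (0, 1)) < 1) (T : Finset U) :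
    Ph2 β r d dg n T σ = if T = ∅ then 1 else 0 := by
  simp only [Ph2, kvb_gn h k hw hD hσ hm hN hc h0, kvb_ac h k hw hD hσ.1 hm, mul_ite, mul_one,
    mul_zero, sum_ite_eq', mem_univ, if_true]
  split_ifs with hT
  · simp [hT, wt]
  · obtain ⟨j, hj⟩ := nonempty_iff_ne_empty.2 hT
    exact mul_eq_zero_of_right _ (prod_eq_zero hj rfl)

/-- A small number of the field whose norm is a small multiple of the prime. -/
theorem exists_ptr2 (h : Rad m β d) (k : Qd D r dg)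
    (hs : ∀ i : J U, ∃ g, ch g = 1 ∧ dg g = i.2 ∧ ∀ j, d j g = i.1 j) (hw : Spt m d w φ)
    (hφ : dg φ = 1) {B : ℕ} (h1 : B ^ (2 * 3 ^ Fintype.card U) ≤ 2 * w.p)
    (h2 : w.p < (B + 1) ^ (2 * 3 ^ Fintype.card U)) :
    ∃ (n : J U → ℤ) (c : ℤ), (∀ T, |n T| ≤ B) ∧ (∀ i, al2 β r n i ≠ 0) ∧ c ≠ 0 ∧
      |c| ≤ (2 * (2 * 3 ^ Fintype.card U * (D.natAbs * ∏ j, m j)) ^ (2 * 3 ^ Fintype.card U) : ℕ) ∧
      ∏ i, al2 β r n i = (c * w.p : ℤ) ∧ w.V (al2 β r n (0, 1)) < 1 := by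
  choose ρ hρ using ktb2_red h hw
  have hr := w.V_le_one_of_isIntegral k.int
  obtain ⟨ρ', hρ'⟩ := int_of_frob hw.frob hr (by rw [k.act, hφ]; simp)
  obtain ⟨n, n0, hB, hn⟩ := Sm.thue (fun T : J U => ρ T.1 * if T.2 = 1 then 1 else ρ')
    w.prime.pos (B := B) (by rwa [card_J])
  have a0 := al2_ne h k hs n0
  have h3 : w.V (al2 β r n (0, 1)) < 1 := by
    have e : ∀ v : (U → ZMod 3) → ℤ, w.V (al β v 0 - (∑ T, ρ T * v T : ℤ)) < 1 := fun v => by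
      rw [al, Int.cast_sum, ← sum_sub_distrib]
      refine w.V.map_sum_lt one_ne_zero fun T _ => ?_
      refine lt_of_eq_of_lt (congrArg _ ?_) (b2a_mul_lt w (w.V_int_le (v T)) (hρ T))
      simp only [dot, Pi.zero_apply, zero_mul, sum_const_zero, zt_zero]
      push_cast
      ring
    have e' := w.V.map_add_lt (w.V.map_add_lt (w.V.map_add_lt (e fun T => n (T, 1))
      (b2a_mul_lt w hr (e fun T => n (T, -1))))
      (b2a_mul_lt w (w.V_int_le (∑ T, ρ T * n (T, -1))) hρ')) (b2c_lt.2 hn)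
    refine lt_of_eq_of_lt (congrArg _ ?_) e'
    have x : ∑ T : J U, (ρ T.1 * if T.2 = 1 then 1 else ρ') * n T =
        ∑ T, ρ T * n (T, 1) + ρ' * ∑ T, ρ T * n (T, -1) := by
      rw [Fintype.sum_prod_type, mul_sum, ← sum_add_distrib]
      refine sum_congr rfl fun T _ => ?_
      rw [UnitsInt.univ, sum_pair (by decide), if_pos rfl,
        if_neg (show ¬ (-1 : ℤˣ) = 1 by decide)]
      ring
    rw [x, al2]
    push_cast
    ring
  obtain ⟨N, hN⟩ := exists_norm2 (n := n) h k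
  obtain ⟨c, rfl⟩ : (w.p : ℤ) ∣ N := b2c_lt.1 (hN ▸ (kvb_one h k w _).trans_lt h3)
  refine ⟨n, c, hB, a0, fun e => ?_, ?_, by rw [hN, mul_comm], h3⟩
  · exact prod_ne_zero_iff.2 (fun γ _ => a0 γ) (by simpa [e] using hN)
  · have h4 := norm2_le h k hN hB
    have h5 : (0 : ℤ) < w.p := by exact_mod_cast w.prime.pos
    rw [abs_mul, abs_of_pos h5, mul_comm, Nat.cast_mul] at h4
    have h6 : ((B ^ (2 * 3 ^ Fintype.card U) : ℕ) : ℤ) ≤ 2 * w.p := by exact_mod_cast h1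
    refine le_of_mul_le_mul_right
      ((h4.trans (mul_le_mul_of_nonneg_left h6 (Nat.cast_nonneg _))).trans_eq ?_) h5
    rw [Nat.cast_mul 2]
    ring

end Pool.Agent.Lib.MP_696deb_nt.CU.Kt
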