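import Pool.Agent.Lib.MP_696deb_nt.CV.KvB

/-! The kernel with one square root: multiplicative, periodic, of mean zero. -/

set_option autoImplicit false

open Finset
open scoped Classical NNReal

namespace Pool.Agent.Lib.MP_696deb_nt.CU.Kt

open B2 hiding zeta cy cyc Gen Kum C2 Spl cup

variable {U : Type} [Fintype U] {m : U → ℕ} {β : U → Qbar} {d : U → Gam → ZMod 3} {D : ℤ}
  {r : Qbar} {dg : Gam → ℤˣ} {n : J U → ℤ} {w : Plc} {σ φ : Gam}

omit [Fintype U] in
theorem kvc_ac (h : Rad m β d) (k : Qd D r dg) (hw : Spt m d w φ) (i : J U) :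
    ac2 d dg (φ * φ) i = i := by
  rw [ac2, ktc_ac h hw, k.mul, Int.units_mul_self, one_mul]

theorem al2_res (h : Rad m β d) (k : Qd D r dg) (hw : Spt m d w φ) (i : J U) :
    w.V (al2 β r n i ^ w.p ^ 2 - al2 β r n i) < 1 := by
  have h1 := (hw.frob.mul hw.frob).2 _ (V_al2_le (n := n) h k w i)
  rwa [smul_al2 h k, kvc_ac h k hw, w.V.map_sub_swap, ← pow_two] at h1

theorem norm_th2_le (β : U → Qbar) (r : Qbar) (w : Plc) (t : ZMod 3) (n : J U → ℤ) :
    ‖th2 β r w t n‖ ≤ 1 := by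
  rw [th2]
  split_ifs
  · exact (norm_ec _).le
  · simp

theorem kvc_lt (h : Rad m β d) (k : Qd D r dg) {v : J U → ℤ} (hv : ∀ T, (w.p : ℤ) ∣ v T) (i : J U) :
    w.V (al2 β r v i) < 1 := by
  choose c hc using hv
  have e : al2 β r v i = al2 β r c i * w.p := by
    simp only [al2, al, hc, add_mul, mul_sum, sum_mul]
    congr 1 <;> refine sum_congr rfl fun T _ => ?_ <;> push_cast <;> ring
  rw [e]
  exact b2a_mul_lt w (V_al2_le h k w i) (b2a_p_lt w)

theorem th2_congr (h : Rad m β d) (k : Qd D r dg) (t : ZMod 3) {v v' : J U → ℤ}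
    (hv : ∀ T, v T ≡ v' T [ZMOD w.p]) : th2 β r w t v = th2 β r w t v' := by
  have h1 : ∀ i, w.V (al2 β r v i - al2 β r v' i) < 1 := fun i => by
    rw [← al2_sub]
    exact kvc_lt h k (fun T => (hv T).symm.dvd) i
  have h2 : (∀ i, w.V (al2 β r v i) = 1) ↔ ∀ i, w.V (al2 β r v' i) = 1 := by
    refine forall_congr' fun i => ⟨fun e => ?_, fun e => ?_⟩
    · rw [← e]
      exact w.V.map_eq_of_sub_lt (by rw [e, w.V.map_sub_swap]; exact h1 i)
    · rw [← e]
      exact w.V.map_eq_of_sub_lt (by rw [e]; exact h1 i)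
  rw [th2, th2]
  refine if_congr h2 ?_ rfl
  congr 2
  exact sum_congr rfl fun i _ => by rw [sym_congr (V_al2_le h k w i) (h1 i)]

theorem th2_prod (h : Rad m β d) (k : Qd D r dg) (hw : Spt m d w φ) (t : ZMod 3) {ι : Type}
    (s : Finset ι) {u : J U → ℤ} {v : ι → J U → ℤ}
    (hu : ∀ γ, al2 β r u γ = ∏ i ∈ s, al2 β r (v i) γ) :
    th2 β r w t u = ∏ i ∈ s, th2 β r w t (v i) := by
  by_cases hall : ∀ i ∈ s, ∀ γ, w.V (al2 β r (v i) γ) = 1
  · have h1 : ∀ γ, w.V (al2 β r u γ) = 1 := fun γ => by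
      rw [hu, map_prod]
      exact prod_eq_one fun i hi => hall i hi γ
    have h2 : ∀ γ, sym w (al2 β r u γ) = ∑ i ∈ s, sym w (al2 β r (v i) γ) := fun γ => by
      refine sym_eq hw.ne3 ?_
      rw [hu, ← prod_pow, zt_sum]
      exact ktc_prod_sub s (fun i _ => (V_zt w _).le) fun i hi =>
        sym_spec hw.ne3 (hall i hi γ) (al2_res h k hw γ)
    rw [th2, if_pos h1, prod_congr rfl fun i hi => (by rw [th2, if_pos (hall i hi)] :
      th2 β r w t (v i) = ec (t * ∑ γ, wt univ γ * sym w (al2 β r (v i) γ))), ← ktc_ec_sum,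
      ← mul_sum, sum_comm]
    congr 2
    exact sum_congr rfl fun γ _ => by rw [h2, mul_sum]
  · push Not at hall
    obtain ⟨i, hi, γ, hγ⟩ := hall
    rw [prod_eq_zero hi (by rw [th2, if_neg fun e => hγ (e γ)]), th2, if_neg]
    intro e
    have h1 := e γ
    rw [hu, map_prod, ← mul_prod_erase s _ hi, mul_comm] at h1
    exact (mul_lt_one_of_nonneg_of_lt_one_right (prod_le_one' fun j _ => V_al2_le h k w γ) zero_le
      ((V_al2_le h k w γ).lt_of_ne hγ)).ne h1

theorem kvc_kap (h : Rad m β d) (k : Qd D r dg) (hw : Spt m d w φ) {i : J U}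
    (hV : w.V (al2 β r n i) = 1) : kap2 β r d dg n (φ * φ) i = sym w (al2 β r n i) := by
  have h1 : w.V (cr (al2 β r n i)) = 1 := ktb_cube (by rw [cr_cube, hV])
  have h2 := (hw.frob.mul hw.frob).2 _ h1.le
  rw [kap2_spec h k, kvc_ac h k hw, ← pow_two w.p, ← ktc_three hw.ne3, pow_succ, pow_mul, cr_cube,
    ← sub_mul, map_mul, h1, mul_one, w.V.map_sub_swap] at h2
  exact (sym_eq hw.ne3 h2).symm

theorem Ph2_frob (h : Rad m β d) (k : Qd D r dg) (hw : Spt m d w φ)
    (he : ((dg φ : ℤ) : ZMod 3) * ch φ ^ (Fintype.card U + 1) = 1)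
    (hV : ∀ i, w.V (al2 β r n i) = 1) (t : ZMod 3) :
    ec (t * Ph2 β r d dg n univ φ) = th2 β r w (-t) n := by
  have h0 : ∀ i, al2 β r n i ≠ 0 := fun i e => by
    have h1 := hV i
    rw [e, map_zero] at h1
    exact zero_ne_one h1
  have h1 := (Ph2_fam h k h0).2 univ φ φ
  rw [sum_eq_single ∅ (fun R _ hR => by
      obtain ⟨j, hj⟩ := nonempty_iff_ne_empty.2 hR
      rw [prod_eq_zero hj (hw.fix j), zero_mul, zero_mul]) (by simp),
    prod_empty, sdiff_empty, card_univ, one_mul, ← mul_assoc, he, one_mul] at h1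
  have h2 : Ph2 β r d dg n univ (φ * φ) = ∑ i, wt univ i * sym w (al2 β r n i) :=
    sum_congr rfl fun i _ => by rw [kvc_ac h k hw, kvc_kap h k hw (hV i)]
  have h3 : (3 : ZMod 3) = 0 := by decide
  rw [th2, if_pos hV, ← h2, h1]
  congr 1
  linear_combination (t * Ph2 β r d dg n univ φ) * h3

theorem dvd_of_V2 (h : Rad m β d) (k : Qd D r dg) (hw : Spt m d w φ) (hD : ¬ (w.p : ℤ) ∣ 2 * D)
    (hV : ∀ i, w.V (al2 β r n i) < 1) (T : J U) : (w.p : ℤ) ∣ n T := by
  obtain ⟨T, x⟩ := T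
  obtain ⟨a, b⟩ := k.V_eq hD
  rcases Int.units_eq_one_or x with rfl | rfl
  · refine dvd_of_V h hw (n := fun T => n (T, 1)) (fun γ => ?_) T
    have e := w.V.map_add_lt (hV (γ, 1)) (hV (γ, -1))
    rwa [show al2 β r n (γ, 1) + al2 β r n (γ, -1) = 2 * al β (fun T => n (T, 1)) γ by
      simp only [al2]; push_cast; ring, map_mul, b, one_mul] at e
  · refine dvd_of_V h hw (n := fun T => n (T, -1)) (fun γ => ?_) T
    have e := w.V.map_sub_lt (hV (γ, 1)) (hV (γ, -1))
    rwa [show al2 β r n (γ, 1) - al2 β r n (γ, -1) = 2 * (r * al β (fun T => n (T, -1)) γ) by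
      simp only [al2]; push_cast; ring, map_mul, map_mul, a, b, one_mul, one_mul] at e

/-- Prescribed residues of the conjugates. -/
theorem kvc_res (h : Rad m β d) (k : Qd D r dg) (hw : Spt m d w φ) (hD : ¬ (w.p : ℤ) ∣ 2 * D)
    (y : J U → Qbar) (hy : ∀ i, w.V (y i) ≤ 1)
    (hφ : ∀ i, φ (y i) = y (fun j => ch φ * i.1 j, dg φ * i.2)) :
    ∃ n : J U → ℤ, ∀ i, w.V (al2 β r n i - y i) < 1 := by
  obtain ⟨a, b⟩ := k.V_eq hD
  obtain ⟨u, hu⟩ := ktc2_res h hw (fun γ => (y (γ, 1) + y (γ, -1)) / 2)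
    (fun γ => by rw [map_div₀, b, div_one]; exact w.V.map_add_le (hy _) (hy _)) fun γ => by
      rw [map_div₀, map_add, hφ, hφ, map_ofNat]
      rcases Int.units_eq_one_or (dg φ) with e | e <;> simp [e, add_comm]
  obtain ⟨v, hv⟩ := ktc2_res h hw (fun γ => (y (γ, 1) - y (γ, -1)) / (2 * r))
    (fun γ => by rw [map_div₀, map_mul, a, b, one_mul, div_one]; exact w.V.map_sub_le (hy _) (hy _))
    fun γ => by
      rw [map_div₀, map_sub, hφ, hφ, map_mul, map_ofNat, k.act]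
      rcases Int.units_eq_one_or (dg φ) with e | e
      · simp [e]
      · simp [e, div_neg, ← neg_div]
  refine ⟨fun T => if T.2 = 1 then u T.1 else v T.1, fun ⟨γ, x⟩ => ?_⟩
  have c : w.V ((x : ℤ) * r) ≤ 1 := by
    rw [map_mul, a, mul_one]
    exact w.V_int_le _
  refine lt_of_eq_of_lt (congrArg _ ?_) (w.V.map_add_lt (hu γ) (b2a_mul_lt w c (hv γ)))
  have r0 := k.r_ne
  simp only [al2, if_true, if_neg (show ¬ (-1 : ℤˣ) = 1 by decide)]
  rcases Int.units_eq_one_or x with rfl | rfl <;> push_cast <;> field_simp <;> ring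

theorem exists_th2_ne (h : Rad m β d) (k : Qd D r dg) (hw : Spt m d w φ)
    (hD : ¬ (w.p : ℤ) ∣ 2 * D) (he : ((dg φ : ℤ) : ZMod 3) * ch φ ^ (Fintype.card U + 1) = 1)
    {t : ZMod 3} (ht : t ≠ 0) :
    ∃ y : J U → ℤ, (∀ i, w.V (al2 β r y i) = 1) ∧ th2 β r w t y ≠ 1 := by
  have hp := w.prime.two_le
  have h4 : 4 ≤ w.p ^ 2 := by nlinarith
  have : NeZero (w.p ^ 2 - 1) := ⟨by omega⟩
  obtain ⟨z, hz⟩ := HasEnoughRootsOfUnity.exists_primitiveRoot Qbar (w.p ^ 2 - 1)
  have hc : ch φ = w.p := ch_frob hw.ne3 hw.frob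
  have h3 : 3 ∣ w.p ^ 2 - 1 := by
    rw [← ZMod.natCast_eq_zero_iff, Nat.cast_sub (by omega), Nat.cast_pow, ← hc, pow_two, ch_sq,
      Nat.cast_one, sub_self]
  have hV : w.V z = 1 := w.V_root_of_unity (NeZero.ne _) hz.pow_eq_one
  have h0 : z ≠ 0 := hz.ne_zero (NeZero.ne _)
  have hz2 : z ^ w.p ^ 2 = z := by
    rw [← Nat.sub_add_cancel (by omega : 1 ≤ w.p ^ 2), pow_succ, hz.pow_eq_one, one_mul]
  have hφ : φ z = z ^ w.p := by
    refine (div_eq_one_iff_eq (pow_ne_zero _ h0)).1 (w.eq_one_of_root (n := w.p ^ 2 - 1)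
      (fun e => ?_) ?_ ?_)
    · have k1 := (Nat.dvd_sub_iff_right (by omega) (dvd_pow_self w.p two_ne_zero)).1 e
      have := Nat.le_of_dvd one_pos k1
      omega
    · rw [div_pow, ← map_pow, pow_right_comm, hz.pow_eq_one, map_one, one_pow, div_one]
    · rw [div_sub_one (pow_ne_zero _ h0), map_div₀, map_pow, hV, one_pow, div_one]
      exact hw.frob.2 z hV.le
  obtain ⟨a, ha⟩ := exists_zt (x := z ^ ((w.p ^ 2 - 1) / 3)) (by
    rw [← pow_mul, Nat.div_mul_cancel h3, hz.pow_eq_one])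
  have ha0 : a ≠ 0 := fun e => by
    rw [e, zt_zero] at ha
    have := Nat.le_of_dvd (by omega) (hz.dvd_of_pow_eq_one _ ha)
    omega
  have hs : ∀ k : ℕ, sym w (z ^ k) = k * a := fun k => sym_eq hw.ne3 (by
    rw [pow_right_comm, ha, zt_pow, sub_self, map_zero]
    exact zero_lt_one)
  have hu : ch φ ≠ 0 := fun e => by simpa [e] using ch_sq φ
  obtain ⟨n, hn⟩ := kvc_res h k hw hD (fun i => z ^ ((if i = (fun _ => 1, 1) then 1 else 0) +
      w.p * if i = (fun _ => ch φ, dg φ) then 1 else 0)) (fun i => by rw [map_pow, hV, one_pow])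
    fun ⟨γ, x⟩ => by
      have e1 : ((fun j => ch φ * γ j, dg φ * x) : J U) = (fun _ => 1, 1) ↔
          ((γ, x) : J U) = (fun _ => ch φ, dg φ) := by
        simp only [Prod.mk.injEq, funext_iff]
        refine and_congr (forall_congr' fun j => by rw [← ch_sq φ, mul_right_inj' hu]) ?_
        rw [← Int.units_mul_self (dg φ), mul_right_inj]
      have e2 : ((fun j => ch φ * γ j, dg φ * x) : J U) = (fun _ => ch φ, dg φ) ↔
          ((γ, x) : J U) = (fun _ => 1, 1) := by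
        simp only [Prod.mk.injEq, funext_iff]
        exact and_congr (forall_congr' fun j => mul_eq_left₀ hu) mul_eq_left
      simp only [map_pow, hφ, e1, e2]
      rw [← pow_mul, mul_add, ← mul_assoc, ← pow_two, pow_add, pow_add, pow_mul z (w.p ^ 2), hz2,
        mul_comm]
  have h1 : ∀ i, w.V (al2 β r n i) = 1 := fun i => by
    rw [w.V.map_eq_of_sub_lt (by rw [map_pow, hV, one_pow]; exact hn i), map_pow, hV, one_pow]
  refine ⟨n, h1, ?_⟩
  rw [th2, if_pos h1]
  refine ec_ne_one (mul_ne_zero ht ?_)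
  simp only [fun i => sym_congr (h1 i).le (hn i), hs]
  push_cast
  simp only [add_mul, mul_add, sum_add_distrib, mul_ite, ite_mul, mul_zero, zero_mul, mul_one,
    one_mul, sum_ite_eq', mem_univ, if_true, wt, prod_const, card_univ, one_pow, Units.val_one,
    Int.cast_one]
  rw [← hc, ← mul_assoc, mul_assoc _ _ (ch φ), ← pow_succ, he, one_mul, ← two_mul]
  exact mul_ne_zero (by decide) ha0

theorem th2_mean (h : Rad m β d) (k : Qd D r dg) (hw : Spt m d w φ) (hD : ¬ (w.p : ℤ) ∣ 2 * D)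
    (he : ((dg φ : ℤ) : ZMod 3) * ch φ ^ (Fintype.card U + 1) = 1) {t : ZMod 3} (ht : t ≠ 0) :
    ∑ v ∈ Fintype.piFinset (fun _ : J U => Ico (0 : ℤ) w.p), th2 β r w t v = 0 := by
  obtain ⟨y, hy, hne⟩ := exists_th2_ne h k hw hD he ht
  have hp : (0 : ℤ) < w.p := Int.natCast_pos.2 w.prime.pos
  have hm : ∀ v ∈ Fintype.piFinset (fun _ : J U => Ico (0 : ℤ) w.p),
      (fun T => mul2 m D y v T % w.p) ∈ Fintype.piFinset (fun _ : J U => Ico (0 : ℤ) w.p) :=
    fun v _ => Fintype.mem_piFinset.2 fun T =>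
      mem_Ico.2 ⟨Int.emod_nonneg _ hp.ne', Int.emod_lt_of_pos _ hp⟩
  have hi : Set.InjOn (fun (v : J U → ℤ) T => mul2 m D y v T % w.p)
      (Fintype.piFinset (fun _ : J U => Ico (0 : ℤ) w.p) : Finset _) := by
    intro v hv v' hv' e
    have h1 : ∀ i, w.V (al2 β r (v - v') i) < 1 := fun i => by
      have h2 : w.V (al2 β r (mul2 m D y v - mul2 m D y v') i) < 1 := kvc_lt h k
        (fun T => Int.ModEq.dvd (congrFun e T).symm) i
      rwa [al2_sub, al2_mul h k, al2_mul h k, ← mul_sub, map_mul, hy, one_mul, ← al2_sub] at h2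
    funext T
    have h3 := mem_Ico.1 (Fintype.mem_piFinset.1 hv T)
    have h4 := mem_Ico.1 (Fintype.mem_piFinset.1 hv' T)
    exact sub_eq_zero.1 (Int.eq_zero_of_abs_lt_dvd (dvd_of_V2 h k hw hD h1 T)
      (by rw [abs_lt]; omega))
  have h5 := sum_nbij (f := fun v => th2 β r w t y * th2 β r w t v) (g := th2 β r w t) _ hm hi
    (surjOn_of_injOn_of_card_le _ hm hi le_rfl) fun v _ => by
      rw [th2_congr h k t (v' := mul2 m D y v) fun T => Int.mod_modEq _ _,
        th2_prod h k hw t univ (u := mul2 m D y v) (v := ![y, v]) fun γ => by simp [al2_mul h k]]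
      simp
  rw [← mul_sum] at h5
  by_contra e
  exact hne (mul_right_cancel₀ e (h5.trans (one_mul _).symm))

end Pool.Agent.Lib.MP_696deb_nt.CU.Kt
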