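import Pool.Agent.Lib.MP_696deb_nt.CV.KvB
import Pool.Agent.Lib.MP_696deb_nt.CV.KvC
import Pool.Agent.Lib.MP_696deb_nt.CU.KtL2
import Pool.Agent.Lib.MP_696deb_nt.CU.KtM

/-! The bilinear bound for governing families twisted by a quadratic character. -/

set_option autoImplicit false

open Finset
open scoped Classical NNReal

namespace Pool.Agent.Lib.MP_696deb_nt.CU.Kt

open B2 hiding zeta cy cyc Gen Kum C2 Spl cup

/-- The bound for the cofactors. -/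
def C1 (g D : ℕ) : ℕ := 2 * (g * D) ^ g

/-- The bound for the number of classes. -/
def L1 (g n k D : ℕ) : ℕ := 3 * C1 g D * (3 ^ k * (C1 g D * D) ^ 2) ^ 2 ^ n

/-- The total loss. -/
def Q1 (g n k E W D : ℕ) : ℕ :=
  (2 * g + 1) * (12 * W) * (3 * (g * D)) ^ g * (L1 g n k D * W ^ E) ^ 2

theorem Q1_pb (a g n k E : ℕ) : Pb a fun W D => (Q1 g n k E W D ^ 12) ^ g := by
  have c := Pb.const a
  have h : Pb a fun _ D => C1 g D := (c 2).mul (((c _).mul (Pb.snd a)).pow _)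
  have l : Pb a fun _ D => L1 g n k D :=
    ((c 3).mul h).mul (((c _).mul ((h.mul (Pb.snd a)).pow 2)).pow _)
  exact ((((((c _).mul ((c 12).mul (Pb.fst a))).mul (((c 3).mul ((c _).mul (Pb.snd a))).pow _)).mul
    ((l.mul ((Pb.fst a).pow E)).pow 2))).pow 12).pow _

theorem C1_le {g : ℕ} (n k E : ℕ) {W D : ℕ} (hg : 0 < g) (hW : 0 < W) (hD : 0 < D) :
    3 * C1 g D ≤ Q1 g n k E W D := by
  have h : 0 < C1 g D := by
    unfold C1
    positivity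
  have a : 3 * C1 g D ≤ L1 g n k D := Nat.le_mul_of_pos_right _ (by positivity)
  have b : L1 g n k D ≤ L1 g n k D * W ^ E := Nat.le_mul_of_pos_right _ (by positivity)
  exact (a.trans (b.trans (Nat.le_self_pow two_ne_zero _))).trans
    (Nat.le_mul_of_pos_left _ (by positivity))

variable {U : Type} [Fintype U] {m : U → ℕ} {β : U → Qbar} {d : U → Gam → ZMod 3}
  {w : ℕ → Plc} {s : ℕ → Gam} {tst : Finset Gam} {M : ℕ} {D : ℤ} {ρ : Qbar} {dg : Gam → ℤˣ}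

/-- Places, inertia generators and a finite set of test elements that detect cocycles. -/
structure Sys2 (M : ℕ) (dg : Gam → ℤˣ) (w : ℕ → Plc) (s : ℕ → Gam) (tst : Finset Gam) : Prop where
  p : ∀ q : ℕ, q.Prime → (w q).p = q
  gn : ∀ q : ℕ, q.Prime → ¬ q ∣ M → Gn (w q) (s q)
  unr : ∀ (e : ℕ) (u : Gam → ZMod 3), Sm ⊤ u →
    (∀ g h, u (g * h) = u g + ((dg g : ℤ) : ZMod 3) * ch g ^ e * u h) →
    (∀ g ∈ tst, u g = 0) → (∀ q : ℕ, q.Prime → ¬ q ∣ M → u (s q) = 0) → u = 0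

omit [Fintype U] in
theorem Fam2.sub {Φ Φ' : Finset U → Gam → ZMod 3} (h : Fam2 d dg Φ) (h' : Fam2 d dg Φ')
    (e : ZMod 3) : Fam2 d dg fun T g => Φ T g - e * Φ' T g := by
  refine ⟨fun T => (h.1 T).comp₂ (h'.1 T) fun x y => x - e * y, fun T g k => ?_⟩
  simp only [h.2 T g k, h'.2 T g k, mul_sub, sum_sub_distrib, mul_add, mul_sum, mul_left_comm e]
  ring

omit [Fintype U] in
theorem Fam2.uniq (hy : Sys2 M dg w s tst) {Φ Φ' : Finset U → Gam → ZMod 3} (h : Fam2 d dg Φ)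
    (h' : Fam2 d dg Φ') (h1 : ∀ T, ∀ g ∈ tst, Φ T g = Φ' T g)
    (h2 : ∀ T, ∀ q : ℕ, q.Prime → ¬ q ∣ M → Φ T (s q) = Φ' T (s q)) : Φ = Φ' := by
  have k := h.sub h' 1
  simp only [one_mul] at k
  suffices ∀ T, (fun g => Φ T g - Φ' T g) = 0 from
    funext fun T => funext fun g => sub_eq_zero.1 (congrFun (this T) g)
  intro T
  induction T using Finset.strongInduction with
  | H T ih =>
    refine hy.unr (T.card + 1) _ (k.1 T) (fun g g' => ?_) (fun g hg => sub_eq_zero.2 (h1 T g hg))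
      fun q a b => sub_eq_zero.2 (h2 T q a b)
    refine (k.2 T g g').trans ?_
    rw [sum_eq_single_of_mem ∅ (empty_mem_powerset T)]
    · simp [mul_assoc]
    · intro R hR h0
      exact mul_eq_zero_of_right _ (congrFun (ih (T \ R)
        (sdiff_ssubset (mem_powerset.1 hR) (nonempty_iff_ne_empty.2 h0))) g')

/-- The bound for the kernel itself. -/
theorem amp_bound2 (h : Rad m β d) (k : Qd D ρ dg) {tp tr W B M : ℕ} {P R : Finset ℕ}
    {f : ℕ → Gam} (hP : ∀ p ∈ P, p.Prime ∧ tp < p ∧ p ≤ 2 * tp)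
    (hR : ∀ r ∈ R, tr < r ∧ r ≤ 2 * tr ∧ (w r).p = r ∧ Spt m d (w r) (f r) ∧
      ¬ ((w r).p : ℤ) ∣ 2 * D ∧ ((dg (f r) : ℤ) : ZMod 3) * ch (f r) ^ (Fintype.card U + 1) = 1)
    {n : ℕ → J U → ℤ} {c : ℕ → ℤ} (hn : ∀ p ∈ P, ∀ T, |n p T| ≤ B)
    (hN : ∀ p ∈ P, ∏ γ, al2 β ρ (n p) γ = (c p * p : ℤ)) (hc : ∀ p ∈ P, ∀ q ∈ P, ¬ (q : ℤ) ∣ c p)
    {g : ℕ} (hg : 2 * 3 ^ Fintype.card U = g)
    (hB : B ^ g ≤ 2 * tp) (hW : 2 * tr ≤ 4 ^ W) (h0 : 1 ≤ W) (hM : 1 ≤ M)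
    {Q : ℕ} (hQ : (2 * g + 1) * (12 * W) * (3 * (g * (D.natAbs * ∏ j, m j))) ^ g * M ^ 2 = Q)
    (h1 : Q ≤ tr) (h2 : Q ^ 12 ≤ B) {t : ZMod 3} (ht : t ≠ 0) (a b : ℕ → ℂ) (ha : ∀ p, ‖a p‖ ≤ 1)
    (hb : ∀ r, ‖b r‖ ≤ 1) :
    ‖∑ p ∈ P, ∑ r ∈ R, a p * b r * th2 β ρ (w r) t (n p)‖ * M ≤ tp * tr := by
  have hD : 0 < D.natAbs * ∏ j, m j :=
    Nat.mul_pos (Int.natAbs_pos.2 k.ne) (prod_pos fun j _ => Nat.pos_of_ne_zero (h.pos j))
  have g0 : 0 < g := hg ▸ by positivity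
  have q2 : 2 ≤ Q := by
    rw [← hQ, mul_assoc, mul_assoc, mul_left_comm]
    exact (show 2 ≤ 12 * W by omega).trans (Nat.le_mul_of_pos_right _ (by positivity))
  obtain ⟨τ, t1, t2, t3⟩ := exists_tau q2 h1 h2 hW h0
  have cd : ∀ {t : ℕ} {P : Finset ℕ}, (∀ p ∈ P, t < p ∧ p ≤ 2 * t) → P.card ≤ t := fun {t P} k =>
    (card_le_card (t := Ioc t (2 * t)) fun p hp => mem_Ioc.2 (k p hp)).trans (by
      rw [Nat.card_Ioc]; omega)
  have ex : ∀ v : Fin (τ + 1) → ℕ, ∃ u : J U → ℤ, v ∈ Fintype.piFinset (fun _ => P) →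
      (∀ T, |u T| ≤ (((g * (D.natAbs * ∏ j, m j)) * B) ^ (τ + 1) : ℕ)) ∧
        ∀ γ, al2 β ρ u γ = ∏ i, al2 β ρ (n (v i)) γ := fun v => by
    by_cases hv : v ∈ Fintype.piFinset (fun _ => P)
    · obtain ⟨u, hu⟩ := exists_prod2 h k (fun i => n (v i)) fun i =>
        hn _ (Fintype.mem_piFinset.1 hv i)
      exact ⟨u, fun _ => hg ▸ hu⟩
    · exact ⟨0, fun k => absurd k hv⟩
  choose nn hnn using ex
  have key := lbil_amp P R n τ _ ((τ + 1) ^ (τ + 1)) (2 * tr) nn (fun r => th2 β ρ (w r) t)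
    (fun r hr => by
      obtain ⟨-, r2, r3, r4, r5, r6⟩ := hR r hr
      refine ⟨r3 ▸ (w r).prime, r2, norm_th2_le _ _ _ _,
        fun v v' e => th2_congr h k t (r3.symm ▸ e), ?_⟩
      have := th2_mean h k r4 r5 r6 ht
      rw [r3] at this
      refine Eq.trans (sum_congr (Finset.ext fun v => ?_) fun _ _ => rfl) this
      simp only [Fintype.mem_piFinset])
    (fun v hv => (hnn v hv).1) (fun v hv r hr => th2_prod h k (hR r hr).2.2.2.1 t univ (hnn v hv).2)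
    (fun u => by
      obtain ⟨N, e⟩ := exists_norm2 (n := u) h k
      refine (card_le_card fun v hv => ?_).trans
        (card_tuple P (fun p hp => (hP p hp).1) c hc (τ + 1) N)
      obtain ⟨hu, rfl⟩ := mem_filter.1 hv
      refine mem_filter.2 ⟨hu, Int.cast_injective (α := Qbar) ?_⟩
      rw [← e, prod_congr rfl fun γ _ => (hnn v hu).2 γ, prod_comm, Int.cast_prod]
      exact prod_congr rfl fun i _ => (hN _ (Fintype.mem_piFinset.1 hu i)).symm) a b ha hb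
  rw [card_J, hg] at key
  refine num (cd fun p hp => (hP p hp).2) (cd fun r hr => ⟨(hR r hr).1, (hR r hr).2.1⟩)
    g0.ne' (Nat.succ_le_of_lt (by positivity)) (by omega) t2 hB
    ((Nat.pow_le_pow_left ?_ _).trans t3) key
  rw [← hQ]
  gcongr _ * ?_ * _ * _
  omega

theorem core2 (n k E M : ℕ) : ∃ K : ℕ, ∀ (U : Type) [Fintype U] (m : U → ℕ) (β : U → Qbar)
    (d : U → Gam → ZMod 3) (D : ℤ) (ρ : Qbar) (dg : Gam → ℤˣ) (w : ℕ → Plc) (s f : ℕ → Gam)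
    (tst : Finset Gam) (W tp tr : ℕ) (P R : Finset ℕ) (Ψ : ℕ → Finset U → Gam → ZMod 3)
    (z : Finset U → ℕ → ZMod 3) (e t : ZMod 3) (a b : ℕ → ℂ), Fintype.card U = n → tst.card = k →
    M ≠ 0 → 2 ∣ M → 3 ∣ M → D.natAbs ∣ M → Rad m β d → Qd D ρ dg →
    (∀ i : J U, ∃ g, ch g = 1 ∧ dg g = i.2 ∧ ∀ j, d j g = i.1 j) → Sys2 M dg w s tst →
    (∀ q : ℕ, q.Prime → IsFrob (w q) q (f q)) → 2 ≤ W → (∀ j, m j ≤ W ^ 6) → 2 * tr ≤ 4 ^ W →
    W ^ K ≤ tp → W ^ K ≤ tr →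
    (∀ p ∈ P, p.Prime ∧ tp < p ∧ p ≤ 2 * tp ∧ (∀ j, d j (f p) = 0) ∧ Fam2 d dg (Ψ p) ∧
      (∀ T, ∀ q : ℕ, q.Prime → ¬ q ∣ M →
        Ψ p T (s q) = z T q + if q = p ∧ T = ∅ then e else 0) ∧ dg (f p) = 1) →
    (∀ r ∈ R, r.Prime ∧ tr < r ∧ r ≤ 2 * tr ∧ (∀ j, d j (f r) = 0) ∧
      ((dg (f r) : ℤ) : ZMod 3) * ch (f r) ^ (n + 1) = 1 ∧ r ∉ P) →
    e ≠ 0 → t ≠ 0 → (∀ p, ‖a p‖ ≤ 1) → (∀ r, ‖b r‖ ≤ 1) →
    ‖∑ p ∈ P, ∑ r ∈ R, a p * b r * ec (t * Ψ p univ (f r))‖ * W ^ E ≤ tp * tr := by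
  obtain ⟨K, hK⟩ := Q1_pb (M + 6 * n) (2 * 3 ^ n) n k E
  refine ⟨K + M, fun U _ m β d D' ρ dg w s f tst W tp tr P R Ψ z e t a b hn hk M0 M2 M3 hM h kq hs
    hy hf hW hm hr k1 k2 hP hR he ht ha hb => ?_⟩
  subst hn hk
  set n := Fintype.card U with hn
  set g := 2 * 3 ^ n with hg
  set D := D'.natAbs * ∏ j, m j with hD
  have D0 : 0 < D :=
    Nat.mul_pos (Int.natAbs_pos.2 kq.ne) (prod_pos fun j _ => Nat.pos_of_ne_zero (h.pos j))
  have g0 : g ≠ 0 := by positivity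
  have m1 : M < W ^ M := Nat.lt_pow_self hW
  have m2 : D'.natAbs ≤ M := Nat.le_of_dvd (Nat.pos_of_ne_zero M0) hM
  have m3 : ∀ q : ℕ, q.Prime → ¬ q ∣ M → (w q).p ≠ 3 ∧ ¬ ((w q).p : ℤ) ∣ 2 * D' := fun q a1 a2 => by
    rw [hy.p q a1]
    exact ⟨fun x => a2 (x ▸ M3), fun x => ((Nat.prime_iff_prime_int.1 a1).dvd_or_dvd x).elim
      (fun x => a2 ((Int.natCast_dvd.1 x).trans M2)) fun x => a2 ((Int.natCast_dvd.1 x).trans hM)⟩
  have m4 : W ^ M ≤ W ^ (K + M) := Nat.pow_le_pow_right (by omega) (by omega)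
  have m5 : W ^ K ≤ W ^ (K + M) := Nat.pow_le_pow_right (by omega) (by omega)
  have m6 : ∀ q : ℕ, M < q → ¬ q ∣ M := fun q a1 a2 =>
    (Nat.le_of_dvd (Nat.pos_of_ne_zero M0) a2).not_gt a1
  have q1 := hK W D hW (by
    rw [pow_add]
    exact Nat.mul_le_mul (m2.trans m1.le) ((prod_le_pow_card _ _ _ fun j _ => hm j).trans
      (by rw [card_univ, ← pow_mul])))
  have q2 := C1_le n tst.card E (Nat.pos_of_ne_zero g0) (by omega : 0 < W) D0
  have q3 : 2 * D ≤ C1 g D := Nat.mul_le_mul_left 2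
    ((Nat.le_mul_of_pos_left D (Nat.pos_of_ne_zero g0)).trans (Nat.le_self_pow g0 _))
  set Q := Q1 g n tst.card E W D with hQ
  have q4 : Q ≤ W ^ K := ((Nat.le_self_pow (by omega) Q).trans (Nat.le_self_pow g0 _)).trans q1
  obtain ⟨B, b1, b2⟩ : ∃ B, B ^ g ≤ 2 * tp ∧ 2 * tp < (B + 1) ^ g :=
    ⟨_, Nat.pow_nthRoot_le_iff.2 (Or.inl g0), Nat.lt_pow_nthRoot_add_one g0 _⟩
  have b3 : Q ^ 12 ≤ B := Nat.lt_succ_iff.1 (lt_of_pow_lt_pow_left₀ g (Nat.zero_le _)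
    ((q1.trans (m5.trans (k1.trans (by omega)))).trans_lt b2))
  have dm : ∀ j, m j ∣ D := fun j => (dvd_prod_of_mem m (mem_univ j)).mul_left _
  have sp : ∀ q : ℕ, q.Prime → Q < q → (∀ j, d j (f q) = 0) → Spt m d (w q) (f q) :=
    fun q a1 a2 a3 => by
      refine ⟨?_, fun j k => ?_, (hy.p q a1).symm ▸ hf q a1, a3⟩
      · rw [hy.p q a1]
        omega
      · rw [hy.p q a1] at k
        have := Nat.le_of_dvd D0 (k.trans (dm j))
        omega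
  have ex : ∀ p : ℕ, ∃ (v : J U → ℤ) (c : ℤ), p ∈ P → (∀ T, |v T| ≤ B) ∧
      (∀ γ, al2 β ρ v γ ≠ 0) ∧ c ≠ 0 ∧ |c| ≤ C1 g D ∧ ∏ γ, al2 β ρ v γ = (c * p : ℤ) ∧
        (w p).V (al2 β ρ v (0, 1)) < 1 := fun p => by
    by_cases hp : p ∈ P
    · obtain ⟨p1, p2, p3, p4, -, -, p5⟩ := hP p hp
      obtain ⟨v, c, hv⟩ := exists_ptr2 h kq hs (sp p p1 (by omega) p4) p5 (B := B)
        (by rw [hy.p p p1, ← hn, ← hg]; omega) (by rw [hy.p p p1, ← hn, ← hg]; omega)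
      rw [hy.p p p1] at hv
      exact ⟨v, c, fun _ => hv⟩
    · exact ⟨0, 0, fun k => absurd k hp⟩
  choose v c hv using ex
  have nd : ∀ p ∈ P, ∀ q : ℕ, Q < q → ¬ (q : ℤ) ∣ c p := fun p hp q hq k => by
    have := Int.le_of_dvd (abs_pos.2 (hv p hp).2.2.1) ((dvd_abs _ _).2 k)
    have := (hv p hp).2.2.2.1
    omega
  have nd' : ∀ p ∈ P, ∀ q : ℕ, q.Prime → q ≠ p → ¬ (q : ℤ) ∣ c p → ¬ ((w q).p : ℤ) ∣ c p * p :=
    fun p hp q a1 a2 a3 k => by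
      rw [hy.p q a1] at k
      exact ((Nat.prime_iff_prime_int.1 a1).dvd_or_dvd k).elim a3 fun k =>
        a2 ((Nat.prime_dvd_prime_iff_eq a1 (hP p hp).1).1 (Int.natCast_dvd_natCast.1 k))
  let Ξ : ℕ → Finset U → Gam → ZMod 3 := fun p T g => Ψ p T g - e * Ph2 β ρ d dg (v p) T g
  let G : ℤ → Finset Gam := fun c => tst ∪ (c.natAbs * D).primeFactors.image s
  let lab : ℕ → Σ c : ℤ, Finset U → G c → ZMod 3 := fun p => ⟨c p, fun T g => Ξ p T g⟩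
  have x1 : ∀ p ∈ P, ∀ T, ∀ q : ℕ, q.Prime → ¬ q ∣ M → ¬ q ∣ (c p).natAbs * D →
      Ξ p T (s q) = z T q := fun p hp T q a1 a2 a3 => by
    have a4 : ∀ j, ¬ (w q).p ∣ m j := fun j k =>
      a3 (Dvd.dvd.mul_left ((hy.p q a1 ▸ k).trans (dm j)) _)
    have a5 : ¬ (q : ℤ) ∣ c p := fun k => a3 ((Int.natCast_dvd.1 k).mul_right _)
    obtain ⟨a6, a7⟩ := m3 q a1 a2
    change Ψ p T (s q) - e * Ph2 β ρ d dg (v p) T (s q) = _
    rw [(hP p hp).2.2.2.2.2.1 T q a1 a2]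
    by_cases k : q = p
    · subst k
      rw [Ph2_gn h kq a6 a7 (hy.gn q a1 a2) a4 (c := c q)
        (by rw [hy.p q a1]; exact (hv q hp).2.2.2.2.1)
        (by rwa [hy.p q a1]) (hv q hp).2.2.2.2.2]
      by_cases k : T = ∅ <;> simp [k]
    · rw [Ph2_ine h kq a6 a7 (hy.gn q a1 a2).1 a4 (hv p hp).2.2.2.2.1 (nd' p hp q a1 k a5)]
      simp [k]
  have x2 : ∀ p ∈ P, ∀ p' ∈ P, lab p = lab p' → Ξ p = Ξ p' := fun p hp p' hp' k => by
    obtain ⟨k1, k2⟩ := Sigma.mk.inj_iff.1 k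
    have k3 : ∀ T, ∀ g ∈ G (c p), Ξ p T g = Ξ p' T g := by
      revert k2
      generalize c p' = y at k1
      subst k1
      exact fun k2 T g hg => congrFun (congrFun (eq_of_heq k2) T) ⟨g, hg⟩
    refine Fam2.uniq hy ((hP p hp).2.2.2.2.1.sub (Ph2_fam h kq (hv p hp).2.1) e)
      ((hP p' hp').2.2.2.2.1.sub (Ph2_fam h kq (hv p' hp').2.1) e)
      (fun T g hg => k3 T g (mem_union_left _ hg)) fun T q a1 a2 => ?_
    by_cases a3 : q ∣ (c p).natAbs * D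
    · exact k3 T _ (mem_union_right _ (mem_image_of_mem s (Nat.mem_primeFactors.2 ⟨a1, a3,
        mul_ne_zero (Int.natAbs_ne_zero.2 (hv p hp).2.2.1) D0.ne'⟩)))
    · exact (x1 p hp T q a1 a2 a3).trans (x1 p' hp' T q a1 a2 (k1 ▸ a3)).symm
  have x3 : (P.image lab).card ≤ L1 g n tst.card D := by
    refine (card_le_card (t := (Icc (-(C1 g D : ℤ)) (C1 g D)).sigma fun _ => univ) fun l hl => ?_).trans ?_
    · obtain ⟨p, hp, rfl⟩ := mem_image.1 hl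
      exact mem_sigma.2 ⟨mem_Icc.2 (abs_le.1 (hv p hp).2.2.2.1), mem_univ _⟩
    · rw [card_sigma]
      refine (sum_le_card_nsmul _ _ ((3 ^ tst.card * (C1 g D * D) ^ 2) ^ 2 ^ n) fun y hy => ?_).trans
        (Nat.mul_le_mul_right _ (by rw [Int.card_Icc]; omega))
      rw [card_univ, Fintype.card_fun, Fintype.card_fun, ZMod.card, Fintype.card_finset,
        Fintype.card_coe]
      refine Nat.pow_le_pow_left ((Nat.pow_le_pow_right three_pos ((card_union_le _ _).trans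
        (Nat.add_le_add_left card_image_le _))).trans ?_) _
      rw [pow_add]
      refine Nat.mul_le_mul_left _ ?_
      rcases eq_or_ne (y.natAbs * D) 0 with k | k
      · rw [k, Nat.primeFactors_zero, card_empty, pow_zero]
        exact Nat.one_le_pow _ _ (Nat.mul_pos (by omega) D0)
      · have := mem_Icc.1 hy
        exact (three_pow_le k).trans (Nat.pow_le_pow_left (Nat.mul_le_mul_right _ (by omega)) _)
  have l1 : 0 < L1 g n tst.card D := by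
    have : 0 < C1 g D := by omega
    unfold L1
    positivity
  have l2 : (0 : ℝ) < L1 g n tst.card D := by exact_mod_cast l1
  refine (class_bound P lab _ (δ := tp * tr / L1 g n tst.card D) (by positivity) fun p hp => ?_).trans
    ((mul_le_mul_of_nonneg_right (Nat.cast_le.2 x3) (by positivity)).trans
      (mul_div_cancel₀ _ l2.ne').le)
  have mP : ∀ q ∈ ({q ∈ P | lab q = lab p} : Finset ℕ), q ∈ P := fun q hq => (mem_filter.1 hq).1
  have key := amp_bound2 h kq (P := {q ∈ P | lab q = lab p}) (R := R) (w := w) (f := f) (n := v) (c := c)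
    (M := L1 g n tst.card D * W ^ E) (Q := Q)
    (fun q hq => ⟨(hP q (mP q hq)).1, (hP q (mP q hq)).2.1, (hP q (mP q hq)).2.2.1⟩)
    (fun r k => by
      obtain ⟨r1, r2, r3, r4, r5, -⟩ := hR r k
      exact ⟨r2, r3, hy.p r r1, sp r r1 (by omega) r4, (m3 r r1 (m6 r (by omega))).2, r5⟩)
    (fun q hq => (hv q (mP q hq)).1) (fun q hq => (hv q (mP q hq)).2.2.2.2.1)
    (fun q hq q' hq' => nd q (mP q hq) q' (by have := (hP q' (mP q' hq')).2.1; omega))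
    rfl b1 hr (one_le_two.trans hW) (Nat.succ_le_of_lt (by positivity)) rfl (q4.trans (m5.trans k2)) b3
    (neg_ne_zero.2 (mul_ne_zero ht he)) a (fun r => b r * ec (t * Ξ p univ (f r))) ha
    fun r => by rw [norm_mul, norm_ec, mul_one]; exact hb r
  rw [le_div_iff₀ l2, mul_assoc, mul_comm _ (L1 g n tst.card D : ℝ)]
  rw [Nat.cast_mul, Nat.cast_pow] at key
  refine le_of_eq_of_le ?_ key
  congr 2
  refine sum_congr rfl fun q hq => sum_congr rfl fun r k => ?_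
  obtain ⟨r1, r2, r3, r4, r5, r6⟩ := hR r k
  rw [← Ph2_frob h kq (sp r r1 (by omega) r4) r5 (V_al2 h kq (hv q (mP q hq)).2.2.2.2.1
    (nd' q (mP q hq) r r1 (fun e => r6 (e ▸ mP q hq)) (nd q (mP q hq) r (by omega)))),
    ← x2 q (mP q hq) p hp (mem_filter.1 hq).2, mul_assoc (a q) (_ * _), mul_assoc (b r), ← ec_add,
    mul_assoc (a q)]
  congr 3
  change _ = t * (Ψ q univ (f r) - e * _) + _
  ring

end Pool.Agent.Lib.MP_696deb_nt.CU.Kt
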