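import Pool.Agent.Lib.MP_696deb_nt.CV.KvN
import Pool.Agent.Lib.MP_696deb_nt.CV.Gov0
import Pool.Agent.Lib.MP_696deb_nt.CU.KtZ

/-! The two bilinear bounds, from the existence of test elements and of ramified cocycles. -/

set_option autoImplicit false
set_option linter.unusedSectionVars false

open Finset
open scoped Classical

namespace Pool.Agent.Lib.MP_696deb_nt.CU.CV

open Kt

/-- The sign by which `g` acts on a square root, as a unit. -/
noncomputable def dU (r : Qbar) (g : Gam) : ℤˣ := if g r = r then 1 else -1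

theorem dU_cast (r : Qbar) (g : Gam) : ((dU r g : ℤ) : F3) = dr r g := by
  unfold dU dr
  split_ifs <;> simp

theorem dU_one {r : Qbar} {g : Gam} (h : dr r g = 1) : dU r g = 1 := by
  unfold dr at h
  refine if_pos (by_contra fun k => ?_)
  rw [if_neg k] at h
  exact absurd h (by decide)

theorem dU_qd {D : ℤ} {r : Qbar} (h : r ^ 2 = D) {g : Gam} (hg : g r ≠ r) : Kt.Qd D r (dU r) := by
  refine ⟨fun e => hg ?_, h, fun g => ?_⟩
  · rw [pow_eq_zero_iff two_ne_zero |>.1 (h.trans (by rw [e, Int.cast_zero])), map_zero]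
  · unfold dU
    split_ifs with k
    · simpa using k
    · have e : g r ^ 2 = r ^ 2 := by rw [← map_pow, h, map_intCast]
      simpa using (sq_eq_sq_iff_eq_or_eq_neg.1 e).resolve_left k

theorem kvy_surj {U : Type} {m : U → ℕ} {β : U → Qbar} {d : U → Gam → F3} {D : ℤ} {ρ : Qbar}
    {dg : Gam → ℤˣ} (h : Rad m β d) (k : Kt.Qd D ρ dg) (h0 : ∃ g, ch g = 1 ∧ dg g = -1)
    (hs : ∀ γ : U → F3, ∃ g, ch g = 1 ∧ ∀ j, d j g = γ j) (i : J U) :
    ∃ g, ch g = 1 ∧ dg g = i.2 ∧ ∀ j, d j g = i.1 j := by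
  have a : ∀ γ : U → F3, ∃ g, ch g = 1 ∧ dg g = 1 ∧ ∀ j, d j g = γ j := fun γ => by
    obtain ⟨g, g1, g2⟩ := hs (-γ)
    refine ⟨g * g, by rw [ch_mul, g1, one_mul], by rw [k.mul, Int.units_mul_self], fun j => ?_⟩
    have e : ∀ x : F3, -x + 1 * -x = x := by decide
    rw [h.coc, g1, g2, Pi.neg_apply, e]
  obtain ⟨γ, x⟩ := i
  rcases Int.units_eq_one_or x with rfl | rfl
  · exact a γ
  · obtain ⟨g0, b1, b2⟩ := h0
    obtain ⟨g, g1, g2, g3⟩ := a fun j => γ j - d j g0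
    exact ⟨g * g0, by rw [ch_mul, g1, b1, one_mul], by rw [k.mul, g2, b2, one_mul], fun j => by
      rw [h.coc, g1, g3, one_mul, sub_add_cancel]⟩

variable [δ : Qd]

/-- A finite set of test elements that detect cocycles. -/
def TstH : Prop := ∃ tst : Finset Gam, ∀ (e : ℕ) (u : Gam → F3), Kc e ⊤ u → (∀ g ∈ tst, u g = 0) →
  (∀ q : ℕ, q.Prime → ¬ q ∣ MM → u (sq q) = 0) → u = 0

/-- The ramified cocycles exist. -/
def KapH : Prop := ∀ e p : ℕ, p.Prime → ¬ p ∣ MM → mu (e + 1) (fq p) = 1 →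
  IsKap (mu e) MM p (kap e p)

theorem kvy_qd : Kt.Qd δ.D0 δ.r0 (dU δ.r0) := by
  obtain ⟨-, -, -, g, -, hg⟩ := δ.nt0
  exact dU_qd δ.h0 hg

theorem kvy_g0 : ∃ g, ch g = 1 ∧ dU δ.r0 g = -1 := by
  obtain ⟨-, -, -, g, -, hg⟩ := δ.nt0
  obtain ⟨-, -, -, g', -, hg'⟩ := δ.nt1
  have a : dU δ.r0 g = -1 := if_neg hg
  have b : dr δ.r0 g' * ch g' = -1 := (δ.rel g').symm.trans (if_neg hg')
  have c : ∀ x : F3, x * x = 1 → x = 1 ∨ x = -1 := by decide
  rcases c _ (ch_sq g) with e | e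
  · exact ⟨g, e, a⟩
  rcases c _ (ch_sq g') with e' | e'
  · refine ⟨g', e', if_neg fun k => ?_⟩
    rw [e', dr, if_pos k] at b
    exact absurd b (by decide)
  · refine ⟨g * g', by rw [ch_mul, e, e']; decide, ?_⟩
    rw [e', mul_neg_one, neg_inj] at b
    rw [kvy_qd.mul, a, dU_one b, mul_one]

theorem kvy_core (hT : TstH) (n E : ℕ) : ∃ c : ℕ, ∀ (U : Type) [Fintype U] (m : U → ℕ)
    (β : U → Qbar) (d : U → Gam → F3) (Z : ℝ) (tu tp tr : ℕ) (P R : Finset ℕ)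
    (Ψ : ℕ → Finset U → Gam → F3) (z : Finset U → ℕ → F3) (e t : F3) (a b : ℕ → ℂ),
    Fintype.card U = n → Rad m β d → (∀ γ : U → F3, ∃ g, ch g = 1 ∧ ∀ j, d j g = γ j) → 2 ≤ Z →
    Rng Z c tu tp P → Rng Z c tu tr R → Disjoint P R → (∀ j, m j ≤ (2 * tu) ^ 3) →
    (∀ p ∈ P, ¬ p ∣ MM → a p ≠ 0 → (∀ j, d j (fq p) = 0) ∧ Fam2 d (dU δ.r0) (Ψ p) ∧
      (∀ T, ∀ q : ℕ, q.Prime → ¬ q ∣ MM →
        Ψ p T (sq q) = z T q + if q = p ∧ T = ∅ then e else 0) ∧ de (fq p) = 1) →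
    (∀ r ∈ R, b r ≠ 0 → (∀ j, d j (fq r) = 0) ∧ mu (n + 1) (fq r) = 1) →
    e ≠ 0 → t ≠ 0 → (∀ p, ‖a p‖ ≤ 1) → (∀ r, ‖b r‖ ≤ 1) →
    ‖∑ p ∈ P, ∑ r ∈ R, a p * b r * ee (t * Ψ p univ (fq r))‖ ≤ P.card * R.card / Z ^ E := by
  obtain ⟨tst, hT⟩ := hT
  have M2 : 2 ∣ MM := δ.big 2 two_ne_zero (by omega)
  have M3 : 3 ∣ MM := δ.big 3 three_ne_zero (by omega)
  have hy : Sys2 MM (dU δ.r0) pl sq tst := ⟨fun _ => pl_p,
    fun q a1 a2 => ktz_gn a1 fun e => a2 (e ▸ M3),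
    fun e u h1 h2 => hT e u ⟨h1, fun g _ h _ => by rw [h2, dU_cast]; rfl⟩⟩
  obtain ⟨K, hK⟩ := core2 n tst.card (E + 2) MM
  refine ⟨2 * (K + MM), fun U _ m β d Z tu tp tr P R Ψ z e t a b hn h hs hZ hP hR hd hm h1 h2 he ht
    ha hb => ?_⟩
  have Z0 : 0 < Z := by linarith
  have w1 : Z ≤ (max ⌈Z⌉₊ tu : ℕ) := (Nat.le_ceil Z).trans (Nat.cast_le.2 (le_max_left _ _))
  have w2 : tu ≤ max ⌈Z⌉₊ tu := le_max_right _ _
  have k1 := hP.pow_le hZ
  have k2 := hR.pow_le hZ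
  generalize max ⌈Z⌉₊ tu = W at w1 w2 k1 k2
  have w3 : 2 ≤ W := by exact_mod_cast hZ.trans w1
  have w4 : 2 * tr ≤ 4 ^ W := by
    have a1 : (2 * tr : ℝ) ≤ Real.exp 1 ^ W := by
      rw [Real.exp_one_pow]
      exact (Real.le_exp_log _).trans (Real.exp_le_exp.2 (hR.lg.trans w1))
    have a2 := a1.trans (pow_le_pow_left₀ (Real.exp_pos 1).le
      (Real.exp_one_lt_d9.le.trans (by norm_num : _ ≤ (4 : ℝ))) W)
    exact_mod_cast a2
  have w5 : W ^ K ≤ W ^ (K + MM) := Nat.pow_le_pow_right (by omega) (by omega)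
  have w6 : MM < W ^ (K + MM) :=
    (Nat.lt_pow_self w3).trans_le (Nat.pow_le_pow_right (by omega) (by omega))
  have key := hK U m β d δ.D0 δ.r0 _ pl sq fq tst W tp tr {p ∈ P | a p ≠ 0} {r ∈ R | b r ≠ 0} Ψ z
    e t a b hn rfl δ.M0 M2 M3 (δ.big _ (Int.natAbs_ne_zero.2 kvy_qd.ne) (by omega)) h kvy_qd
    (kvy_surj h kvy_qd kvy_g0 hs) hy (fun _ => fq_frob) w3
    (fun j => (hm j).trans (by
      rw [show W ^ 6 = (W * W) ^ 3 by ring]
      gcongr)) w4 (w5.trans k1) (w5.trans k2)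
    (fun p hp => by
      obtain ⟨p1, p2⟩ := mem_filter.1 hp
      obtain ⟨x1, x2, x3⟩ := hP.mem p p1
      obtain ⟨y1, y2, y3, y4⟩ := h1 p p1
        (fun k => (Nat.le_of_dvd (Nat.pos_of_ne_zero δ.M0) k).not_gt (w6.trans (k1.trans_lt x2))) p2
      exact ⟨x1, x2, x3, y1, y2, y3, dU_one y4⟩)
    (fun r hr => by
      obtain ⟨r1, r2⟩ := mem_filter.1 hr
      exact ⟨(hR.mem r r1).1, (hR.mem r r1).2.1, (hR.mem r r1).2.2, (h2 r r1 r2).1,
        by rw [dU_cast]; exact (h2 r r1 r2).2,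
        fun k => disjoint_left.1 hd (mem_filter.1 k).1 r1⟩) he ht ha hb
  rw [sum_filter_of_ne (p := fun p => a p ≠ 0) fun p _ k e => k (by simp [e]),
    sum_congr rfl fun p _ => sum_filter_of_ne (p := fun r => b r ≠ 0) fun r _ k e =>
      k (by simp [e])] at key
  have b1 := (div_le_iff₀ Z0).1 hP.big
  have b2 := (div_le_iff₀ Z0).1 hR.big
  rw [le_div_iff₀ (by positivity)]
  refine le_of_mul_le_mul_right ?_ (pow_pos Z0 2)
  calc _ = _ * Z ^ (E + 2) := by rw [mul_assoc, ← pow_add]; rfl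
    _ ≤ _ * (W : ℝ) ^ (E + 2) :=
      mul_le_mul_of_nonneg_left (pow_le_pow_left₀ Z0.le w1 _) (norm_nonneg _)
    _ ≤ (tp : ℝ) * tr := key
    _ ≤ (P.card * Z) * (R.card * Z) := by gcongr
    _ = _ := by ring

theorem Gov.fam {ι V : Type} {U : Finset ι} {d : ι → Gam → F3} {k : Gam → F3}
    {Φ : Finset ι → Gam → F3} (h : Gov U d k Φ) (e : V ↪ ι) (he : ∀ T : Finset V, T.map e ⊆ U) :
    Fam2 (fun j => d (e j)) (dU δ.r0) fun T => Φ (T.map e) := by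
  refine ⟨fun T => h.sm _ (he T), fun T g g' => (h.mul _ (he T) g g').trans (congrArg _ ?_)⟩
  rw [mul_sum, dU_cast]
  refine (sum_nbij (fun R => R.map e) (fun R hR => ?_) (map_injective e).injOn (fun R hR => ?_)
    fun R _ => ?_).symm
  · exact mem_powerset.2 (map_subset_map.2 (mem_powerset.1 hR))
  · obtain ⟨S, a, rfl⟩ := subset_map_iff.1 (mem_powerset.1 hR)
    exact ⟨S, mem_powerset.2 a, rfl⟩
  · rw [prod_map, ← Finset.map_sdiff, card_map, mu, ← mul_assoc, mul_left_comm]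
    rfl

omit δ in
theorem IsKap.sq_eq {μ κ : Gam → F3} {M p q : ℕ} (h : IsKap μ M p κ) (hq : q.Prime)
    (hM : ¬ q ∣ M) : κ (sq q) = if q = p then 1 else 0 := by
  split_ifs with e
  · rw [e, h.self]
  · exact h.ne q hq hM e

theorem kvy_mu (l e : ℕ) (g : Gam) : mu (2 * l + e) g = mu e g := by
  rw [mu, mu, pow_add, pow_mul, pow_two, chi_sq, one_pow, one_mul]

theorem ana_of (hT : TstH) (hK : KapH) : AnaStmt := by
  intro n E hn
  obtain ⟨c, hc⟩ := kvy_core hT n E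
  refine ⟨c, fun ι U Z tu tp tr P R u u' p1 a t α β hU hZ hP hR hd hu hv m1 m2 ha ht hα hβ h1
    h2 => ?_⟩
  have sub : ∀ T : Finset U, T.map (Function.Embedding.subtype _) ⊆ U := fun T i hi => by
    obtain ⟨j, -, rfl⟩ := mem_map.1 hi
    exact j.2
  have rad : Rad (fun j : U => u' j * u j ^ 2) (fun j => rho (u' j) * rho (u j) ^ 2)
      fun j => kk (u' j) - kk (u j) := by
    refine ⟨fun j => mul_ne_zero (hu j j.2).2.1.ne_zero (pow_ne_zero _ (hu j j.2).1.ne_zero),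
      fun j => ?_, fun j g => ?_⟩
    · rw [mul_pow, pow_right_comm, rho_cube, rho_cube, Nat.cast_mul, Nat.cast_pow]
    · have e : ∀ x y : F3, x - y = x + (y + y) := by decide
      rw [map_mul, map_pow, ktz_rho, ktz_rho, Pi.sub_apply, e, zt_add, zt_add]
      ring
  have nd : ∀ i j : U, ¬ u' j ∣ u i ^ 2 := fun i j k => (hv i i.2 j j.2).1
    ((Nat.prime_dvd_prime_iff_eq (hu j j.2).2.1 (hu i i.2).1).1
      ((hu j j.2).2.1.dvd_of_dvd_pow k)).symm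
  have key := hc U _ _ _ Z tu tp tr P R (fun p T => (if h : ∃ Φ, Gov U
      (fun i => kk (u' i) - kk (u i)) (a • (kap 1 p - kap 1 p1)) Φ then h.choose else 0)
        (T.map (Function.Embedding.subtype _)))
    (fun T q => if T = ∅ then -(a * kap 1 p1 (sq q)) else 0) a t α β
    ((Fintype.card_coe U).trans hU) rad
    (d_surj rad (fun j => pl (u' j)) (fun j => sq (u' j))
      (fun j => by rw [pl_p (hu j j.2).2.1]; exact (hu j j.2).2.2.2.1)
      (fun j => ktz_gn (hu j j.2).2.1 (hu j j.2).2.2.2.1)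
      (fun j => by rw [pl_p (hu j j.2).2.1]; exact dvd_mul_right _ _)
      (fun j k => by
        rw [pl_p (hu j j.2).2.1, pow_two] at k
        exact nd j j (Nat.dvd_of_mul_dvd_mul_left (hu j j.2).2.1.pos k))
      fun i j hij k => by
        rw [pl_p (hu j j.2).2.1] at k
        exact ((Nat.Prime.dvd_mul (hu j j.2).2.1).1 k).elim (fun k => hij (Subtype.ext
          ((hv i i.2 j j.2).2.2 ((Nat.prime_dvd_prime_iff_eq (hu j j.2).2.1
            (hu i i.2).2.1).1 k).symm))) (nd i j))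
    hZ hP hR hd
    (fun j => by
      rw [pow_succ' (2 * tu) 2]
      exact Nat.mul_le_mul (hu j j.2).2.2.2.2.2.1
        (Nat.pow_le_pow_left (hu j j.2).2.2.2.2.1 2))
    (fun p hp hM k => by
      obtain ⟨x, y⟩ := h1 p hp k
      rw [dif_pos x]
      refine ⟨fun j => sub_eq_zero.2 (y j j.2),
        x.choose_spec.fam (Function.Embedding.subtype _) sub, fun T q a1 a2 => ?_,
        (mul_one _).symm.trans (m1 p hp)⟩
      by_cases e : T = ∅
      · rw [e, map_empty, x.choose_spec.zero, Pi.smul_apply, Pi.sub_apply,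
          (hK 1 p (hP.mem p hp).1 hM ((kvy_mu 1 0 _).trans (m1 p hp))).sq_eq a1 a2]
        by_cases e : q = p <;> simp [e, mul_add, sub_eq_neg_add]
      · rw [x.choose_spec.unr _ (sub T) (fun k => e (map_eq_empty.1 k)) q a1 a2]
        simp [e])
    (fun r hr k => ⟨fun j => sub_eq_zero.2 (h2 r hr k j j.2), by
      obtain ⟨l, rfl⟩ := hn
      exact (kvy_mu (l + 1) 0 _).trans (m2 r hr)⟩)
    ha ht hα hβ
  refine le_of_eq_of_le (congrArg norm (sum_congr rfl fun p _ => sum_congr rfl fun r _ => ?_)) key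
  rw [univ_eq_attach, attach_map_val, gov]
  split_ifs <;> rfl

theorem kvy_lin (hT : TstH) (E : ℕ) : ∃ c : ℕ, ∀ (Z : ℝ) (tp tr : ℕ) (P R : Finset ℕ) (t : F3)
    (α β : ℕ → ℂ) (κ : ℕ → Gam → F3), 2 ≤ Z → Rng Z c 1 tp P → Rng Z c 1 tr R → Disjoint P R →
    (∀ p ∈ P, ¬ p ∣ MM → de (fq p) = 1 ∧ IsKap (mu 1) MM p (κ p)) → (∀ r ∈ R, mu 1 (fq r) = 1) →
    t ≠ 0 → (∀ p, ‖α p‖ ≤ 1) → (∀ r, ‖β r‖ ≤ 1) →
    ‖∑ p ∈ P, ∑ r ∈ R, α p * β r * ee (t * κ p (fq r))‖ ≤ P.card * R.card / Z ^ E := by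
  obtain ⟨c, hc⟩ := kvy_core hT 0 E
  refine ⟨c, fun Z tp tr P R t α β κ hZ hP hR hd h1 h2 ht hα hβ => ?_⟩
  refine hc Empty (fun _ => 1) (fun _ => 1) (fun _ => 0) Z 1 tp tr P R (fun p _ => κ p)
    (fun _ _ => 0) 1 t α β rfl ⟨fun j => j.elim, fun j => j.elim, fun j => j.elim⟩
    (fun _ => ⟨1, ch_one, fun j => j.elim⟩) hZ hP hR hd (fun j => j.elim)
    (fun p hp hM _ => ⟨fun j => j.elim, ⟨fun _ => (h1 p hp hM).2.kd.1, fun T g h => ?_⟩,
      fun T q a1 a2 => ?_, (h1 p hp hM).1⟩)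
    (fun r hr _ => ⟨fun j => j.elim, h2 r hr⟩) one_ne_zero ht hα hβ
  · rw [Subsingleton.elim T ∅, dU_cast]
    simpa [chi, ch, mu, de, mul_assoc] using (h1 p hp hM).2.kd.2 g trivial h trivial
  · rw [Subsingleton.elim T ∅, (h1 p hp hM).2.sq_eq a1 a2]
    simp

theorem kvy_sw (e : ℕ) : @mu δ.sw e = mu (e + 1) := funext fun g => by
  change dr δ.r1 g * chi g ^ e = dr δ.r0 g * chi g ^ (e + 1)
  rw [δ.rel, pow_succ', mul_assoc]

theorem TstH.sw (hT : TstH) : @TstH δ.sw :=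
  hT.imp fun _ h e u k => h (e + 1) u (by rw [Kc, ← kvy_sw]; exact k)

theorem linK_of (hT : TstH) (hK : KapH) : LinK := by
  intro e E
  obtain ⟨l, rfl | rfl⟩ := e.even_or_odd'
  · obtain ⟨c, hc⟩ := @kvy_lin δ.sw hT.sw E
    have x : @mu δ.sw 1 = mu (2 * l) :=
      (kvy_sw 1).trans (funext fun g => (kvy_mu 1 0 g).trans (kvy_mu l 0 g).symm)
    refine ⟨c, fun Z tp tr P R t α β hZ hP hR hd h1 h2 =>
      hc Z tp tr P R t α β _ hZ hP hR hd (fun p hp hM => ⟨?_, ?_⟩) (x ▸ h2)⟩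
    · exact (mul_one _).symm.trans
        ((congrFun (kvy_sw 0) _).trans ((kvy_mu l 1 _).symm.trans (h1 p hp)))
    · exact x ▸ hK _ p (hP.mem p hp).1 hM (h1 p hp)
  · obtain ⟨c, hc⟩ := kvy_lin hT E
    have x : mu 1 = mu (2 * l + 1) := funext fun g => (kvy_mu l 1 g).symm
    refine ⟨c, fun Z tp tr P R t α β hZ hP hR hd h1 h2 =>
      hc Z tp tr P R t α β _ hZ hP hR hd (fun p hp hM => ⟨?_, ?_⟩) (x ▸ h2)⟩
    · exact (mul_one _).symm.trans ((kvy_mu (l + 1) 0 _).symm.trans (h1 p hp))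
    · exact x ▸ hK _ p (hP.mem p hp).1 hM (h1 p hp)

end Pool.Agent.Lib.MP_696deb_nt.CU.CV
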