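import Pool.Agent.Lib.MP_696deb_nt.CV.Box
import Pool.Agent.Lib.MP_696deb_nt.CV.E1

/-! Exchanging the two sides of a box. -/

set_option autoImplicit false
set_option linter.unusedSectionVars false

open scoped Classical

namespace Pool.Agent.Lib.MP_696deb_nt.CU.CV

namespace Bx

variable [δ : Qd] {B : Bx} {c : ℕ} {x : B.Pt}

theorem Wf.sw (h : B.Wf) : Wf (δ := δ.sw) B.sw :=
  @Wf.mk δ.sw B.sw h.n0 h.prime h.cop h.disj h.ne
    (fun j p hp => by rw [mu_sw, mu_add_two]; exact h.t1 j p hp)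
    fun j p hp => by rw [mu_sw]; exact h.t0 j p hp

theorem Hyp0.sw (h : B.Hyp0 c) (k : B.H + B.P1.card ≤ B.P0.card) : Hyp (δ := δ.sw) B.sw c :=
  @Hyp.mk δ.sw B.sw c (@Hyp0.mk δ.sw B.sw c h.wf.sw h.rng h.pos h.le1 h.big h.lg h.hY h.hc h.hH
    h.win h.up h.dj h.ord (fun j hj => (h.lo j hj).symm) fun j hj => (h.hi j hj).symm) k

theorem B1p.sw (h : B.B1p x) : B1p (δ := δ.sw) B.sw x := fun e k h1 h2 h3 => by
  rw [mu_sw] at h3 ⊢
  exact h (e + 1) k (kc_sw.1 h1) h2 h3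

theorem Hyp0.mono {c' : ℕ} (h : B.Hyp0 c') (hc : c ≤ c') : B.Hyp0 c := by
  have h1 : (1 : ℝ) ≤ B.Z := one_le_two.trans (two_le_Z h.pos h.le1)
  refine ⟨h.wf, h.rng, h.pos, h.le1, h.big, h.lg, h.hY, (pow_le_pow_right₀ h1 hc).trans h.hc,
    (Nat.mul_le_mul_right _ hc).trans h.hH, h.win, h.up, h.dj, fun i hi j hj => ?_, h.lo, h.hi⟩
  have h2 : (1 : ℝ) ≤ B.t i := ((one_le_pow₀ h1).trans h.hc).trans (Nat.cast_le.2 (h.hY i))
  exact (Nat.pow_le_pow_right (by exact_mod_cast h2) hc).trans (h.ord i hi j hj)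

end Bx

end Pool.Agent.Lib.MP_696deb_nt.CU.CV
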