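import Pool.Agent.Lib.MP_696deb_nt.CV.Key
import Pool.Agent.Lib.MP_696deb_nt.CV.GenB
import Pool.Agent.Lib.MP_696deb_nt.CV.SDb
import Pool.Agent.Lib.MP_696deb_nt.CV.Comb
import Pool.Agent.Lib.MP_696deb_nt.CV.Sw

/-! The first moment on a box. -/

set_option autoImplicit false
set_option linter.unusedSectionVars false

open scoped Classical
open Finset

namespace Pool.Agent.Lib.MP_696deb_nt.CU.CV

variable [δ : Qd]

namespace Bx

/-- The first moment over the good points. -/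
noncomputable def WT (B : Bx) (l : ℕ) : ℝ := ∑ x ∈ B.pts with B.Good x, (B.wt x l : ℝ)

theorem wt_two (ana : AnaStmt) : ∃ c : ℕ, ∀ B : Bx, B.Hyp c → B.WT 2 ≤ 30 * B.pts.card := by
  obtain ⟨c, hc⟩ := rad_sum ana 0
  refine ⟨c, fun B h => ?_⟩
  obtain ⟨p, hp⟩ : ∃ p : B.Pat → Prop, ∀ a, p a := ⟨fun _ => True, fun _ => trivial⟩
  have k := hc B h p
  have k1 : B.WT 2 ≤ 3 * ∑ x ∈ B.pts with B.G0 x,
      (((B.VF x).filter fun a => a ∈ B.Rad x ∧ a ∉ B.L1 ∧ p a).card : ℝ) := by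
    rw [mul_sum]
    refine le_trans (sum_le_sum fun x hx => ?_) (sum_le_sum_of_subset_of_nonneg
      (monotone_filter_right _ fun x _ (g : B.Good x) => g.g0) fun _ _ _ => by positivity)
    obtain ⟨hx, g⟩ := mem_filter.1 hx
    rw [show (3 : ℝ) = (3 : ℕ) from rfl, ← Nat.cast_mul]
    refine Nat.cast_le.2 ((sum_le_sum fun a ha => om_two h.wf hx (g.g1.bot h.wf hx)
      (mem_VF.1 (mem_filter.1 ha).1).1).trans ?_)
    rw [← sum_filter, sum_const, smul_eq_mul, mul_comm, filter_filter]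
    exact (congrArg (3 * card ·) (filter_congr fun a _ =>
      ⟨fun e => ⟨e.2, e.1, hp a⟩, fun e => ⟨e.2.1, e.1⟩⟩)).le
  have k2 : ∑ x ∈ B.pts with B.G0 x,
      9 * (((B.VF x).filter fun a => a ∉ B.L1 ∧ p a).card : ℝ) / (B.VF x).card ≤
        9 * B.pts.card := by
    refine (sum_le_card_nsmul _ _ 9 fun x _ => ?_).trans ?_
    · rw [mul_div_assoc]
      exact mul_le_of_le_one_right (by norm_num) (div_le_one_of_le₀
        (Nat.cast_le.2 (card_filter_le _ _)) (Nat.cast_nonneg _))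
    · rw [nsmul_eq_mul, mul_comm]
      exact mul_le_mul_of_nonneg_left (Nat.cast_le.2 (card_filter_le _ _)) (by norm_num)
  rw [pow_zero, div_one] at k
  linarith

theorem main_nine : ∃ E : ℕ, ∀ B : Bx, B.Hyp 0 → ∀ s t : Finset B.Pat,
    (s.card * t.card : ℝ) ≤ B.Z ^ E := by
  obtain ⟨K, hK⟩ := card_Pe_le
  obtain ⟨E, hE⟩ := pow_le_Z ((K + 1) * (K + 1))
  refine ⟨E, fun B h s t => le_trans ?_ (hE B h.pos h.le1)⟩
  have k0 : Fintype.card B.Pat ≤ (K + 1) ^ ((B.r + B.k0 + 1) ^ 2) :=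
    (hK B 1).trans ((Nat.pow_le_pow_left K.le_succ _).trans
      (Nat.pow_le_pow_right K.succ_pos (Nat.le_self_pow two_ne_zero _)))
  have k : s.card * t.card ≤ ((K + 1) * (K + 1)) ^ ((B.r + B.k0 + 1) ^ 2) := by
    rw [mul_pow]
    exact Nat.mul_le_mul ((card_le_univ s).trans k0) ((card_le_univ t).trans k0)
  exact_mod_cast k

theorem wt_step (ana : AnaStmt) (m : ℕ) (hm : 1 ≤ m) : ∃ c : ℕ, ∀ B : Bx, B.Hyp c →
    B.WT (2 * m + 2) ≤ 27 * B.WT (2 * m) + 3 * B.pts.card := by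
  obtain ⟨E1, h1⟩ := card_key
  obtain ⟨E2, h2⟩ := main_nine
  obtain ⟨c, h3⟩ := step_key ana m (E1 + E2) hm
  refine ⟨c + 15 * (2 * m + 1 + 1), fun B h => ?_⟩
  have hZ : 0 < B.Z := two_pos.trans_le h.two_le
  let u : B.Pt → ℝ := fun x => ∑ a ∈ B.VF x with a ∉ B.L1,
    (∑ b ∈ B.VF x with b ∈ B.Rad x ∧ a ∈ B.Rad x ∧ b ∉ B.L2 a,
      ∑ c ∈ B.RF x (2 * m + 2) a, ee (B.Dx x c b)).re / (B.wB * (B.VF x).card)
  have k1 : B.WT (2 * m + 2) ≤ 27 * B.WT (2 * m) + 3 * ∑ x ∈ B.pts with B.Good x, u x := by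
    rw [WT, WT, mul_sum, mul_sum, ← sum_add_distrib]
    refine sum_le_sum fun x hx => ?_
    obtain ⟨hx, g⟩ := mem_filter.1 hx
    rw [wt, wt, Nat.cast_sum, Nat.cast_sum, mul_sum, mul_sum, ← sum_add_distrib]
    exact sum_le_sum fun a ha => (om_step h.wf hx (g.g1.bot h.wf hx) hm
      (mem_VF.1 (mem_filter.1 ha).1).1).trans_eq (by rw [mul_div_assoc])
  have k2 := sum_fib_le (B := B) B.key B.Good u
    (show (0 : ℝ) ≤ B.pts.card / B.Z ^ E1 by positivity)
    (fun x hx z hz e g => key_Good h.wf hx hz e g) fun z hz g => by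
      have e : ∑ x ∈ B.pts with B.key x = B.key z, u x = ∑ a ∈ B.VF z with a ∉ B.L1,
          ∑ b ∈ B.VF z with b ∈ B.Rad z ∧ a ∈ B.Rad z ∧ b ∉ B.L2 a,
            (∑ x ∈ B.pts with B.key x = B.key z,
              ∑ c ∈ B.RF x (2 * m + 2) a, ee (B.Dx x c b)).re / (B.wB * (B.VF z).card) := by
        simp only [Complex.re_sum, sum_div]
        rw [sum_congr rfl fun a _ => sum_comm, sum_comm]
        refine sum_congr rfl fun x hx => ?_
        obtain ⟨hx, e⟩ := mem_filter.1 hx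
        simp only [u, Complex.re_sum, sum_div, lv_VF h.wf hx hz (key_lv e), key_Rad h.wf hx hz e]
      have w : (1 : ℝ) ≤ B.wB * (B.VF z).card := by
        exact_mod_cast Nat.mul_pos (wB_pos h.wf) (card_pos.2 ⟨0, mem_VF.2 (zero_mem _)⟩)
      rw [e]
      refine (sum_le_card_nsmul _ _ ((B.VF z).card * (B.pts.card / B.Z ^ (E1 + E2)))
        fun a ha => (sum_le_card_nsmul _ _ (B.pts.card / B.Z ^ (E1 + E2))
          fun b hb => ?_).trans ?_).trans ?_
      · obtain ⟨hb, b1, b2, b3⟩ := mem_filter.1 hb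
        obtain ⟨U, ia, ic, d⟩ := exists_dir (h.mono (Nat.le_add_left _ _)) hz g b2 b1
          (mem_filter.1 ha).2 b3
        refine le_trans ?_ (h3 B (h.mono (Nat.le_add_right _ _)) z hz a b U ia ic d b1.1)
        exact (div_le_div_of_nonneg_right (Complex.re_le_norm _) (by positivity)).trans
          (div_le_self (norm_nonneg _) w)
      · rw [nsmul_eq_mul]
        exact mul_le_mul_of_nonneg_right (Nat.cast_le.2 (card_filter_le _ _)) (by positivity)
      · rw [nsmul_eq_mul, ← mul_assoc]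
        refine (mul_le_mul_of_nonneg_right (h2 B (h.mono (Nat.zero_le _)) _ _)
          (by positivity)).trans (le_of_eq ?_)
        rw [pow_add]
        field_simp
  have k3 : ((B.pts.image B.key).card : ℝ) * (B.pts.card / B.Z ^ E1) ≤ B.pts.card :=
    (mul_le_mul_of_nonneg_right (h1 B (h.mono (Nat.zero_le _))) (by positivity)).trans
      (le_of_eq (by field_simp))
  linarith

theorem wt_le (ana : AnaStmt) (m : ℕ) : ∃ c : ℕ, ∀ B : Bx, B.Hyp c →
    B.WT (2 * m + 2) ≤ 30 * 28 ^ m * B.pts.card := by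
  induction m with
  | zero => simpa using wt_two ana
  | succ m ih =>
    obtain ⟨c, h1⟩ := ih
    obtain ⟨c', h2⟩ := wt_step ana (m + 1) (by omega)
    refine ⟨c + c', fun B h => ?_⟩
    have k1 := h1 B (h.mono (Nat.le_add_right _ _))
    have k2 := h2 B (h.mono (Nat.le_add_left _ _))
    have k3 : (1 : ℝ) * B.pts.card ≤ 28 ^ m * B.pts.card :=
      mul_le_mul_of_nonneg_right (one_le_pow₀ (by norm_num)) (Nat.cast_nonneg _)
    rw [show 2 * (m + 1) = 2 * m + 2 by ring] at k2 ⊢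
    rw [pow_succ]
    have k4 : (0 : ℝ) ≤ B.pts.card := Nat.cast_nonneg _
    linarith

theorem box_main (ana : AnaStmt) (lin : LinStmt) (lk : LinK) {ε : ℝ} (hε : 0 < ε) : ∃ c : ℕ, ∀ B : Bx,
    B.Hyp c → ((B.pts.filter fun x => B.B1p x ∧ ¬ Gro (B.nn x) 3).card : ℝ) ≤
      ε * B.pts.card := by
  obtain ⟨m, hm⟩ := exists_pow_lt_of_lt_one hε (show (28 / 81 : ℝ) < 1 by norm_num)
  obtain ⟨c, h1⟩ := few_bad ana lin lk (half_pos hε)
  obtain ⟨c', h2⟩ := wt_le ana m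
  refine ⟨c + c', fun B h => ?_⟩
  have k1 := h1 B (h.mono (Nat.le_add_right _ _))
  have k2 := h2 B (h.mono (Nat.le_add_left _ _))
  let s := B.pts.filter fun x => B.Good x ∧ Big (B.nn x) (m + 1)
  have k3 : (s.card : ℝ) * (72 * 81 ^ m) ≤ B.WT (2 * m + 2) := by
    rw [← nsmul_eq_mul]
    refine (card_nsmul_le_sum _ (fun x => (B.wt x (2 * m + 2) : ℝ)) _ fun x hx => ?_).trans
      (sum_le_sum_of_subset_of_nonneg (monotone_filter_right _ fun x _ g => g.1)
        fun _ _ _ => Nat.cast_nonneg _)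
    exact_mod_cast wt_big h.wf (mem_filter.1 hx).1 (mem_filter.1 hx).2.2
  have k4 : (B.pts.filter fun x => B.B1p x ∧ ¬ Gro (B.nn x) 3) ⊆
      (B.pts.filter fun x => B.B1p x ∧ ¬ B.Good x) ∪ s := fun x hx => by
    obtain ⟨hx, a2, a3⟩ := mem_filter.1 hx
    by_cases g : B.Good x
    · exact mem_union_right _ (mem_filter.2 ⟨hx, g, by_contra fun b =>
        a3 (gro_of (h.wf.nn_ne hx) (g.g1.bot h.wf hx) (Nat.le_add_left 1 m) b)⟩)
    · exact mem_union_left _ (mem_filter.2 ⟨hx, a2, g⟩)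
  have k5 := Nat.cast_le (α := ℝ).2 ((card_le_card k4).trans (card_union_le _ _))
  rw [div_pow, div_lt_iff₀ (by positivity)] at hm
  have k6 : (s.card : ℝ) ≤ ε / 2 * B.pts.card := by
    refine le_of_mul_le_mul_right (k3.trans (k2.trans ?_)) (by positivity)
    have := mul_le_mul_of_nonneg_right hm.le (Nat.cast_nonneg (α := ℝ) B.pts.card)
    have : 0 ≤ ε * 81 ^ m * B.pts.card := by positivity
    linarith
  push_cast at k5
  linarith

end Bx

theorem gro_sw' {n s : ℕ} (hn : n ≠ 0) (h : Gro n s) : Gro (δ := δ.sw) n s :=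
  gro_sw (δ := δ.sw) hn h

theorem core_of (an : AnStmt) (ana : ∀ _ : Qd, AnaStmt) (lin : LinStmt) (lk : ∀ _ : Qd, LinK) :
    CoreStmt := fun ε hε => by
  obtain ⟨c, h1⟩ := Bx.box_main (ana δ) lin (lk δ) (ε := ε / 4) (by positivity)
  obtain ⟨c', h1'⟩ := Bx.box_main (δ := δ.sw) (ana _) lin (lk _) (ε := ε / 4) (by positivity)
  obtain ⟨X0, h2⟩ := an (c + c') (ε / 2) (by positivity)
  refine ⟨X0, fun X hX => ?_⟩
  obtain ⟨N, B, a1, a2, a3⟩ := h2 X hX
  let t : ∀ i, Finset (B i).Pt := fun i => (B i).pts.filter fun x =>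
    (B i).B1p x ∧ ¬ Gro ((B i).nn x) 3
  have k0 : ∀ i, ((t i).card : ℝ) ≤ ε / 4 * (B i).pts.card := fun i => by
    obtain ⟨b1, b2 | b2⟩ := a1 i
    · exact h1 (B i) ⟨b1.mono (Nat.le_add_right _ _), b2⟩
    · refine le_trans (Nat.cast_le.2 (card_le_card fun x hx => ?_))
        (h1' (B i).sw ((b1.mono (Nat.le_add_left _ _)).sw b2))
      obtain ⟨hx, x1, x2⟩ := mem_filter.1 hx
      exact mem_filter.2 ⟨hx, x1.sw, fun k => x2 (gro_sw (b1.wf.nn_ne hx) k)⟩
  have k1 : {n : ℕ | 1 ≤ n ∧ n ≤ X ∧ ¬ Gro n 3} ⊆ ↑(((Icc 1 X).filter fun n => ¬ ∃ i,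
      ∃ x ∈ (B i).pts, (B i).nn x = n ∧ (B i).B1p x) ∪
        univ.biUnion fun i => (t i).image (B i).nn) := fun n hn => by
    by_cases k : ∃ i, ∃ x ∈ (B i).pts, (B i).nn x = n ∧ (B i).B1p x
    · obtain ⟨i, x, hx, rfl, b2⟩ := k
      exact mem_union_right _ (mem_biUnion.2 ⟨i, mem_univ _,
        mem_image_of_mem _ (mem_filter.2 ⟨hx, b2, hn.2.2⟩)⟩)
    · exact mem_union_left _ (mem_filter.2 ⟨mem_Icc.2 ⟨hn.1, hn.2.1⟩, k⟩)
  have k2 := Set.ncard_le_ncard k1 (finite_toSet _)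
  rw [Set.ncard_coe_finset] at k2
  have k3 := Nat.cast_le (α := ℝ).2 (k2.trans ((card_union_le _ _).trans (Nat.add_le_add_left
    (card_biUnion_le.trans (sum_le_sum fun i _ => card_image_le)) _)))
  have k4 : ∑ i, ((t i).card : ℝ) ≤ ε / 4 * (2 * X) := by
    refine (sum_le_sum fun i _ => k0 i).trans ?_
    rw [← mul_sum]
    exact mul_le_mul_of_nonneg_left (by exact_mod_cast a2) (by positivity)
  push_cast at k3
  linarith

end Pool.Agent.Lib.MP_696deb_nt.CU.CV
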