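import Pool.Agent.Lib.MP_696deb_nt.CV.S0
import Pool.Agent.Lib.MP_696deb_nt.CV.E2

/-! Patterns and their Kummer cocycles. -/

set_option autoImplicit false
set_option linter.unusedSectionVars false

open scoped Classical
open Finset

namespace Pool.Agent.Lib.MP_696deb_nt.CU.CV

namespace Bx

variable [δ : Qd] {B : Bx} {e : ℕ} {x x' : B.Pt} {S y : Finset (Fin B.r)}

theorem mem_pts : x ∈ B.pts ↔ ∀ j, x j ∈ B.X j := Fintype.mem_piFinset

theorem kE_apply (x : B.Pt) (a : B.Pe e) (g : Gam) :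
    B.kE e x a g = a.1.1 g + ∑ j, a.2 j * kap e (x j) g := by
  show (a.1.1 + ∑ j, a.2 j • kap e (x j)) g = _
  simp only [Pi.add_apply, Finset.sum_apply, Pi.smul_apply, smul_eq_mul]

theorem mem_W (h : B.Wf) {u : Gam → F3} : u ∈ B.W e ↔ u ∈ KK B.N0 e := by
  rw [W, max_eq_left (Nat.one_le_iff_ne_zero.2 h.n0)]
  rfl

theorem kc_W (w : B.W e) : Kc e ⊤ w.1 := w.2.1

theorem mem_S0 (h : B.Wf) {q : ℕ} (hq : q.Prime) : q ∈ B.S0 ↔ q ∣ MM * B.N0 := z1_mem h.n0 hq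

theorem mem_S0_of (h : B.Wf) {q : ℕ} (hq : q.Prime) (k : q ∣ MM) : q ∈ B.S0 :=
  (mem_S0 h hq).2 (k.mul_right _)

theorem P_zero : B.P 0 = B.P0 := rfl

theorem P_one : B.P 1 = B.P1 := rfl

theorem P_add_two (e : ℕ) : B.P (e + 2) = B.P e := by rw [P, Nat.add_mod_right, P]

theorem mem_P (h : B.Wf) (hx : x ∈ B.pts) {j : Fin B.r} :
    j ∈ B.P e ↔ mu (e + 1) (fq (x j)) = 1 := by
  rw [P, ← mu_mod]
  split_ifs with k
  · rw [show (e + 1) % 2 = 1 by omega]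
    exact h.t0 j _ (mem_pts.1 hx j)
  · rw [show (e + 1) % 2 = 0 by omega]
    exact h.t1 j _ (mem_pts.1 hx j)

theorem mem_P' (h : B.Wf) (hx : x ∈ B.pts) {j : Fin B.r} :
    j ∈ B.P (e + 1) ↔ mu e (fq (x j)) = 1 := by
  rw [mem_P h hx, mu_add_two]

theorem Wf.pr (h : B.Wf) (hx : x ∈ B.pts) (j : Fin B.r) : (x j).Prime :=
  h.prime j _ (mem_pts.1 hx j)

theorem Wf.ndvd (h : B.Wf) (hx : x ∈ B.pts) (j : Fin B.r) : ¬ x j ∣ MM :=
  fun k => h.cop j _ (mem_pts.1 hx j) (k.mul_right _)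

theorem Wf.inj (h : B.Wf) (hx : x ∈ B.pts) : Function.Injective x := by
  exact fun i j e => h.disj i j (x i) (mem_pts.1 hx i) (e ▸ mem_pts.1 hx j)

theorem Wf.ne_three (h : B.Wf) (hx : x ∈ B.pts) (j : Fin B.r) : x j ≠ 3 := by
  exact CV.ne_three (h.ndvd hx j)

theorem Wf.notMem (h : B.Wf) (hx : x ∈ B.pts) (j : Fin B.r) : x j ∉ B.S0 := by
  exact fun k => h.cop j _ (mem_pts.1 hx j) (Nat.dvd_of_mem_primeFactors k)

theorem Wf.nn_ne (h : B.Wf) (hx : x ∈ B.pts) : B.nn x ≠ 0 := by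
  exact mul_ne_zero h.n0 (prod_ne_zero_iff.2 fun j _ => (h.prime j _ (mem_pts.1 hx j)).ne_zero)

theorem Wf.dvd_iff (h : B.Wf) (hx : x ∈ B.pts) {q : ℕ} (hq : q.Prime) :
    q ∣ MM * B.nn x ↔ q ∈ B.S0 ∨ ∃ j, x j = q := by
  rw [nn, ← mul_assoc, hq.dvd_mul, hq.prime.dvd_finsetProd_iff, S0, Nat.mem_primeFactors]
  refine or_congr ⟨fun k => ⟨hq, k, mul_ne_zero MM_ne h.n0⟩, fun k => k.2.1⟩
    (exists_congr fun j => ?_)
  rw [Nat.prime_dvd_prime_iff_eq hq (h.prime j _ (mem_pts.1 hx j)), eq_comm]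
  simp

theorem Wf.not_sq (h : B.Wf) (hx : x ∈ B.pts) (j : Fin B.r) :
    x j ∣ B.nn x ∧ ¬ x j ^ 2 ∣ B.nn x := by
  have hp := h.prime j _ (mem_pts.1 hx j)
  refine ⟨(dvd_prod_of_mem _ (mem_univ j)).mul_left _, fun k => ?_⟩
  rw [nn, ← mul_prod_erase _ _ (mem_univ j), mul_left_comm, pow_two,
    Nat.mul_dvd_mul_iff_left hp.pos, hp.dvd_mul, hp.prime.dvd_finsetProd_iff] at k
  rcases k with k | ⟨i, hi, k⟩
  · exact h.cop j _ (mem_pts.1 hx j) (k.mul_left _)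
  · exact ne_of_mem_erase hi (h.inj hx
      ((Nat.prime_dvd_prime_iff_eq hp (h.prime i _ (mem_pts.1 hx i))).1 k)).symm

theorem Wf.sum_pf (h : B.Wf) (hx : x ∈ B.pts) {M : Type} [AddCommMonoid M] (f : ℕ → M) :
    ∑ q ∈ (MM * B.nn x).primeFactors, f q = ∑ q ∈ B.S0, f q + ∑ j, f (x j) := by
  have e : (MM * B.nn x).primeFactors = B.S0 ∪ univ.image x := by
    ext q
    rw [mem_union, mem_image, Nat.mem_primeFactors]
    refine ⟨fun k => by simpa using (h.dvd_iff hx k.1).1 k.2.1, fun k => ?_⟩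
    have hq : q.Prime := k.elim Nat.prime_of_mem_primeFactors
      fun ⟨j, _, e⟩ => e ▸ h.prime j _ (mem_pts.1 hx j)
    exact ⟨hq, (h.dvd_iff hx hq).2 (by simpa using k), mul_ne_zero MM_ne (h.nn_ne hx)⟩
  rw [e, sum_union, sum_image fun i _ j _ k => h.inj hx k]
  refine disjoint_right.2 fun q hq => ?_
  obtain ⟨j, -, rfl⟩ := mem_image.1 hq
  exact h.notMem hx j

theorem pw_mem (hx : x ∈ B.pts) (hx' : x' ∈ B.pts) (y : Finset (Fin B.r)) :
    y.piecewise x' x ∈ B.pts := by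
  refine mem_pts.2 fun j => ?_
  by_cases k : j ∈ y
  · rw [piecewise_eq_of_mem _ _ _ k]
    exact mem_pts.1 hx' j
  · rw [piecewise_eq_of_notMem _ _ _ k]
    exact mem_pts.1 hx j

theorem update_mem (hx : x ∈ B.pts) {j : Fin B.r} {p : ℕ} (hp : p ∈ B.X j) :
    Function.update x j p ∈ B.pts := by
  refine mem_pts.2 fun i => ?_
  rcases eq_or_ne i j with rfl | k
  · rwa [Function.update_self]
  · rw [Function.update_of_ne k]
    exact mem_pts.1 hx i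

theorem pw_pw (y z : Finset (Fin B.r)) (x x' : B.Pt) :
    z.piecewise x' (y.piecewise x' x) = (y ∪ z).piecewise x' x := by
  funext i
  by_cases hy : i ∈ y <;> by_cases hz : i ∈ z <;> simp [piecewise, hy, hz]

theorem Cb.face (h : B.Cb S x x') {T : Finset (Fin B.r)} (hT : T ⊆ S) (hy : Disjoint y T) :
    B.Cb T (y.piecewise x' x) x' := by
  refine ⟨h.wf, pw_mem h.mem h.mem' y, h.mem', fun i hi => ?_⟩
  rw [piecewise_eq_of_notMem _ _ _ (disjoint_right.1 hy hi)]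
  exact h.ne i (hT hi)

theorem kc_kE (x : B.Pt) (a : B.Pe e) : Kc e ⊤ (B.kE e x a) :=
  ((kc_W a.1).add (Kc.sum univ fun j _ => (kc_kap e (x j) ⊤).smul (a.2 j))).congr
    fun g _ => (kE_apply x a g).symm

theorem kE_te (e : ℕ) (x : B.Pt) : B.kE e x (B.te e) = fun g => mu e g - 1 := by
  funext g
  rw [kE_apply]
  simp [te]

theorem kE_smul (x : B.Pt) (s : F3) (a : B.Pe e) (g : Gam) :
    B.kE e x (s • a) g = s * B.kE e x a g := by
  simp only [kE_apply, Prod.smul_fst, Prod.smul_snd, Submodule.coe_smul, Pi.smul_apply,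
    smul_eq_mul, mul_add, mul_sum, mul_assoc]

theorem mem_Sup {a : B.Pe e} : a ∈ B.Sup e ↔ ∀ j ∉ B.P e, a.2 j = 0 := Iff.rfl

theorem W_sq (h : B.Wf) (hx : x ∈ B.pts) (w : B.W e) (j : Fin B.r) : w.1 (sq (x j)) = 0 :=
  ((mem_W h).1 w.2).2 _ (h.pr hx j) (h.cop j _ (mem_pts.1 hx j))

theorem kE_sq (h : B.Wf) (hx : x ∈ B.pts) {a : B.Pe e} (ha : a ∈ B.Sup e) (j : Fin B.r) :
    B.kE e x a (sq (x j)) = a.2 j := by
  rw [kE_apply, W_sq h hx, zero_add, sum_eq_single j (fun i _ k => by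
    rw [kap_ne (h.pr hx j) (h.ndvd hx j) fun e => k (h.inj hx e).symm, mul_zero]) (by simp)]
  by_cases k : j ∈ B.P e
  · rw [kap_self (h.pr hx j) (h.ndvd hx j) ((mem_P h hx).1 k), mul_one]
  · rw [ha j k, zero_mul]

theorem kE_unr (h : B.Wf) (hx : x ∈ B.pts) (a : B.Pe e) {q : ℕ} (hq : q.Prime)
    (k : ¬ q ∣ MM * B.nn x) : B.kE e x a (sq q) = 0 := by
  have h3 : ¬ q ∣ MM := fun e => k (e.mul_right _)
  rw [h.dvd_iff hx hq, not_or, not_exists] at k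
  rw [kE_apply, ((mem_W h).1 a.1.2).2 q hq (mt (mem_S0 h hq).2 k.1), sum_eq_zero fun j _ => by
    rw [kap_ne hq h3 (Ne.symm (k.2 j)), mul_zero], add_zero]

theorem kE_mem (h : B.Wf) (hx : x ∈ B.pts) (a : B.Pe e) : B.kE e x a ∈ KK (B.nn x) e :=
  ⟨kc_kE x a, fun _ hq k => kE_unr h hx a hq k⟩

theorem sa_pw {M : Type} [AddCommGroup M] (f : Fin B.r → ℕ → M) (x x' : B.Pt)
    (w : Finset (Fin B.r)) :
    ∑ j, f j (w.piecewise x' x j) = ∑ j, f j (x j) + ∑ i ∈ w, (f i (x' i) - f i (x i)) := by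
  rw [← univ_inter w, ← sum_ite_mem, ← sum_add_distrib, univ_inter]
  refine sum_congr rfl fun i _ => ?_
  by_cases k : i ∈ w
  · rw [piecewise_eq_of_mem _ _ _ k, if_pos k, add_sub_cancel]
  · rw [piecewise_eq_of_notMem _ _ _ k, if_neg k, add_zero]

theorem kE_pw (x x' : B.Pt) (y : Finset (Fin B.r)) (a : B.Pe e) :
    B.kE e (y.piecewise x' x) a =
      B.kE e x a + ∑ i ∈ y, a.2 i • (kap e (x' i) - kap e (x i)) := by
  funext g
  simp only [kE_apply, Pi.add_apply, Finset.sum_apply, Pi.smul_apply, Pi.sub_apply, smul_eq_mul]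
  rw [sa_pw (fun j p => a.2 j * kap e p g), add_assoc]
  simp only [mul_sub]

theorem kk_nn (h : B.Wf) (hx : x ∈ B.pts) (g : Gam) :
    kk (B.nn x) g = kk B.N0 g + ∑ j, kk (x j) g := by
  rw [nn, kk_mul h.n0 (prod_ne_zero_iff.2 fun j _ => (h.pr hx j).ne_zero),
    kk_prod _ fun j _ => (h.pr hx j).ne_zero]

theorem kk_pw (h : B.Wf) (hx : x ∈ B.pts) (hx' : x' ∈ B.pts) (y : Finset (Fin B.r)) :
    kk (B.nn (y.piecewise x' x)) = kk (B.nn x) + ∑ i ∈ y, (kk (x' i) - kk (x i)) := by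
  funext g
  rw [Pi.add_apply, kk_nn h (pw_mem hx hx' y), kk_nn h hx, sa_pw (fun _ p => kk p g), add_assoc,
    Finset.sum_apply]
  rfl

theorem mem_Ve {a : B.Pe e} :
    a ∈ B.Ve e x ↔ a ∈ B.Sup e ∧ kC (B.kE e x a) ∈ Zs (B.nn x) e 1 := Iff.rfl

theorem cast_smul (k : ℤ) (a : B.Pe e) : (k : F3) • a = k • a := Int.cast_smul_eq_zsmul F3 k a

theorem mem_Le {a : B.Pe e} : a ∈ B.Le e ↔ ∃ s : F3, a = s • B.te e := by
  rw [Le, AddSubgroup.mem_zmultiples_iff]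
  refine ⟨fun ⟨k, e⟩ => ⟨k, by rw [cast_smul, e]⟩, fun ⟨s, e⟩ => ?_⟩
  obtain ⟨k, rfl⟩ := ZMod.intCast_surjective s
  exact ⟨k, by rw [e, cast_smul]⟩

theorem smul_mem_Ve {a : B.Pe e} (h : a ∈ B.Ve e x) (s : F3) : s • a ∈ B.Ve e x := by
  obtain ⟨k, rfl⟩ := ZMod.intCast_surjective s
  rw [cast_smul]
  exact zsmul_mem h k

theorem smul_mem_Sup {a : B.Pe e} (h : a ∈ B.Sup e) (s : F3) : s • a ∈ B.Sup e := fun j hj => by
  rw [Prod.smul_snd, Pi.smul_apply, h j hj, smul_zero]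

variable {a b : B.Pat}

theorem mem_V : a ∈ B.V x ↔ a ∈ B.Sup 1 ∧ kC (B.kA x a) ∈ Zs (B.nn x) 1 1 := Iff.rfl

theorem mem_VF : a ∈ B.VF x ↔ a ∈ B.V x := by simp [VF]

theorem mem_L1 : a ∈ B.L1 ↔ ∃ s : F3, a = s • B.tau := mem_Le

theorem mem_L2 : b ∈ B.L2 a ↔ ∃ s t : F3, b = s • a + t • B.tau := by
  rw [L2, AddSubgroup.mem_closure_pair]
  refine ⟨fun ⟨k, l, e⟩ => ⟨k, l, by rw [cast_smul, cast_smul, e]⟩,
    fun ⟨s, t, e⟩ => ?_⟩
  obtain ⟨k, rfl⟩ := ZMod.intCast_surjective s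
  obtain ⟨l, rfl⟩ := ZMod.intCast_surjective t
  exact ⟨k, l, by rw [e, cast_smul, cast_smul]⟩

theorem card_L1 : (univ.filter (· ∈ B.L1)).card ≤ 3 := by
  refine (card_le_card (t := univ.image fun s : F3 => s • B.tau) fun a ha => ?_).trans
    (card_image_le.trans (by simp))
  obtain ⟨s, rfl⟩ := mem_L1.1 (mem_filter.1 ha).2
  exact mem_image_of_mem _ (mem_univ s)

theorem card_L2 (a : B.Pat) : (univ.filter (· ∈ B.L2 a)).card ≤ 9 := by
  refine (card_le_card (t := univ.image fun s : F3 × F3 => s.1 • a + s.2 • B.tau)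
    fun b hb => ?_).trans (card_image_le.trans (by simp))
  obtain ⟨s, t, rfl⟩ := mem_L2.1 (mem_filter.1 hb).2
  exact mem_image_of_mem (fun s : F3 × F3 => s.1 • a + s.2 • B.tau) (mem_univ (s, t))

theorem smul_mem_V (h : a ∈ B.V x) (s : F3) : s • a ∈ B.V x := smul_mem_Ve h s

theorem card_W_eq (h : B.Wf) (e : ℕ) :
    Fintype.card (B.W e) = (KK B.N0 e : Set (Gam → F3)).ncard := by
  rw [← Nat.card_eq_fintype_card, ← Nat.card_coe_set_eq]
  exact Nat.card_congr (Equiv.subtypeEquivRight fun _ => mem_W h)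

theorem card_W (h : B.Wf) (e : ℕ) : Fintype.card (B.W e) ≤ K3 * 3 ^ B.k0 :=
  (card_W_eq h e).trans_le (card_KK h.n0 e)

theorem card_Pe (B : Bx) (e : ℕ) : Fintype.card (B.Pe e) = Fintype.card (B.W e) * 3 ^ B.r := by
  simp

theorem card_Pe_le : ∃ K : ℕ, ∀ (B : Bx) (e : ℕ),
    Fintype.card (B.Pe e) ≤ K ^ (B.r + B.k0 + 1) := by
  refine ⟨K3 * 3 ^ (MM * 1).primeFactors.card + 3, fun B e => ?_⟩
  have h1 : Fintype.card (B.W e) ≤ K3 * 3 ^ (MM * max B.N0 1).primeFactors.card := by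
    rw [← Nat.card_eq_fintype_card]
    exact card_KK (by omega) e
  have h2 : Fintype.card (B.W e) ≤ K3 * 3 ^ (MM * 1).primeFactors.card * 3 ^ B.k0 := by
    rcases Nat.eq_zero_or_pos B.N0 with k | k
    · rw [k, max_eq_right zero_le_one] at h1
      exact h1.trans (Nat.le_mul_of_pos_right _ (by positivity))
    · rw [max_eq_left k] at h1
      exact h1.trans (Nat.mul_le_mul_right _ (Nat.le_mul_of_pos_right _ (by positivity)))
  rw [card_Pe, pow_succ', pow_add, mul_comm (_ ^ B.r), ← mul_assoc]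
  exact Nat.mul_le_mul (h2.trans (Nat.mul_le_mul (Nat.le_add_right _ _)
    (Nat.pow_le_pow_left (Nat.le_add_left _ _) _))) (Nat.pow_le_pow_left (Nat.le_add_left _ _) _)

theorem card_Sup (B : Bx) (e : ℕ) :
    Nat.card (B.Sup e) = Fintype.card (B.W e) * 3 ^ (B.P e).card := by
  have b : Function.Bijective fun a : B.Sup e => (a.1.1, fun j : B.P e => a.1.2 j) := by
    refine ⟨fun a b k => Subtype.ext (Prod.ext (Prod.mk.inj k).1 (funext fun j => ?_)),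
      fun p => ⟨⟨(p.1, fun j => if k : j ∈ B.P e then p.2 ⟨j, k⟩ else 0), fun _ k => dif_neg k⟩,
        Prod.ext rfl (funext fun j => dif_pos j.2)⟩⟩
    by_cases hj : j ∈ B.P e
    exacts [congrFun (Prod.mk.inj k).2 ⟨j, hj⟩, (a.2 j hj).trans (b.2 j hj).symm]
  rw [Nat.card_eq_of_bijective _ b]
  simp

/-- Powers of a constant are bounded by powers of `Z`. -/
theorem pow_le_Z (K : ℕ) : ∃ E : ℕ, ∀ B : Bx, 0 < B.θ → B.θ ≤ 1 →
    (K : ℝ) ^ ((B.r + B.k0 + 1) ^ 2) ≤ B.Z ^ E := by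
  refine ⟨K, fun B h k => ?_⟩
  have h1 : (K : ℝ) ≤ 2 ^ K := by exact_mod_cast Nat.lt_two_pow_self.le
  calc (K : ℝ) ^ ((B.r + B.k0 + 1) ^ 2) ≤ (2 ^ K) ^ ((B.r + B.k0 + 1) ^ 2) :=
        pow_le_pow_left₀ (Nat.cast_nonneg K) h1 _
    _ = (2 ^ ((B.r + B.k0 + 1) ^ 2)) ^ K := pow_right_comm _ _ _
    _ ≤ _ := pow_le_pow_left₀ (by positivity) (le_div_self (by positivity) h k) _

theorem Hyp.SA_one {c : ℕ} (h : B.Hyp c) : 1 ≤ B.θ * B.Z := by
  have := h.inv_le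
  rwa [div_le_iff₀' h.pos] at this

theorem Hyp.rng' {c : ℕ} (h : B.Hyp c) (j : Fin B.r) : Rng B.Z c 1 (B.t j) (B.X j) := by
  have h1 : (1 : ℝ) ≤ B.Z := one_le_two.trans h.two_le
  have h2 : B.Z ^ c ≤ B.t j := h.hc.trans (Nat.cast_le.2 (h.hY j))
  refine ⟨fun p hp => ⟨h.wf.prime j p hp, h.rng j p hp⟩, le_trans ?_ (h.big j),
    (h.lg j).trans h.inv_le, h2, ?_⟩
  · rw [div_le_iff₀ (one_pos.trans_le h1), mul_right_comm]
    exact le_mul_of_one_le_left (Nat.cast_nonneg _) h.SA_one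
  · rw [one_pow]
    exact_mod_cast (one_le_pow₀ h1).trans h2

theorem Hyp.card_ge {c : ℕ} (h : B.Hyp (c + 1)) (j : Fin B.r) : B.Z ^ c ≤ (B.X j).card := by
  have h1 : (0 : ℝ) ≤ B.Z := zero_le_two.trans h.two_le
  calc B.Z ^ c ≤ B.θ * B.Z * B.Z ^ c := le_mul_of_one_le_left (pow_nonneg h1 c) h.SA_one
    _ = B.θ * B.Z ^ (c + 1) := by ring
    _ ≤ B.θ * B.t j :=
        mul_le_mul_of_nonneg_left (h.hc.trans (Nat.cast_le.2 (h.hY j))) h.pos.le
    _ ≤ _ := h.big j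

end Bx

end Pool.Agent.Lib.MP_696deb_nt.CU.CV
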